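import Pool.Agent.R179.Gen

/-!
# The even vertices of the order-5 cubic honeycomb: arithmetic
-/

namespace Pool.R179.Ev
open Pool.R179.H435 (W B ph ph_gt ph_lt ph_mul ph_inv up pr rho rho_nonneg rho_sq up_0 up_1 up_2 up_3
  pr_0 pr_1 pr_2 pr_up up_pr pr_comb B_comm B_add_left B_smul_left mkLin w01 w12 rr w01_apply w12_apply
  rr_apply s0 s0_apply s0_mem G light cs3 w02 w02_apply s1 s2 s1_apply s2_apply gens gens_cases)
open Pool.R179.LFC

/-- the reflection `(x,y) ↦ (-y,-x)` -/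
noncomputable def w01m : W ≃ₗ[ℝ] W := mkLin (fun X => ![-X 1, -X 0, X 2, X 3])
  (by intro X Y; ext i; fin_cases i <;> simp <;> ring)
  (by intro a X; ext i; fin_cases i <;> simp)
  (by intro X; ext i; fin_cases i <;> simp)
theorem w01m_apply (X : W) : w01m X = ![-X 1, -X 0, X 2, X 3] := rfl

/-- the four simple reflections of the even subgroup -/
noncomputable def R : Fin 4 → (W ≃ₗ[ℝ] W) := ![w01, w01m, w12, rr]

/-- the group generated by a set of simple reflections -/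
def GJ (J : Set (Fin 4)) : Subgroup (W ≃ₗ[ℝ] W) := Subgroup.closure (R '' J)

/-- the even subgroup -/
def G0 : Subgroup (W ≃ₗ[ℝ] W) := GJ Set.univ

theorem R_mem (j : Fin 4) : R j ∈ G0 := Subgroup.subset_closure ⟨j, trivial, rfl⟩
theorem R_memJ {J : Set (Fin 4)} {j : Fin 4} (hj : j ∈ J) : R j ∈ GJ J :=
  Subgroup.subset_closure ⟨j, hj, rfl⟩
theorem GJ_mono {J J' : Set (Fin 4)} (h : J ⊆ J') : GJ J ≤ GJ J' :=
  Subgroup.closure_mono (Set.image_mono h)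
theorem GJ_le (J : Set (Fin 4)) : GJ J ≤ G0 := GJ_mono (Set.subset_univ _)

theorem R_invol (j : Fin 4) (X : W) : R j (R j X) = X := by
  fin_cases j
  · exact w01.left_inv X
  · exact w01m.left_inv X
  · exact w12.left_inv X
  · exact rr.left_inv X

theorem R_B (j : Fin 4) (X Y : W) : B (R j X) (R j Y) = B X Y := by
  fin_cases j
  · show B (w01 X) (w01 Y) = _
    simp [w01_apply, B]; ring
  · show B (w01m X) (w01m Y) = _
    simp [w01m_apply, B]; ring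
  · show B (w12 X) (w12 Y) = _
    simp [w12_apply, B]; ring
  · exact Pool.R179.H435.G_B Pool.R179.H435.rr_mem X Y

theorem mul_inv_apply (g : W ≃ₗ[ℝ] W) (Z : W) : g (g⁻¹ Z) = Z := g.apply_symm_apply Z
theorem inv_mul_apply (g : W ≃ₗ[ℝ] W) (Z : W) : g⁻¹ (g Z) = Z := g.symm_apply_apply Z

theorem G0_B {g : W ≃ₗ[ℝ] W} (hg : g ∈ G0) (X Y : W) : B (g X) (g Y) = B X Y := by
  induction hg using Subgroup.closure_induction generalizing X Y with
  | mem g hg =>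
    obtain ⟨j, _, rfl⟩ := hg
    exact R_B j X Y
  | one => rfl
  | mul g h _ _ ihg ihh =>
    show B (g (h X)) (g (h Y)) = _
    rw [ihg, ihh]
  | inv g _ ih =>
    have := ih (g⁻¹ X) (g⁻¹ Y)
    rw [mul_inv_apply, mul_inv_apply] at this
    exact this.symm

/-- conjugate quadratic form of an integral vector -/
noncomputable def Qc (a b : Fin 4 → ℤ) : ℝ := (a 0 + b 0 * (1 - ph)) ^ 2 + (a 1 + b 1 * (1 - ph)) ^ 2
  + (a 2 + b 2 * (1 - ph)) ^ 2 + ph * (a 3 + b 3 * (1 - ph)) ^ 2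

/-- integral vectors with prescribed norm and conjugate norm -/
def Lat (c q : ℝ) (X : W) : Prop := ∃ a b : Fin 4 → ℤ, (∀ i, X i = a i + b i * ph) ∧ Qc a b = q ∧
  B X X = c ∧ 0 < X 3

theorem pos_of_R {X : W} (hc : B X X ≤ 0) (h0 : 0 < X 3) (j : Fin 4) : 0 < (R j X) 3 := by
  have p1 := ph_gt
  have p2 := ph_lt
  fin_cases j
  · exact h0
  · exact h0
  · exact h0
  · show 0 < ph * X 3 - ph * X 2
    simp only [B] at hc
    have : X 2 < X 3 := by nlinarith [sq_nonneg (X 0), sq_nonneg (X 1), sq_nonneg (X 2 + X 3)]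
    nlinarith

theorem Lat_R {c q : ℝ} (hc : c ≤ 0) {X : W} (h : Lat c q X) (j : Fin 4) : Lat c q (R j X) := by
  obtain ⟨a, b, h1, h2, h3, h4⟩ := h
  have hpos := pos_of_R (by rw [h3]; exact hc) h4 j
  have hB : B (R j X) (R j X) = c := by rw [R_B, h3]
  have hm := ph_mul
  fin_cases j
  · refine ⟨![a 1, a 0, a 2, a 3], ![b 1, b 0, b 2, b 3], ?_, ?_, hB, hpos⟩
    · intro i; fin_cases i <;> simp [R, w01_apply, h1]
    · rw [← h2]; simp [Qc]; ring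
  · refine ⟨![-a 1, -a 0, a 2, a 3], ![-b 1, -b 0, b 2, b 3], ?_, ?_, hB, hpos⟩
    · intro i; fin_cases i <;> simp [R, w01m_apply, h1] <;> ring
    · rw [← h2]; simp [Qc]; ring
  · refine ⟨![a 0, a 2, a 1, a 3], ![b 0, b 2, b 1, b 3], ?_, ?_, hB, hpos⟩
    · intro i; fin_cases i <;> simp [R, w12_apply, h1]
    · rw [← h2]; simp [Qc]; ring
  · refine ⟨![a 0, a 1, a 3 - b 2, b 3 - b 2],
      ![b 0, b 1, b 3 - (a 2 + b 2), (a 3 - a 2) + (b 3 - b 2)], ?_, ?_, hB, hpos⟩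
    · intro i; fin_cases i <;> simp [R, rr_apply, h1]
      · linear_combination (- (b 2 : ℝ)) * hm
      · linear_combination ((b 3 : ℝ) - b 2) * hm
    · rw [← h2]; simp only [Qc]
      simp
      have e2 : ((a 3 : ℝ) - b 2 + (b 3 - (a 2 + b 2)) * (1 - ph)) =
          (a 3 + b 3 * (1 - ph)) - (1 - ph) * (a 2 + b 2 * (1 - ph)) := by
        linear_combination (-(b 2 : ℝ)) * hm * (-1)
      have e3 : ((b 3 : ℝ) - b 2 + (a 3 - a 2 + (b 3 - b 2)) * (1 - ph)) =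
          (1 - ph) * ((a 3 + b 3 * (1 - ph)) - (a 2 + b 2 * (1 - ph))) := by
        linear_combination ((b 2 : ℝ) - b 3) * hm
      rw [e2, e3]
      generalize (a 3 : ℝ) + b 3 * (1 - ph) = A3
      generalize (a 2 : ℝ) + b 2 * (1 - ph) = A2
      linear_combination (A2 ^ 2 * 1 + (A3 - A2) ^ 2 * (ph - 1)) * hm

theorem Lat_G0 {c q : ℝ} (hc : c ≤ 0) {g : W ≃ₗ[ℝ] W} (hg : g ∈ G0) :
    ∀ X : W, Lat c q X ↔ Lat c q (g X) := by
  induction hg using Subgroup.closure_induction with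
  | mem g hg =>
    obtain ⟨j, _, rfl⟩ := hg
    intro X
    refine ⟨fun h => Lat_R hc h j, fun h => ?_⟩
    have := Lat_R hc h j
    rwa [R_invol] at this
  | one => intro X; exact Iff.rfl
  | mul g h _ _ ihg ihh =>
    intro X
    rw [ihh X, ihg (h X)]
    exact Iff.rfl
  | inv g _ ih =>
    intro X
    rw [ih (g⁻¹ X), mul_inv_apply]

theorem int_bd' {a b R C : ℝ} (h1 : |a + b * ph| ≤ R) (h2 : |a + b * (1 - ph)| ≤ C) :
    |a| ≤ 2 * R + 2 * C ∧ |b| ≤ 2 * R + 2 * C := by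
  have p1 := ph_gt
  have p2 := ph_lt
  have hR : 0 ≤ R := (abs_nonneg _).trans h1
  have hC : 0 ≤ C := (abs_nonneg _).trans h2
  rw [abs_le] at h1 h2
  have hb : |b| ≤ (R + C) / 2 := by
    rw [abs_le]; constructor <;> nlinarith
  have hb' := hb
  rw [abs_le] at hb
  refine ⟨?_, hb'.trans (by linarith)⟩
  rw [abs_le]; constructor <;> nlinarith

theorem Lat_finite (c q : ℝ) (hc : c ≤ 0) (Rb : ℝ) : {X : W | Lat c q X ∧ X 3 ≤ Rb}.Finite := by
  obtain ⟨N, hN⟩ := exists_nat_gt (2 * Rb + 2 * (|q| + 1))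
  let box : Set (Fin 4 → ℤ × ℤ) := Set.Icc (fun _ => (-N, -N)) (fun _ => (N, N))
  have hbox : box.Finite := Set.finite_Icc _ _
  apply (hbox.image (fun ab : Fin 4 → ℤ × ℤ => fun i : Fin 4 => ((ab i).1 : ℝ) + (ab i).2 * ph)).subset
  rintro X ⟨⟨a, b, h1, h2, h3, h0⟩, hR⟩
  have p1 := ph_gt
  have p2 := ph_lt
  have hRb : 0 < Rb := lt_of_lt_of_le h0 hR
  have hX : ∀ i, |X i| ≤ Rb := by
    have hs : X 0 ^ 2 + X 1 ^ 2 + X 2 ^ 2 ≤ (ph - 1) * X 3 ^ 2 := by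
      have : B X X ≤ 0 := by rw [h3]; exact hc
      simp only [B] at this; nlinarith
    have hR2 : X 3 ^ 2 ≤ Rb ^ 2 := by nlinarith
    have hs2 : X 0 ^ 2 + X 1 ^ 2 + X 2 ^ 2 ≤ Rb ^ 2 := by nlinarith [sq_nonneg (X 3)]
    have q0 := sq_nonneg (X 0)
    have q1 := sq_nonneg (X 1)
    have q2 := sq_nonneg (X 2)
    intro i
    apply abs_le_of_sq_le_sq _ hRb.le
    fin_cases i
    · show X 0 ^ 2 ≤ Rb ^ 2; linarith
    · show X 1 ^ 2 ≤ Rb ^ 2; linarith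
    · show X 2 ^ 2 ≤ Rb ^ 2; linarith
    · exact hR2
  have hcj : ∀ i, |(a i : ℝ) + b i * (1 - ph)| ≤ |q| + 1 := by
    have hq : q ≤ |q| := le_abs_self q
    have hq0 := abs_nonneg q
    have hsq : |q| ≤ (|q| + 1) ^ 2 := by nlinarith
    have q0 := sq_nonneg ((a 0 : ℝ) + b 0 * (1 - ph))
    have q1 := sq_nonneg ((a 1 : ℝ) + b 1 * (1 - ph))
    have q2 := sq_nonneg ((a 2 : ℝ) + b 2 * (1 - ph))
    have q3 := sq_nonneg ((a 3 : ℝ) + b 3 * (1 - ph))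
    have q4 : ((a 3 : ℝ) + b 3 * (1 - ph)) ^ 2 ≤ ph * ((a 3 : ℝ) + b 3 * (1 - ph)) ^ 2 := by nlinarith
    simp only [Qc] at h2
    intro i
    apply abs_le_of_sq_le_sq _ (by linarith)
    fin_cases i
    · show ((a 0 : ℝ) + b 0 * (1 - ph)) ^ 2 ≤ _; linarith
    · show ((a 1 : ℝ) + b 1 * (1 - ph)) ^ 2 ≤ _; linarith
    · show ((a 2 : ℝ) + b 2 * (1 - ph)) ^ 2 ≤ _; linarith
    · show ((a 3 : ℝ) + b 3 * (1 - ph)) ^ 2 ≤ _; linarith
  have key2 : ∀ i, |(a i : ℝ)| ≤ N ∧ |(b i : ℝ)| ≤ N := by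
    intro i
    have k1 := hX i
    rw [h1 i] at k1
    have := int_bd' k1 (hcj i)
    exact ⟨this.1.trans hN.le, this.2.trans hN.le⟩
  refine ⟨fun i => (a i, b i), ⟨fun i => ?_, fun i => ?_⟩, ?_⟩
  · have := key2 i
    rw [abs_le, abs_le] at this
    exact ⟨by exact_mod_cast this.1.1, by exact_mod_cast this.2.1⟩
  · have := key2 i
    rw [abs_le, abs_le] at this
    exact ⟨by exact_mod_cast this.1.2, by exact_mod_cast this.2.2⟩
  · funext i
    exact (h1 i).symm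

/-! ### The orbit of even vertices -/

/-- base vertex -/
noncomputable def v0 : W := ![1, 1, 1, ph + 1]

/-- the even vertices -/
def Ve : Set W := {v | ∃ g ∈ G0, v = g v0}

theorem v0_mem : v0 ∈ Ve := ⟨1, one_mem _, rfl⟩
theorem Ve_G {g : W ≃ₗ[ℝ] W} (hg : g ∈ G0) {v : W} (hv : v ∈ Ve) : g v ∈ Ve := by
  obtain ⟨h, hh, rfl⟩ := hv
  exact ⟨g * h, mul_mem hg hh, rfl⟩

/-- arithmetic invariants of even vertices -/
def EInv (X : W) : Prop := ∃ a b : Fin 4 → ℤ, (∀ i, X i = a i + b i * ph) ∧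
  Qc a b = 2 * ph ∧ B X X = 2 - 2 * ph ∧ 0 < X 3 ∧
  a 0 % 2 = 1 ∧ a 1 % 2 = 1 ∧ a 2 % 2 = 1 ∧ a 3 % 2 = 1 ∧
  b 0 % 2 = 0 ∧ b 1 % 2 = 0 ∧ b 2 % 2 = 0 ∧ b 3 % 2 = 1 ∧
  (b 3 - (a 0 + a 1 + a 2)) % 4 = 2 ∧ (a 3 + b 3 - (b 0 + b 1 + b 2)) % 4 = 2

theorem EInv_v0 : EInv v0 := by
  refine ⟨![1, 1, 1, 1], ![0, 0, 0, 1], ?_, ?_, ?_, ?_, ?_⟩
  · intro i; fin_cases i <;> simp [v0]; ring
  · simp [Qc]; linear_combination (ph - 3) * ph_mul
  · simp [B, v0]; linear_combination (-ph - 2) * ph_mul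
  · show 0 < ph + 1; linarith [ph_gt]
  · simp

theorem EInv_R {X : W} (h : EInv X) (j : Fin 4) : EInv (R j X) := by
  obtain ⟨a, b, h1, h2, h3, h4, k0, k1, k2, k3, l0, l1, l2, l3, m1, m2⟩ := h
  have hpos := pos_of_R (by rw [h3]; linarith [ph_gt]) h4 j
  have hB : B (R j X) (R j X) = 2 - 2 * ph := by rw [R_B, h3]
  have hm := ph_mul
  fin_cases j
  · refine ⟨![a 1, a 0, a 2, a 3], ![b 1, b 0, b 2, b 3], ?_, ?_, hB, hpos, ?_⟩
    · intro i; fin_cases i <;> simp [R, w01_apply, h1]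
    · rw [← h2]; simp [Qc]; ring
    · simp; omega
  · refine ⟨![-a 1, -a 0, a 2, a 3], ![-b 1, -b 0, b 2, b 3], ?_, ?_, hB, hpos, ?_⟩
    · intro i; fin_cases i <;> simp [R, w01m_apply, h1] <;> ring
    · rw [← h2]; simp [Qc]; ring
    · simp; omega
  · refine ⟨![a 0, a 2, a 1, a 3], ![b 0, b 2, b 1, b 3], ?_, ?_, hB, hpos, ?_⟩
    · intro i; fin_cases i <;> simp [R, w12_apply, h1]
    · rw [← h2]; simp [Qc]; ring
    · simp; omega
  · refine ⟨![a 0, a 1, a 3 - b 2, b 3 - b 2],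
      ![b 0, b 1, b 3 - (a 2 + b 2), (a 3 - a 2) + (b 3 - b 2)], ?_, ?_, hB, hpos, ?_⟩
    · intro i; fin_cases i <;> simp [R, rr_apply, h1]
      · linear_combination (- (b 2 : ℝ)) * hm
      · linear_combination ((b 3 : ℝ) - b 2) * hm
    · rw [← h2]; simp only [Qc]
      simp
      have e2 : ((a 3 : ℝ) - b 2 + (b 3 - (a 2 + b 2)) * (1 - ph)) =
          (a 3 + b 3 * (1 - ph)) - (1 - ph) * (a 2 + b 2 * (1 - ph)) := by
        linear_combination (-(b 2 : ℝ)) * hm * (-1)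
      have e3 : ((b 3 : ℝ) - b 2 + (a 3 - a 2 + (b 3 - b 2)) * (1 - ph)) =
          (1 - ph) * ((a 3 + b 3 * (1 - ph)) - (a 2 + b 2 * (1 - ph))) := by
        linear_combination ((b 2 : ℝ) - b 3) * hm
      rw [e2, e3]
      generalize (a 3 : ℝ) + b 3 * (1 - ph) = A3
      generalize (a 2 : ℝ) + b 2 * (1 - ph) = A2
      linear_combination (A2 ^ 2 * 1 + (A3 - A2) ^ 2 * (ph - 1)) * hm
    · simp; omega

theorem EInv_G0 {g : W ≃ₗ[ℝ] W} (hg : g ∈ G0) : ∀ X : W, EInv X ↔ EInv (g X) := by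
  induction hg using Subgroup.closure_induction with
  | mem g hg =>
    obtain ⟨j, _, rfl⟩ := hg
    intro X
    refine ⟨fun h => EInv_R h j, fun h => ?_⟩
    have := EInv_R h j
    rwa [R_invol] at this
  | one => intro X; exact Iff.rfl
  | mul g h _ _ ihg ihh =>
    intro X
    rw [ihh X, ihg (h X)]
    exact Iff.rfl
  | inv g _ ih =>
    intro X
    rw [ih (g⁻¹ X), mul_inv_apply]

theorem Ve_EInv {v : W} (hv : v ∈ Ve) : EInv v := by
  obtain ⟨g, hg, rfl⟩ := hv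
  exact (EInv_G0 hg v0).1 EInv_v0

theorem Ve_norm {v : W} (hv : v ∈ Ve) : B v v = 2 - 2 * ph := by
  obtain ⟨a, b, _, _, h, _⟩ := Ve_EInv hv; exact h
theorem Ve_pos {v : W} (hv : v ∈ Ve) : 0 < v 3 := by
  obtain ⟨a, b, _, _, _, h, _⟩ := Ve_EInv hv; exact h
theorem Ve_Lat {v : W} (hv : v ∈ Ve) : Lat (2 - 2 * ph) (2 * ph) v := by
  obtain ⟨a, b, h1, h2, h3, h4, _⟩ := Ve_EInv hv
  exact ⟨a, b, h1, h2, h3, h4⟩

theorem Ve_tl {v : W} (hv : v ∈ Ve) : ph * (v 0 ^ 2 + v 1 ^ 2 + v 2 ^ 2) = v 3 ^ 2 - 2 := by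
  have h := Ve_norm hv
  simp only [B] at h
  have hm := ph_mul
  linear_combination ph * h + (v 3 ^ 2 - 2) * hm

/-- the key integer lemma -/
theorem key4 {m n : ℤ} (hn : n % 4 = 2) (hpos : 0 < (m : ℝ) + n * ph)
    (hc : ((m : ℝ) + n * (1 - ph)) ^ 2 ≤ 4 * (ph + 1)) :
    (n = 2 ∧ -2 ≤ m) ∨ 2 * ph + 4 ≤ (m : ℝ) + n * ph := by
  have h1 := ph_gt
  have h2 := ph_lt
  have hlt : |(m : ℝ) + n * (1 - ph)| < 3.2363 := by
    apply abs_lt_of_sq_lt_sq _ (by norm_num)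
    nlinarith
  rw [abs_lt] at hlt
  obtain ⟨hl, hr⟩ := hlt
  by_cases hn6 : 6 ≤ n
  · right
    have : (6 : ℝ) ≤ n := by exact_mod_cast hn6
    nlinarith
  · by_cases hn2 : n = 2
    · left
      refine ⟨hn2, ?_⟩
      subst hn2
      push_cast at hl
      have : (-3 : ℝ) < m := by linarith
      have : (-3 : ℤ) < m := by exact_mod_cast this
      omega
    · exfalso
      have hn4 : n ≤ -2 := by omega
      have : (n : ℝ) ≤ -2 := by exact_mod_cast hn4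
      nlinarith

theorem conj_bound2 {A v S : ℝ} (kc : S + ph * A ^ 2 = 2 * ph) (cs : v ^ 2 ≤ 3 * S) :
    ((1 - ph) * A - v) ^ 2 ≤ 4 * (ph + 1) := by
  have h := ph_mul
  have h1 := ph_gt
  have id1 : 4 * (ph + 1) - ((1 - ph) * A - v) ^ 2
      = 2 * ph * (S - v ^ 2 / 3) + 3 * ph * (A - (2 - ph) * v / 3) ^ 2 := by
    linear_combination (-(2 * ph)) * kc + (-4 + A ^ 2 * (1) + (-2 * A * v) + (3 - ph) * v ^ 2 / 3) * h
  have a1 : 0 ≤ 2 * ph * (S - v ^ 2 / 3) := mul_nonneg (by linarith) (by linarith)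
  have a2 : 0 ≤ 3 * ph * (A - (2 - ph) * v / 3) ^ 2 := by positivity
  linarith

/-- minus the pairing with the vertex of the central cube with signs `e` -/
noncomputable def Nf (e0 e1 e2 : ℤ) (v : W) : ℝ := ph * v 3 - (e0 * v 0 + e1 * v 1 + e2 * v 2)

theorem key_Nf {v : W} (hv : v ∈ Ve) (e0 e1 e2 : ℤ) (h0 : e0 = 1 ∨ e0 = -1) (h1 : e1 = 1 ∨ e1 = -1)
    (h2 : e2 = 1 ∨ e2 = -1) :
    (e0 * e1 * e2 = 1 → Nf e0 e1 e2 v = 2 * ph - 2 ∨ 2 * ph + 2 ≤ Nf e0 e1 e2 v) ∧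
    (e0 * e1 * e2 = -1 → 2 * ph ≤ Nf e0 e1 e2 v) := by
  have hn := Ve_tl hv
  obtain ⟨a, b, k1, k2, k3, k4, r0, r1, r2, r3, l0, l1, l2, l3, m1, m2⟩ := Ve_EInv hv
  have g1 := ph_gt
  have g2 := ph_lt
  have h := ph_mul
  have e0' : (e0 : ℝ) ^ 2 = 1 := by rcases h0 with rfl | rfl <;> norm_num
  have e1' : (e1 : ℝ) ^ 2 = 1 := by rcases h1 with rfl | rfl <;> norm_num
  have e2' : (e2 : ℝ) ^ 2 = 1 := by rcases h2 with rfl | rfl <;> norm_num
  set m : ℤ := b 3 - (e0 * a 0 + e1 * a 1 + e2 * a 2) with hm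
  set n : ℤ := a 3 + b 3 - (e0 * b 0 + e1 * b 1 + e2 * b 2) with hnn
  have e : (m : ℝ) + (n : ℝ) * ph = Nf e0 e1 e2 v := by
    rw [hm, hnn, Nf, k1 0, k1 1, k1 2, k1 3]; push_cast; linear_combination (- (b 3 : ℝ)) * h
  have hpos : 0 < (m : ℝ) + (n : ℝ) * ph := by
    rw [e, Nf]
    have hs : (e0 * v 0 + e1 * v 1 + e2 * v 2) ^ 2 < (ph * v 3) ^ 2 := by
      have cs := cs3 (x := v 0) (y := v 1) (z := v 2) e0' e1' e2'
      nlinarith [sq_nonneg (v 0), sq_nonneg (v 1), sq_nonneg (v 2)]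
    have := abs_lt_of_sq_lt_sq hs (by positivity)
    have := (abs_lt.1 this).2
    linarith
  have hcj : ((m : ℝ) + n * (1 - ph)) ^ 2 ≤ 4 * (ph + 1) := by
    have e4 : (m : ℝ) + (n : ℝ) * (1 - ph) = (1 - ph) * (a 3 + b 3 * (1 - ph)) -
        (e0 * (a 0 + b 0 * (1 - ph)) + e1 * (a 1 + b 1 * (1 - ph)) + e2 * (a 2 + b 2 * (1 - ph))) := by
      rw [hm, hnn]; push_cast; linear_combination (- (b 3 : ℝ)) * h
    rw [e4]
    exact conj_bound2 (S := (a 0 + b 0 * (1 - ph)) ^ 2 + (a 1 + b 1 * (1 - ph)) ^ 2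
      + (a 2 + b 2 * (1 - ph)) ^ 2) k2 (cs3 e0' e1' e2')
  have hn4 : n % 4 = 2 := by
    rcases h0 with rfl | rfl <;> rcases h1 with rfl | rfl <;> rcases h2 with rfl | rfl <;> omega
  have key := key4 hn4 hpos hcj
  rw [e] at key
  constructor
  · intro hp
    have hm4 : m % 4 = 2 := by
      rcases h0 with rfl | rfl <;> rcases h1 with rfl | rfl <;> rcases h2 with rfl | rfl <;>
        omega
    rcases key with ⟨k, hk⟩ | k
    · by_cases hm2 : m = -2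
      · left
        rw [← e, k, hm2]; push_cast; ring
      · right
        have : (2 : ℤ) ≤ m := by omega
        have : (2 : ℝ) ≤ m := by exact_mod_cast this
        rw [← e, k]; push_cast; linarith
    · right; linarith
  · intro hp
    have hm4 : m % 4 = 0 := by
      rcases h0 with rfl | rfl <;> rcases h1 with rfl | rfl <;> rcases h2 with rfl | rfl <;>
        omega
    rcases key with ⟨k, hk⟩ | k
    · have : (0 : ℤ) ≤ m := by omega
      have : (0 : ℝ) ≤ m := by exact_mod_cast this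
      rw [← e, k]; push_cast; linarith
    · linarith

theorem int_sq_small {y : ℤ} (h : y ^ 2 ≤ 3) : -2 < y ∧ y < 2 := by
  constructor <;> nlinarith

theorem int_coord {x y : ℤ} (hx : x % 2 = 1) (hy : y % 2 = 0)
    (hle : 2 * x ^ 2 + 3 * y ^ 2 + 2 * x * y ≤ 6) : (x = 1 ∨ x = -1) ∧ y = 0 := by
  have e1 : 2 * x ^ 2 + 3 * y ^ 2 + 2 * x * y = (x + y) ^ 2 + x ^ 2 + 2 * y ^ 2 := by ring
  rw [e1] at hle
  have h1 := sq_nonneg (x + y)
  have h2 := sq_nonneg x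
  have hy1 : y ^ 2 ≤ 3 := by linarith
  obtain ⟨hy2, hy3⟩ := int_sq_small hy1
  have hy0 : y = 0 := by omega
  subst hy0
  have hx1 : x ^ 2 ≤ 3 := by
    have e2 : (x + 0) ^ 2 = x ^ 2 := by ring
    rw [e2] at hle; linarith
  obtain ⟨hx2, hx3⟩ := int_sq_small hx1
  exact ⟨by omega, rfl⟩

/-- the height of an even vertex -/
theorem Ve_height {v : W} (hv : v ∈ Ve) : (v 3 = ph + 1 ∧ (v 0 = 1 ∨ v 0 = -1) ∧ (v 1 = 1 ∨ v 1 = -1) ∧
    (v 2 = 1 ∨ v 2 = -1) ∧ v 0 * v 1 * v 2 = 1) ∨ ph + 2 < v 3 := by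
  obtain ⟨a, b, k1, k2, k3, k4, r0, r1, r2, r3, l0, l1, l2, l3, m1, m2⟩ := Ve_EInv hv
  have g1 := ph_gt
  have g2 := ph_lt
  have h := ph_mul
  have hA : |(a 3 : ℝ) + b 3 * (1 - ph)| ≤ 1.415 := by
    apply abs_le_of_sq_le_sq _ (by norm_num)
    simp only [Qc] at k2
    nlinarith [sq_nonneg ((a 0 : ℝ) + b 0 * (1 - ph)), sq_nonneg ((a 1 : ℝ) + b 1 * (1 - ph)),
      sq_nonneg ((a 2 : ℝ) + b 2 * (1 - ph))]
  rw [abs_le] at hA
  obtain ⟨hl, hr⟩ := hA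
  rw [k1 3] at k4
  by_cases hb3 : 3 ≤ b 3
  · right
    have : (3 : ℝ) ≤ b 3 := by exact_mod_cast hb3
    rw [k1 3]; nlinarith
  · by_cases hb1 : b 3 = 1
    · left
      rw [hb1] at hl hr
      push_cast at hl hr
      have c1 : (-1 : ℝ) < a 3 := by linarith
      have c2 : (a 3 : ℝ) < 3 := by linarith
      have c1' : (-1 : ℤ) < a 3 := by exact_mod_cast c1
      have c2' : a 3 < (3 : ℤ) := by exact_mod_cast c2
      have ha3 : a 3 = 1 := by omega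
      have hv3 : v 3 = ph + 1 := by rw [k1 3, ha3, hb1]; push_cast; ring
      -- the norm
      have hsum : (v 0) ^ 2 + (v 1) ^ 2 + (v 2) ^ 2 = 3 := by
        simp only [B, hv3] at k3
        linear_combination k3 + (ph + 2) * h
      have hsumc : ((a 0 : ℝ) + b 0 * (1 - ph)) ^ 2 + (a 1 + b 1 * (1 - ph)) ^ 2
          + (a 2 + b 2 * (1 - ph)) ^ 2 = 3 := by
        simp only [Qc] at k2
        rw [hb1, ha3] at k2
        push_cast at k2
        linear_combination k2 + (3 - ph) * h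
      rw [k1 0, k1 1, k1 2] at hsum
      have hi : ∀ i, (a i : ℝ) ^ 2 + b i ^ 2 * (3/2) + a i * b i = (((a i : ℝ) + b i * ph) ^ 2 + (a i + b i * (1 - ph)) ^ 2) / 2 := by
        intro i; linear_combination (-(b i : ℝ) ^ 2) * h
      have hs : ((a 0 : ℝ) ^ 2 + b 0 ^ 2 * (3/2) + a 0 * b 0) + (a 1 ^ 2 + b 1 ^ 2 * (3/2) + a 1 * b 1) +
          (a 2 ^ 2 + b 2 ^ 2 * (3/2) + a 2 * b 2) = 3 := by
        rw [hi 0, hi 1, hi 2]; linarith
      have hs' : (2 * a 0 ^ 2 + 3 * b 0 ^ 2 + 2 * a 0 * b 0) + (2 * a 1 ^ 2 + 3 * b 1 ^ 2 + 2 * a 1 * b 1) +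
          (2 * a 2 ^ 2 + 3 * b 2 ^ 2 + 2 * a 2 * b 2) = 6 := by
        have : ((2 * a 0 ^ 2 + 3 * b 0 ^ 2 + 2 * a 0 * b 0 + (2 * a 1 ^ 2 + 3 * b 1 ^ 2 + 2 * a 1 * b 1) +
          (2 * a 2 ^ 2 + 3 * b 2 ^ 2 + 2 * a 2 * b 2) : ℤ) : ℝ) = ((6 : ℤ) : ℝ) := by
          push_cast; linarith
        exact_mod_cast this
      have hnn : ∀ x y : ℤ, 0 ≤ 2 * x ^ 2 + 3 * y ^ 2 + 2 * x * y := by
        intro x y
        have e1 : 2 * x ^ 2 + 3 * y ^ 2 + 2 * x * y = (x + y) ^ 2 + x ^ 2 + 2 * y ^ 2 := by ring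
        rw [e1]; positivity
      obtain ⟨c0, d0⟩ := int_coord r0 l0 (by linarith [hnn (a 1) (b 1), hnn (a 2) (b 2)])
      obtain ⟨c1, d1⟩ := int_coord r1 l1 (by linarith [hnn (a 0) (b 0), hnn (a 2) (b 2)])
      obtain ⟨c2, d2⟩ := int_coord r2 l2 (by linarith [hnn (a 1) (b 1), hnn (a 0) (b 0)])
      rw [hb1] at m1
      have f0 : v 0 = a 0 := by rw [k1 0, d0]; simp
      have f1 : v 1 = a 1 := by rw [k1 1, d1]; simp
      have f2 : v 2 = a 2 := by rw [k1 2, d2]; simp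
      refine ⟨hv3, ?_, ?_, ?_, ?_⟩
      · rw [f0]; rcases c0 with c | c <;> rw [c] <;> simp
      · rw [f1]; rcases c1 with c | c <;> rw [c] <;> simp
      · rw [f2]; rcases c2 with c | c <;> rw [c] <;> simp
      · rw [f0, f1, f2]
        rcases c0 with c | c <;> rcases c1 with c' | c' <;> rcases c2 with c'' | c'' <;>
          rw [c, c', c''] <;> (try norm_num) <;> (rw [c, c', c''] at m1; norm_num at m1)
    · exfalso
      have hb4 : b 3 ≤ -1 := by omega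
      have : (b 3 : ℝ) ≤ -1 := by exact_mod_cast hb4
      nlinarith

end Pool.R179.Ev
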