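import Pool.Agent.R179.EvA

/-!
# The system of even vertices; the fundamental chamber
-/

namespace Pool.R179.Ev
open Pool.R179.H435 (W B ph ph_gt ph_lt ph_mul ph_inv up pr rho rho_nonneg rho_sq up_0 up_1 up_2 up_3
  pr_0 pr_1 pr_2 pr_up up_pr pr_comb B_comm B_add_left B_smul_left mkLin w01 w12 rr w01_apply w12_apply
  rr_apply s0 s0_apply s0_mem G light cs3 w02 w02_apply s1 s2 s1_apply s2_apply gens gens_cases)
open Pool.R179.LFC Pool.R179.Gen

theorem s0s0 : s0 * s0 = 1 := by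
  apply LinearEquiv.ext; intro X
  rw [LinearEquiv.mul_apply, s0_apply, s0_apply]
  ext i; fin_cases i <;> simp

theorem norm_s0 {g : W ≃ₗ[ℝ] W} (hg : g ∈ G0) : s0 * g * s0 ∈ G0 := by
  induction hg using Subgroup.closure_induction with
  | mem g hg =>
    obtain ⟨j, _, rfl⟩ := hg
    fin_cases j
    · have : s0 * w01 * s0 = w01m := by
        apply LinearEquiv.ext; intro X
        rw [LinearEquiv.mul_apply, LinearEquiv.mul_apply, s0_apply, w01_apply, s0_apply, w01m_apply]
        ext i; fin_cases i <;> simp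
      show s0 * w01 * s0 ∈ G0
      rw [this]; exact R_mem 1
    · have : s0 * w01m * s0 = w01 := by
        apply LinearEquiv.ext; intro X
        rw [LinearEquiv.mul_apply, LinearEquiv.mul_apply, s0_apply, w01m_apply, s0_apply, w01_apply]
        ext i; fin_cases i <;> simp
      show s0 * w01m * s0 ∈ G0
      rw [this]; exact R_mem 0
    · have : s0 * w12 * s0 = w12 := by
        apply LinearEquiv.ext; intro X
        rw [LinearEquiv.mul_apply, LinearEquiv.mul_apply, s0_apply, w12_apply, s0_apply, w12_apply]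
        ext i; fin_cases i <;> simp
      show s0 * w12 * s0 ∈ G0
      rw [this]; exact R_mem 2
    · have : s0 * rr * s0 = rr := by
        apply LinearEquiv.ext; intro X
        rw [LinearEquiv.mul_apply, LinearEquiv.mul_apply, s0_apply, rr_apply, s0_apply, rr_apply]
        ext i; fin_cases i <;> simp
      show s0 * rr * s0 ∈ G0
      rw [this]; exact R_mem 3
  | one => rw [mul_one, s0s0]; exact one_mem _
  | mul g h _ _ ihg ihh =>
    have e : s0 * (g * h) * s0 = (s0 * g * s0) * (s0 * h * s0) := by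
      calc s0 * (g * h) * s0 = s0 * g * 1 * h * s0 := by group
        _ = s0 * g * (s0 * s0) * h * s0 := by rw [s0s0]
        _ = _ := by group
    rw [e]; exact mul_mem ihg ihh
  | inv g _ ih =>
    have e : s0 * g⁻¹ * s0 = (s0 * g * s0)⁻¹ := by
      have h1 : s0⁻¹ = s0 := inv_eq_of_mul_eq_one_left s0s0
      rw [mul_inv_rev, mul_inv_rev, h1, mul_assoc]
    rw [e]; exact inv_mem ih

theorem G_dich {g : W ≃ₗ[ℝ] W} (hg : g ∈ G) : g ∈ G0 ∨ s0 * g ∈ G0 := by
  have h1 : s0⁻¹ = s0 := inv_eq_of_mul_eq_one_left s0s0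
  have e01 : s0 * s1 = w01 * w01m := by
    apply LinearEquiv.ext; intro X
    rw [LinearEquiv.mul_apply, LinearEquiv.mul_apply, s0_apply, s1_apply, w01m_apply, w01_apply]
    ext i; fin_cases i <;> simp
  have e02 : s0 * s2 = w12 * (w01 * w01m) * w12 := by
    apply LinearEquiv.ext; intro X
    rw [LinearEquiv.mul_apply, LinearEquiv.mul_apply, LinearEquiv.mul_apply, LinearEquiv.mul_apply,
      s0_apply, s2_apply, w12_apply, w01m_apply, w01_apply, w12_apply]
    ext i; fin_cases i <;> simp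
  have ew : w02 = w01 * w12 * w01 := by
    apply LinearEquiv.ext; intro X
    rw [LinearEquiv.mul_apply, LinearEquiv.mul_apply, w01_apply, w12_apply, w01_apply, w02_apply]
    ext i; fin_cases i <;> simp
  have m0 : w01 ∈ G0 := R_mem 0
  have m1 : w01m ∈ G0 := R_mem 1
  have m2 : w12 ∈ G0 := R_mem 2
  have m3 : rr ∈ G0 := R_mem 3
  induction hg using Subgroup.closure_induction with
  | mem g hg =>
    rcases gens_cases hg with h | h | h | h | h | h | h <;> subst h
    · right; rw [s0s0]; exact one_mem _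
    · right; rw [e01]; exact mul_mem m0 m1
    · right; rw [e02]; exact mul_mem (mul_mem m2 (mul_mem m0 m1)) m2
    · left; exact m0
    · left; exact m2
    · left; rw [ew]; exact mul_mem (mul_mem m0 m2) m0
    · left; exact m3
  | one => left; exact one_mem _
  | mul g h _ _ ihg ihh =>
    rcases ihg with hg | hg <;> rcases ihh with hh | hh
    · left; exact mul_mem hg hh
    · right
      have e : s0 * (g * h) = (s0 * g * s0) * (s0 * h) := by
        calc s0 * (g * h) = s0 * g * 1 * h := by group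
          _ = s0 * g * (s0 * s0) * h := by rw [s0s0]
          _ = _ := by group
      rw [e]; exact mul_mem (norm_s0 hg) hh
    · right
      rw [← mul_assoc]; exact mul_mem hg hh
    · left
      have e : g * h = (s0 * (s0 * g) * s0) * (s0 * h) := by
        calc g * h = 1 * g * 1 * h := by group
          _ = (s0 * s0) * g * (s0 * s0) * h := by rw [s0s0]
          _ = _ := by group
      rw [e]; exact mul_mem (norm_s0 hg) hh
  | inv g _ ih =>
    rcases ih with hg | hg
    · left; exact inv_mem hg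
    · right
      have e : s0 * g⁻¹ = s0 * (s0 * g)⁻¹ * s0 := by
        rw [mul_inv_rev, h1]
        calc s0 * g⁻¹ = s0 * g⁻¹ * 1 := by group
          _ = s0 * g⁻¹ * (s0 * s0) := by rw [s0s0]
          _ = _ := by group
      rw [e]; exact norm_s0 (inv_mem hg)

theorem gapE (p : E 3) : ∃ v ∈ Ve, -1 < B (up p (rho p)) v := by
  have p1 := ph_gt
  have p2 := ph_lt
  -- scale by ten
  have hl : (up ((10 : ℝ) • p) (10 * rho p)) 3 ^ 2 = ph * ((up ((10 : ℝ) • p) (10 * rho p)) 0 ^ 2 +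
      (up ((10 : ℝ) • p) (10 * rho p)) 1 ^ 2 + (up ((10 : ℝ) • p) (10 * rho p)) 2 ^ 2) := by
    simp only [up_0, up_1, up_2, up_3, PiLp.smul_apply, smul_eq_mul]
    have := rho_sq p
    nlinarith
  obtain ⟨n, hn⟩ := pow_unbounded_of_one_lt (10 * rho p) (by norm_num : (1 : ℝ) < 10 / 9)
  obtain ⟨g, hg, hlt⟩ := light n (up ((10 : ℝ) • p) (10 * rho p))
    (by simp only [up_3]; have := rho_nonneg p; linarith) hl (by
    show 10 * rho p < _
    have : (0:ℝ) < (10 / 9) ^ n := by positivity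
    nlinarith)
  have hsc : up ((10 : ℝ) • p) (10 * rho p) = (10 : ℝ) • up p (rho p) := by
    ext i; fin_cases i <;> simp
  rw [hsc, map_smul] at hlt
  have hlt' : (g (up p (rho p))) 3 < ph / 10 := by
    have : (10 : ℝ) * (g (up p (rho p))) 3 < ph := hlt
    linarith
  -- pass to the even subgroup
  obtain ⟨g', hg', hlt2⟩ : ∃ g' ∈ G0, (g' (up p (rho p))) 3 < ph / 10 := by
    rcases G_dich hg with h | h
    · exact ⟨g, h, hlt'⟩
    · refine ⟨s0 * g, h, ?_⟩
      rw [LinearEquiv.mul_apply, s0_apply]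
      exact hlt'
  refine ⟨g'⁻¹ v0, Ve_G (inv_mem hg') v0_mem, ?_⟩
  have e : B (up p (rho p)) (g'⁻¹ v0) = B (g' (up p (rho p))) v0 := by
    rw [← G0_B hg' (up p (rho p)), mul_inv_apply]
  rw [e]
  set Y := g' (up p (rho p)) with hY
  have hYY : B Y Y = 0 := by
    rw [hY, G0_B hg']
    simp only [B, up_0, up_1, up_2, up_3]
    have := rho_sq p
    linear_combination (-(p 0 ^ 2 + p 1 ^ 2 + p 2 ^ 2)) * ph_inv + (-(ph - 1)) * this
  simp only [B] at hYY
  have hs : Y 0 ^ 2 + Y 1 ^ 2 + Y 2 ^ 2 = (ph - 1) * Y 3 ^ 2 := by linarith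
  -- Y 3 is nonnegative or the bound holds trivially
  have hsum : (Y 0 + Y 1 + Y 2) ^ 2 ≤ 3 * ((ph - 1) * Y 3 ^ 2) := by
    rw [← hs]; nlinarith [sq_nonneg (Y 0 - Y 1), sq_nonneg (Y 0 - Y 2), sq_nonneg (Y 1 - Y 2)]
  have hlow : -(ph * |Y 3|) ≤ Y 0 + Y 1 + Y 2 := by
    have : |Y 0 + Y 1 + Y 2| ≤ ph * |Y 3| := by
      apply abs_le_of_sq_le_sq _ (by positivity)
      rw [mul_pow, sq_abs]
      have h3 : 0 ≤ Y 3 ^ 2 := sq_nonneg _
      have h4 : 3 * (ph - 1) ≤ ph ^ 2 := by nlinarith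
      nlinarith
    exact (abs_le.1 this).1
  have e2 : B Y v0 = Y 0 + Y 1 + Y 2 - ph * Y 3 := by
    simp only [B, v0]
    simp
    linear_combination (Y 3) * ph_mul
  rw [e2]
  rcases le_total 0 (Y 3) with h0 | h0
  · rw [abs_of_nonneg h0] at hlow
    nlinarith
  · rw [abs_of_nonpos h0] at hlow
    nlinarith

/-- the system of even vertices -/
theorem SE : Sys Ve G0 where
  pres := fun g hg X Y => G0_B hg X Y
  inv := fun g hg v hv => Ve_G hg hv
  pos := fun v hv => Ve_pos hv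
  tl := fun v hv => by have := Ve_tl hv; linarith
  fin := by
    intro Rb
    apply (Lat_finite (2 - 2 * ph) (2 * ph) (by linarith [ph_gt]) Rb).subset
    rintro v ⟨hv, hR⟩
    exact ⟨Ve_Lat hv, hR⟩
  gap := gapE

/-! ### The chamber -/

/-- the four wall functionals -/
noncomputable def f (j : Fin 4) (X : W) : ℝ :=
  ![X 1 - X 0, X 1 + X 0, X 2 - X 1, X 3 - (ph + 1) * X 2] j

/-- timelike and future pointing -/
def TL (X : W) : Prop := rhoW X < X 3

theorem f_add (j : Fin 4) (a b : ℝ) (X Y : W) : f j (a • X + b • Y) = a * f j X + b * f j Y := by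
  fin_cases j <;> simp [f] <;> ring

theorem R_fix {j : Fin 4} {X : W} (h : f j X = 0) : R j X = X := by
  fin_cases j
  · have h' : X 1 - X 0 = 0 := h
    show w01 X = X
    rw [w01_apply]; ext i; fin_cases i <;> simp <;> linarith
  · have h' : X 1 + X 0 = 0 := h
    show w01m X = X
    rw [w01m_apply]; ext i; fin_cases i <;> simp <;> linarith
  · have h' : X 2 - X 1 = 0 := h
    show w12 X = X
    rw [w12_apply]; ext i; fin_cases i <;> simp <;> linarith
  · have h' : X 3 - (ph + 1) * X 2 = 0 := h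
    show rr X = X
    rw [rr_apply]; ext i; fin_cases i
    · simp
    · simp
    · simp; linarith
    · simp
      linear_combination (ph - 1) * h' + X 2 * ph_mul

/-- an interior point of the chamber -/
noncomputable def rho0 : W := ![0, 2, 4, 4 * ph + 5]

theorem B_rho_R (j : Fin 4) (X : W) : ∃ c > 0, B rho0 (R j X) = B rho0 X - c * f j X := by
  have p1 := ph_gt
  have p2 := ph_lt
  have hm := ph_mul
  fin_cases j
  · refine ⟨2, by norm_num, ?_⟩
    show B rho0 (w01 X) = _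
    simp [B, rho0, w01_apply, f]; ring
  · refine ⟨2, by norm_num, ?_⟩
    show B rho0 (w01m X) = _
    simp [B, rho0, w01m_apply, f]; ring
  · refine ⟨2, by norm_num, ?_⟩
    show B rho0 (w12 X) = _
    simp [B, rho0, w12_apply, f]; ring
  · refine ⟨2 - ph, by linarith, ?_⟩
    show B rho0 (rr X) = _
    simp [B, rho0, rr_apply, f]
    linear_combination ((-4 * ph - 1) * X 3 + (4 * ph + 6) * X 2) * hm

theorem rho0_Lat : ∃ q, Lat (B rho0 rho0) q rho0 := by
  refine ⟨Qc ![0, 2, 4, 5] ![0, 0, 0, 4], ![0, 2, 4, 5], ![0, 0, 0, 4], ?_, rfl, rfl, ?_⟩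
  · intro i; fin_cases i <;> simp [rho0]; ring
  · show 0 < 4 * ph + 5; linarith [ph_gt]

theorem rho0_neg : B rho0 rho0 ≤ 0 := by
  have p1 := ph_gt
  have hm := ph_mul
  simp [B, rho0]
  nlinarith

/-- Timelike vectors pair negatively. -/
theorem TL_pair {X w : W} (hX : TL X) (hw : 0 < w 3)
    (hww : ph * (w 0 ^ 2 + w 1 ^ 2 + w 2 ^ 2) ≤ w 3 ^ 2) :
    (ph - 1) * (w 3 * (X 3 - rhoW X)) ≤ -B w X := by
  have p1 := ph_gt
  have h1 := dot_le_q (pr w) X
  have h2 : rho (pr w) ≤ w 3 := by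
    unfold rho
    rw [Real.sqrt_le_iff]
    exact ⟨hw.le, hww⟩
  simp only [pr_0, pr_1, pr_2] at h1
  simp only [B]
  have h3 : (ph - 1) * rho (pr w) * rhoW X ≤ (ph - 1) * w 3 * rhoW X :=
    mul_le_mul_of_nonneg_right (mul_le_mul_of_nonneg_left h2 (by linarith)) (rhoW_nonneg X)
  nlinarith

theorem Lat_tl {c q : ℝ} (hc : c ≤ 0) {w : W} (h : Lat c q w) :
    ph * (w 0 ^ 2 + w 1 ^ 2 + w 2 ^ 2) ≤ w 3 ^ 2 := by
  obtain ⟨a, b, _, _, h3, _⟩ := h
  have p1 := ph_gt
  have : B w w ≤ 0 := by rw [h3]; exact hc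
  simp only [B] at this
  have h4 : ph * (w 0 ^ 2 + w 1 ^ 2 + w 2 ^ 2) ≤ ph * ((ph - 1) * w 3 ^ 2) :=
    mul_le_mul_of_nonneg_left (by linarith) (by linarith)
  have e : ph * ((ph - 1) * w 3 ^ 2) = w 3 ^ 2 := by linear_combination (w 3 ^ 2) * ph_inv
  linarith

/-- moving a vector into the chamber of a parabolic subgroup -/
theorem exists_dom (J : Set (Fin 4)) {X : W} (hX : TL X) :
    ∃ h ∈ GJ J, ∀ j ∈ J, 0 ≤ f j (h X) := by
  have p1 := ph_gt
  obtain ⟨q, hq⟩ := rho0_Lat
  have hneg := rho0_neg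
  let 𝒮 : Set W := {w | ∃ h ∈ GJ J, w = h⁻¹ rho0}
  have hd : 0 < X 3 - rhoW X := sub_pos.2 hX
  have hLat : ∀ w ∈ 𝒮, Lat (B rho0 rho0) q w := by
    rintro w ⟨h, hh, rfl⟩
    exact (Lat_G0 hneg (inv_mem (GJ_le J hh)) rho0).1 hq
  have hfin : {w ∈ 𝒮 | -B w X ≤ -B rho0 X}.Finite := by
    apply (Lat_finite (B rho0 rho0) q hneg (-B rho0 X / ((ph - 1) * (X 3 - rhoW X)))).subset
    rintro w ⟨hw, hle⟩
    have hL := hLat w hw
    refine ⟨hL, ?_⟩
    have h0 : 0 < w 3 := by obtain ⟨a, b, _, _, _, h⟩ := hL; exact h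
    have := TL_pair hX h0 (Lat_tl hneg hL)
    rw [le_div_iff₀ (mul_pos (by linarith) hd)]
    nlinarith
  obtain ⟨w, ⟨⟨h, hh, hwh⟩, hwle⟩, hmin⟩ := Set.exists_min_image _ (fun w => -B w X) hfin
    ⟨rho0, ⟨1, one_mem _, by simp⟩, le_refl _⟩
  refine ⟨h, hh, fun j hj => ?_⟩
  have hRh : R j * h ∈ GJ J := mul_mem (R_memJ hj) hh
  obtain ⟨c, hc, e⟩ := B_rho_R j (h X)
  have e1 : B w X = B rho0 (h X) := by
    rw [hwh, ← G0_B (GJ_le J hh), mul_inv_apply]
  have e2 : B ((R j * h)⁻¹ rho0) X = B rho0 (R j (h X)) := by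
    rw [← G0_B (GJ_le J hRh), mul_inv_apply, LinearEquiv.mul_apply]
  have h3 : -B w X ≤ -B ((R j * h)⁻¹ rho0) X := by
    by_cases hc2 : -B ((R j * h)⁻¹ rho0) X ≤ -B rho0 X
    · exact hmin _ ⟨⟨R j * h, hRh, rfl⟩, hc2⟩
    · push Not at hc2; linarith
  rw [e1, e2, e] at h3
  by_contra hlt
  push Not at hlt
  nlinarith

end Pool.R179.Ev
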