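import Pool.Agent.R179.EvB

/-!
# Faces of the even tiling: normal forms
-/

namespace Pool.R179.Ev
open Pool.R179.H435 (W B ph ph_gt ph_lt ph_mul ph_inv up pr rho rho_nonneg rho_sq up_0 up_1 up_2 up_3
  pr_0 pr_1 pr_2 pr_up up_pr pr_comb B_comm B_add_left B_smul_left mkLin w01 w12 rr w01_apply w12_apply
  rr_apply)
open Pool.R179.LFC Pool.R179.Gen

theorem TL_iff (X : W) : TL X ↔ B X X < 0 ∧ 0 < X 3 := by
  have p1 := ph_gt
  have h2 := rhoW_sq X
  have h3 := rhoW_nonneg X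
  have e : ph * B X X = rhoW X ^ 2 - X 3 ^ 2 := by
    rw [h2]; simp only [B]; linear_combination (- X 3 ^ 2) * ph_inv
  constructor
  · intro h
    have h' : rhoW X < X 3 := h
    refine ⟨?_, lt_of_le_of_lt h3 h'⟩
    have : ph * B X X < 0 := by rw [e]; nlinarith
    by_contra hc
    push Not at hc
    nlinarith
  · rintro ⟨h, h0⟩
    have h4 : rhoW X ^ 2 < X 3 ^ 2 := by nlinarith
    exact lt_of_abs_lt (abs_lt_of_sq_lt_sq h4 h0.le)

theorem TL_R {X : W} (h : TL X) (j : Fin 4) : TL (R j X) := by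
  rw [TL_iff] at h ⊢
  exact ⟨by rw [R_B]; exact h.1, pos_of_R h.1.le h.2 j⟩

theorem TL_G0 {g : W ≃ₗ[ℝ] W} (hg : g ∈ G0) : ∀ X : W, TL X ↔ TL (g X) := by
  induction hg using Subgroup.closure_induction with
  | mem g hg =>
    obtain ⟨j, _, rfl⟩ := hg
    intro X
    refine ⟨fun h => TL_R h j, fun h => ?_⟩
    have := TL_R h j
    rwa [R_invol] at this
  | one => intro X; exact Iff.rfl
  | mul g h _ _ ihg ihh =>
    intro X
    rw [ihh X, ihg (h X)]
    exact Iff.rfl
  | inv g _ ih =>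
    intro X
    rw [ih (g⁻¹ X), mul_inv_apply]

theorem TL_comb {X Y : W} (hX : TL X) (hY : TL Y) {a b : ℝ} (ha : 0 < a) (hb : 0 ≤ b) :
    TL (a • X + b • Y) := by
  have p1 := ph_gt
  have h1 := (TL_iff X).1 hX
  have h2 := (TL_iff Y).1 hY
  have h3 : ph * (X 0 ^ 2 + X 1 ^ 2 + X 2 ^ 2) ≤ X 3 ^ 2 := by
    rw [← rhoW_sq]
    have : rhoW X < X 3 := hX
    nlinarith [rhoW_nonneg X]
  have h4 := TL_pair hY h1.2 h3
  have h5 : 0 ≤ (ph - 1) * (X 3 * (Y 3 - rhoW Y)) :=
    mul_nonneg (by linarith) (mul_nonneg h1.2.le (sub_pos.2 hY).le)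
  have h6 : B X Y ≤ 0 := by linarith
  rw [TL_iff]
  constructor
  · have e : B (a • X + b • Y) (a • X + b • Y) = a ^ 2 * B X X + 2 * a * b * B X Y + b ^ 2 * B Y Y := by
      rw [B_add_left, B_smul_left, B_smul_left, B_comm X, B_comm Y, B_add_left, B_add_left,
        B_smul_left, B_smul_left, B_smul_left, B_smul_left, B_comm Y X]; ring
    rw [e]
    have i1 : a ^ 2 * B X X < 0 := mul_neg_of_pos_of_neg (by positivity) h1.1
    have i2 : 2 * a * b * B X Y ≤ 0 := mul_nonpos_of_nonneg_of_nonpos (by positivity) h6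
    have i3 : b ^ 2 * B Y Y ≤ 0 := mul_nonpos_of_nonneg_of_nonpos (by positivity) h2.1.le
    linarith
  · show 0 < a * X 3 + b * Y 3
    have := mul_pos ha h1.2
    have := mul_nonneg hb h2.2.le
    linarith

/-- the set of even vertices maximising the pairing with `X` -/
def AM (X : W) : Set W := {v | v ∈ Ve ∧ ∀ v' ∈ Ve, B X v' ≤ B X v}

theorem AM_G0 {g : W ≃ₗ[ℝ] W} (hg : g ∈ G0) (X : W) : AM (g X) = g '' AM X := by
  ext v
  constructor
  · rintro ⟨hv, h⟩
    refine ⟨g⁻¹ v, ⟨Ve_G (inv_mem hg) hv, fun v' hv' => ?_⟩, mul_inv_apply g v⟩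
    have := h (g v') (Ve_G hg hv')
    rw [G0_B hg] at this
    rw [← G0_B hg X (g⁻¹ v), mul_inv_apply]
    exact this
  · rintro ⟨w, ⟨hw, h⟩, rfl⟩
    refine ⟨Ve_G hg hw, fun v' hv' => ?_⟩
    rw [G0_B hg, ← mul_inv_apply g v', G0_B hg]
    exact h _ (Ve_G (inv_mem hg) hv')

theorem AM_comb {X Y : W} (hne : (AM X ∩ AM Y).Nonempty) {a b : ℝ} (ha : 0 < a) (hb : 0 < b) :
    AM (a • X + b • Y) = AM X ∩ AM Y := by
  obtain ⟨u, hu1, hu2⟩ := hne
  have e : ∀ v, B (a • X + b • Y) v = a * B X v + b * B Y v := fun v => by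
    rw [B_add_left, B_smul_left, B_smul_left]
  ext v
  constructor
  · rintro ⟨hv, h⟩
    have h1 := h u hu1.1
    rw [e, e] at h1
    have h2 := hu1.2 v hv
    have h3 := hu2.2 v hv
    have h4 : B X v = B X u := by nlinarith
    have h5 : B Y v = B Y u := by nlinarith
    exact ⟨⟨hv, fun v' hv' => by rw [h4]; exact hu1.2 v' hv'⟩,
      ⟨hv, fun v' hv' => by rw [h5]; exact hu2.2 v' hv'⟩⟩
  · rintro ⟨⟨hv, h1⟩, ⟨_, h2⟩⟩
    refine ⟨hv, fun v' hv' => ?_⟩
    rw [e, e]
    have := mul_le_mul_of_nonneg_left (h1 v' hv') ha.le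
    have := mul_le_mul_of_nonneg_left (h2 v' hv') hb.le
    linarith

theorem AM_L (p : E 3) : AM (SE.L p) = SE.NN p := by
  obtain ⟨c, hc, e⟩ := (SE.L_IsS p).2
  ext v
  constructor
  · rintro ⟨hv, h⟩
    refine ⟨hv, ?_⟩
    have h1 := h c hc
    have h2 := (SE.L_IsS p).1 v hv
    show B (SE.L p) v = -1
    linarith
  · rintro ⟨hv, h⟩
    have h' : B (SE.L p) v = -1 := h
    exact ⟨hv, fun v' hv' => by rw [h']; exact (SE.L_IsS p).1 v' hv'⟩

theorem TL_L (p : E 3) : TL (SE.L p) := by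
  have h := SE.rho_lt_L p
  have e : rhoW (SE.L p) = rho p := by
    rw [SE.L_eq]; rfl
  show rhoW (SE.L p) < _
  rw [e]; exact h

/-- every timelike vector is proportional to a point of the surface -/
theorem exists_pt {X : W} (hX : TL X) : ∃ p : E 3, ∃ k : ℝ, 0 < k ∧ SE.L p = k • X ∧ SE.NN p = AM X := by
  have p1 := ph_gt
  have hd : 0 < X 3 - rhoW X := sub_pos.2 hX
  have hfin : {v ∈ Ve | -B v X ≤ -B v0 X}.Finite := by
    apply (SE.fin (-B v0 X / ((ph - 1) * (X 3 - rhoW X)))).subset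
    rintro v ⟨hv, hle⟩
    refine ⟨hv, ?_⟩
    have := TL_pair hX (Ve_pos hv) (by have := Ve_tl hv; linarith)
    rw [le_div_iff₀ (mul_pos (by linarith) hd)]
    nlinarith
  obtain ⟨m, ⟨hm, hmle⟩, hmin⟩ := Set.exists_min_image _ (fun v => -B v X) hfin ⟨v0, v0_mem, le_refl _⟩
  have hmin' : ∀ v ∈ Ve, B X v ≤ B X m := by
    intro v hv
    rw [B_comm X v, B_comm X m]
    by_cases h : -B v X ≤ -B v0 X
    · have := hmin v ⟨hv, h⟩; linarith
    · push Not at h; linarith
  have hneg : B X m < 0 := by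
    have := TL_pair hX (Ve_pos hm) (by have := Ve_tl hm; linarith)
    have h2 : 0 < (ph - 1) * (m 3 * (X 3 - rhoW X)) :=
      mul_pos (by linarith) (mul_pos (Ve_pos hm) hd)
    rw [B_comm]; linarith
  have hk : 0 < -1 / B X m := div_pos_of_neg_of_neg (by norm_num) hneg
  have hS : IsS Ve ((-1 / B X m) • X) := by
    constructor
    · intro c hc
      rw [B_smul_left]
      have := mul_le_mul_of_nonneg_left (hmin' c hc) hk.le
      have e : -1 / B X m * B X m = -1 := div_mul_cancel₀ _ hneg.ne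
      linarith
    · exact ⟨m, hm, by rw [B_smul_left]; exact div_mul_cancel₀ _ hneg.ne⟩
  refine ⟨pr ((-1 / B X m) • X), -1 / B X m, hk, SE.L_pr hS, ?_⟩
  rw [← AM_L, SE.L_pr hS]
  ext v
  constructor
  · rintro ⟨hv, h⟩
    refine ⟨hv, fun v' hv' => ?_⟩
    have := h v' hv'
    rw [B_smul_left, B_smul_left] at this
    exact le_of_mul_le_mul_left this hk
  · rintro ⟨hv, h⟩
    refine ⟨hv, fun v' hv' => ?_⟩
    rw [B_smul_left, B_smul_left]
    exact mul_le_mul_of_nonneg_left (h v' hv') hk.le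

theorem AM_nonempty {X : W} (hX : TL X) : (AM X).Nonempty := by
  obtain ⟨p, k, _, _, h⟩ := exists_pt hX
  obtain ⟨c, hc, e⟩ := (SE.L_IsS p).2
  exact ⟨c, by rw [← h]; exact ⟨hc, e⟩⟩

/-- the vanishing wall functionals -/
def JX (X : W) : Set (Fin 4) := {j | f j X = 0}

theorem GJ_fix {X : W} {g : W ≃ₗ[ℝ] W} (hg : g ∈ GJ (JX X)) : g X = X := by
  induction hg using Subgroup.closure_induction with
  | mem g hg =>
    obtain ⟨j, hj, rfl⟩ := hg
    exact R_fix hj
  | one => rfl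
  | mul g h _ _ ihg ihh => rw [LinearEquiv.mul_apply, ihh, ihg]
  | inv g _ ih =>
    conv_lhs => rw [← ih]
    exact inv_mul_apply g X

/-- in the chamber -/
def InD (X : W) : Prop := TL X ∧ ∀ j, 0 ≤ f j X

/-- Normalisation of a chain of argmax sets. -/
theorem norm_chain (n : ℕ) : ∀ (s : Finset (Set W)), s.card = n → ∀ X : W, InD X →
    (∀ A ∈ s, ∃ Y, TL Y ∧ A = AM Y) → (∀ A ∈ s, ∀ A' ∈ s, A ⊆ A' ∨ A' ⊆ A) →
    (∀ A ∈ s, A ⊆ AM X) → ∃ h ∈ GJ (JX X), ∀ A ∈ s, ∃ Z, InD Z ∧ h '' A = AM Z := by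
  classical
  induction n with
  | zero =>
    intro s hs X _ _ _ _
    rw [Finset.card_eq_zero] at hs
    subst hs
    exact ⟨1, one_mem _, fun A hA => absurd hA (Finset.notMem_empty _)⟩
  | succ n ih =>
    intro s hs X hX hAM hch hsub
    have hne : s.Nonempty := Finset.card_pos.1 (by omega)
    obtain ⟨A, hA⟩ := s.exists_maximal hne
    have hmax : ∀ A' ∈ s, A' ⊆ A := by
      intro A' hA'
      rcases hch A hA.prop A' hA' with h | h
      · exact hA.le_of_ge hA' h
      · exact h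
    obtain ⟨Y, hY, hAY⟩ := hAM A hA.prop
    obtain ⟨h1, hh1, hdom⟩ := exists_dom (JX X) hY
    have hh1' : h1 ∈ G0 := GJ_le _ hh1
    have hfix : h1 X = X := GJ_fix hh1
    have hY1 : TL (h1 Y) := (TL_G0 hh1' Y).1 hY
    -- the perturbed vector
    obtain ⟨ε, hε, hε2⟩ : ∃ ε > 0, ∀ j, f j X ≠ 0 → 0 < f j X + ε * f j (h1 Y) := by
      have hev : ∀ j : Fin 4, ∀ᶠ ε in nhdsWithin (0 : ℝ) (Set.Ioi 0),
          (f j X ≠ 0 → 0 < f j X + ε * f j (h1 Y)) := by
        intro j
        by_cases hj : f j X = 0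
        · exact Filter.Eventually.of_forall fun ε h => absurd hj h
        · have hpos : 0 < f j X := lt_of_le_of_ne (hX.2 j) (Ne.symm hj)
          have hcont : Continuous fun ε : ℝ => f j X + ε * f j (h1 Y) := by fun_prop
          have h0 : 0 < (fun ε : ℝ => f j X + ε * f j (h1 Y)) 0 := by simpa using hpos
          have := hcont.continuousAt.eventually (Ioi_mem_nhds h0)
          apply (this.filter_mono nhdsWithin_le_nhds).mono
          intro ε hε _
          exact hε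
      have hall := (Filter.eventually_all.2 hev).and self_mem_nhdsWithin
      obtain ⟨ε, h1, h2⟩ := hall.exists
      exact ⟨ε, h2, h1⟩
    set X' : W := (1 : ℝ) • X + ε • h1 Y with hX'
    have hfX' : ∀ j, f j X' = f j X + ε * f j (h1 Y) := fun j => by rw [hX', f_add]; ring
    have hD' : InD X' := by
      refine ⟨TL_comb hX.1 hY1 one_pos hε.le, fun j => ?_⟩
      rw [hfX']
      by_cases hj : f j X = 0
      · rw [hj, zero_add]; exact mul_nonneg hε.le (hdom j hj)
      · exact (hε2 j hj).le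
    have hJ' : JX X' ⊆ JX X := by
      intro j hj
      by_contra hne
      have h3 : f j X' = 0 := hj
      rw [hfX'] at h3
      have := hε2 j hne
      linarith
    have hAM1 : h1 '' A = AM (h1 Y) := by rw [AM_G0 hh1', hAY]
    have hsubA : AM (h1 Y) ⊆ AM X := by
      rw [← hAM1]
      have := Set.image_mono (f := h1) (hsub A hA.prop)
      rwa [← AM_G0 hh1', hfix] at this
    have hAMX' : AM X' = h1 '' A := by
      rw [hX', AM_comb _ one_pos hε, hAM1, Set.inter_eq_right.2 hsubA]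
      rw [Set.inter_eq_right.2 hsubA]
      exact AM_nonempty hY1
    obtain ⟨h2, hh2, hs2⟩ := ih ((s.erase A).image (fun A' => h1 '' A')) (by
        rw [Finset.card_image_of_injective _ (Set.image_injective.2 h1.injective),
          Finset.card_erase_of_mem hA.prop, hs]; rfl) X' hD' (by
        intro A' hA'
        rw [Finset.mem_image] at hA'
        obtain ⟨A'', hA'', rfl⟩ := hA'
        obtain ⟨Y'', hY'', e⟩ := hAM A'' (Finset.mem_of_mem_erase hA'')
        exact ⟨h1 Y'', (TL_G0 hh1' _).1 hY'', by rw [AM_G0 hh1', e]⟩) (by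
        intro A' hA' B' hB'
        rw [Finset.mem_image] at hA' hB'
        obtain ⟨A'', hA'', rfl⟩ := hA'
        obtain ⟨B'', hB'', rfl⟩ := hB'
        rcases hch A'' (Finset.mem_of_mem_erase hA'') B'' (Finset.mem_of_mem_erase hB'') with h | h
        · left; exact Set.image_mono h
        · right; exact Set.image_mono h) (by
        intro A' hA'
        rw [Finset.mem_image] at hA'
        obtain ⟨A'', hA'', rfl⟩ := hA'
        rw [hAMX']
        exact Set.image_mono (hmax A'' (Finset.mem_of_mem_erase hA'')))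
    refine ⟨h2 * h1, mul_mem (GJ_mono hJ' hh2) hh1, fun A' hA' => ?_⟩
    have himg : (h2 * h1) '' A' = h2 '' (h1 '' A') := by
      rw [Set.image_image]; rfl
    rw [himg]
    by_cases hAA : A' = A
    · subst hAA
      refine ⟨X', hD', ?_⟩
      rw [← hAMX', ← AM_G0 (GJ_le _ hh2), GJ_fix hh2]
    · exact hs2 _ (Finset.mem_image.2 ⟨A', Finset.mem_erase.2 ⟨hAA, hA'⟩, rfl⟩)

/-- Normalisation, without a starting point in the chamber. -/
theorem norm_chain' (s : Finset (Set W)) (hAM : ∀ A ∈ s, ∃ Y, TL Y ∧ A = AM Y)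
    (hch : ∀ A ∈ s, ∀ A' ∈ s, A ⊆ A' ∨ A' ⊆ A) : ∃ h ∈ G0, ∀ A ∈ s, ∃ Z, InD Z ∧ h '' A = AM Z := by
  classical
  by_cases hne : s.Nonempty
  · obtain ⟨A, hA⟩ := s.exists_maximal hne
    have hmax : ∀ A' ∈ s, A' ⊆ A := by
      intro A' hA'
      rcases hch A hA.prop A' hA' with h | h
      · exact hA.le_of_ge hA' h
      · exact h
    obtain ⟨Y, hY, hAY⟩ := hAM A hA.prop
    obtain ⟨h1, hh1, hdom⟩ := exists_dom Set.univ hY
    have hh1' : h1 ∈ G0 := hh1
    have hD : InD (h1 Y) := ⟨(TL_G0 hh1' Y).1 hY, fun j => hdom j trivial⟩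
    obtain ⟨h2, hh2, hs2⟩ := norm_chain _ (s.image (fun A' => h1 '' A')) rfl (h1 Y) hD (by
        intro A' hA'
        rw [Finset.mem_image] at hA'
        obtain ⟨A'', hA'', rfl⟩ := hA'
        obtain ⟨Y'', hY'', e⟩ := hAM A'' hA''
        exact ⟨h1 Y'', (TL_G0 hh1' _).1 hY'', by rw [AM_G0 hh1', e]⟩) (by
        intro A' hA' B' hB'
        rw [Finset.mem_image] at hA' hB'
        obtain ⟨A'', hA'', rfl⟩ := hA'
        obtain ⟨B'', hB'', rfl⟩ := hB'
        rcases hch A'' hA'' B'' hB'' with h | h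
        · left; exact Set.image_mono h
        · right; exact Set.image_mono h) (by
        intro A' hA'
        rw [Finset.mem_image] at hA'
        obtain ⟨A'', hA'', rfl⟩ := hA'
        rw [AM_G0 hh1', ← hAY]
        exact Set.image_mono (hmax A'' hA''))
    refine ⟨h2 * h1, mul_mem (GJ_le _ hh2) hh1', fun A' hA' => ?_⟩
    have himg : (h2 * h1) '' A' = h2 '' (h1 '' A') := by
      rw [Set.image_image]; rfl
    rw [himg]
    exact hs2 _ (Finset.mem_image.2 ⟨A', hA', rfl⟩)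
  · rw [Finset.not_nonempty_iff_eq_empty] at hne
    subst hne
    exact ⟨1, one_mem _, fun A hA => absurd hA (Finset.notMem_empty _)⟩

end Pool.R179.Ev
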