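import Pool.Agent.R179.EvC

/-!
# The standard faces of the even tiling
-/

namespace Pool.R179.Ev
open Pool.R179.H435 (W B ph ph_gt ph_lt ph_mul ph_inv up pr rho rho_nonneg rho_sq up_0 up_1 up_2 up_3
  pr_0 pr_1 pr_2 pr_up up_pr pr_comb B_comm B_add_left B_smul_left mkLin w01 w12 rr w01_apply w12_apply
  rr_apply)
open Pool.R179.LFC Pool.R179.Gen

noncomputable def v1 : W := ![-1, -1, 1, ph + 1]
noncomputable def v2 : W := ![-1, 1, -1, ph + 1]
noncomputable def v3 : W := ![1, -1, -1, ph + 1]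
noncomputable def v4 : W := ![-1, 1, 2 * ph + 1, 3 * ph + 1]
noncomputable def XQ : W := ![0, 0, 1, ph + 1]
noncomputable def XE : W := ![-1, 1, 1, ph + 2]
noncomputable def Xb : W := ![0, 0, 0, 1]
noncomputable def Xa : W := ![-1, 1, 1, ph + 1]

theorem R1v0 : R 1 v0 = v1 := by
  show w01m v0 = v1
  rw [w01m_apply, v1]; ext i; fin_cases i <;> simp [v0]
theorem R2v1 : R 2 v1 = v2 := by
  show w12 v1 = v2
  rw [w12_apply, v2]; ext i; fin_cases i <;> simp [v1]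
theorem R0v2 : R 0 v2 = v3 := by
  show w01 v2 = v3
  rw [w01_apply, v3]; ext i; fin_cases i <;> simp [v2]
theorem R3v2 : R 3 v2 = v4 := by
  show rr v2 = v4
  rw [rr_apply, v4]; ext i; fin_cases i
  · simp [v2]
  · simp [v2]
  · simp [v2]; ring
  · simp [v2]; linear_combination ph_mul

theorem v1_mem : v1 ∈ Ve := by rw [← R1v0]; exact Ve_G (R_mem 1) v0_mem
theorem v2_mem : v2 ∈ Ve := by rw [← R2v1]; exact Ve_G (R_mem 2) v1_mem
theorem v3_mem : v3 ∈ Ve := by rw [← R0v2]; exact Ve_G (R_mem 0) v2_mem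
theorem v4_mem : v4 ∈ Ve := by rw [← R3v2]; exact Ve_G (R_mem 3) v2_mem

theorem Nf111 (v : W) : Nf 1 1 1 v = -B v0 v := by
  simp [Nf, B, v0]; linear_combination (-(v 3)) * ph_mul

theorem eq_v0 {v : W} (hv : v ∈ Ve) (h : Nf 1 1 1 v = 2 * ph - 2) : v = v0 := by
  have hn := Ve_norm hv
  have p1 := ph_gt
  have hm := ph_mul
  simp only [Nf] at h
  push_cast at h
  simp only [B] at hn
  set u0 := v 0 - 1 with hu0
  set u1 := v 1 - 1 with hu1
  set u2 := v 2 - 1 with hu2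
  set u3 := v 3 - (ph + 1) with hu3
  have e1 : u0 + u1 + u2 = ph * u3 := by
    rw [hu0, hu1, hu2, hu3]; linear_combination -h + hm
  have e2 : u0 ^ 2 + u1 ^ 2 + u2 ^ 2 = (ph - 1) * u3 ^ 2 := by
    rw [hu0, hu1, hu2, hu3]
    linear_combination hn + 2 * h + (2 * v 3 - ph - 2) * hm
  have e3 : (u0 + u1 + u2) ^ 2 ≤ 3 * (u0 ^ 2 + u1 ^ 2 + u2 ^ 2) := by
    nlinarith [sq_nonneg (u0 - u1), sq_nonneg (u0 - u2), sq_nonneg (u1 - u2)]
  rw [e1, e2] at e3
  have e4 : u3 ^ 2 ≤ 0 := by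
    have : (ph * u3) ^ 2 = (ph + 1) * u3 ^ 2 := by linear_combination (u3 ^ 2) * hm
    rw [this] at e3
    have : (4 - 2 * ph) * u3 ^ 2 ≤ 0 := by linarith
    have p2 := ph_lt
    nlinarith [sq_nonneg u3]
  have sq0 : ∀ x : ℝ, x ^ 2 ≤ 0 → x = 0 := fun x hx =>
    (pow_eq_zero_iff two_ne_zero).1 (le_antisymm hx (sq_nonneg x))
  have e5 : u3 = 0 := sq0 _ e4
  rw [e5] at e2
  have s0 := sq_nonneg u0
  have s1 := sq_nonneg u1
  have s2 := sq_nonneg u2
  have e6 : u0 ^ 2 + u1 ^ 2 + u2 ^ 2 = 0 := by rw [e2]; ring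
  have f0 : u0 = 0 := sq0 _ (by linarith)
  have f1 : u1 = 0 := sq0 _ (by linarith)
  have f2 : u2 = 0 := sq0 _ (by linarith)
  ext i; fin_cases i
  · show v 0 = 1; linarith
  · show v 1 = 1; linarith
  · show v 2 = 1; linarith
  · show v 3 = ph + 1; linarith

theorem Nf111_ge {v : W} (hv : v ∈ Ve) : 2 * ph - 2 ≤ Nf 1 1 1 v := by
  rcases (key_Nf hv 1 1 1 (Or.inl rfl) (Or.inl rfl) (Or.inl rfl)).1 (by norm_num) with h | h
  · exact h.ge
  · linarith

theorem Nfm11_ge {v : W} (hv : v ∈ Ve) : 2 * ph ≤ Nf (-1) 1 1 v :=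
  (key_Nf hv (-1) 1 1 (Or.inr rfl) (Or.inl rfl) (Or.inl rfl)).2 (by norm_num)

theorem Nf1m1_ge {v : W} (hv : v ∈ Ve) : 2 * ph ≤ Nf 1 (-1) 1 v :=
  (key_Nf hv 1 (-1) 1 (Or.inl rfl) (Or.inr rfl) (Or.inl rfl)).2 (by norm_num)

theorem NfQ_ge {v : W} (hv : v ∈ Ve) : 2 * ph ≤ ph * v 3 - v 2 := by
  have h1 := Nfm11_ge hv
  have h2 := Nf1m1_ge hv
  simp only [Nf] at h1 h2
  push_cast at h1 h2
  linarith

theorem eq_Q {v : W} (hv : v ∈ Ve) (h : ph * v 3 - v 2 = 2 * ph) : v = v0 ∨ v = v1 := by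
  have h1 := Nfm11_ge hv
  have h2 := Nf1m1_ge hv
  simp only [Nf] at h1 h2
  push_cast at h1 h2
  have e01 : v 0 = v 1 := by linarith
  rcases (key_Nf hv 1 1 1 (Or.inl rfl) (Or.inl rfl) (Or.inl rfl)).1 (by norm_num) with h3 | h3
  · left; exact eq_v0 hv h3
  · right
    rcases (key_Nf hv (-1) (-1) 1 (Or.inr rfl) (Or.inr rfl) (Or.inl rfl)).1 (by norm_num) with h4 | h4
    · have h5 : R 1 v ∈ Ve := Ve_G (R_mem 1) hv
      have h6 : Nf 1 1 1 (R 1 v) = 2 * ph - 2 := by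
        rw [← h4]
        show Nf 1 1 1 (w01m v) = _
        rw [w01m_apply]; simp [Nf]; ring
      have h7 := eq_v0 h5 h6
      rw [← R1v0, ← h7, R_invol]
    · simp only [Nf] at h3 h4
      push_cast at h3 h4
      linarith

theorem eq_b {v : W} (hv : v ∈ Ve) (h : v 3 = ph + 1) : v = v0 ∨ v = v1 ∨ v = v2 ∨ v = v3 := by
  rcases Ve_height hv with ⟨_, h0, h1, h2, hp⟩ | hlt
  · rcases h0 with h0 | h0 <;> rcases h1 with h1 | h1 <;> rcases h2 with h2 | h2 <;>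
      rw [h0, h1, h2] at hp <;> norm_num at hp
    · left; ext i; fin_cases i
      · exact h0
      · exact h1
      · exact h2
      · exact h
    · right; right; right; ext i; fin_cases i
      · exact h0
      · exact h1
      · exact h2
      · exact h
    · right; right; left; ext i; fin_cases i
      · exact h0
      · exact h1
      · exact h2
      · exact h
    · right; left; ext i; fin_cases i
      · exact h0
      · exact h1
      · exact h2
      · exact h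
  · linarith

theorem Ve_h_ge {v : W} (hv : v ∈ Ve) : ph + 1 ≤ v 3 := by
  rcases Ve_height hv with ⟨h, _⟩ | h
  · exact h.ge
  · linarith

/-- the pairing with a vector in terms of the chamber coordinates -/
theorem pair_id (Z v : W) : -B Z v = f 1 Z / 2 * Nf 1 1 1 v + f 0 Z / 2 * Nf (-1) 1 1 v +
    f 2 Z * (ph * v 3 - v 2) + f 3 Z * ((ph - 1) * v 3) := by
  simp only [B, Nf, f]
  simp
  linear_combination (Z 2 * v 3) * ph_mul

theorem AM_iff {Z : W} (hZ : InD Z) (v : W) : v ∈ AM Z ↔ v ∈ Ve ∧ f 1 Z * (Nf 1 1 1 v - (2 * ph - 2)) = 0 ∧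
    f 0 Z * (Nf (-1) 1 1 v - 2 * ph) = 0 ∧ f 2 Z * (ph * v 3 - v 2 - 2 * ph) = 0 ∧
    f 3 Z * (v 3 - (ph + 1)) = 0 := by
  have p1 := ph_gt
  have hm := ph_mul
  have h0 := hZ.2 0
  have h1 := hZ.2 1
  have h2 := hZ.2 2
  have h3 := hZ.2 3
  have ev0 : -B Z v0 = f 1 Z / 2 * (2 * ph - 2) + f 0 Z / 2 * (2 * ph) + f 2 Z * (2 * ph) +
      f 3 Z * ((ph - 1) * (ph + 1)) := by
    rw [pair_id]
    simp only [Nf, v0]
    simp
    linear_combination (f 1 Z / 2 + f 0 Z / 2 + f 2 Z) * hm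
  have key : ∀ w ∈ Ve, 0 ≤ f 1 Z * (Nf 1 1 1 w - (2 * ph - 2)) ∧ 0 ≤ f 0 Z * (Nf (-1) 1 1 w - 2 * ph) ∧
      0 ≤ f 2 Z * (ph * w 3 - w 2 - 2 * ph) ∧ 0 ≤ f 3 Z * (w 3 - (ph + 1)) := by
    intro w hw
    exact ⟨mul_nonneg h1 (sub_nonneg.2 (Nf111_ge hw)), mul_nonneg h0 (sub_nonneg.2 (Nfm11_ge hw)),
      mul_nonneg h2 (sub_nonneg.2 (NfQ_ge hw)), mul_nonneg h3 (sub_nonneg.2 (Ve_h_ge hw))⟩
  have diff : ∀ w, B Z v0 - B Z w = (f 1 Z * (Nf 1 1 1 w - (2 * ph - 2))) / 2 +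
      (f 0 Z * (Nf (-1) 1 1 w - 2 * ph)) / 2 + f 2 Z * (ph * w 3 - w 2 - 2 * ph) +
      (ph - 1) * (f 3 Z * (w 3 - (ph + 1))) := by
    intro w
    have := pair_id Z w
    linarith
  constructor
  · rintro ⟨hv, h⟩
    have hle := h v0 v0_mem
    have hd := diff v
    obtain ⟨k1, k0, k2, k3⟩ := key v hv
    have k3' : 0 ≤ (ph - 1) * (f 3 Z * (v 3 - (ph + 1))) := mul_nonneg (by linarith) k3
    refine ⟨hv, by linarith, by linarith, by linarith, ?_⟩
    have : (ph - 1) * (f 3 Z * (v 3 - (ph + 1))) = 0 := by linarith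
    rcases mul_eq_zero.1 this with h | h
    · linarith
    · exact h
  · rintro ⟨hv, e1, e0, e2, e3⟩
    refine ⟨hv, fun w hw => ?_⟩
    have hd := diff v
    rw [e1, e0, e2, e3] at hd
    have hd' := diff w
    obtain ⟨k1, k0, k2, k3⟩ := key w hw
    have k3' : 0 ≤ (ph - 1) * (f 3 Z * (w 3 - (ph + 1))) := mul_nonneg (by linarith) k3
    linarith

theorem v0_AM {Z : W} (hZ : InD Z) : v0 ∈ AM Z := by
  rw [AM_iff hZ]
  refine ⟨v0_mem, ?_, ?_, ?_, ?_⟩
  · have : Nf 1 1 1 v0 = 2 * ph - 2 := by simp [Nf, v0]; linear_combination ph_mul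
    rw [this, sub_self, mul_zero]
  · have : Nf (-1) 1 1 v0 = 2 * ph := by simp [Nf, v0]; linear_combination ph_mul
    rw [this, sub_self, mul_zero]
  · have : ph * v0 3 - v0 2 = 2 * ph := by simp [v0]; linear_combination ph_mul
    rw [this, sub_self, mul_zero]
  · have : v0 3 = ph + 1 := by simp [v0]
    rw [this, sub_self, mul_zero]

theorem v1_AM {Z : W} (hZ : InD Z) (h1 : f 1 Z = 0) : v1 ∈ AM Z := by
  rw [AM_iff hZ]
  refine ⟨v1_mem, by rw [h1, zero_mul], ?_, ?_, ?_⟩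
  · have : Nf (-1) 1 1 v1 = 2 * ph := by simp [Nf, v1]; linear_combination ph_mul
    rw [this, sub_self, mul_zero]
  · have : ph * v1 3 - v1 2 = 2 * ph := by simp [v1]; linear_combination ph_mul
    rw [this, sub_self, mul_zero]
  · have : v1 3 = ph + 1 := by simp [v1]
    rw [this, sub_self, mul_zero]

theorem v2_AM {Z : W} (hZ : InD Z) (h1 : f 1 Z = 0) (h2 : f 2 Z = 0) : v2 ∈ AM Z := by
  rw [AM_iff hZ]
  refine ⟨v2_mem, by rw [h1, zero_mul], ?_, by rw [h2, zero_mul], ?_⟩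
  · have : Nf (-1) 1 1 v2 = 2 * ph := by simp [Nf, v2]; linear_combination ph_mul
    rw [this, sub_self, mul_zero]
  · have : v2 3 = ph + 1 := by simp [v2]
    rw [this, sub_self, mul_zero]

def NT : Set W := {v0}
def NQ : Set W := {v0, v1}
def NE : Set W := {v0, v1, v2}
def Nb : Set W := {v0, v1, v2, v3}
def Na : Set W := {v | v ∈ Ve ∧ Nf (-1) 1 1 v = 2 * ph}

theorem AM_T {Z : W} (hZ : InD Z) (h : 0 < f 1 Z) : AM Z = NT := by
  ext v; constructor
  · intro hv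
    rw [AM_iff hZ] at hv
    rcases mul_eq_zero.1 hv.2.1 with h' | h'
    · linarith
    · exact eq_v0 hv.1 (by linarith)
  · rintro rfl
    exact v0_AM hZ

theorem AM_Q {Z : W} (hZ : InD Z) (h1 : f 1 Z = 0) (h : 0 < f 2 Z) : AM Z = NQ := by
  ext v; constructor
  · intro hv
    rw [AM_iff hZ] at hv
    rcases mul_eq_zero.1 hv.2.2.2.1 with h' | h'
    · linarith
    · exact eq_Q hv.1 (by linarith)
  · rintro (rfl | rfl)
    · exact v0_AM hZ
    · exact v1_AM hZ h1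

theorem AM_E {Z : W} (hZ : InD Z) (h1 : f 1 Z = 0) (h2 : f 2 Z = 0) (h0 : 0 < f 0 Z) (h3 : 0 < f 3 Z) :
    AM Z = NE := by
  ext v; constructor
  · intro hv
    rw [AM_iff hZ] at hv
    have e3 : v 3 = ph + 1 := by
      rcases mul_eq_zero.1 hv.2.2.2.2 with h' | h' <;> linarith
    have e0 : Nf (-1) 1 1 v = 2 * ph := by
      rcases mul_eq_zero.1 hv.2.2.1 with h' | h' <;> linarith
    rcases eq_b hv.1 e3 with h | h | h | h
    · left; exact h
    · right; left; exact h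
    · right; right; exact h
    · exfalso
      rw [h] at e0
      simp [Nf, v3] at e0
      have p1 := ph_gt
      have hm := ph_mul
      nlinarith
  · rintro (rfl | rfl | rfl)
    · exact v0_AM hZ
    · exact v1_AM hZ h1
    · exact v2_AM hZ h1 h2

theorem AM_b {Z : W} (hZ : InD Z) (h1 : f 1 Z = 0) (h2 : f 2 Z = 0) (h0 : f 0 Z = 0) (h3 : 0 < f 3 Z) :
    AM Z = Nb := by
  ext v; constructor
  · intro hv
    rw [AM_iff hZ] at hv
    have e3 : v 3 = ph + 1 := by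
      rcases mul_eq_zero.1 hv.2.2.2.2 with h' | h' <;> linarith
    exact eq_b hv.1 e3
  · have key : ∀ v ∈ Ve, v 3 = ph + 1 → v ∈ AM Z := by
      intro v hv h
      rw [AM_iff hZ]
      exact ⟨hv, by rw [h1, zero_mul], by rw [h0, zero_mul], by rw [h2, zero_mul], by rw [h]; ring⟩
    rintro (rfl | rfl | rfl | rfl)
    · exact key _ v0_mem rfl
    · exact key _ v1_mem rfl
    · exact key _ v2_mem rfl
    · exact key _ v3_mem rfl

theorem AM_a {Z : W} (hZ : InD Z) (h1 : f 1 Z = 0) (h2 : f 2 Z = 0) (h3 : f 3 Z = 0) (h0 : 0 < f 0 Z) :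
    AM Z = Na := by
  ext v; constructor
  · intro hv
    rw [AM_iff hZ] at hv
    refine ⟨hv.1, ?_⟩
    rcases mul_eq_zero.1 hv.2.2.1 with h' | h' <;> linarith
  · rintro ⟨hv, h⟩
    rw [AM_iff hZ]
    exact ⟨hv, by rw [h1, zero_mul], by rw [h]; ring, by rw [h2, zero_mul], by rw [h3, zero_mul]⟩

theorem AM_cases {Z : W} (hZ : InD Z) : AM Z = NT ∨ AM Z = NQ ∨ AM Z = NE ∨ AM Z = Nb ∨ AM Z = Na := by
  have h0 := hZ.2 0
  have h1 := hZ.2 1
  have h2 := hZ.2 2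
  have h3 := hZ.2 3
  rcases h1.lt_or_eq with h1 | h1
  · left; exact AM_T hZ h1
  · rcases h2.lt_or_eq with h2 | h2
    · right; left; exact AM_Q hZ h1.symm h2
    · rcases h0.lt_or_eq with h0 | h0
      · rcases h3.lt_or_eq with h3 | h3
        · right; right; left; exact AM_E hZ h1.symm h2.symm h0 h3
        · right; right; right; right; exact AM_a hZ h1.symm h2.symm h3.symm h0
      · rcases h3.lt_or_eq with h3 | h3
        · right; right; right; left; exact AM_b hZ h1.symm h2.symm h0.symm h3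
        · exfalso
          have e0 : Z 1 - Z 0 = 0 := h0.symm
          have e1 : Z 1 + Z 0 = 0 := h1.symm
          have e2 : Z 2 - Z 1 = 0 := h2.symm
          have e3 : Z 3 - (ph + 1) * Z 2 = 0 := h3.symm
          have z2 : Z 2 = 0 := by linarith
          rw [z2] at e3
          have := ((TL_iff Z).1 hZ.1).2
          linarith

theorem InD_v0 : InD v0 := by
  refine ⟨?_, ?_⟩
  · rw [TL_iff]; exact ⟨by rw [Ve_norm v0_mem]; linarith [ph_gt], Ve_pos v0_mem⟩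
  · intro j; fin_cases j <;> simp [f, v0]
theorem InD_XQ : InD XQ := by
  have p1 := ph_gt
  refine ⟨?_, ?_⟩
  · rw [TL_iff]; refine ⟨?_, by show 0 < ph + 1; linarith⟩
    simp [B, XQ]; nlinarith [ph_mul]
  · intro j; fin_cases j <;> simp [f, XQ]
theorem InD_XE : InD XE := by
  have p1 := ph_gt
  refine ⟨?_, ?_⟩
  · rw [TL_iff]; refine ⟨?_, by show 0 < ph + 2; linarith⟩
    simp [B, XE]; nlinarith [ph_mul]
  · intro j; fin_cases j <;> simp [f, XE]
theorem InD_Xb : InD Xb := by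
  have p1 := ph_gt
  refine ⟨?_, ?_⟩
  · rw [TL_iff]; refine ⟨?_, by show (0:ℝ) < 1; norm_num⟩
    simp [B, Xb]; linarith
  · intro j; fin_cases j <;> simp [f, Xb]
theorem InD_Xa : InD Xa := by
  have p1 := ph_gt
  refine ⟨?_, ?_⟩
  · rw [TL_iff]; refine ⟨?_, by show 0 < ph + 1; linarith⟩
    simp [B, Xa]; nlinarith [ph_mul]
  · intro j; fin_cases j <;> simp [f, Xa]

theorem AMT : AM v0 = NT := AM_T InD_v0 (by simp [f, v0])
theorem AMQ : AM XQ = NQ := AM_Q InD_XQ (by simp [f, XQ]) (by simp [f, XQ])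
theorem AME : AM XE = NE := AM_E InD_XE (by simp [f, XE]) (by simp [f, XE]) (by simp [f, XE])
  (by simp [f, XE])
theorem AMb : AM Xb = Nb := AM_b InD_Xb (by simp [f, Xb]) (by simp [f, Xb]) (by simp [f, Xb])
  (by simp [f, Xb])
theorem AMa : AM Xa = Na := AM_a InD_Xa (by simp [f, Xa]) (by simp [f, Xa]) (by simp [f, Xa])
  (by simp [f, Xa])

end Pool.R179.Ev
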