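import Pool.Agent.R179.EvD

/-!
# The even tiling: its face lattice, flags and automorphisms
-/

namespace Pool.R179.Ev
open Pool.R179.H435 (W B ph ph_gt ph_lt ph_mul ph_inv up pr rho rho_nonneg rho_sq up_0 up_1 up_2 up_3
  pr_0 pr_1 pr_2 pr_up up_pr pr_comb B_comm B_add_left B_smul_left mkLin w01 w12 rr w01_apply w12_apply
  rr_apply)
open Pool.R179.LFC Pool.R179.Gen

/-- the tiling -/
def TE : Set (Set (E 3)) := SE.tiling

theorem TE_LFC : IsLFC TE := by
  apply SE.isLFC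
  rintro c ⟨g, hg, rfl⟩
  obtain ⟨p, k, hk, _, h⟩ := exists_pt ((TL_G0 hg v0).1 InD_v0.1)
  refine ⟨p, ?_⟩
  rw [h, AM_G0 hg, AMT, NT, Set.image_singleton]

theorem TE_convex : ∀ T ∈ TE, Convex ℝ T := fun _ hT => TE_LFC.convex hT

/-- automorphism induced by a group element -/
noncomputable def autE (g : W ≃ₗ[ℝ] W) (hg : g ∈ G0) : FL TE ≃o FL TE :=
  autF TE_convex (SE.hatE g hg)
    (by
      rintro _ ⟨c, hc, rfl⟩
      exact ⟨⟨g c, Ve_G hg hc, (SE.hat_Tile hg c).symm⟩, SE.hat_affOn hc g⟩)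
    (by
      rintro _ ⟨c, hc, rfl⟩
      exact ⟨⟨g⁻¹ c, Ve_G (inv_mem hg) hc, (SE.hat_Tile (inv_mem hg) c).symm⟩, SE.hat_affOn hc g⁻¹⟩)

/-- the face common to the tiles of `A` -/
def faceOf (A : Set W) : Set (E 3) := {p | ∀ c ∈ A, p ∈ SE.Tile c}

theorem faceOf_isFace {A : Set W} (hA : A ⊆ Ve) {v : W} (hv : v ∈ A) :
    IsFaceOf (SE.Tile v) (faceOf A) := by
  have e : faceOf A = ⋂ c : A, (SE.Tile v ∩ SE.Tile c) := by
    ext p; simp only [Set.mem_iInter, Set.mem_inter_iff]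
    exact ⟨fun h c => ⟨h v hv, h c c.2⟩, fun h c hc => (h ⟨c, hc⟩).2⟩
  rw [e]
  have : Nonempty A := ⟨⟨v, hv⟩⟩
  exact ⟨convex_iInter fun c => (SE.Tile_inter (hA hv) (hA c.2)).1,
    isExtreme_iInter fun c => (SE.Tile_inter (hA hv) (hA c.2)).2⟩

theorem AM_sub (X : W) : AM X ⊆ Ve := fun _ h => h.1

/-- the face of the tiling determined by a timelike vector -/
def FX (X : W) (hX : TL X) : FL TE := ⟨faceOf (AM X), Or.inr
  ⟨SE.Tile (AM_nonempty hX).some, ⟨_, AM_sub X (AM_nonempty hX).some_mem, rfl⟩,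
    faceOf_isFace (AM_sub X) (AM_nonempty hX).some_mem⟩⟩

def botE : FL TE := ⟨∅, Or.inr ⟨SE.Tile v0, ⟨v0, v0_mem, rfl⟩, isFaceOf_empty _⟩⟩
def topE : FL TE := topF TE

theorem botE_le (F : FL TE) : botE ≤ F := Set.empty_subset _
theorem le_topE (F : FL TE) : F ≤ topE := Set.subset_univ _

theorem NF_faceOf {X : W} (hX : TL X) : SE.NF (faceOf (AM X)) = AM X := by
  obtain ⟨p, k, hk, _, h⟩ := exists_pt hX
  apply Set.Subset.antisymm
  · rintro c ⟨hc, hs⟩
    rw [← h]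
    refine ⟨hc, hs ?_⟩
    intro c' hc'
    rw [← h] at hc'
    exact hc'.2
  · intro c hc
    exact ⟨AM_sub X hc, fun p hp => hp c hc⟩

theorem FX_nonempty {X : W} (hX : TL X) : (FX X hX).1.Nonempty := by
  obtain ⟨p, k, hk, _, h⟩ := exists_pt hX
  refine ⟨p, fun c hc => ?_⟩
  rw [← h] at hc
  exact hc.2

theorem FX_le {X Y : W} (hX : TL X) (hY : TL Y) : FX X hX ≤ FX Y hY ↔ AM Y ⊆ AM X := by
  constructor
  · intro h
    rw [← NF_faceOf hX, ← NF_faceOf hY]
    rintro c ⟨hc, hs⟩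
    exact ⟨hc, Set.Subset.trans h hs⟩
  · intro h p hp c hc
    exact hp c (h hc)

theorem FX_eq {X Y : W} (hX : TL X) (hY : TL Y) : FX X hX = FX Y hY ↔ AM X = AM Y := by
  constructor
  · intro h
    exact Set.Subset.antisymm ((FX_le hY hX).1 h.ge) ((FX_le hX hY).1 h.le)
  · intro h
    exact le_antisymm ((FX_le hX hY).2 h.ge) ((FX_le hY hX).2 h.le)

theorem FX_lt {X Y : W} (hX : TL X) (hY : TL Y) : FX X hX < FX Y hY ↔ AM Y ⊂ AM X := by
  rw [lt_iff_le_and_ne, FX_le, ne_eq, FX_eq, Set.ssubset_iff_subset_ne]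
  constructor
  · rintro ⟨h1, h2⟩; exact ⟨h1, fun h => h2 h.symm⟩
  · rintro ⟨h1, h2⟩; exact ⟨h1, fun h => h2 h.symm⟩

theorem faceOf_image {g : W ≃ₗ[ℝ] W} (hg : g ∈ G0) (A : Set W) :
    SE.hat g '' faceOf A = faceOf (g '' A) := by
  ext p
  constructor
  · rintro ⟨q, hq, rfl⟩ _ ⟨c, hc, rfl⟩
    rw [← SE.hat_Tile hg]
    exact ⟨q, hq c hc, rfl⟩
  · intro hp
    refine ⟨SE.hat g⁻¹ p, fun c hc => ?_, (SE.hatE g hg).apply_symm_apply p⟩
    have h1 := hp (g c) ⟨c, hc, rfl⟩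
    rw [← SE.hat_Tile hg] at h1
    obtain ⟨q, hq, hqp⟩ := h1
    have h2 : SE.hat g⁻¹ p = q := by
      rw [← hqp]; exact (SE.hatE g hg).symm_apply_apply q
    rw [h2]; exact hq

theorem autE_FX {g : W ≃ₗ[ℝ] W} (hg : g ∈ G0) {X : W} (hX : TL X) :
    autE g hg (FX X hX) = FX (g X) ((TL_G0 hg X).1 hX) := by
  apply Subtype.ext
  show SE.hat g '' faceOf (AM X) = faceOf (AM (g X))
  rw [faceOf_image hg, AM_G0 hg]

theorem autE_bot {g : W ≃ₗ[ℝ] W} (hg : g ∈ G0) : autE g hg botE = botE := by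
  apply Subtype.ext
  show SE.hat g '' ∅ = ∅
  exact Set.image_empty _

theorem autE_top {g : W ≃ₗ[ℝ] W} (hg : g ∈ G0) : autE g hg topE = topE := by
  apply Subtype.ext
  show SE.hat g '' Set.univ = Set.univ
  rw [Set.image_univ]
  exact (SE.hatE g hg).surjective.range_eq

/-- every proper nonempty face comes from a timelike vector -/
theorem exists_FX (F : FL TE) (hne : F ≠ botE) (hnt : F ≠ topE) : ∃ X, ∃ hX : TL X, F = FX X hX := by
  rcases F.2 with hu | ⟨_, ⟨c, hc, rfl⟩, hf⟩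
  · exact absurd (Subtype.ext hu) hnt
  · have hne' : F.1.Nonempty := by
      rw [Set.nonempty_iff_ne_empty]
      intro e; exact hne (Subtype.ext e)
    obtain ⟨z, hz, hN⟩ := SE.exists_relint hc hf hne'
    refine ⟨SE.L z, TL_L z, ?_⟩
    apply Subtype.ext
    show F.1 = faceOf (AM (SE.L z))
    rw [AM_L, hN]
    exact SE.face_eq hc hf hne'

/-- the standard faces -/
noncomputable def sT : FL TE := FX v0 InD_v0.1
noncomputable def sQ : FL TE := FX XQ InD_XQ.1
noncomputable def sE : FL TE := FX XE InD_XE.1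
noncomputable def sb : FL TE := FX Xb InD_Xb.1
noncomputable def sa : FL TE := FX Xa InD_Xa.1

theorem univ_ne : ∀ T ∈ TE, T ≠ Set.univ := fun _ hT => TE_LFC.ne_univ hT

theorem FX_ne_top {X : W} (hX : TL X) : FX X hX ≠ topE := by
  intro h
  rcases AM_nonempty hX with ⟨c, hc⟩
  have h1 : faceOf (AM X) = Set.univ := congrArg Subtype.val h
  apply univ_ne (SE.Tile c) ⟨c, AM_sub X hc, rfl⟩
  apply Set.univ_subset_iff.1
  rw [← h1]
  intro p hp; exact hp c hc

theorem FX_ne_bot {X : W} (hX : TL X) : FX X hX ≠ botE := by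
  intro h
  have h1 : faceOf (AM X) = ∅ := congrArg Subtype.val h
  exact (FX_nonempty hX).ne_empty h1

theorem FX_std {Z : W} (hZ : InD Z) : FX Z hZ.1 = sT ∨ FX Z hZ.1 = sQ ∨ FX Z hZ.1 = sE ∨
    FX Z hZ.1 = sb ∨ FX Z hZ.1 = sa := by
  rcases AM_cases hZ with h | h | h | h | h
  · left; exact (FX_eq _ _).2 (h.trans AMT.symm)
  · right; left; exact (FX_eq _ _).2 (h.trans AMQ.symm)
  · right; right; left; exact (FX_eq _ _).2 (h.trans AME.symm)
  · right; right; right; left; exact (FX_eq _ _).2 (h.trans AMb.symm)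
  · right; right; right; right; exact (FX_eq _ _).2 (h.trans AMa.symm)

/-- Normal form of chains. -/
theorem chain_normal (s : Set (FL TE)) (hs : IsChain (· ≤ ·) s) : ∃ (g : W ≃ₗ[ℝ] W) (hg : g ∈ G0),
    ∀ F ∈ s, autE g hg F = botE ∨ autE g hg F = topE ∨ autE g hg F = sT ∨ autE g hg F = sQ ∨
      autE g hg F = sE ∨ autE g hg F = sb ∨ autE g hg F = sa := by
  classical
  obtain ⟨_, ⟨c, hc, rfl⟩, hT⟩ := TE_LFC.chain_tile s hs
  let 𝒩 : Set (Set W) := {A | ∃ F ∈ s, F ≠ botE ∧ F ≠ topE ∧ A = SE.NF F.1}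
  have hfinN : {c' | c' ∈ Ve ∧ (SE.Tile c' ∩ SE.Tile c).Nonempty}.Finite := by
    have h := SE.Tile_locFin (SE.Tile_bounded hc)
    have : {c' | c' ∈ Ve ∧ (SE.Tile c' ∩ SE.Tile c).Nonempty} =
        (fun c' : Ve => (c' : W)) '' {c' : Ve | (SE.Tile c' ∩ SE.Tile c).Nonempty} := by
      ext c'; constructor
      · rintro ⟨h1, h2⟩; exact ⟨⟨c', h1⟩, h2, rfl⟩
      · rintro ⟨⟨c', h1⟩, h2, rfl⟩; exact ⟨h1, h2⟩
    rw [this]; exact h.image _
  have hfin : 𝒩.Finite := by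
    apply hfinN.finite_subsets.subset
    rintro _ ⟨F, hF, hb, ht, rfl⟩ c' hc'
    have hne : F.1.Nonempty := by
      rw [Set.nonempty_iff_ne_empty]
      intro e; exact hb (Subtype.ext e)
    obtain ⟨x, hx⟩ := hne
    refine ⟨hc'.1, x, hc'.2 hx, ?_⟩
    rcases hT F hF with h | h
    · exact absurd (Subtype.ext h) ht
    · exact h hx
  obtain ⟨h, hh, hstd⟩ := norm_chain' hfin.toFinset (by
      intro A hA
      rw [Set.Finite.mem_toFinset] at hA
      obtain ⟨F, hF, hb, ht, rfl⟩ := hA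
      obtain ⟨X, hX, rfl⟩ := exists_FX F hb ht
      exact ⟨X, hX, NF_faceOf hX⟩) (by
      intro A hA A' hA'
      rw [Set.Finite.mem_toFinset] at hA hA'
      obtain ⟨F, hF, _, _, rfl⟩ := hA
      obtain ⟨F', hF', _, _, rfl⟩ := hA'
      rcases hs.total hF hF' with h | h
      · right; rintro c ⟨hc, h2⟩; exact ⟨hc, Set.Subset.trans h h2⟩
      · left; rintro c ⟨hc, h2⟩; exact ⟨hc, Set.Subset.trans h h2⟩)
  refine ⟨h, hh, fun F hF => ?_⟩
  by_cases hb : F = botE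
  · left; rw [hb]; exact autE_bot hh
  · by_cases ht : F = topE
    · right; left; rw [ht]; exact autE_top hh
    · right; right
      obtain ⟨Z, hZ, e⟩ := hstd (SE.NF F.1) (by
        rw [Set.Finite.mem_toFinset]; exact ⟨F, hF, hb, ht, rfl⟩)
      obtain ⟨X, hX, rfl⟩ := exists_FX F hb ht
      have e1 : SE.NF (FX X hX).1 = AM X := NF_faceOf hX
      rw [e1, ← AM_G0 hh] at e
      have e2 : autE h hh (FX X hX) = FX Z hZ.1 := by
        rw [autE_FX hh hX, FX_eq]; exact e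
      rw [e2]
      exact FX_std hZ

/-! ### The two standard flags -/

theorem NT_NQ : NT ⊂ NQ := by
  rw [Set.ssubset_iff_of_subset (by rintro v rfl; left; rfl)]
  refine ⟨v1, Or.inr rfl, fun h => ?_⟩
  have : v1 = v0 := h
  have h0 : v1 0 = v0 0 := by rw [this]
  simp [v1, v0] at h0; norm_num at h0
theorem NQ_NE : NQ ⊂ NE := by
  rw [Set.ssubset_iff_of_subset (by rintro v (rfl | rfl); exacts [Or.inl rfl, Or.inr (Or.inl rfl)])]
  refine ⟨v2, Or.inr (Or.inr rfl), fun h => ?_⟩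
  rcases h with h | h
  · have h0 : v2 0 = v0 0 := by rw [h]
    simp [v2, v0] at h0; norm_num at h0
  · have h0 : v2 1 = v1 1 := by rw [h]
    simp [v2, v1] at h0; norm_num at h0
theorem NE_Nb : NE ⊂ Nb := by
  rw [Set.ssubset_iff_of_subset (by
    rintro v (rfl | rfl | rfl); exacts [Or.inl rfl, Or.inr (Or.inl rfl), Or.inr (Or.inr (Or.inl rfl))])]
  refine ⟨v3, Or.inr (Or.inr (Or.inr rfl)), fun h => ?_⟩
  rcases h with h | h | h
  · have h0 : v3 1 = v0 1 := by rw [h]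
    simp [v3, v0] at h0; norm_num at h0
  · have h0 : v3 0 = v1 0 := by rw [h]
    simp [v3, v1] at h0; norm_num at h0
  · have h0 : v3 0 = v2 0 := by rw [h]
    simp [v3, v2] at h0; norm_num at h0
theorem v4_Na : v4 ∈ Na := by
  refine ⟨v4_mem, ?_⟩
  simp [Nf, v4]; linear_combination 3 * ph_mul
theorem NE_Na : NE ⊂ Na := by
  have hsub : NE ⊆ Na := by
    rw [← AME, ← AMa]
    intro v hv
    rw [AM_iff InD_XE] at hv
    rw [AM_iff InD_Xa]
    refine ⟨hv.1, by simp [f, Xa], ?_, by simp [f, Xa], by simp [f, Xa]⟩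
    have := hv.2.2.1
    simp [f, XE] at this
    simp [f, Xa]
    exact this
  rw [Set.ssubset_iff_of_subset hsub]
  refine ⟨v4, v4_Na, fun h => ?_⟩
  have p1 := ph_gt
  rcases h with h | h | h
  · have h0 : v4 3 = v0 3 := by rw [h]
    simp [v4, v0] at h0; linarith
  · have h0 : v4 3 = v1 3 := by rw [h]
    simp [v4, v1] at h0; linarith
  · have h0 : v4 3 = v2 3 := by rw [h]
    simp [v4, v2] at h0; linarith
theorem v3_not_Na : v3 ∉ Na := by
  rintro ⟨_, h⟩
  simp [Nf, v3] at h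
  have p1 := ph_gt
  have hm := ph_mul
  nlinarith
theorem v4_not_Nb : v4 ∉ Nb := by
  have p1 := ph_gt
  intro h
  rcases h with h | h | h | h
  · have h0 : v4 3 = v0 3 := by rw [h]
    simp [v4, v0] at h0; linarith
  · have h0 : v4 3 = v1 3 := by rw [h]
    simp [v4, v1] at h0; linarith
  · have h0 : v4 3 = v2 3 := by rw [h]
    simp [v4, v2] at h0; linarith
  · have h0 : v4 3 = v3 3 := by rw [h]
    simp [v4, v3] at h0; linarith

theorem sQ_lt_sT : sQ < sT := by rw [sQ, sT, FX_lt, AMT, AMQ]; exact NT_NQ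
theorem sE_lt_sQ : sE < sQ := by rw [sQ, sE, FX_lt, AME, AMQ]; exact NQ_NE
theorem sb_lt_sE : sb < sE := by rw [sb, sE, FX_lt, AME, AMb]; exact NE_Nb
theorem sa_lt_sE : sa < sE := by rw [sa, sE, FX_lt, AME, AMa]; exact NE_Na
theorem not_sa_le_sb : ¬ sa ≤ sb := by
  rw [sa, sb, FX_le, AMa, AMb]
  intro h
  exact v3_not_Na (h (Or.inr (Or.inr (Or.inr rfl))))
theorem not_sb_le_sa : ¬ sb ≤ sa := by
  rw [sa, sb, FX_le, AMa, AMb]
  intro h
  exact v4_not_Nb (h v4_Na)

/-- the two standard flags, enumerated -/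
noncomputable def fA : Fin 6 → FL TE := ![botE, sa, sE, sQ, sT, topE]
noncomputable def fB : Fin 6 → FL TE := ![botE, sb, sE, sQ, sT, topE]

theorem sT_lt_top : sT < topE := lt_of_le_of_ne (le_topE _) (FX_ne_top _)
theorem bot_lt_sa : botE < sa := lt_of_le_of_ne (botE_le _) (FX_ne_bot _).symm
theorem bot_lt_sb : botE < sb := lt_of_le_of_ne (botE_le _) (FX_ne_bot _).symm

theorem fA_strictMono : StrictMono fA := by
  rw [Fin.strictMono_iff_lt_succ]
  intro i
  fin_cases i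
  · exact bot_lt_sa
  · exact sa_lt_sE
  · exact sE_lt_sQ
  · exact sQ_lt_sT
  · exact sT_lt_top
theorem fB_strictMono : StrictMono fB := by
  rw [Fin.strictMono_iff_lt_succ]
  intro i
  fin_cases i
  · exact bot_lt_sb
  · exact sb_lt_sE
  · exact sE_lt_sQ
  · exact sQ_lt_sT
  · exact sT_lt_top

theorem chain_of_mono {φ : Fin 6 → FL TE} (h : StrictMono φ) : IsChain (· ≤ ·) (Set.range φ) := by
  rintro _ ⟨i, rfl⟩ _ ⟨j, rfl⟩ _
  rcases le_total i j with h2 | h2
  · left; exact h.monotone h2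
  · right; exact h.monotone h2

theorem flag_normal (s : Flag (FL TE)) : ∃ (g : W ≃ₗ[ℝ] W) (hg : g ∈ G0),
    autE g hg '' (s : Set (FL TE)) = Set.range fA ∨ autE g hg '' (s : Set (FL TE)) = Set.range fB := by
  obtain ⟨g, hg, h⟩ := chain_normal s s.chain_le
  refine ⟨g, hg, ?_⟩
  have hch : IsChain (· ≤ ·) (autE g hg '' (s : Set (FL TE))) := (Flag.map (autE g hg) s).chain_le
  by_cases hb : sb ∈ autE g hg '' (s : Set (FL TE))
  · right
    apply (Flag.map (autE g hg) s).max_chain' (chain_of_mono fB_strictMono)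
    rintro _ ⟨F, hF, rfl⟩
    rcases h F hF with e | e | e | e | e | e | e
    · exact ⟨0, e.symm⟩
    · exact ⟨5, e.symm⟩
    · exact ⟨4, e.symm⟩
    · exact ⟨3, e.symm⟩
    · exact ⟨2, e.symm⟩
    · exact ⟨1, e.symm⟩
    · exfalso
      have ha : sa ∈ autE g hg '' (s : Set (FL TE)) := ⟨F, hF, e⟩
      rcases hch.total ha hb with h1 | h1
      · exact not_sa_le_sb h1
      · exact not_sb_le_sa h1
  · left
    apply (Flag.map (autE g hg) s).max_chain' (chain_of_mono fA_strictMono)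
    rintro _ ⟨F, hF, rfl⟩
    rcases h F hF with e | e | e | e | e | e | e
    · exact ⟨0, e.symm⟩
    · exact ⟨5, e.symm⟩
    · exact ⟨4, e.symm⟩
    · exact ⟨3, e.symm⟩
    · exact ⟨2, e.symm⟩
    · exact absurd ⟨F, hF, e⟩ hb
    · exact ⟨1, e.symm⟩

/-- the standard sequences are flags -/
theorem flag_of {φ : Fin 6 → FL TE} (hφ : StrictMono φ) :
    ∃ s : Flag (FL TE), (s : Set (FL TE)) = Set.range φ := by
  obtain ⟨s, hs⟩ := (chain_of_mono hφ).exists_subset_flag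
  refine ⟨s, ?_⟩
  symm
  -- compare cardinalities
  obtain ⟨g, hg, h⟩ := flag_normal s
  have hcard : ∀ ψ : Fin 6 → FL TE, StrictMono ψ → (Set.range ψ).ncard = 6 := by
    intro ψ hψ
    rw [← Set.image_univ, Set.ncard_image_of_injective _ hψ.injective, Set.ncard_univ, Nat.card_fin]
  have hs6 : (s : Set (FL TE)).ncard = 6 := by
    rw [← Set.ncard_image_of_injective (s : Set (FL TE)) (autE g hg).injective]
    rcases h with h | h
    · rw [h]; exact hcard _ fA_strictMono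
    · rw [h]; exact hcard _ fB_strictMono
  exact Set.eq_of_subset_of_ncard_le hs (by rw [hs6, hcard _ hφ])
    (Set.finite_of_ncard_pos (by rw [hs6]; norm_num))

end Pool.R179.Ev
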