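import Pool.Agent.R179.EvE

/-!
# The even tiling: diamonds, rigidity, exactly two flag orbits
-/

namespace Pool.R179.Ev
open Pool.R179.H435 (W B ph ph_gt ph_lt ph_mul ph_inv up pr rho rho_nonneg rho_sq up_0 up_1 up_2 up_3
  pr_0 pr_1 pr_2 pr_up up_pr pr_comb B_comm B_add_left B_smul_left mkLin w01 w12 rr w01_apply w12_apply
  rr_apply)
open Pool.R179.LFC Pool.R179.Gen

theorem AM_smul {k : ℝ} (hk : 0 < k) (X : W) : AM (k • X) = AM X := by
  ext v
  constructor
  · rintro ⟨hv, h⟩
    refine ⟨hv, fun v' hv' => ?_⟩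
    have := h v' hv'
    rw [B_smul_left, B_smul_left] at this
    exact le_of_mul_le_mul_left this hk
  · rintro ⟨hv, h⟩
    refine ⟨hv, fun v' hv' => ?_⟩
    rw [B_smul_left, B_smul_left]
    exact mul_le_mul_of_nonneg_left (h v' hv') hk.le

/-- the reflections as automorphisms -/
noncomputable def rf (j : Fin 4) : FL TE ≃o FL TE := autE (R j) (R_mem j)

theorem rf_FX (j : Fin 4) {X : W} (hX : TL X) : rf j (FX X hX) = FX (R j X) (TL_R hX j) :=
  autE_FX (R_mem j) hX

theorem FX_congr {X Y : W} (hX : TL X) (hY : TL Y) (h : X = Y) : FX X hX = FX Y hY := by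
  subst h; rfl

theorem rf_fix {j : Fin 4} {X : W} (hX : TL X) (h : f j X = 0) : rf j (FX X hX) = FX X hX := by
  rw [rf_FX]; exact FX_congr _ _ (R_fix h)

theorem rf0_sT : rf 0 sT = sT := rf_fix _ (by simp [f, v0])
theorem rf0_sQ : rf 0 sQ = sQ := rf_fix _ (by simp [f, XQ])
theorem rf0_sb : rf 0 sb = sb := rf_fix _ (by simp [f, Xb])
theorem rf1_sQ : rf 1 sQ = sQ := rf_fix _ (by simp [f, XQ])
theorem rf1_sE : rf 1 sE = sE := rf_fix _ (by simp [f, XE])
theorem rf1_sb : rf 1 sb = sb := rf_fix _ (by simp [f, Xb])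
theorem rf1_sa : rf 1 sa = sa := rf_fix _ (by simp [f, Xa])
theorem rf2_sT : rf 2 sT = sT := rf_fix _ (by simp [f, v0])
theorem rf2_sE : rf 2 sE = sE := rf_fix _ (by simp [f, XE])
theorem rf2_sb : rf 2 sb = sb := rf_fix _ (by simp [f, Xb])
theorem rf2_sa : rf 2 sa = sa := rf_fix _ (by simp [f, Xa])
theorem rf3_sT : rf 3 sT = sT := rf_fix _ (by simp [f, v0])
theorem rf3_sQ : rf 3 sQ = sQ := rf_fix _ (by simp [f, XQ])
theorem rf3_sa : rf 3 sa = sa := rf_fix _ (by simp [f, Xa])

theorem R_v0 : R 0 v0 = v0 := R_fix (by simp [f, v0])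
theorem R_v1 : R 0 v1 = v1 := R_fix (by simp [f, v1])
theorem R2_v0 : R 2 v0 = v0 := R_fix (by simp [f, v0])
theorem R3_v0 : R 3 v0 = v0 := R_fix (by simp [f, v0])
theorem R3_v1 : R 3 v1 = v1 := R_fix (by simp [f, v1])

/-- atoms -/
theorem AM_ge_Nb {X : W} (hX : TL X) (h : Nb ⊆ AM X) : AM X = Nb := by
  have h0 : v0 ∈ AM X := h (Or.inl rfl)
  have h1 : v1 ∈ AM X := h (Or.inr (Or.inl rfl))
  have h2 : v2 ∈ AM X := h (Or.inr (Or.inr (Or.inl rfl)))
  have h3 : v3 ∈ AM X := h (Or.inr (Or.inr (Or.inr rfl)))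
  have e1 := le_antisymm (h0.2 v1 v1_mem) (h1.2 v0 v0_mem)
  have e2 := le_antisymm (h0.2 v2 v2_mem) (h2.2 v0 v0_mem)
  have e3 := le_antisymm (h0.2 v3 v3_mem) (h3.2 v0 v0_mem)
  simp [B, v0, v1] at e1
  simp [B, v0, v2] at e2
  simp [B, v0, v3] at e3
  have x0 : X 0 = 0 := by linarith
  have x1 : X 1 = 0 := by linarith
  have x2 : X 2 = 0 := by linarith
  have e : X = X 3 • Xb := by
    ext i; fin_cases i
    · simp [Xb, x0]
    · simp [Xb, x1]
    · simp [Xb, x2]
    · simp [Xb]
  rw [e, AM_smul ((TL_iff X).1 hX).2, AMb]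

theorem line_E {X : W} (h0 : v0 ∈ AM X) (h1 : v1 ∈ AM X) (h2 : v2 ∈ AM X) :
    X 0 = -X 2 ∧ X 1 = X 2 := by
  have e1 := le_antisymm (h0.2 v1 v1_mem) (h1.2 v0 v0_mem)
  have e2 := le_antisymm (h0.2 v2 v2_mem) (h2.2 v0 v0_mem)
  simp [B, v0, v1] at e1
  simp [B, v0, v2] at e2
  constructor <;> linarith

theorem NE_sub_Nb : NE ⊆ Nb := NE_Nb.1
theorem NE_sub_Na : NE ⊆ Na := NE_Na.1

theorem AM_ge_Na {X : W} (hX : TL X) (h : Na ⊆ AM X) : AM X = Na := by
  have hN := NE_sub_Na.trans h
  have h0 : v0 ∈ AM X := hN (Or.inl rfl)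
  have h1 : v1 ∈ AM X := hN (Or.inr (Or.inl rfl))
  have h2 : v2 ∈ AM X := hN (Or.inr (Or.inr rfl))
  have h4 : v4 ∈ AM X := h v4_Na
  obtain ⟨x0, x1⟩ := line_E h0 h1 h2
  have e4 := le_antisymm (h0.2 v4 v4_mem) (h4.2 v0 v0_mem)
  have p1 := ph_gt
  have hm := ph_mul
  simp [B, v0, v4] at e4
  rw [x0, x1] at e4
  have x3 : X 3 = (ph + 1) * X 2 := by
    linear_combination (-1/2 : ℝ) * e4 - X 3 * hm
  have e : X = X 2 • Xa := by
    ext i; fin_cases i
    · simp [Xa, x0]
    · simp [Xa, x1]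
    · simp [Xa]
    · simp [Xa, x3]; ring
  have hpos : 0 < X 2 := by
    have := ((TL_iff X).1 hX).2
    rw [x3] at this
    by_contra hc
    push Not at hc
    nlinarith
  rw [e, AM_smul hpos, AMa]

theorem atom_sb {F : FL TE} (h : F ≤ sb) (hne : F ≠ botE) : F = sb := by
  obtain ⟨X, hX, rfl⟩ := exists_FX F hne (fun e => FX_ne_top _ (le_antisymm (le_topE _) (e ▸ h)))
  rw [sb, FX_le, AMb] at h
  rw [sb, FX_eq, AMb]
  exact AM_ge_Nb hX h

theorem atom_sa {F : FL TE} (h : F ≤ sa) (hne : F ≠ botE) : F = sa := by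
  obtain ⟨X, hX, rfl⟩ := exists_FX F hne (fun e => FX_ne_top _ (le_antisymm (le_topE _) (e ▸ h)))
  rw [sa, FX_le, AMa] at h
  rw [sa, FX_eq, AMa]
  exact AM_ge_Na hX h

/-- vertices of the standard edge -/
theorem D0 {F : FL TE} (h : F < sE) (hne : F ≠ botE) : F = sa ∨ F = sb := by
  obtain ⟨X, hX, rfl⟩ := exists_FX F hne (fun e => FX_ne_top _ (le_antisymm (le_topE _) (e ▸ h.le)))
  rw [sE, FX_lt, AME] at h
  have h0 : v0 ∈ AM X := h.1 (Or.inl rfl)
  have h1 : v1 ∈ AM X := h.1 (Or.inr (Or.inl rfl))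
  have h2 : v2 ∈ AM X := h.1 (Or.inr (Or.inr rfl))
  obtain ⟨x0, x1⟩ := line_E h0 h1 h2
  have i3 := h0.2 v3 v3_mem
  have i4 := h0.2 v4 v4_mem
  have p1 := ph_gt
  have hm := ph_mul
  simp [B, v0, v3] at i3
  simp [B, v0, v4] at i4
  rw [x0, x1] at i3 i4
  have u0 : 0 ≤ X 2 := by linarith
  have u3 : 0 ≤ X 3 - (ph + 1) * X 2 := by
    have e : (X 3 - (ph + 1) * X 2) = (1/2 : ℝ) * ((X 2 * -1 + X 2 + X 2 - (ph - 1) * (X 3 * (ph + 1))) -
      (X 2 + X 2 + X 2 * (2 * ph + 1) - (ph - 1) * (X 3 * (3 * ph + 1)))) + 0 := by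
      linear_combination (X 3) * hm * (-1)
    rw [e]; linarith
  have hD : InD X := by
    refine ⟨hX, fun j => ?_⟩
    fin_cases j
    · show 0 ≤ X 1 - X 0; rw [x0, x1]; linarith
    · show 0 ≤ X 1 + X 0; rw [x0, x1]; linarith
    · show 0 ≤ X 2 - X 1; rw [x1]; linarith
    · exact u3
  have f1 : f 1 X = 0 := by show X 1 + X 0 = 0; rw [x0, x1]; ring
  have f2 : f 2 X = 0 := by show X 2 - X 1 = 0; rw [x1]; ring
  rcases (hD.2 0).lt_or_eq with f0 | f0
  · rcases (hD.2 3).lt_or_eq with f3 | f3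
    · exfalso
      rw [AM_E hD f1 f2 f0 f3] at h
      exact (Set.ssubset_iff_subset_ne.1 h).2 rfl
    · left
      rw [sa, FX_eq, AMa]
      exact AM_a hD f1 f2 f3.symm f0
  · rcases (hD.2 3).lt_or_eq with f3 | f3
    · right
      rw [sb, FX_eq, AMb]
      exact AM_b hD f1 f2 f0.symm f3
    · exfalso
      have e0 : X 1 - X 0 = 0 := f0.symm
      have e3 : X 3 - (ph + 1) * X 2 = 0 := f3.symm
      have z2 : X 2 = 0 := by rw [x0, x1] at e0; linarith
      rw [z2] at e3
      have := ((TL_iff X).1 hX).2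
      linarith

theorem AM_R {j : Fin 4} (X : W) : AM (R j X) = R j '' AM X := AM_G0 (R_mem j) X

theorem D3 {F : FL TE} (h : sQ < F) (ht : F < topE) : F = sT ∨ F = rf 1 sT := by
  obtain ⟨X, hX, rfl⟩ := exists_FX F (fun e => by rw [e] at h; exact (botE_le _).not_gt h) ht.ne
  rw [sQ, FX_lt, AMQ] at h
  obtain ⟨c, hc⟩ := AM_nonempty hX
  have hsub := h.1
  by_cases h0 : v0 ∈ AM X
  · left
    rw [sT, FX_eq, AMT]
    apply Set.Subset.antisymm
    · intro v hv
      rcases hsub hv with h1 | h1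
      · exact h1
      · exfalso
        apply h.2
        rintro w (rfl | rfl)
        · exact h0
        · rw [← h1]; exact hv
    · rintro v rfl; exact h0
  · right
    rw [sT, rf_FX, FX_eq, AM_R, AMT, NT, Set.image_singleton, R1v0]
    apply Set.Subset.antisymm
    · intro v hv
      rcases hsub hv with h1 | h1
      · rw [h1] at hv; exact absurd hv h0
      · exact h1
    · rintro v rfl
      rcases hsub hc with h1 | h1
      · rw [h1] at hc; exact absurd hc h0
      · rw [← h1]; exact hc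

theorem D2 {F : FL TE} (h : sE < F) (ht : F < sT) : F = sQ ∨ F = rf 2 sQ := by
  obtain ⟨X, hX, rfl⟩ := exists_FX F (fun e => by rw [e] at h; exact (botE_le _).not_gt h)
    (fun e => by rw [e] at ht; exact (le_topE _).not_gt ht)
  rw [sE, FX_lt, AME] at h
  rw [sT, FX_lt, AMT] at ht
  have h0 : v0 ∈ AM X := ht.1 rfl
  have hsub := h.1
  by_cases h1 : v1 ∈ AM X
  · left
    rw [sQ, FX_eq, AMQ]
    apply Set.Subset.antisymm
    · intro v hv
      rcases hsub hv with e | e | e
      · left; exact e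
      · right; exact e
      · exfalso
        apply h.2
        rintro w (rfl | rfl | rfl)
        · exact h0
        · exact h1
        · rw [← e]; exact hv
    · rintro v (rfl | rfl)
      · exact h0
      · exact h1
  · right
    rw [sQ, rf_FX, FX_eq, AM_R, AMQ, NQ, Set.image_pair, R2_v0, R2v1]
    apply Set.Subset.antisymm
    · intro v hv
      rcases hsub hv with e | e | e
      · left; exact e
      · rw [e] at hv; exact absurd hv h1
      · right; exact e
    · have h2 : v2 ∈ AM X := by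
        by_contra h2
        apply ht.2
        intro v hv
        rcases hsub hv with e | e | e
        · exact e
        · rw [e] at hv; exact absurd hv h1
        · rw [e] at hv; exact absurd hv h2
      rintro v (rfl | rfl)
      · exact h0
      · exact h2

theorem D1b {F : FL TE} (h : sb < F) (ht : F < sQ) : F = sE ∨ F = rf 0 sE := by
  obtain ⟨X, hX, rfl⟩ := exists_FX F (fun e => by rw [e] at h; exact (botE_le _).not_gt h)
    (fun e => by rw [e] at ht; exact (le_topE _).not_gt ht)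
  rw [sb, FX_lt, AMb] at h
  rw [sQ, FX_lt, AMQ] at ht
  have h0 : v0 ∈ AM X := ht.1 (Or.inl rfl)
  have h1 : v1 ∈ AM X := ht.1 (Or.inr rfl)
  have hsub := h.1
  by_cases h2 : v2 ∈ AM X
  · left
    rw [sE, FX_eq, AME]
    apply Set.Subset.antisymm
    · intro v hv
      rcases hsub hv with e | e | e | e
      · left; exact e
      · right; left; exact e
      · right; right; exact e
      · exfalso
        apply h.2
        rintro w (rfl | rfl | rfl | rfl)
        · exact h0
        · exact h1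
        · exact h2
        · rw [← e]; exact hv
    · rintro v (rfl | rfl | rfl)
      · exact h0
      · exact h1
      · exact h2
  · right
    have e3 : R 0 '' NE = {v0, v1, v3} := by
      rw [NE, Set.image_insert_eq, Set.image_pair, R_v0, R_v1, R0v2]
    rw [sE, rf_FX, FX_eq, AM_R, AME, e3]
    apply Set.Subset.antisymm
    · intro v hv
      rcases hsub hv with e | e | e | e
      · left; exact e
      · right; left; exact e
      · rw [e] at hv; exact absurd hv h2
      · right; right; exact e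
    · have h3 : v3 ∈ AM X := by
        by_contra h3
        apply ht.2
        intro v hv
        rcases hsub hv with e | e | e | e
        · left; exact e
        · right; exact e
        · rw [e] at hv; exact absurd hv h2
        · rw [e] at hv; exact absurd hv h3
      rintro v (rfl | rfl | rfl)
      · exact h0
      · exact h1
      · exact h3

/-- the two common neighbours of `v0`, `v1` around `Xa` -/
theorem third {v : W} (hv : v ∈ Na) (h0 : B v v0 = -(2 * ph + 2)) (h1 : B v v1 = -(2 * ph + 2)) :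
    v = v2 ∨ v = v4 := by
  obtain ⟨hVe, hN⟩ := hv
  have hn := Ve_norm hVe
  have p1 := ph_gt
  have hm := ph_mul
  simp [B, v0] at h0
  simp [B, v1] at h1
  simp [Nf] at hN
  simp only [B] at hn
  have e0 : v 0 = -1 := by
    linear_combination (1/2 : ℝ) * h0 + (1/2 : ℝ) * hN + (1/2 * v 3) * hm
  have e1 : v 1 = 1 := by
    linear_combination (1/2 : ℝ) * h0 - (1/2 : ℝ) * h1 - e0
  have e3 : v 3 = (ph - 1) * (v 2 + 2 * ph + 2) := by
    linear_combination (ph - 1) * hN - (v 3) * ph_inv - (ph - 1) * e0 + (ph - 1) * e1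
  rw [e0, e1, e3] at hn
  have hq : (4 - 2 * ph) * ((v 2 + 1) * (v 2 - (2 * ph + 1))) = 0 := by
    linear_combination hn + (12 * v 2 + 8 * ph + 16 + (ph - 2) * (v 2 + 2 * ph + 2) ^ 2) * hm
  have p2 := ph_lt
  rcases mul_eq_zero.1 hq with h | h
  · linarith
  · rcases mul_eq_zero.1 h with h | h
    · left
      have y : v 2 = -1 := by linarith
      rw [y] at e3
      ext i; fin_cases i
      · exact e0
      · exact e1
      · exact y
      · show v 3 = ph + 1
        rw [e3]; linear_combination 2 * hm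
    · right
      have y : v 2 = 2 * ph + 1 := by linarith
      rw [y] at e3
      ext i; fin_cases i
      · exact e0
      · exact e1
      · exact y
      · show v 3 = 3 * ph + 1
        rw [e3]; linear_combination 4 * hm

theorem B01 : B v0 v1 = -(2 * ph + 2) := by
  simp [B, v0, v1]; linear_combination (-ph - 2) * ph_mul
theorem B02 : B v0 v2 = -(2 * ph + 2) := by
  simp [B, v0, v2]; linear_combination (-ph - 2) * ph_mul
theorem B12 : B v1 v2 = -(2 * ph + 2) := by
  simp [B, v1, v2]; linear_combination (-ph - 2) * ph_mul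

/-- the image of the standard triple -/
theorem NE_third {g : W ≃ₗ[ℝ] W} (hg : g ∈ G0) (h0 : v0 ∈ g '' NE) (h1 : v1 ∈ g '' NE) :
    ∃ v, g '' NE = {v0, v1, v} ∧ B v v0 = -(2 * ph + 2) ∧ B v v1 = -(2 * ph + 2) := by
  have e : g '' NE = {g v0, g v1, g v2} := by
    rw [NE, Set.image_insert_eq, Set.image_pair]
  have b01 : B (g v0) (g v1) = -(2 * ph + 2) := by rw [G0_B hg, B01]
  have b02 : B (g v0) (g v2) = -(2 * ph + 2) := by rw [G0_B hg, B02]
  have b12 : B (g v1) (g v2) = -(2 * ph + 2) := by rw [G0_B hg, B12]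
  have b10 := b01; rw [B_comm] at b10
  have b20 := b02; rw [B_comm] at b20
  have b21 := b12; rw [B_comm] at b21
  have hne : v0 ≠ v1 := by
    intro h
    have h0 : v0 0 = v1 0 := by rw [h]
    simp [v1, v0] at h0; norm_num at h0
  rw [e] at h0 h1 ⊢
  have cg : ∀ {x y z : W} {r : ℝ}, x = y → B z y = r → B z x = r := by
    intro x y z r hxy hr; rw [hxy]; exact hr
  rcases h0 with h0 | h0 | h0 <;> rcases h1 with h1 | h1 | h1
  · exact absurd (h0.trans h1.symm) hne
  · exact ⟨g v2, by rw [← h0, ← h1], cg h0 b20, cg h1 b21⟩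
  · exact ⟨g v1, by rw [← h0, ← h1]; rw [Set.pair_comm], cg h0 b10, cg h1 b12⟩
  · exact ⟨g v2, by rw [← h0, ← h1]; rw [Set.insert_comm], cg h0 b21, cg h1 b20⟩
  · exact absurd (h0.trans h1.symm) hne
  · refine ⟨g v0, ?_, cg h0 b01, cg h1 b02⟩
    rw [← h0, ← h1]; ext x; simp only [Set.mem_insert_iff, Set.mem_singleton_iff]; tauto
  · refine ⟨g v1, ?_, cg h0 b12, cg h1 b10⟩
    rw [← h0, ← h1]; ext x; simp only [Set.mem_insert_iff, Set.mem_singleton_iff]; tauto
  · refine ⟨g v0, ?_, cg h0 b02, cg h1 b01⟩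
    rw [← h0, ← h1]; ext x; simp only [Set.mem_insert_iff, Set.mem_singleton_iff]; tauto
  · exact absurd (h0.trans h1.symm) hne

theorem D1a {F : FL TE} (h : sa < F) (ht : F < sQ) : F = sE ∨ F = rf 3 sE := by
  obtain ⟨X, hX, rfl⟩ := exists_FX F (fun e => by rw [e] at h; exact (botE_le _).not_gt h)
    (fun e => by rw [e] at ht; exact (le_topE _).not_gt ht)
  -- normal form of the face
  obtain ⟨g, hg, hstd⟩ := chain_normal {FX X hX} IsChain.singleton
  have hs := hstd _ rfl
  have hgi : g⁻¹ ∈ G0 := inv_mem hg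
  have h' := h
  have ht' := ht
  rw [sa, FX_lt, AMa] at h'
  rw [sQ, FX_lt, AMQ] at ht'
  have hv0 : v0 ∈ AM X := ht'.1 (Or.inl rfl)
  have hv1 : v1 ∈ AM X := ht'.1 (Or.inr rfl)
  have back : ∀ (Y : W) (hY : TL Y), autE g hg (FX X hX) = FX Y hY →
      AM X = (g⁻¹ : W ≃ₗ[ℝ] W) '' AM Y := by
    intro Y hY e
    rw [autE_FX hg hX, FX_eq, AM_G0 hg] at e
    rw [← e, Set.image_image]
    simp only [inv_mul_apply, Set.image_id']
  have notatom : ∀ s : FL TE, (∀ F : FL TE, F ≤ s → F ≠ botE → F = s) →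
      autE g hg (FX X hX) ≠ s := by
    intro s hs e
    have h2 : autE g hg sa < s := by rw [← e]; exact (autE g hg).strictMono h
    have h3 := hs _ h2.le (fun e2 => by
      have : autE g hg sa = autE g hg botE := by rw [e2, autE_bot hg]
      exact bot_lt_sa.ne ((autE g hg).injective this).symm)
    exact h2.ne h3
  rcases hs with e | e | e | e | e | e | e
  · exfalso
    rw [← autE_bot hg] at e
    exact FX_ne_bot hX ((autE g hg).injective e)
  · exfalso
    rw [← autE_top hg] at e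
    exact FX_ne_top hX ((autE g hg).injective e)
  · exfalso
    have e1 := back _ _ e
    rw [AMT, NT, Set.image_singleton] at e1
    rw [e1] at hv0 hv1
    have e2 : v0 = v1 := (show v0 = g⁻¹ v0 from hv0).trans (show v1 = g⁻¹ v0 from hv1).symm
    have h0 : v0 0 = v1 0 := by rw [e2]
    simp [v1, v0] at h0; norm_num at h0
  · exfalso
    have e1 := back _ _ e
    rw [AMQ, NQ, Set.image_pair] at e1
    apply ht'.2
    rw [e1] at hv0 hv1 ⊢
    have hne : v0 ≠ v1 := by
      intro h
      have h0 : v0 0 = v1 0 := by rw [h]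
      simp [v1, v0] at h0; norm_num at h0
    rcases hv0 with k0 | k0 <;> rcases hv1 with k1 | k1
    · exact absurd (k0.trans k1.symm) hne
    · rw [← k0, ← k1]; exact Set.Subset.refl _
    · rw [← k0, ← k1]
      intro x hx
      rcases hx with hx | hx
      · right; exact hx
      · left; exact hx
    · exact absurd (k0.trans k1.symm) hne
  · have e1 := back _ _ e
    rw [AME] at e1
    rw [e1] at hv0 hv1
    obtain ⟨v, hv, b0, b1⟩ := NE_third hgi hv0 hv1
    rw [← e1] at hv
    have hvNa : v ∈ Na := h'.1 (by rw [hv]; right; right; rfl)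
    rcases third hvNa b0 b1 with e2 | e2
    · left
      rw [sE, FX_eq, AME, hv, e2, NE]
    · right
      rw [sE, rf_FX, FX_eq, AM_R, AME, hv, e2, NE, Set.image_insert_eq, Set.image_pair, R3_v0, R3_v1, R3v2]
  · exact absurd e (notatom sb (fun F h1 h2 => atom_sb h1 h2))
  · exact absurd e (notatom sa (fun F h1 h2 => atom_sa h1 h2))

end Pool.R179.Ev
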