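import Pool.Agent.R179.EvF
import Mathlib.Algebra.Group.Subgroup.Pointwise

/-!
# The even tiling: rigidity of automorphisms; exactly two flag orbits
-/

namespace Pool.R179.Ev
open Pool.R179.H435 (W B ph ph_gt ph_lt ph_mul ph_inv up pr rho rho_nonneg rho_sq up_0 up_1 up_2 up_3
  pr_0 pr_1 pr_2 pr_up up_pr pr_comb B_comm B_add_left B_smul_left mkLin w01 w12 rr w01_apply w12_apply
  rr_apply)
open Pool.R179.LFC Pool.R179.Gen

theorem iso_bot (β : FL TE ≃o FL TE) : β botE = botE := by
  apply le_antisymm _ (botE_le _)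
  rw [← β.symm.le_iff_le, β.symm_apply_apply]
  exact botE_le _

theorem iso_top (β : FL TE ≃o FL TE) : β topE = topE := by
  apply le_antisymm (le_topE _)
  rw [← β.symm.le_iff_le, β.symm_apply_apply]
  exact le_topE _

theorem iso_ne_bot (β : FL TE ≃o FL TE) {F : FL TE} (h : F ≠ botE) : β F ≠ botE := fun e =>
  h (β.injective (e.trans (iso_bot β).symm))

theorem rf_bot (j : Fin 4) : rf j botE = botE := iso_bot _
theorem rf_top (j : Fin 4) : rf j topE = topE := iso_top _

/-- The five standard faces. -/
def std : Set (FL TE) := {sT, sQ, sE, sb, sa}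

theorem rf_invol (j : Fin 4) (F : FL TE) : rf j (rf j F) = F := by
  by_cases hb : F = botE
  · rw [hb, rf_bot, rf_bot]
  · by_cases ht : F = topE
    · rw [ht, rf_top, rf_top]
    · obtain ⟨X, hX, rfl⟩ := exists_FX F hb ht
      rw [rf_FX, rf_FX]
      exact FX_congr _ _ (R_invol j X)

theorem sT_ne : sT ≠ rf 1 sT := by
  intro h
  rw [sT, rf_FX, FX_eq, AM_R, AMT, NT, Set.image_singleton, R1v0] at h
  have h2 := Set.singleton_injective h
  have h0 : v0 0 = v1 0 := by rw [h2]
  simp [v1, v0] at h0; norm_num at h0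

/-- an automorphism fixing the standard faces fixes their neighbours -/
theorem step (β : FL TE ≃o FL TE) (hβ : ∀ F ∈ std, β F = F) (j : Fin 4) :
    ∀ F ∈ std, β (rf j F) = rf j F := by
  have bT : β sT = sT := hβ _ (Or.inl rfl)
  have bQ : β sQ = sQ := hβ _ (Or.inr (Or.inl rfl))
  have bE : β sE = sE := hβ _ (Or.inr (Or.inr (Or.inl rfl)))
  have bb : β sb = sb := hβ _ (Or.inr (Or.inr (Or.inr (Or.inl rfl))))
  have ba : β sa = sa := hβ _ (Or.inr (Or.inr (Or.inr (Or.inr rfl))))
  have fixd : ∀ F, rf j F = F → β F = F → β (rf j F) = rf j F := fun F h1 h2 => by rw [h1, h2]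
  -- transported vertex property
  have vert : ∀ (k : Fin 4) (x : FL TE), x < rf k sE → x ≠ botE → x = rf k sa ∨ x = rf k sb := by
    intro k x hx hne
    have h1 : rf k x < sE := by
      have := (rf k).strictMono hx
      rwa [rf_invol] at this
    rcases D0 h1 (iso_ne_bot _ hne) with h | h
    · left; rw [← h, rf_invol]
    · right; rw [← h, rf_invol]
  fin_cases j
  · -- j = 0
    have hE : β (rf 0 sE) = rf 0 sE := by
      have l1 : sb < β (rf 0 sE) := by
        have := β.strictMono ((rf 0).strictMono sb_lt_sE)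
        rwa [rf0_sb, bb] at this
      have l2 : β (rf 0 sE) < sQ := by
        have := β.strictMono ((rf 0).strictMono sE_lt_sQ)
        rwa [rf0_sQ, bQ] at this
      rcases D1b l1 l2 with h | h
      · have e1 : rf 0 sE = sE := β.injective (h.trans bE.symm)
        rw [e1, bE]
      · exact h
    rintro F (rfl | rfl | rfl | rfl | rfl)
    · exact fixd _ rf0_sT bT
    · exact fixd _ rf0_sQ bQ
    · exact hE
    · exact fixd _ rf0_sb bb
    · have l1 : β (rf 0 sa) < rf 0 sE := by
        have := β.strictMono ((rf 0).strictMono sa_lt_sE)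
        rwa [hE] at this
      have hne : β (rf 0 sa) ≠ botE := iso_ne_bot _ (iso_ne_bot _ bot_lt_sa.ne')
      rcases vert 0 _ l1 hne with h | h
      · exact h
      · exfalso
        rw [rf0_sb] at h
        have e1 : rf 0 sa = sb := β.injective (h.trans bb.symm)
        have e2 : rf 0 sa = rf 0 sb := by rw [e1, rf0_sb]
        exact not_sa_le_sb ((rf 0).injective e2).le
  · -- j = 1
    have hT : β (rf 1 sT) = rf 1 sT := by
      have l1 : sQ < β (rf 1 sT) := by
        have := β.strictMono ((rf 1).strictMono sQ_lt_sT)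
        rwa [rf1_sQ, bQ] at this
      have l2 : β (rf 1 sT) < topE := by
        have := β.strictMono ((rf 1).strictMono sT_lt_top)
        rwa [rf_top, iso_top] at this
      rcases D3 l1 l2 with h | h
      · have e1 : rf 1 sT = sT := β.injective (h.trans bT.symm)
        rw [e1, bT]
      · exact h
    rintro F (rfl | rfl | rfl | rfl | rfl)
    · exact hT
    · exact fixd _ rf1_sQ bQ
    · exact fixd _ rf1_sE bE
    · exact fixd _ rf1_sb bb
    · exact fixd _ rf1_sa ba
  · -- j = 2
    have hQ : β (rf 2 sQ) = rf 2 sQ := by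
      have l1 : sE < β (rf 2 sQ) := by
        have := β.strictMono ((rf 2).strictMono sE_lt_sQ)
        rwa [rf2_sE, bE] at this
      have l2 : β (rf 2 sQ) < sT := by
        have := β.strictMono ((rf 2).strictMono sQ_lt_sT)
        rwa [rf2_sT, bT] at this
      rcases D2 l1 l2 with h | h
      · have e1 : rf 2 sQ = sQ := β.injective (h.trans bQ.symm)
        rw [e1, bQ]
      · exact h
    rintro F (rfl | rfl | rfl | rfl | rfl)
    · exact fixd _ rf2_sT bT
    · exact hQ
    · exact fixd _ rf2_sE bE
    · exact fixd _ rf2_sb bb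
    · exact fixd _ rf2_sa ba
  · -- j = 3
    have hE : β (rf 3 sE) = rf 3 sE := by
      have l1 : sa < β (rf 3 sE) := by
        have := β.strictMono ((rf 3).strictMono sa_lt_sE)
        rwa [rf3_sa, ba] at this
      have l2 : β (rf 3 sE) < sQ := by
        have := β.strictMono ((rf 3).strictMono sE_lt_sQ)
        rwa [rf3_sQ, bQ] at this
      rcases D1a l1 l2 with h | h
      · have e1 : rf 3 sE = sE := β.injective (h.trans bE.symm)
        rw [e1, bE]
      · exact h
    rintro F (rfl | rfl | rfl | rfl | rfl)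
    · exact fixd _ rf3_sT bT
    · exact fixd _ rf3_sQ bQ
    · exact hE
    · have l1 : β (rf 3 sb) < rf 3 sE := by
        have := β.strictMono ((rf 3).strictMono sb_lt_sE)
        rwa [hE] at this
      have hne : β (rf 3 sb) ≠ botE := iso_ne_bot _ (iso_ne_bot _ bot_lt_sb.ne')
      rcases vert 3 _ l1 hne with h | h
      · exfalso
        rw [rf3_sa] at h
        have e1 : rf 3 sb = sa := β.injective (h.trans ba.symm)
        have e2 : rf 3 sb = rf 3 sa := by rw [e1, rf3_sa]
        exact not_sb_le_sa ((rf 3).injective e2).le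
      · exact h
    · exact fixd _ rf3_sa ba

theorem autE_mul {g h : W ≃ₗ[ℝ] W} (hg : g ∈ G0) (hh : h ∈ G0) (F : FL TE) :
    autE (g * h) (mul_mem hg hh) F = autE g hg (autE h hh F) := by
  apply Subtype.ext
  show SE.hat (g * h) '' F.1 = SE.hat g '' (SE.hat h '' F.1)
  rw [Set.image_image]
  apply Set.image_congr
  intro p _
  exact SE.hat_mul hh p

theorem autE_one (F : FL TE) : autE 1 (one_mem _) F = F := by
  apply Subtype.ext
  show SE.hat 1 '' F.1 = F.1
  have : SE.hat (1 : W ≃ₗ[ℝ] W) = id := by funext p; exact SE.hat_one p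
  rw [this, Set.image_id]

theorem autE_inv_apply {g : W ≃ₗ[ℝ] W} (hg : g ∈ G0) (F : FL TE) :
    autE g⁻¹ (inv_mem hg) (autE g hg F) = F := by
  apply Subtype.ext
  show SE.hat g⁻¹ '' (SE.hat g '' F.1) = F.1
  exact (SE.hatE g hg).symm_image_image F.1

/-- Rigidity: an automorphism fixing the standard faces is the identity. -/
theorem rigidE (β : FL TE ≃o FL TE) (hβ : ∀ F ∈ std, β F = F) (F : FL TE) : β F = F := by
  have key : ∀ g (hg : g ∈ G0), ∀ F ∈ std, β (autE g hg F) = autE g hg F := by
    intro g hg
    induction hg using Subgroup.closure_induction_right with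
    | one => intro F hF; rw [autE_one]; exact hβ F hF
    | mul_right g hg r hr ih =>
      obtain ⟨j, _, rfl⟩ := hr
      intro F hF
      let β' : FL TE ≃o FL TE := ((autE g hg).trans β).trans (autE g hg).symm
      have hβ' : ∀ F ∈ std, β' F = F := by
        intro F hF
        show (autE g hg).symm (β (autE g hg F)) = F
        rw [ih F hF, OrderIso.symm_apply_apply]
      have h1 := step β' hβ' j F hF
      have h2 : (autE g hg).symm (β (autE g hg (rf j F))) = rf j F := h1
      have h3 : β (autE g hg (rf j F)) = autE g hg (rf j F) :=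
        (autE g hg).symm.injective (h2.trans ((autE g hg).symm_apply_apply _).symm)
      rw [autE_mul hg (R_mem j)]
      exact h3
    | mul_inv_cancel g hg r hr ih =>
      obtain ⟨j, _, rfl⟩ := hr
      intro F hF
      have hinv : (R j)⁻¹ = R j := by
        apply LinearEquiv.ext; intro X
        have := R_invol j X
        rw [← inv_mul_apply (R j) (R j X), this]
      let β' : FL TE ≃o FL TE := ((autE g hg).trans β).trans (autE g hg).symm
      have hβ' : ∀ F ∈ std, β' F = F := by
        intro F hF
        show (autE g hg).symm (β (autE g hg F)) = F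
        rw [ih F hF, OrderIso.symm_apply_apply]
      have h1 := step β' hβ' j F hF
      have h2 : (autE g hg).symm (β (autE g hg (rf j F))) = rf j F := h1
      have h3 : β (autE g hg (rf j F)) = autE g hg (rf j F) :=
        (autE g hg).symm.injective (h2.trans ((autE g hg).symm_apply_apply _).symm)
      have h4 : autE (g * (R j)⁻¹) (mul_mem hg (inv_mem (R_mem j))) F = autE g hg (rf j F) := by
        have : autE (g * (R j)⁻¹) (mul_mem hg (inv_mem (R_mem j))) F = autE (g * R j) (mul_mem hg (R_mem j)) F := by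
          apply Subtype.ext
          show SE.hat (g * (R j)⁻¹) '' F.1 = SE.hat (g * R j) '' F.1
          rw [hinv]
        rw [this, autE_mul hg (R_mem j)]; rfl
      rw [h4]; exact h3
  obtain ⟨g, hg, hstd⟩ := chain_normal {F} IsChain.singleton
  have hs := hstd F rfl
  by_cases hb : F = botE
  · rw [hb, iso_bot]
  · by_cases ht : F = topE
    · rw [ht, iso_top]
    · have hm : autE g hg F ∈ std := by
        rcases hs with e | e | e | e | e | e | e
        · exact absurd ((autE g hg).injective (e.trans (autE_bot hg).symm)) hb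
        · exact absurd ((autE g hg).injective (e.trans (autE_top hg).symm)) ht
        · rw [e]; left; rfl
        · rw [e]; right; left; rfl
        · rw [e]; right; right; left; rfl
        · rw [e]; right; right; right; left; rfl
        · rw [e]; right; right; right; right; rfl
      have h1 := key g⁻¹ (inv_mem hg) _ hm
      rwa [autE_inv_apply hg] at h1

/-- automorphisms agreeing on the flag `fA` agree -/
theorem agreeE (α γ : FL TE ≃o FL TE) (h : α '' Set.range fA = γ '' Set.range fA) (F : FL TE) :
    α F = γ F := by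
  let β := α.trans γ.symm
  have h1 : StrictMono (β ∘ fA) := β.strictMono.comp fA_strictMono
  have hβ : β '' Set.range fA = Set.range fA := by
    have : β '' Set.range fA = γ.symm '' (α '' Set.range fA) := by rw [Set.image_image]; rfl
    rw [this, h]
    exact γ.symm_image_image _
  have h2 : Set.range (β ∘ fA) = Set.range fA := by rw [Set.range_comp, hβ]
  have h3 : ∀ k, β (fA k) = fA k := fun k => congrFun ((h1.range_inj fA_strictMono).1 h2) k
  have ba : β sa = sa := h3 1
  have bE : β sE = sE := h3 2
  have bQ : β sQ = sQ := h3 3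
  have bT : β sT = sT := h3 4
  have bb : β sb = sb := by
    have l1 : β sb < sE := by
      have := β.strictMono sb_lt_sE
      rwa [bE] at this
    rcases D0 l1 (iso_ne_bot _ bot_lt_sb.ne') with h | h
    · exact absurd (β.injective (h.trans ba.symm)).le not_sb_le_sa
    · exact h
  have h4 : β F = F := rigidE β (by rintro F (rfl | rfl | rfl | rfl | rfl) <;> assumption) F
  have : γ (γ.symm (α F)) = γ F := congrArg γ h4
  rwa [γ.apply_symm_apply] at this

/-! ### The two classes of flags are different -/

noncomputable def v5 : W := R 2 v4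
theorem v5_mem : v5 ∈ Ve := Ve_G (R_mem 2) v4_mem
theorem v5_val : v5 = ![-1, 2 * ph + 1, 1, 3 * ph + 1] := by
  show w12 v4 = _
  rw [w12_apply, v4]; ext i; fin_cases i <;> simp
theorem v5_Na : v5 ∈ Na := by
  refine ⟨v5_mem, ?_⟩
  rw [v5_val]
  simp [Nf]; linear_combination 3 * ph_mul

theorem TL_Ve {v : W} (hv : v ∈ Ve) : TL v := by
  obtain ⟨g, hg, rfl⟩ := hv
  exact (TL_G0 hg v0).1 InD_v0.1

theorem AM_Ve {v : W} (hv : v ∈ Ve) : AM v = {v} := by
  obtain ⟨g, hg, rfl⟩ := hv
  rw [AM_G0 hg, AMT, NT, Set.image_singleton]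

/-- coatoms are tiles -/
theorem coatom {F : FL TE} (h1 : F < topE) (h2 : ∀ G : FL TE, F < G → G = topE) :
    ∃ v, ∃ hv : v ∈ Ve, F = FX v (TL_Ve hv) := by
  have hne : F ≠ botE := by
    intro e
    rw [e] at h2
    exact sT_lt_top.ne (h2 sT (bot_lt_sa.trans (sa_lt_sE.trans (sE_lt_sQ.trans sQ_lt_sT))))
  obtain ⟨X, hX, rfl⟩ := exists_FX F hne h1.ne
  obtain ⟨c, hc⟩ := AM_nonempty hX
  have hcV := AM_sub X hc
  refine ⟨c, hcV, ?_⟩
  have hle : FX X hX ≤ FX c (TL_Ve hcV) := by
    rw [FX_le, AM_Ve hcV]; exact Set.singleton_subset_iff.2 hc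
  rcases hle.lt_or_eq with h | h
  · exact absurd (h2 _ h) (FX_ne_top _)
  · exact h

theorem tile_coatom {v : W} (hv : v ∈ Ve) (G : FL TE) (h : FX v (TL_Ve hv) < G) : G = topE := by
  by_contra hne
  obtain ⟨X, hX, rfl⟩ := exists_FX G (fun e => by rw [e] at h; exact (botE_le _).not_gt h) hne
  rw [FX_lt, AM_Ve hv] at h
  obtain ⟨c, hc⟩ := AM_nonempty hX
  apply h.2
  rintro w rfl
  have := h.1 hc
  rw [← (show c = w from this)]; exact hc

noncomputable def five : Fin 5 → W := ![v0, v1, v2, v4, v5]

theorem five_mem (i : Fin 5) : five i ∈ Na := by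
  fin_cases i
  · exact NE_sub_Na (Or.inl rfl)
  · exact NE_sub_Na (Or.inr (Or.inl rfl))
  · exact NE_sub_Na (Or.inr (Or.inr rfl))
  · exact v4_Na
  · exact v5_Na

theorem five_inj : Function.Injective five := by
  have hf : Function.Injective (fun i : Fin 5 => (five i) 0 + 10 * (five i) 1 + 100 * (five i) 2) := by
    have p1 := ph_gt
    have p2 := ph_lt
    have e : (fun i : Fin 5 => (five i) 0 + 10 * (five i) 1 + 100 * (five i) 2) =
        ![111, 89, -91, 109 + 200 * ph, 109 + 20 * ph] := by
      funext i; fin_cases i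
      · simp [five, v0]; norm_num
      · simp [five, v1]; norm_num
      · simp [five, v2]; norm_num
      · simp [five, v4]; ring
      · simp [five, v5_val]; ring
    rw [e]
    intro i j hij
    have hlt : ∀ i j : Fin 5, i ≠ j → (![111, 89, -91, 109 + 200 * ph, 109 + 20 * ph] : Fin 5 → ℝ) i ≠
        (![111, 89, -91, 109 + 200 * ph, 109 + 20 * ph] : Fin 5 → ℝ) j := by
      intro i j h
      fin_cases i <;> fin_cases j <;> first
        | exact absurd rfl h
        | (simp only [ne_eq]; intro h2; simp at h2; linarith)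
        | (simp only [ne_eq]; intro h2; norm_num at h2)
    by_contra hne
    exact hlt i j hne hij
  intro i j hij
  apply hf
  show (five i) 0 + 10 * (five i) 1 + 100 * (five i) 2 = (five j) 0 + 10 * (five j) 1 + 100 * (five j) 2
  rw [hij]

theorem not_equiv (θ : FL TE ≃o FL TE) (h : θ sa = sb) : False := by
  -- images of the five tiles
  have key : ∀ i : Fin 5, ∃ v ∈ Nb, ∃ hv : v ∈ Ve,
      θ (FX (five i) (TL_Ve (five_mem i).1)) = FX v (TL_Ve hv) := by
    intro i
    have hi := (five_mem i).1
    obtain ⟨v, hv, e⟩ := coatom (F := θ (FX (five i) (TL_Ve hi)))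
      (lt_of_le_of_ne (le_topE _) (fun e => FX_ne_top _ (θ.injective (e.trans (iso_top θ).symm))))
      (fun G hG => by
        have h1 : FX (five i) (TL_Ve hi) < θ.symm G := by
          rw [← θ.lt_iff_lt, θ.apply_symm_apply]; exact hG
        have h2 := tile_coatom hi _ h1
        rw [← θ.apply_symm_apply G, h2, iso_top])
    refine ⟨v, ?_, hv, e⟩
    have h1 : sa ≤ FX (five i) (TL_Ve hi) := by
      rw [sa, FX_le, AM_Ve hi, AMa]; exact Set.singleton_subset_iff.2 (five_mem i)
    have h2 := θ.monotone h1
    rw [h, e, sb, FX_le, AM_Ve hv, AMb] at h2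
    exact Set.singleton_subset_iff.1 h2
  choose w hw hwV hwe using key
  have hinj : Function.Injective w := by
    intro i j hij
    apply five_inj
    have h1 : FX (w i) (TL_Ve (hwV i)) = FX (w j) (TL_Ve (hwV j)) := FX_congr _ _ hij
    rw [← hwe i, ← hwe j] at h1
    have h2 := θ.injective h1
    rw [FX_eq, AM_Ve (five_mem i).1, AM_Ve (five_mem j).1] at h2
    exact Set.singleton_injective h2
  have h5 : (Set.range w).ncard = 5 := by
    rw [← Set.image_univ, Set.ncard_image_of_injective _ hinj, Set.ncard_univ, Nat.card_fin]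
  have hfinb : Nb.Finite := by
    unfold Nb; exact Set.toFinite _
  have h4 : (Set.range w).ncard ≤ Nb.ncard := Set.ncard_le_ncard (by rintro _ ⟨i, rfl⟩; exact hw i) hfinb
  have h4' : Nb.ncard ≤ 4 := by
    unfold Nb
    calc (insert v0 (insert v1 (insert v2 {v3})) : Set W).ncard
        ≤ (insert v1 (insert v2 {v3}) : Set W).ncard + 1 := Set.ncard_insert_le _ _
      _ ≤ ((insert v2 {v3} : Set W).ncard + 1) + 1 := by gcongr; exact Set.ncard_insert_le _ _
      _ ≤ ((({v3} : Set W).ncard + 1) + 1) + 1 := by gcongr; exact Set.ncard_insert_le _ _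
      _ = 4 := by rw [Set.ncard_singleton]
  omega

end Pool.R179.Ev
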