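import Pool.Agent.R179.H435D

/-!
# The tiling is not isomorphic to a regular tiling
-/

namespace Pool.R179.H435
open Pool.R179.LFC

/-! ### Linear algebra in `E 3` -/

theorem orth4 (v : Fin 4 → E 3) (h0 : ∀ i, v i ≠ 0) (ho : ∀ i j, i ≠ j → inner ℝ (v i) (v j) = 0) :
    False := by
  have h := linearIndependent_of_ne_zero_of_inner_eq_zero (𝕜 := ℝ) h0 (fun i j hij => ho i j hij)
  have := h.fintype_card_le_finrank
  rw [finrank_euclideanSpace] at this
  simp at this

theorem parallel {u v w z : E 3} (hu : u ≠ 0) (hv : v ≠ 0) (hw : w ≠ 0)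
    (huv : inner ℝ u v = 0) (huw : inner ℝ u w = 0) (hvw : inner ℝ v w = 0)
    (hzu : inner ℝ u z = 0) (hzv : inner ℝ v z = 0) : ∃ l : ℝ, z = l • w := by
  have hww : inner ℝ w w ≠ 0 := by
    rw [real_inner_self_eq_norm_sq]
    positivity
  refine ⟨inner ℝ w z / inner ℝ w w, ?_⟩
  by_contra hne
  have hx : z - (inner ℝ w z / inner ℝ w w) • w ≠ 0 := sub_ne_zero.2 hne
  set x := z - (inner ℝ w z / inner ℝ w w) • w with hxd
  have h1 : inner ℝ u x = 0 := by
    rw [hxd, inner_sub_right, inner_smul_right, hzu, huw]; simp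
  have h2 : inner ℝ v x = 0 := by
    rw [hxd, inner_sub_right, inner_smul_right, hzv, hvw]; simp
  have h3 : inner ℝ w x = 0 := by
    rw [hxd, inner_sub_right, inner_smul_right]
    field_simp
    ring
  apply orth4 ![u, v, w, x]
  · intro i; fin_cases i <;> assumption
  · intro i j hij
    fin_cases i <;> fin_cases j <;> first | exact absurd rfl hij | skip
    all_goals simp
    all_goals first | assumption | (rw [real_inner_comm]; assumption)

/-- A planar rhombus with equal diagonals is a square. -/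
theorem right_angle {w0 w1 w2 w3 n : E 3} (hn : n ≠ 0)
    (p1 : inner ℝ n (w1 - w0) = 0) (p2 : inner ℝ n (w2 - w0) = 0) (p3 : inner ℝ n (w3 - w0) = 0)
    (d12 : dist w0 w1 = dist w1 w2) (d23 : dist w1 w2 = dist w2 w3) (d30 : dist w2 w3 = dist w3 w0)
    (dd : dist w0 w2 = dist w1 w3) (n02 : w0 ≠ w2) (n13 : w1 ≠ w3) :
    inner ℝ (w1 - w0) (w3 - w0) = 0 := by
  set a := w1 - w0 with ha
  set b := w3 - w0 with hb
  set c := w2 - w0 with hc
  have e1 : inner ℝ a a = inner ℝ (c - a) (c - a) := by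
    have h1 : ‖a‖ = ‖c - a‖ := by
      rw [ha, hc, ← dist_eq_norm, dist_comm, d12, dist_comm, dist_eq_norm]; congr 1; abel
    rw [real_inner_self_eq_norm_sq, real_inner_self_eq_norm_sq, h1]
  have e2 : inner ℝ b b = inner ℝ (c - b) (c - b) := by
    have h1 : ‖b‖ = ‖c - b‖ := by
      rw [hb, hc, ← dist_eq_norm, ← d30, dist_eq_norm]; congr 1; abel
    rw [real_inner_self_eq_norm_sq, real_inner_self_eq_norm_sq, h1]
  have e3 : inner ℝ a a = inner ℝ b b := by
    have h1 : ‖a‖ = ‖b‖ := by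
      rw [ha, hb, ← dist_eq_norm, ← dist_eq_norm, dist_comm, d12, d23, d30]
    rw [real_inner_self_eq_norm_sq, real_inner_self_eq_norm_sq, h1]
  have e4 : inner ℝ c c = inner ℝ (a - b) (a - b) := by
    have h1 : ‖c‖ = ‖a - b‖ := by
      rw [ha, hb, hc, ← dist_eq_norm, dist_comm, dd, dist_eq_norm]; congr 1; abel
    rw [real_inner_self_eq_norm_sq, real_inner_self_eq_norm_sq, h1]
  have hc0 : c ≠ 0 := sub_ne_zero.2 n02.symm
  have hab : a - b ≠ 0 := by
    rw [ha, hb]; intro h; apply n13; 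
    have : w1 - w0 - (w3 - w0) = w1 - w3 := by abel
    rw [this] at h; exact sub_eq_zero.1 h
  simp only [inner_sub_left, inner_sub_right] at e1 e2 e4
  rw [real_inner_comm c a] at e1
  rw [real_inner_comm c b] at e2
  rw [real_inner_comm a b] at e4
  have e5 : inner ℝ c c = 2 * inner ℝ a c := by
    have := real_inner_comm a c; linarith
  have e6 : inner ℝ c c = 2 * inner ℝ b c := by
    have := real_inner_comm b c; linarith
  have f1 : inner ℝ (a - b) c = 0 := by rw [inner_sub_left]; linarith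
  have f2 : inner ℝ (a - b) (a + b) = 0 := by
    rw [inner_sub_left, inner_add_right, inner_add_right, real_inner_comm a b]; linarith
  have cc : inner ℝ c c ≠ 0 := by rw [real_inner_self_eq_norm_sq]; positivity
  have hsum : a + b ≠ 0 := by
    intro h
    have hb' : b = -a := by rw [eq_neg_iff_add_eq_zero, add_comm]; exact h
    rw [hb', inner_neg_left] at e6
    apply cc; linarith
  obtain ⟨l, hl⟩ := parallel hab hn hsum (by rw [real_inner_comm, inner_sub_right, p1, p3, sub_zero]) f2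
    (by rw [inner_add_right, p1, p3, add_zero]) f1 p2
  have hl0 : l ≠ 0 := by rintro rfl; rw [zero_smul] at hl; exact hc0 hl
  -- |c|^2 = 2 <a,c>
  rw [hl, inner_smul_right, inner_smul_left, inner_smul_right] at e5
  simp only [inner_add_left, inner_add_right] at e5
  rw [hl, inner_smul_right, inner_smul_left] at e4
  simp only [inner_add_left, inner_add_right] at e4
  rw [real_inner_comm a b] at e4 e5
  simp only [conj_trivial] at e4 e5
  set s := inner ℝ a a with hs
  set t := inner ℝ a b with ht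
  have hst : s + t ≠ 0 := by
    intro h
    have : inner ℝ (a + b) (a + b) = 0 := by
      simp only [inner_add_left, inner_add_right]
      rw [real_inner_comm a b]; linarith
    rw [real_inner_self_eq_norm_sq] at this
    exact hsum (by simpa using this)
  rw [← e3] at e4 e5
  have h1 : l = 1 := by
    have : (l * (s + t)) * (l - 1) = 0 := by linarith
    rcases mul_eq_zero.1 this with h | h
    · exact absurd h (mul_ne_zero hl0 hst)
    · linarith
  rw [h1] at e4
  linarith

/-! ### Rigidity of automorphisms near the standard flag -/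

abbrev v0 : FL TT := cfF ![1, 1, 1]
abbrev v1 : FL TT := cfF ![-1, 1, 1]
abbrev v2 : FL TT := cfF ![-1, -1, 1]
abbrev v3 : FL TT := cfF ![1, -1, 1]
abbrev e01 : FL TT := cfF ![0, 1, 1]
abbrev e12 : FL TT := cfF ![-1, 0, 1]
abbrev e23 : FL TT := cfF ![0, -1, 1]
abbrev q0 : FL TT := cfF ![0, 0, 1]

theorem cfF_le_cube (σ : Sg) : (cfF σ).1 ⊆ cube := (cf_face σ).subset

theorem below {F : FL TT} {σ : Sg} (h : F ≤ cfF σ) : F = botF ∨ ∃ τ, F = cfF τ ∧ sle τ σ := by
  rcases le_cube (F := F) (Set.Subset.trans h (cfF_le_cube σ)) with h1 | ⟨τ, h1⟩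
  · left; exact h1
  · right; exact ⟨τ, h1, by rw [h1] at h; exact (cfF_le _ _).1 h⟩

theorem cfF_lt {σ τ : Sg} (h : cfF σ < cfF τ) : sle σ τ ∧ σ ≠ τ :=
  ⟨(cfF_le _ _).1 h.le, fun h2 => h.ne (by rw [h2])⟩

theorem lt_cfF {σ τ : Sg} (h : sle σ τ) (hne : σ ≠ τ) : cfF σ < cfF τ :=
  lt_of_le_of_ne ((cfF_le _ _).2 h) (fun h2 => hne (cfF_inj h2))

theorem v_atom {σ : Sg} (hσ : ∀ i, σ i ≠ 0) {F : FL TT} (h : F ≤ cfF σ) : F = botF ∨ F = cfF σ := by
  rcases below h with h1 | ⟨τ, h1, h2⟩
  · left; exact h1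
  · right
    rw [h1]; congr 1
    funext i; exact h2 i (hσ i)

theorem d_e01 : ∀ τ : Sg, sle τ ![0, 1, 1] → τ ≠ ![0, 1, 1] → τ = ![1, 1, 1] ∨ τ = ![-1, 1, 1] := by decide
theorem d_e12 : ∀ τ : Sg, sle τ ![-1, 0, 1] → τ ≠ ![-1, 0, 1] → τ = ![-1, 1, 1] ∨ τ = ![-1, -1, 1] := by decide
theorem d_e23 : ∀ τ : Sg, sle τ ![0, -1, 1] → τ ≠ ![0, -1, 1] → τ = ![-1, -1, 1] ∨ τ = ![1, -1, 1] := by decide
theorem d_v1 : ∀ τ : Sg, sle τ ![0, 0, 1] → τ ≠ ![0, 0, 1] → sle ![-1, 1, 1] τ → τ ≠ ![-1, 1, 1] →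
    τ = ![0, 1, 1] ∨ τ = ![-1, 0, 1] := by decide
theorem d_v2 : ∀ τ : Sg, sle τ ![0, 0, 1] → τ ≠ ![0, 0, 1] → sle ![-1, -1, 1] τ → τ ≠ ![-1, -1, 1] →
    τ = ![-1, 0, 1] ∨ τ = ![0, -1, 1] := by decide

theorem bot_fix (β : FL TT ≃o FL TT) : β botF = botF := by
  apply le_antisymm _ (botF_le _)
  rw [← β.symm.le_iff_le, β.symm_apply_apply]
  exact botF_le _

theorem rigid (β : FL TT ≃o FL TT) (h0 : β v0 = v0) (he : β e01 = e01) (hq : β q0 = q0) :
    β v1 = v1 ∧ β v2 = v2 ∧ β v3 = v3 := by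
  have hb := bot_fix β
  -- general principle
  have edge : ∀ (x y : FL TT), x < y → x ≠ botF → β x < β y ∧ β x ≠ botF := by
    intro x y h hx
    exact ⟨β.strictMono h, fun h2 => hx (β.injective (h2.trans hb.symm))⟩
  have hv1 : β v1 = v1 := by
    obtain ⟨h1, h2⟩ := edge v1 e01 (lt_cfF (by decide) (by decide)) (cfF_ne_bot _)
    rw [he] at h1
    rcases below h1.le with h3 | ⟨τ, h3, h4⟩
    · exact absurd h3 h2
    · rcases d_e01 τ h4 (fun h => h1.ne (by rw [h3, h])) with rfl | rfl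
      · have h3 := h3.trans h0.symm
        exact absurd (cfF_inj (β.injective h3)) (by decide)
      · exact h3
  have he12 : β e12 = e12 := by
    have h1 := β.strictMono (show e12 < q0 from lt_cfF (by decide) (by decide))
    have h1' := β.strictMono (show v1 < e12 from lt_cfF (by decide) (by decide))
    rw [hq] at h1
    rw [hv1] at h1'
    rcases below h1.le with h3 | ⟨τ, h3, h4⟩
    · rw [h3] at h1'; exact absurd (botF_le _) h1'.not_ge
    · have h5 := h1'
      rw [h3] at h5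
      obtain ⟨h6, h7⟩ := cfF_lt h5
      rcases d_v1 τ h4 (fun h => h1.ne (by rw [h3, h])) h6 (Ne.symm h7) with rfl | rfl
      · have h3 := h3.trans he.symm
        exact absurd (cfF_inj (β.injective h3)) (by decide)
      · exact h3
  have hv2 : β v2 = v2 := by
    obtain ⟨h1, h2⟩ := edge v2 e12 (lt_cfF (by decide) (by decide)) (cfF_ne_bot _)
    rw [he12] at h1
    rcases below h1.le with h3 | ⟨τ, h3, h4⟩
    · exact absurd h3 h2
    · rcases d_e12 τ h4 (fun h => h1.ne (by rw [h3, h])) with rfl | rfl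
      · have h3 := h3.trans hv1.symm
        exact absurd (cfF_inj (β.injective h3)) (by decide)
      · exact h3
  have he23 : β e23 = e23 := by
    have h1 := β.strictMono (show e23 < q0 from lt_cfF (by decide) (by decide))
    have h1' := β.strictMono (show v2 < e23 from lt_cfF (by decide) (by decide))
    rw [hq] at h1
    rw [hv2] at h1'
    rcases below h1.le with h3 | ⟨τ, h3, h4⟩
    · rw [h3] at h1'; exact absurd (botF_le _) h1'.not_ge
    · have h5 := h1'
      rw [h3] at h5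
      obtain ⟨h6, h7⟩ := cfF_lt h5
      rcases d_v2 τ h4 (fun h => h1.ne (by rw [h3, h])) h6 (Ne.symm h7) with rfl | rfl
      · have h3 := h3.trans he12.symm
        exact absurd (cfF_inj (β.injective h3)) (by decide)
      · exact h3
  have hv3 : β v3 = v3 := by
    obtain ⟨h1, h2⟩ := edge v3 e23 (lt_cfF (by decide) (by decide)) (cfF_ne_bot _)
    rw [he23] at h1
    rcases below h1.le with h3 | ⟨τ, h3, h4⟩
    · exact absurd h3 h2
    · rcases d_e23 τ h4 (fun h => h1.ne (by rw [h3, h])) with rfl | rfl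
      · have h3 := h3.trans hv2.symm
        exact absurd (cfF_inj (β.injective h3)) (by decide)
      · exact h3
  exact ⟨hv1, hv2, hv3⟩

theorem fl_fix (β : FL TT ≃o FL TT) (h : β '' Set.range fl = Set.range fl) (k : Fin 6) :
    β (fl k) = fl k := by
  have h1 : StrictMono (β ∘ fl) := β.strictMono.comp fl_strictMono
  have h2 : Set.range (β ∘ fl) = Set.range fl := by rw [Set.range_comp, h]
  exact congrFun ((h1.range_inj fl_strictMono).1 h2) k

/-- two automorphisms agreeing on the standard flag agree on the vertices of the base square -/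
theorem agree (α ρ : FL TT ≃o FL TT) (h : α '' Set.range fl = ρ '' Set.range fl) :
    α v0 = ρ v0 ∧ α v1 = ρ v1 ∧ α v2 = ρ v2 ∧ α v3 = ρ v3 ∧ α q0 = ρ q0 := by
  let β := α.trans ρ.symm
  have hβ : β '' Set.range fl = Set.range fl := by
    have : β '' Set.range fl = ρ.symm '' (α '' Set.range fl) := by rw [Set.image_image]; rfl
    rw [this, h]
    exact ρ.symm_image_image _
  have f1 : β v0 = v0 := fl_fix β hβ 1
  have f2 : β e01 = e01 := fl_fix β hβ 2
  have f3 : β q0 = q0 := fl_fix β hβ 3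
  obtain ⟨g1, g2, g3⟩ := rigid β f1 f2 f3
  have conv : ∀ x, β x = x → α x = ρ x := by
    intro x hx
    have : ρ (ρ.symm (α x)) = ρ x := congrArg ρ hx
    rwa [ρ.apply_symm_apply] at this
  exact ⟨conv _ f1, conv _ g1, conv _ g2, conv _ g3, conv _ f3⟩

/-- image of the faces of the cube under signed permutations -/
theorem autG_cf {g : W ≃ₗ[ℝ] W} (hg : g ∈ G) (π : Equiv.Perm (Fin 3)) (ε : Sg)
    (hε : ∀ i, ε i ≠ 0) (h : ∀ p ∈ cube, ∀ i, hat g p i = (ε i : ℝ) * p (π i)) (σ : Sg) :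
    autG g hg (cfF σ) = cfF (fun i => ε i * σ (π i)) := Subtype.ext (hat_cf π ε hε h σ)

/-- the rotation of the base square -/
noncomputable def rot : FL TT ≃o FL TT := autG (s0 * w01) (mul_mem s0_mem w01_mem)

theorem rot_cf (σ : Sg) : rot (cfF σ) = cfF ![-σ 1, σ 0, σ 2] := by
  have := autG_cf (mul_mem s0_mem w01_mem) (Equiv.swap 0 1) ![-1, 1, 1] (by decide) (by
    intro p hp i
    rw [hat_cube _ hp, LinearEquiv.mul_apply, s0_apply, w01_apply]
    fin_cases i
    · simp
    · simp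
    · simp [Equiv.swap_apply_of_ne_of_ne (show (2 : Fin 3) ≠ 0 by decide) (show (2 : Fin 3) ≠ 1 by decide)]) σ
  refine this.trans ?_
  congr 1
  clear this
  funext i
  revert i σ; decide

/-- the exchange of the coordinates 0 and 2 -/
noncomputable def sw : FL TT ≃o FL TT := autG w02 w02_mem

theorem sw_cf (σ : Sg) : sw (cfF σ) = cfF ![σ 2, σ 1, σ 0] := by
  have := autG_cf w02_mem (Equiv.swap 0 2) ![1, 1, 1] (by decide) (by
    intro p hp i
    rw [hat_cube _ hp, w02_apply]
    fin_cases i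
    · simp
    · simp [Equiv.swap_apply_of_ne_of_ne (show (1 : Fin 3) ≠ 0 by decide) (show (1 : Fin 3) ≠ 2 by decide)]
    · simp) σ
  refine this.trans ?_
  congr 1
  clear this
  funext i
  revert i σ; decide

/-! ### The rotation of order five about an edge -/

/-- rotation of order 5 -/
noncomputable def r5 : W ≃ₗ[ℝ] W := w12 * rr
theorem r5_mem : r5 ∈ G := mul_mem w12_mem rr_mem
theorem r5_apply (X : W) : r5 X = ![X 0, X 3 - ph * X 2, X 1, ph * X 3 - ph * X 2] := by
  rw [r5, LinearEquiv.mul_apply, rr_apply, w12_apply]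
  ext i; fin_cases i <;> simp

theorem r5_pow (X : W) : r5 (r5 (r5 (r5 (r5 X)))) = X := by
  have h := ph_mul
  have h2 : r5 (r5 X) = ![X 0, ph * (X 3 - X 1 - X 2), X 3 - ph * X 2,
      (ph + 1) * (X 3 - X 2) - ph * X 1] := by
    rw [r5_apply (r5 X), r5_apply X]
    ext i; fin_cases i
    · simp
    · simp; ring
    · simp
    · simp; linear_combination (X 3 - X 2) * h
  have h3 : r5 (r5 (r5 X)) = ![X 0, X 3 - ph * X 1, ph * (X 3 - X 1 - X 2),
      (ph + 1) * X 3 - ph * X 2 - (ph + 1) * X 1] := by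
    rw [h2, r5_apply]
    ext i; fin_cases i
    · simp
    · simp; linear_combination (X 2) * h
    · simp
    · simp; linear_combination (X 3 - X 1) * h
  have h4 : r5 (r5 (r5 (r5 X))) = ![X 0, X 2, X 3 - ph * X 1, ph * (X 3 - X 1)] := by
    rw [h3, r5_apply]
    ext i; fin_cases i
    · simp
    · simp; linear_combination (X 1 + X 2 - X 3) * h
    · simp
    · simp; ring
  rw [h4, r5_apply]
  ext i; fin_cases i
  · simp
  · simp; linear_combination (X 1) * h
  · simp
  · simp; linear_combination (X 3) * h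

noncomputable def ga : FL TT ≃o FL TT := autG r5 r5_mem

theorem ga_pow (F : FL TT) : ga (ga (ga (ga (ga F)))) = F := by
  apply Subtype.ext
  show hat r5 '' (hat r5 '' (hat r5 '' (hat r5 '' (hat r5 '' F.1)))) = F.1
  rw [Set.image_image, Set.image_image, Set.image_image, Set.image_image]
  have : ∀ p, hat r5 (hat r5 (hat r5 (hat r5 (hat r5 p)))) = p := by
    intro p
    rw [← hat_mul r5_mem, ← hat_mul r5_mem, ← hat_mul r5_mem, ← hat_mul r5_mem]
    show pr ((r5 * r5 * r5 * r5 * r5) (L p)) = p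
    rw [LinearEquiv.mul_apply, LinearEquiv.mul_apply, LinearEquiv.mul_apply, LinearEquiv.mul_apply,
      r5_pow, pr_L]
  simp only [this, Set.image_id']

/-- vertices of the cube as singletons -/
theorem cf_vertex {σ : Sg} (hσ : ∀ i, σ i ≠ 0) : cf σ = {ctr σ} := by
  ext p
  constructor
  · rintro ⟨_, hp⟩
    show p = ctr σ
    ext i
    exact hp i (hσ i)
  · intro hp
    have : p = ctr σ := hp
    rw [this]; exact ctr_mem σ

theorem ga_v0 : ga v0 = v0 := by
  apply Subtype.ext
  show hat r5 '' cf _ = cf _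
  rw [cf_vertex (by decide), Set.image_singleton, hat_cube _ (ctr_mem_cube _), r5_apply]
  congr 1
  ext i; fin_cases i
  · simp
  · simp; linear_combination ph_mul
  · simp

theorem ga_v1 : ga v1 = v1 := by
  apply Subtype.ext
  show hat r5 '' cf _ = cf _
  rw [cf_vertex (by decide), Set.image_singleton, hat_cube _ (ctr_mem_cube _), r5_apply]
  congr 1
  ext i; fin_cases i
  · simp
  · simp; linear_combination ph_mul
  · simp

theorem ga_v3 : ga v3 = cfF ![1, 1, -1] := by
  apply Subtype.ext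
  show hat r5 '' cf _ = cf _
  rw [cf_vertex (by decide), cf_vertex (by decide), Set.image_singleton, hat_cube _ (ctr_mem_cube _), r5_apply]
  congr 1
  ext i; fin_cases i
  · simp
  · simp; linear_combination ph_mul
  · simp

/-! ### Squares of a regular tiling isomorphic to `TT` are right-angled -/

section iso
variable {𝒯 : Set (Set (E 3))} (h : IsLFC 𝒯) (θ : FL TT ≃o FL 𝒯)

theorem top_iso : θ (topF TT) = topF 𝒯 := by
  apply le_antisymm
  · exact Set.subset_univ _
  · rw [← θ.symm.le_iff_le, θ.symm_apply_apply]; exact le_topF _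

theorem bot_iso (hF : FL 𝒯) (e : hF.1 = ∅) : θ botF = hF := by
  apply le_antisymm
  · rw [← θ.symm.le_iff_le, θ.symm_apply_apply]; exact botF_le _
  · show hF.1 ⊆ _
    rw [e]; exact Set.empty_subset _

theorem bot_iso' {x : FL TT} (e : (θ x).1 = ∅) : x = botF := by
  have := bot_iso θ (θ x) e
  exact (θ.injective this).symm

include h

/-- an atom is mapped to a singleton -/
theorem atom_iso {x : FL TT} (hx : x ≠ botF) (hat : ∀ y, y ≤ x → y = botF ∨ y = x) (hxt : x ≠ topF TT) :
    ∃ w : E 3, (θ x).1 = {w} := by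
  have hne : (θ x).1.Nonempty := by
    rw [Set.nonempty_iff_ne_empty]
    intro e; exact hx (bot_iso' θ e)
  rcases (θ x).2 with hu | ⟨T, hT, hf⟩
  · exfalso
    apply hxt
    apply θ.injective
    rw [top_iso θ]
    exact Subtype.ext hu
  · obtain ⟨w, hw, hwf⟩ := hf.exists_extreme (h.polytope T hT) hne
    refine ⟨w, ?_⟩
    let y : FL 𝒯 := ⟨{w}, Or.inr ⟨T, hT, hwf⟩⟩
    have hy : y ≤ θ x := by
      show ({w} : Set (E 3)) ⊆ _
      exact Set.singleton_subset_iff.2 hw
    have hy2 : θ.symm y ≤ x := by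
      rw [← θ.le_iff_le, θ.apply_symm_apply]; exact hy
    rcases hat _ hy2 with h1 | h1
    · exfalso
      have : (θ (θ.symm y)).1 = {w} := by rw [θ.apply_symm_apply]
      have e : θ botF = y := by rw [← h1, θ.apply_symm_apply]
      -- the empty face is in 𝒯
      have hb : θ botF = ⟨∅, Or.inr ⟨T, hT, isFaceOf_empty T⟩⟩ := bot_iso θ _ rfl
      rw [hb] at e
      have : (∅ : Set (E 3)) = {w} := congrArg Subtype.val e
      exact (Set.singleton_ne_empty w) this.symm
    · rw [← h1, θ.apply_symm_apply]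

theorem v_iso {σ : Sg} (hσ : ∀ i, σ i ≠ 0) : ∃ w : E 3, (θ (cfF σ)).1 = {w} :=
  atom_iso h θ (cfF_ne_bot σ) (fun _ hy => v_atom hσ hy) (cfF_ne_top σ)

/-- The angle at the first vertex of the base square is right. -/
theorem square (hr : IsRegular 𝒯) : ∃ w0 w1 w3 : E 3, (θ v0).1 = {w0} ∧ (θ v1).1 = {w1} ∧
    (θ v3).1 = {w3} ∧ inner ℝ (w1 - w0) (w3 - w0) = 0 := by
  obtain ⟨w0, h0⟩ := v_iso h θ (σ := ![1, 1, 1]) (by decide)
  obtain ⟨w1, h1⟩ := v_iso h θ (σ := ![-1, 1, 1]) (by decide)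
  obtain ⟨w2, h2⟩ := v_iso h θ (σ := ![-1, -1, 1]) (by decide)
  obtain ⟨w3, h3⟩ := v_iso h θ (σ := ![1, -1, 1]) (by decide)
  refine ⟨w0, w1, w3, h0, h1, h3, ?_⟩
  -- distinctness
  have hdist : ∀ {σ τ : Sg} {x y : E 3}, (θ (cfF σ)).1 = {x} → (θ (cfF τ)).1 = {y} → σ ≠ τ → x ≠ y := by
    intro σ τ x y hx hy hne hxy
    apply hne
    apply cfF_inj
    apply θ.injective
    apply Subtype.ext
    rw [hx, hy, hxy]
  -- the square lies in a plane
  have hplane : ∃ n : E 3, n ≠ 0 ∧ ∀ x ∈ (θ q0).1, ∀ y ∈ (θ q0).1, inner ℝ n (x - y) = 0 := by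
    have hlt : θ q0 < θ (cfF ![0, 0, 0]) := θ.strictMono (lt_cfF (by decide) (by decide))
    rcases (θ (cfF ![0, 0, 0])).2 with hu | ⟨T, hT, hf⟩
    · exfalso
      have : θ (cfF ![0, 0, 0]) = topF 𝒯 := Subtype.ext hu
      rw [← top_iso θ] at this
      exact cfF_ne_top _ (θ.injective this)
    · have hsub : (θ q0).1 ⊆ T := Set.Subset.trans hlt.le hf.subset
      have hf2 := h.face_of_subset hT (θ q0) hsub
      apply hf2.flat
      · rw [Set.nonempty_iff_ne_empty]
        intro e; exact cfF_ne_bot _ (bot_iso' θ e)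
      · intro e
        apply hlt.ne
        apply Subtype.ext
        apply Set.Subset.antisymm hlt.le
        show (θ (cfF ![0, 0, 0])).1 ⊆ (θ q0).1
        rw [e]; exact hf.subset
  obtain ⟨n, hn, hpl⟩ := hplane
  have hmem : ∀ {σ : Sg} {x : E 3}, (θ (cfF σ)).1 = {x} → sle σ ![0, 0, 1] → x ∈ (θ q0).1 := by
    intro σ x hx hs
    have : θ (cfF σ) ≤ θ q0 := θ.monotone ((cfF_le _ _).2 hs)
    have h4 : (θ (cfF σ)).1 ⊆ (θ q0).1 := this
    rw [hx] at h4
    exact Set.singleton_subset_iff.1 h4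
  have m0 := hmem h0 (by decide)
  have m1 := hmem h1 (by decide)
  have m2 := hmem h2 (by decide)
  have m3 := hmem h3 (by decide)
  -- the isometry
  obtain ⟨s, hs⟩ := exists_fl
  obtain ⟨g, hg, hgs⟩ := hr (Flag.map θ s) (Flag.map (rot.trans θ) s)
  let γ := isomF (fun _ hT => h.convex hT) g hg
  let α : FL TT ≃o FL TT := (θ.trans γ).trans θ.symm
  have hα : α '' Set.range fl = rot '' Set.range fl := by
    have e1 : γ '' (θ '' Set.range fl) = θ '' (rot '' Set.range fl) := by
      have e2 : (fun F : FL 𝒯 => F.1) '' (γ '' (θ '' (s : Set (FL TT)))) =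
          (fun F : FL 𝒯 => F.1) '' (θ '' (rot '' (s : Set (FL TT)))) := by
        rw [Flag.coe_map, Flag.coe_map] at hgs
        have e3 : (rot.trans θ) '' (s : Set (FL TT)) = θ '' (rot '' (s : Set (FL TT))) := by
          rw [Set.image_image]; rfl
        rw [e3] at hgs
        rw [← hgs, Set.image_image]
        rfl
      have e4 := (Set.image_injective.2 (show Function.Injective (fun F : FL 𝒯 => F.1) from
        fun a b hab => Subtype.ext hab)) e2
      rwa [hs] at e4
    have e5 : α '' Set.range fl = θ.symm '' (γ '' (θ '' Set.range fl)) := by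
      rw [Set.image_image, Set.image_image]; rfl
    rw [e5, e1]
    exact θ.symm_image_image _
  obtain ⟨a0, a1, a2, a3, _⟩ := agree α rot hα
  have tr : ∀ {σ τ : Sg} {x y : E 3}, (θ (cfF σ)).1 = {x} → (θ (cfF τ)).1 = {y} →
      α (cfF σ) = cfF τ → g x = y := by
    intro σ τ x y hx hy e
    have e1 : γ (θ (cfF σ)) = θ (cfF τ) := by
      rw [← e]; exact (θ.apply_symm_apply _).symm
    have e2 : g '' (θ (cfF σ)).1 = (θ (cfF τ)).1 := congrArg Subtype.val e1
    rw [hx, hy, Set.image_singleton] at e2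
    exact Set.singleton_injective e2
  have r0 : rot v0 = v1 := by rw [rot_cf]; congr 1
  have r1 : rot v1 = v2 := by rw [rot_cf]; congr 1
  have r2 : rot v2 = v3 := by rw [rot_cf]; congr 1
  have r3 : rot v3 = v0 := by rw [rot_cf]; congr 1
  have g0 := tr h0 h1 (a0.trans r0)
  have g1 := tr h1 h2 (a1.trans r1)
  have g2 := tr h2 h3 (a2.trans r2)
  have g3 := tr h3 h0 (a3.trans r3)
  refine right_angle (w2 := w2) hn (hpl _ m1 _ m0) (hpl _ m2 _ m0) (hpl _ m3 _ m0) ?_ ?_ ?_ ?_
    (hdist h0 h2 (by decide)) (hdist h1 h3 (by decide))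
  · rw [← g.dist_eq w0 w1, g0, g1]
  · rw [← g.dist_eq w1 w2, g1, g2]
  · rw [← g.dist_eq w2 w3, g2, g3]
  · rw [← g.dist_eq w0 w2, g0, g2]

theorem no_iso (θ : FL TT ≃o FL 𝒯) (hr : IsRegular 𝒯) : False := by
  -- the five vertices around the edge
  let x : ℕ → FL TT := fun k => (ga^[k]) v3
  have hx5 : x 5 = x 0 := ga_pow v3
  have hv0 : ∀ k, (ga^[k]) v0 = v0 := fun k => Function.iterate_fixed ga_v0 k
  have hv1 : ∀ k, (ga^[k]) v1 = v1 := fun k => Function.iterate_fixed ga_v1 k
  -- the iterates as order isomorphisms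
  have hiso : ∀ k : ℕ, ∃ η : FL TT ≃o FL TT, ∀ F, η F = (ga^[k]) F := by
    intro k
    induction k with
    | zero => exact ⟨OrderIso.refl _, fun _ => rfl⟩
    | succ k ih =>
      obtain ⟨η, hη⟩ := ih
      refine ⟨η.trans ga, fun F => ?_⟩
      rw [Function.iterate_succ_apply', ← hη]; rfl
  obtain ⟨w0, w1, _, h0, h1, _, _⟩ := square h θ hr
  have hne : w1 ≠ w0 := by
    intro e
    have : v1 = v0 := θ.injective (Subtype.ext (by rw [h0, h1, e]))
    exact absurd (cfF_inj this) (by decide)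
  have key : ∀ k, ∃ u u' : E 3, (θ (x k)).1 = {u} ∧ (θ (x (k + 1))).1 = {u'} ∧
      inner ℝ (w1 - w0) (u - w0) = 0 ∧ inner ℝ (u - w0) (u' - w0) = 0 ∧ u ≠ w0 := by
    intro k
    obtain ⟨η, hη⟩ := hiso k
    obtain ⟨a0, a1, a3, b0, b1, b3, hb⟩ := square h (η.trans θ) hr
    obtain ⟨c0', c1, c3, d0, d1, d3, hd⟩ := square h ((sw.trans η).trans θ) hr
    have e0 : (η.trans θ) v0 = θ v0 := by show θ (η v0) = _; rw [hη, hv0]
    have e1 : (η.trans θ) v1 = θ v1 := by show θ (η v1) = _; rw [hη, hv1]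
    have e3 : (η.trans θ) v3 = θ (x k) := by show θ (η v3) = _; rw [hη]
    have s0' : sw v0 = v0 := by rw [sw_cf]; congr 1
    have s1' : sw v1 = ga v3 := by rw [sw_cf, ga_v3]; congr 1
    have s3' : sw v3 = v3 := by rw [sw_cf]; congr 1
    have f0 : ((sw.trans η).trans θ) v0 = θ v0 := by
      show θ (η (sw v0)) = _; rw [s0', hη, hv0]
    have f1 : ((sw.trans η).trans θ) v1 = θ (x (k + 1)) := by
      show θ (η (sw v1)) = _; rw [s1', hη]; rfl
    have f3 : ((sw.trans η).trans θ) v3 = θ (x k) := by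
      show θ (η (sw v3)) = _; rw [s3', hη]
    rw [e0, h0] at b0
    rw [e1, h1] at b1
    rw [e3] at b3
    rw [f0, h0] at d0
    rw [f1] at d1
    rw [f3, b3] at d3
    have q0' := Set.singleton_injective b0
    have q1' := Set.singleton_injective b1
    have q2' := Set.singleton_injective d0
    have q3' := Set.singleton_injective d3
    refine ⟨a3, c1, b3, d1, ?_, ?_, ?_⟩
    · rw [q0', q1']; exact hb
    · rw [q3', q2', real_inner_comm]; exact hd
    · intro e
      have : x k = v0 := θ.injective (Subtype.ext (by rw [b3, h0, e]))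
      have h4 : (ga^[k]) v3 = (ga^[k]) v0 := by rw [hv0]; exact this
      have h5 : v3 = v0 := (ga.injective.iterate k) h4
      exact absurd (cfF_inj h5) (by decide)
  choose u u' hu hu' ho ho' hn using key
  have huu : ∀ k, u' k = u (k + 1) := fun k =>
    Set.singleton_injective ((hu' k).symm.trans (hu (k + 1)))
  have hu5 : u 5 = u 0 := by
    apply Set.singleton_injective
    rw [← hu, ← hu, hx5]
  let D : ℕ → E 3 := fun k => u k - w0
  have hD0 : ∀ k, D k ≠ 0 := fun k => sub_ne_zero.2 (hn k)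
  have hDa : ∀ k, inner ℝ (w1 - w0) (D k) = 0 := ho
  have hDD : ∀ k, inner ℝ (D k) (D (k + 1)) = 0 := by
    intro k
    have := ho' k
    rw [huu k] at this
    exact this
  have hD5 : D 5 = D 0 := by show u 5 - w0 = u 0 - w0; rw [hu5]
  have ha0 : w1 - w0 ≠ 0 := sub_ne_zero.2 hne
  have step : ∀ k, ∃ l : ℝ, D (k + 2) = l • D k := by
    intro k
    exact parallel ha0 (hD0 (k + 1)) (hD0 k) (hDa (k + 1)) (hDa k)
      (by rw [real_inner_comm]; exact hDD k) (hDa (k + 2)) (hDD (k + 1))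
  obtain ⟨l, hl⟩ := step 0
  obtain ⟨m, hm⟩ := step 2
  have h45 : inner ℝ (D 4) (D 5) = 0 := hDD 4
  rw [hD5, hm, hl, smul_smul, inner_smul_left] at h45
  have hlm : m * l ≠ 0 := by
    intro e
    apply hD0 4
    rw [show D 4 = D (2 + 2) from rfl, hm, hl, smul_smul, e, zero_smul]
  rw [real_inner_self_eq_norm_sq] at h45
  rcases mul_eq_zero.1 h45 with h6 | h6
  · exact hlm (by simpa using h6)
  · exact hD0 0 (by simpa using h6)

end iso

/-- **Main theorem.** There is a combinatorially regular LFC tiling of Euclidean 3-space which is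
not isomorphic to any regular tiling. -/
theorem main : ∃ 𝒯 : Set (Set (E 3)), IsLFC 𝒯 ∧ CombRegular 𝒯 ∧
    ∀ 𝒯' : Set (Set (E 3)), IsLFC 𝒯' → IsRegular 𝒯' → IsEmpty (FL 𝒯 ≃o FL 𝒯') :=
  ⟨TT, TT_LFC, TT_combRegular, fun _ h hr => ⟨fun θ => no_iso h θ hr⟩⟩

end Pool.R179.H435
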