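import Pool.Agent.R179.EvG
import Pool.Agent.R179.H435E

/-!
# The even tiling is not isomorphic to an isometrically two-orbit tiling
-/

namespace Pool.R179.LFC
variable {d : ℕ}

/-- The automorphism group of the face lattice has exactly two orbits on flags. -/
def CombTwoOrbit (𝒯 : Set (Set (E d))) : Prop :=
  ∃ s t : Flag (FL 𝒯), ¬ CombEquiv s t ∧ ∀ u : Flag (FL 𝒯), CombEquiv s u ∨ CombEquiv t u

/-- The group of isometries mapping `𝒯` to itself has exactly two orbits on flags. -/
def IsTwoOrbit (𝒯 : Set (Set (E d))) : Prop :=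
  ∃ s t : Flag (FL 𝒯), ¬ IsomEquiv s t ∧ ∀ u : Flag (FL 𝒯), IsomEquiv s u ∨ IsomEquiv t u

theorem isomEquiv_iff {𝒯 : Set (Set (E d))} (hc : ∀ T ∈ 𝒯, Convex ℝ T) (s t : Flag (FL 𝒯)) :
    IsomEquiv s t ↔ ∃ (g : E d ≃ᵢ E d) (hg : ∀ T, T ∈ 𝒯 ↔ g '' T ∈ 𝒯),
      isomF hc g hg '' (s : Set (FL 𝒯)) = (t : Set (FL 𝒯)) := by
  have key : ∀ (g : E d ≃ᵢ E d) (hg : ∀ T, T ∈ 𝒯 ↔ g '' T ∈ 𝒯),
      (fun F : FL 𝒯 => g '' F.1) '' (s : Set (FL 𝒯)) =
        (fun F : FL 𝒯 => F.1) '' (isomF hc g hg '' (s : Set (FL 𝒯))) := by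
    intro g hg
    rw [Set.image_image]; rfl
  constructor
  · rintro ⟨g, hg, h⟩
    refine ⟨g, hg, ?_⟩
    rw [key g hg] at h
    exact (Set.image_injective.2 (show Function.Injective (fun F : FL 𝒯 => F.1) from
        fun a b hab => Subtype.ext hab)) h
  · rintro ⟨g, hg, h⟩
    refine ⟨g, hg, ?_⟩
    rw [key g hg, h]

theorem IsomEquiv.symm {𝒯 : Set (Set (E d))} (hc : ∀ T ∈ 𝒯, Convex ℝ T) {s t : Flag (FL 𝒯)}
    (h : IsomEquiv s t) : IsomEquiv t s := by
  rw [isomEquiv_iff hc] at h ⊢
  obtain ⟨g, hg, h⟩ := h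
  have hg' : ∀ T, T ∈ 𝒯 ↔ g.symm '' T ∈ 𝒯 := by
    intro T
    rw [hg (g.symm '' T)]
    have : g '' (g.symm '' T) = T := g.toEquiv.image_symm_image T
    rw [this]
  refine ⟨g.symm, hg', ?_⟩
  rw [← h, Set.image_image]
  have : ∀ F : FL 𝒯, isomF hc g.symm hg' (isomF hc g hg F) = F := by
    intro F; apply Subtype.ext
    show g.symm '' (g '' F.1) = F.1
    exact g.toEquiv.symm_image_image F.1
  simp only [this, Set.image_id']

theorem IsomEquiv.trans {𝒯 : Set (Set (E d))} (hc : ∀ T ∈ 𝒯, Convex ℝ T) {s t u : Flag (FL 𝒯)}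
    (h : IsomEquiv s t) (h' : IsomEquiv t u) : IsomEquiv s u := by
  rw [isomEquiv_iff hc] at h h' ⊢
  obtain ⟨g, hg, h⟩ := h
  obtain ⟨k, hk, h'⟩ := h'
  have hgk : ∀ T, T ∈ 𝒯 ↔ (g.trans k) '' T ∈ 𝒯 := by
    intro T
    rw [hg T, hk (g '' T)]
    have : k '' (g '' T) = (g.trans k) '' T := by rw [Set.image_image]; rfl
    rw [this]
  refine ⟨g.trans k, hgk, ?_⟩
  rw [← h', ← h, Set.image_image]
  apply Set.image_congr
  intro F _
  apply Subtype.ext
  show (g.trans k) '' F.1 = k '' (g '' F.1)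
  rw [Set.image_image]; rfl

theorem IsomEquiv.comb {𝒯 : Set (Set (E d))} (hc : ∀ T ∈ 𝒯, Convex ℝ T) {s t : Flag (FL 𝒯)}
    (h : IsomEquiv s t) : CombEquiv s t := by
  rw [isomEquiv_iff hc] at h
  obtain ⟨g, hg, h⟩ := h
  exact ⟨isomF hc g hg, Flag.ext h⟩

theorem CombEquiv.symm {𝒯 : Set (Set (E d))} {s t : Flag (FL 𝒯)} (h : CombEquiv s t) :
    CombEquiv t s := by
  obtain ⟨θ, rfl⟩ := h
  refine ⟨θ.symm, Flag.ext ?_⟩
  rw [Flag.coe_map, Flag.coe_map]
  exact θ.symm_image_image _

theorem CombEquiv.trans {𝒯 : Set (Set (E d))} {s t u : Flag (FL 𝒯)} (h : CombEquiv s t)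
    (h' : CombEquiv t u) : CombEquiv s u := by
  obtain ⟨θ, rfl⟩ := h
  obtain ⟨η, rfl⟩ := h'
  refine ⟨θ.trans η, Flag.ext ?_⟩
  rw [Flag.coe_map, Flag.coe_map, Flag.coe_map, Set.image_image]; rfl

/-- If the isometries have exactly two flag orbits and so do the automorphisms, the orbits agree. -/
theorem isom_of_comb {𝒯 : Set (Set (E d))} (hc : ∀ T ∈ 𝒯, Convex ℝ T) (h2 : IsTwoOrbit 𝒯)
    {a b : Flag (FL 𝒯)} (hab : ¬ CombEquiv a b) {s t : Flag (FL 𝒯)} (hst : CombEquiv s t) :
    IsomEquiv s t := by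
  obtain ⟨s1, s2, hne, hall⟩ := h2
  have no12 : ¬ CombEquiv s1 s2 := by
    intro h12
    have hcomb : ∀ u, CombEquiv s1 u := by
      intro u
      rcases hall u with h | h
      · exact h.comb hc
      · exact h12.trans (h.comb hc)
    exact hab ((hcomb a).symm.trans (hcomb b))
  rcases hall s with hs | hs <;> rcases hall t with ht | ht
  · exact (hs.symm hc).trans hc ht
  · exact absurd ((hs.comb hc).trans (hst.trans (ht.comb hc).symm)) no12
  · exact absurd (((ht.comb hc).trans (hst.symm.trans (hs.comb hc).symm))) no12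
  · exact (hs.symm hc).trans hc ht

end Pool.R179.LFC

namespace Pool.R179.Ev
open Pool.R179.H435 (W B ph ph_gt ph_lt ph_mul ph_inv up pr rho rho_nonneg rho_sq up_0 up_1 up_2 up_3
  pr_0 pr_1 pr_2 pr_up up_pr pr_comb B_comm B_add_left B_smul_left mkLin w01 w12 rr w01_apply w12_apply
  rr_apply orth4 parallel)
open Pool.R179.LFC Pool.R179.Gen

theorem TE_combTwoOrbit : CombTwoOrbit TE := by
  obtain ⟨s, hs⟩ := flag_of fA_strictMono
  obtain ⟨t, ht⟩ := flag_of fB_strictMono
  refine ⟨s, t, ?_, ?_⟩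
  · rintro ⟨θ, hθ⟩
    have h1 : θ '' Set.range fA = Set.range fB := by
      rw [← hs, ← ht, ← hθ]; rfl
    have h2 : StrictMono (θ ∘ fA) := θ.strictMono.comp fA_strictMono
    have h3 : Set.range (θ ∘ fA) = Set.range fB := by rw [Set.range_comp, h1]
    exact not_equiv θ (congrFun ((h2.range_inj fB_strictMono).1 h3) 1)
  · intro u
    obtain ⟨g, hg, h⟩ := flag_normal u
    rcases h with h | h
    · left
      refine CombEquiv.symm ⟨autE g hg, Flag.ext ?_⟩
      rw [Flag.coe_map, h, hs]
    · right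
      refine CombEquiv.symm ⟨autE g hg, Flag.ext ?_⟩
      rw [Flag.coe_map, h, ht]

/-! ### Euclidean lemmas -/

theorem ip_iso (g : E 3 ≃ᵢ E 3) {A x y : E 3} (hA : g A = A) :
    inner ℝ (g x - A) (g y - A) = inner ℝ (x - A) (y - A) := by
  have key : ∀ u v : E 3, inner ℝ (u - A) (v - A) = (dist u A ^ 2 + dist v A ^ 2 - dist u v ^ 2) / 2 := by
    intro u v
    have h1 : dist u v = ‖(u - A) - (v - A)‖ := by rw [dist_eq_norm]; congr 1; abel
    have h2 := norm_sub_sq_real (u - A) (v - A)
    rw [h1, dist_eq_norm, dist_eq_norm, h2]; ring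
  rw [key, key]
  have d1 : dist (g x) A = dist x A := by
    conv_lhs => rw [← hA]
    exact g.dist_eq x A
  have d2 : dist (g y) A = dist y A := by
    conv_lhs => rw [← hA]
    exact g.dist_eq y A
  rw [d1, d2, g.dist_eq]

/-- four vectors with equal norms and equal inner products -/
theorem tetra {e1 e2 e3 e4 : E 3} {n p : ℝ} (n1 : inner ℝ e1 e1 = n) (n2 : inner ℝ e2 e2 = n)
    (n3 : inner ℝ e3 e3 = n) (n4 : inner ℝ e4 e4 = n) (p12 : inner ℝ e1 e2 = p)
    (p13 : inner ℝ e1 e3 = p) (p14 : inner ℝ e1 e4 = p) (p23 : inner ℝ e2 e3 = p)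
    (p24 : inner ℝ e2 e4 = p) (p34 : inner ℝ e3 e4 = p) (hne : e1 ≠ e2) : 3 * p = -n := by
  have q12 : inner ℝ e2 e1 = p := by rw [real_inner_comm]; exact p12
  have q13 : inner ℝ e3 e1 = p := by rw [real_inner_comm]; exact p13
  have q14 : inner ℝ e4 e1 = p := by rw [real_inner_comm]; exact p14
  have q23 : inner ℝ e3 e2 = p := by rw [real_inner_comm]; exact p23
  have q24 : inner ℝ e4 e2 = p := by rw [real_inner_comm]; exact p24
  have q34 : inner ℝ e4 e3 = p := by rw [real_inner_comm]; exact p34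
  have hnp : n - p ≠ 0 := by
    intro h
    have : inner ℝ (e1 - e2) (e1 - e2) = 0 := by
      simp only [inner_sub_left, inner_sub_right, n1, n2, p12, q12]; linarith
    rw [inner_self_eq_zero] at this
    exact hne (sub_eq_zero.1 this)
  by_contra hcon
  apply orth4 ![e1 - e2, e3 - e4, e1 + e2 - e3 - e4, e1 + e2 + e3 + e4]
  · intro i
    intro h0
    have h1 : inner ℝ ((![e1 - e2, e3 - e4, e1 + e2 - e3 - e4, e1 + e2 + e3 + e4] : Fin 4 → E 3) i)
        ((![e1 - e2, e3 - e4, e1 + e2 - e3 - e4, e1 + e2 + e3 + e4] : Fin 4 → E 3) i) = 0 := by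
      rw [h0, inner_zero_left]
    fin_cases i
    · simp only [Fin.zero_eta, Matrix.cons_val_zero, inner_sub_left, inner_sub_right, n1, n2, p12, q12] at h1
      apply hnp; linarith
    · simp only [Fin.mk_one, Matrix.cons_val_one, Matrix.cons_val_zero, inner_sub_left, inner_sub_right,
        n3, n4, p34, q34] at h1
      apply hnp; linarith
    · simp only [Fin.reduceFinMk, Matrix.cons_val, inner_sub_left, inner_sub_right, inner_add_left,
        inner_add_right, n1, n2, n3, n4, p12, p13, p14, p23, p24, p34, q12, q13, q14, q23, q24, q34] at h1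
      apply hnp; linarith
    · simp only [Fin.reduceFinMk, Matrix.cons_val, inner_sub_left, inner_sub_right, inner_add_left,
        inner_add_right, n1, n2, n3, n4, p12, p13, p14, p23, p24, p34, q12, q13, q14, q23, q24, q34] at h1
      apply hcon; linarith
  · intro i j hij
    fin_cases i <;> fin_cases j <;> first | exact absurd rfl hij | skip
    all_goals
      simp only [Fin.zero_eta, Fin.mk_one, Fin.reduceFinMk, Matrix.cons_val, Matrix.cons_val_zero,
        Matrix.cons_val_one, inner_sub_left,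
        inner_sub_right, inner_add_left,
        inner_add_right, n1, n2, n3, n4, p12, p13, p14, p23, p24, p34, q12, q13, q14, q23, q24, q34]
      ring

/-- three vectors around an axis -/
theorem three {U N1 N2 N3 : E 3} {n r : ℝ} (hU : U ≠ 0) (nU : inner ℝ U U = n)
    (n1 : inner ℝ N1 N1 = n) (n2 : inner ℝ N2 N2 = n) (n3 : inner ℝ N3 N3 = n)
    (u1 : inner ℝ U N1 = n / 3) (u2 : inner ℝ U N2 = n / 3) (u3 : inner ℝ U N3 = n / 3)
    (r12 : inner ℝ N1 N2 = r) (r13 : inner ℝ N1 N3 = r) (r23 : inner ℝ N2 N3 = r) (hne : N1 ≠ N2) :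
    3 * r = -n := by
  have s12 : inner ℝ N2 N1 = r := by rw [real_inner_comm]; exact r12
  have s13 : inner ℝ N3 N1 = r := by rw [real_inner_comm]; exact r13
  have s23 : inner ℝ N3 N2 = r := by rw [real_inner_comm]; exact r23
  have t1 : inner ℝ N1 U = n / 3 := by rw [real_inner_comm]; exact u1
  have t2 : inner ℝ N2 U = n / 3 := by rw [real_inner_comm]; exact u2
  have t3 : inner ℝ N3 U = n / 3 := by rw [real_inner_comm]; exact u3
  have hnr : n - r ≠ 0 := by
    intro h
    have : inner ℝ (N1 - N2) (N1 - N2) = 0 := by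
      simp only [inner_sub_left, inner_sub_right, n1, n2, r12, s12]; linarith
    rw [inner_self_eq_zero] at this
    exact hne (sub_eq_zero.1 this)
  by_contra hcon
  apply orth4 ![U, N1 - N2, N1 + N2 - N3 - N3, N1 + N2 + N3 - U]
  · intro i
    intro h0
    have h1 : inner ℝ ((![U, N1 - N2, N1 + N2 - N3 - N3, N1 + N2 + N3 - U] : Fin 4 → E 3) i)
        ((![U, N1 - N2, N1 + N2 - N3 - N3, N1 + N2 + N3 - U] : Fin 4 → E 3) i) = 0 := by
      rw [h0, inner_zero_left]
    fin_cases i
    · exact hU h0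
    · simp only [Fin.mk_one, Matrix.cons_val_one, Matrix.cons_val_zero, inner_sub_left, inner_sub_right,
        n1, n2, r12, s12] at h1
      apply hnr; linarith
    · simp only [Fin.reduceFinMk, Matrix.cons_val, inner_sub_left, inner_sub_right, inner_add_left,
        inner_add_right, n1, n2, n3, r12, r13, r23, s12, s13, s23] at h1
      apply hnr; linarith
    · simp only [Fin.reduceFinMk, Matrix.cons_val, inner_sub_left, inner_sub_right, inner_add_left,
        inner_add_right, nU, n1, n2, n3, r12, r13, r23, s12, s13, s23, u1, u2, u3, t1, t2, t3] at h1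
      apply hcon; linarith
  · intro i j hij
    fin_cases i <;> fin_cases j <;> first | exact absurd rfl hij | skip
    all_goals
      simp only [Fin.zero_eta, Fin.mk_one, Fin.reduceFinMk, Matrix.cons_val, Matrix.cons_val_zero,
        Matrix.cons_val_one, inner_sub_left,
        inner_sub_right, inner_add_left,
        inner_add_right, nU, n1, n2, n3, r12, r13, r23, s12, s13, s23, u1, u2, u3, t1, t2, t3]
      ring

/-- a planar rhombus -/
theorem rhombus {A A' P P' m : E 3} (hm : m ≠ 0) (k1 : inner ℝ m (A' - A) = 0)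
    (k2 : inner ℝ m (P - A) = 0) (k3 : inner ℝ m (P' - A) = 0)
    (d1 : dist A P = dist A' P) (d2 : dist A P = dist A P') (d3 : dist A P = dist A' P')
    (hA : A ≠ A') (hP : P ≠ P') : P' - A = A' - P := by
  set x := P + P - (A + A') with hx
  set y := P' + P' - (A + A') with hy
  set d := A - A' with hd
  have e1 : inner ℝ (P - A) (P - A) = inner ℝ (P - A') (P - A') := by
    rw [real_inner_self_eq_norm_sq, real_inner_self_eq_norm_sq, ← dist_eq_norm, ← dist_eq_norm,
      dist_comm, d1, dist_comm]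
  have e2 : inner ℝ (P' - A) (P' - A) = inner ℝ (P - A) (P - A) := by
    rw [real_inner_self_eq_norm_sq, real_inner_self_eq_norm_sq, ← dist_eq_norm, ← dist_eq_norm,
      dist_comm, ← d2, dist_comm]
  have e3 : inner ℝ (P' - A') (P' - A') = inner ℝ (P - A) (P - A) := by
    rw [real_inner_self_eq_norm_sq, real_inner_self_eq_norm_sq, ← dist_eq_norm, ← dist_eq_norm,
      dist_comm, ← d3, dist_comm]
  have hd0 : d ≠ 0 := sub_ne_zero.2 hA
  -- work with u = P - A, v = P - A', u' = P' - A, v' = P' - A'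
  have dx : inner ℝ d x = 0 := by
    have h1 : d = (P - A') - (P - A) := by rw [hd]; abel
    have h2 : x = (P - A') + (P - A) := by rw [hx]; abel
    rw [h1, h2]
    rw [inner_sub_left, inner_add_right, inner_add_right, real_inner_comm (P - A) (P - A')]; linarith
  have dy : inner ℝ d y = 0 := by
    have h1 : d = (P' - A') - (P' - A) := by rw [hd]; abel
    have h2 : y = (P' - A') + (P' - A) := by rw [hy]; abel
    rw [h1, h2]
    rw [inner_sub_left, inner_add_right, inner_add_right, real_inner_comm (P' - A) (P' - A')]; linarith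
  have md : inner ℝ m d = 0 := by
    have : d = -(A' - A) := by rw [hd]; abel
    rw [this, inner_neg_right, k1, neg_zero]
  have mx : inner ℝ m x = 0 := by
    have : x = (P - A) + (P - A) - (A' - A) := by rw [hx]; abel
    rw [this, inner_sub_right, inner_add_right, k1, k2]; ring
  have my : inner ℝ m y = 0 := by
    have : y = (P' - A) + (P' - A) - (A' - A) := by rw [hy]; abel
    rw [this, inner_sub_right, inner_add_right, k1, k3]; ring
  have xy : inner ℝ x x = inner ℝ y y := by
    -- |x|^2 = 2|u|^2 + 2|v|^2 - |d|^2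
    have h2 : x = (P - A') + (P - A) := by rw [hx]; abel
    have h3 : y = (P' - A') + (P' - A) := by rw [hy]; abel
    have h4 : d = (P - A') - (P - A) := by rw [hd]; abel
    have h5 : d = (P' - A') - (P' - A) := by rw [hd]; abel
    have i1 : inner ℝ x x + inner ℝ d d = 2 * inner ℝ (P - A') (P - A') + 2 * inner ℝ (P - A) (P - A) := by
      rw [h2, h4]; simp only [inner_sub_left, inner_sub_right, inner_add_left, inner_add_right]; ring
    have i2 : inner ℝ y y + inner ℝ d d = 2 * inner ℝ (P' - A') (P' - A') + 2 * inner ℝ (P' - A) (P' - A) := by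
      rw [h3, h5]; simp only [inner_sub_left, inner_sub_right, inner_add_left, inner_add_right]; ring
    linarith
  have hxy : x ≠ y := by
    intro h
    apply hP
    have h1 : (2 : ℝ) • P = (2 : ℝ) • P' := by
      have h2 : x + (A + A') = y + (A + A') := by rw [h]
      have h3 : x + (A + A') = (2 : ℝ) • P := by rw [hx, two_smul]; abel
      have h4 : y + (A + A') = (2 : ℝ) • P' := by rw [hy, two_smul]; abel
      rw [← h3, ← h4, h2]
    exact smul_right_injective _ (two_ne_zero) h1
  have hx0 : x ≠ 0 := by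
    intro h
    apply hxy
    rw [h, inner_zero_left] at xy
    rw [h, (inner_self_eq_zero (𝕜 := ℝ)).1 xy.symm]
  obtain ⟨l, hl⟩ := parallel hd0 hm hx0 (by rw [real_inner_comm]; exact md) dx mx dy my
  have hll : l * l = 1 := by
    rw [hl, inner_smul_left, inner_smul_right] at xy
    simp only [conj_trivial] at xy
    have hxx : inner ℝ x x ≠ 0 := by
      rw [Ne, inner_self_eq_zero]; exact hx0
    have : (l * l - 1) * inner ℝ x x = 0 := by linarith
    rcases mul_eq_zero.1 this with h | h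
    · linarith
    · exact absurd h hxx
  have hl1 : l = -1 := by
    have : (l - 1) * (l + 1) = 0 := by linarith
    rcases mul_eq_zero.1 this with h | h
    · exfalso; apply hxy; rw [hl, show l = 1 by linarith, one_smul]
    · linarith
  rw [hl1, neg_smul, one_smul] at hl
  have h0 : y + x = 0 := by rw [hl]; abel
  have h1 : (2 : ℝ) • (P' - A) = (2 : ℝ) • (A' - P) := by
    have h2 : (2 : ℝ) • (P' - A) = (y + x) + (2 : ℝ) • (A' - P) := by
      rw [hx, hy, two_smul, two_smul]; abel
    rw [h2, h0, zero_add]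
  exact smul_right_injective _ (two_ne_zero) h1

end Pool.R179.Ev
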