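import Pool.Agent.R179.EvH

/-!
# The even tiling: geometry of an isometrically two-orbit realization
-/

namespace Pool.R179.Ev
open Pool.R179.H435 (W B ph ph_gt ph_lt ph_mul ph_inv up pr rho rho_nonneg rho_sq up_0 up_1 up_2 up_3
  pr_0 pr_1 pr_2 pr_up up_pr pr_comb B_comm B_add_left B_smul_left mkLin w01 w12 rr w01_apply w12_apply
  rr_apply orth4 parallel r5 r5_apply r5_pow)
open Pool.R179.LFC Pool.R179.Gen

section iso
variable {𝒯 : Set (Set (E 3))}

theorem topE_iso (θ : FL TE ≃o FL 𝒯) : θ topE = topF 𝒯 := by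
  apply le_antisymm
  · exact Set.subset_univ _
  · rw [← θ.symm.le_iff_le, θ.symm_apply_apply]; exact le_topE _

theorem botE_iso (θ : FL TE ≃o FL 𝒯) (hF : FL 𝒯) (e : hF.1 = ∅) : θ botE = hF := by
  apply le_antisymm
  · rw [← θ.symm.le_iff_le, θ.symm_apply_apply]; exact botE_le _
  · show hF.1 ⊆ _
    rw [e]; exact Set.empty_subset _

theorem botE_iso' (θ : FL TE ≃o FL 𝒯) {x : FL TE} (e : (θ x).1 = ∅) : x = botE := by
  have := botE_iso θ (θ x) e
  exact (θ.injective this).symm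

/-- an atom is mapped to a singleton -/
theorem atomE_iso (h : IsLFC 𝒯) (θ : FL TE ≃o FL 𝒯) {x : FL TE} (hx : x ≠ botE)
    (hat : ∀ y, y ≤ x → y = botE ∨ y = x) (hxt : x ≠ topE) : ∃ w : E 3, (θ x).1 = {w} := by
  have hne : (θ x).1.Nonempty := by
    rw [Set.nonempty_iff_ne_empty]
    intro e; exact hx (botE_iso' θ e)
  rcases (θ x).2 with hu | ⟨T, hT, hf⟩
  · exfalso
    apply hxt
    apply θ.injective
    rw [topE_iso θ]
    exact Subtype.ext hu
  · obtain ⟨w, hw, hwf⟩ := hf.exists_extreme (h.polytope T hT) hne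
    refine ⟨w, ?_⟩
    let y : FL 𝒯 := ⟨{w}, Or.inr ⟨T, hT, hwf⟩⟩
    have hy : y ≤ θ x := by
      show ({w} : Set (E 3)) ⊆ _
      exact Set.singleton_subset_iff.2 hw
    have hy2 : θ.symm y ≤ x := by
      rw [← θ.le_iff_le, θ.apply_symm_apply]; exact hy
    rcases hat _ hy2 with h1 | h1
    · exfalso
      have e : θ botE = y := by rw [← h1, θ.apply_symm_apply]
      have hb : θ botE = ⟨∅, Or.inr ⟨T, hT, isFaceOf_empty T⟩⟩ := botE_iso θ _ rfl
      rw [hb] at e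
      have : (∅ : Set (E 3)) = {w} := congrArg Subtype.val e
      exact (Set.singleton_ne_empty w) this.symm
    · rw [← h1, θ.apply_symm_apply]

/-- the reflections are realized by isometries -/
theorem isom_rf (h : IsLFC 𝒯) (h2 : IsTwoOrbit 𝒯) (θ : FL TE ≃o FL 𝒯) (j : Fin 4) :
    ∃ g : E 3 ≃ᵢ E 3, ∀ F : FL TE, g '' (θ F).1 = (θ (rf j F)).1 := by
  have hc : ∀ T ∈ 𝒯, Convex ℝ T := fun _ hT => h.convex hT
  obtain ⟨s, hs⟩ := flag_of fA_strictMono
  obtain ⟨a, b, hab, _⟩ := TE_combTwoOrbit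
  have hab' : ¬ CombEquiv (Flag.map θ a) (Flag.map θ b) := by
    rintro ⟨η, hη⟩
    apply hab
    refine ⟨(θ.trans η).trans θ.symm, Flag.ext ?_⟩
    have h1 : η '' (θ '' (a : Set (FL TE))) = θ '' (b : Set (FL TE)) := by
      have := congrArg (fun F : Flag (FL 𝒯) => (F : Set (FL 𝒯))) hη
      simpa only [Flag.coe_map] using this
    rw [Flag.coe_map]
    have h3 : ((θ.trans η).trans θ.symm) '' (a : Set (FL TE)) = θ.symm '' (η '' (θ '' (a : Set (FL TE)))) := by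
      rw [Set.image_image, Set.image_image]; rfl
    rw [h3, h1]
    exact θ.symm_image_image _
  have hst : CombEquiv (Flag.map θ s) (Flag.map ((rf j).trans θ) s) := by
    refine ⟨(θ.symm.trans (rf j)).trans θ, Flag.ext ?_⟩
    rw [Flag.coe_map, Flag.coe_map, Flag.coe_map, Set.image_image]
    apply Set.image_congr
    intro F _
    show θ (rf j (θ.symm (θ F))) = θ (rf j F)
    rw [θ.symm_apply_apply]
  have hI := isom_of_comb hc h2 hab' hst
  rw [isomEquiv_iff hc] at hI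
  obtain ⟨g, hg, hgs⟩ := hI
  refine ⟨g, fun F => ?_⟩
  let α : FL TE ≃o FL TE := (θ.trans (isomF hc g hg)).trans θ.symm
  have hα : α '' Set.range fA = rf j '' Set.range fA := by
    have e5 : α '' Set.range fA = θ.symm '' (isomF hc g hg '' (θ '' Set.range fA)) := by
      rw [Set.image_image, Set.image_image]; rfl
    rw [Flag.coe_map, Flag.coe_map, hs] at hgs
    have e6 : ((rf j).trans θ) '' Set.range fA = θ '' (rf j '' Set.range fA) := by
      rw [Set.image_image]; rfl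
    rw [e5, hgs, e6]
    exact θ.symm_image_image _
  have h3 := agreeE α (rf j) hα F
  have h4 : isomF hc g hg (θ F) = θ (rf j F) := by
    rw [← h3]; exact (θ.apply_symm_apply _).symm
  exact congrArg Subtype.val h4

/-- the vertex `w` of `𝒯` corresponds to the vector `X` -/
def Pt (θ : FL TE ≃o FL 𝒯) (X : W) (w : E 3) : Prop := ∃ hX : TL X, (θ (FX X hX)).1 = {w}

theorem Pt.unique {θ : FL TE ≃o FL 𝒯} {X Y : W} {w w' : E 3} (h : Pt θ X w) (h' : Pt θ Y w')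
    (e : X = Y) : w = w' := by
  subst e
  obtain ⟨_, h⟩ := h
  obtain ⟨_, h'⟩ := h'
  exact Set.singleton_injective (h.symm.trans h')

theorem Pt.ne {θ : FL TE ≃o FL 𝒯} {X Y : W} {w w' : E 3} (h : Pt θ X w) (h' : Pt θ Y w')
    (e : AM X ≠ AM Y) : w ≠ w' := by
  rintro rfl
  obtain ⟨hX, h⟩ := h
  obtain ⟨hY, h'⟩ := h'
  apply e
  rw [← FX_eq hX hY]
  apply θ.injective
  exact Subtype.ext (h.trans h'.symm)

theorem Pt.map {θ : FL TE ≃o FL 𝒯} {j : Fin 4} {g : E 3 ≃ᵢ E 3}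
    (hg : ∀ F : FL TE, g '' (θ F).1 = (θ (rf j F)).1) {X : W} {w : E 3} (h : Pt θ X w) :
    Pt θ (R j X) (g w) := by
  obtain ⟨hX, h⟩ := h
  refine ⟨TL_R hX j, ?_⟩
  rw [← rf_FX j hX, ← hg, h, Set.image_singleton]

end iso

/-! ### The vectors of the vertices -/

theorem xa2 : R 0 Xa = ![1, -1, 1, ph + 1] := by
  show w01 Xa = _; rw [w01_apply]; ext i; fin_cases i <;> simp [Xa]
theorem xa3 : R 2 (R 0 Xa) = ![1, 1, -1, ph + 1] := by
  rw [xa2]; show w12 _ = _; rw [w12_apply]; ext i; fin_cases i <;> simp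
theorem xa4 : R 1 (R 2 (R 0 Xa)) = ![-1, -1, -1, ph + 1] := by
  rw [xa3]; show w01m _ = _; rw [w01m_apply]; ext i; fin_cases i <;> simp
theorem xb2 : R 3 Xb = ![0, 0, 1, ph] := by
  show rr Xb = _; rw [rr_apply]; ext i; fin_cases i <;> simp [Xb]
theorem xb3 : R 2 (R 3 Xb) = ![0, 1, 0, ph] := by
  rw [xb2]; show w12 _ = _; rw [w12_apply]; ext i; fin_cases i <;> simp
theorem xb4 : R 1 (R 2 (R 3 Xb)) = ![-1, 0, 0, ph] := by
  rw [xb3]; show w01m _ = _; rw [w01m_apply]; ext i; fin_cases i <;> simp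

theorem a1_1 : R 1 Xa = Xa := R_fix (by simp [f, Xa])
theorem a1_2 : R 2 Xa = Xa := R_fix (by simp [f, Xa])
theorem a1_3 : R 3 Xa = Xa := R_fix (by simp [f, Xa])
theorem a2_1 : R 1 (R 0 Xa) = R 0 Xa := R_fix (by rw [xa2]; simp [f])
theorem a3_0 : R 0 (R 2 (R 0 Xa)) = R 2 (R 0 Xa) := R_fix (by rw [xa3]; simp [f])
theorem a4_0 : R 0 (R 1 (R 2 (R 0 Xa))) = R 1 (R 2 (R 0 Xa)) := R_fix (by rw [xa4]; simp [f])
theorem a4_2 : R 2 (R 1 (R 2 (R 0 Xa))) = R 1 (R 2 (R 0 Xa)) := R_fix (by rw [xa4]; simp [f])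
theorem b1_0 : R 0 Xb = Xb := R_fix (by simp [f, Xb])
theorem b1_1 : R 1 Xb = Xb := R_fix (by simp [f, Xb])
theorem b1_2 : R 2 Xb = Xb := R_fix (by simp [f, Xb])
theorem b2_0 : R 0 (R 3 Xb) = R 3 Xb := R_fix (by rw [xb2]; simp [f])
theorem b2_1 : R 1 (R 3 Xb) = R 3 Xb := R_fix (by rw [xb2]; simp [f])
theorem b4_2 : R 2 (R 1 (R 2 (R 3 Xb))) = R 1 (R 2 (R 3 Xb)) := R_fix (by rw [xb4]; simp [f])

theorem R3v4 : R 3 v4 = v2 := by rw [← R3v2, R_invol]
theorem ne_a12 : AM Xa ≠ AM (R 0 Xa) := by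
  intro h
  rw [AM_R, AMa] at h
  have h4 : v4 ∈ R 0 '' Na := by rw [← h]; exact v4_Na
  obtain ⟨w, hw, e⟩ := h4
  have e2 : w = R 0 v4 := by rw [← e, R_invol]
  rw [e2] at hw
  have h5 := hw.2
  have h6 : R 0 v4 = ![1, -1, 2 * ph + 1, 3 * ph + 1] := by
    show w01 v4 = _; rw [w01_apply, v4]; ext i; fin_cases i <;> simp
  rw [h6] at h5
  simp [Nf] at h5
  have := ph_mul
  linarith

theorem ne_ab : AM Xa ≠ AM Xb := by
  rw [AMa, AMb]
  intro h
  exact v4_not_Nb (h ▸ v4_Na)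

theorem ne_b12 : AM Xb ≠ AM (R 3 Xb) := by
  intro h
  rw [AM_R, AMb] at h
  have h4 : v2 ∈ R 3 '' Nb := by rw [← h]; exact Or.inr (Or.inr (Or.inl rfl))
  obtain ⟨w, hw, e⟩ := h4
  have e2 : w = v4 := by rw [← R3v2, ← e, R_invol]
  exact v4_not_Nb (e2 ▸ hw)

theorem ne_b23 : AM (R 3 Xb) ≠ AM (R 2 (R 3 Xb)) := by
  intro h
  rw [AM_R (R 3 Xb), AM_R Xb, AMb] at h
  have h4 : v1 ∈ R 3 '' Nb := ⟨v1, Or.inr (Or.inl rfl), R3_v1⟩
  rw [h] at h4
  obtain ⟨_, ⟨w, hw, rfl⟩, e⟩ := h4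
  have e2 : R 3 w = v2 := by rw [← R2v1, ← e, R_invol]
  have e3 : w = v4 := by rw [← R3v2, ← e2, R_invol]
  exact v4_not_Nb (e3 ▸ hw)

/-- four vectors of `E 3` with the Gram matrix of the pentagonal cycle do not exist -/
theorem no_gram {p : Fin 4 → E 3} {n : ℝ} (hn : 0 < n) (h0 : ∀ i, inner ℝ (p i) (p i) = n)
    (h01 : inner ℝ (p 0) (p 1) = n / 3) (h12 : inner ℝ (p 1) (p 2) = n / 3)
    (h23 : inner ℝ (p 2) (p 3) = n / 3) (h02 : inner ℝ (p 0) (p 2) = -(n / 3))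
    (h13 : inner ℝ (p 1) (p 3) = -(n / 3)) (h03 : inner ℝ (p 0) (p 3) = -(n / 3)) : False := by
  have hli : ¬ LinearIndependent ℝ p := by
    intro h
    have := h.fintype_card_le_finrank
    rw [finrank_euclideanSpace] at this
    simp at this
  rw [Fintype.not_linearIndependent_iff] at hli
  obtain ⟨g, hg, i, hi⟩ := hli
  rw [Fin.sum_univ_four] at hg
  have h10 : inner ℝ (p 1) (p 0) = n / 3 := by rw [real_inner_comm]; exact h01
  have h21 : inner ℝ (p 2) (p 1) = n / 3 := by rw [real_inner_comm]; exact h12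
  have h32 : inner ℝ (p 3) (p 2) = n / 3 := by rw [real_inner_comm]; exact h23
  have h20 : inner ℝ (p 2) (p 0) = -(n / 3) := by rw [real_inner_comm]; exact h02
  have h31 : inner ℝ (p 3) (p 1) = -(n / 3) := by rw [real_inner_comm]; exact h13
  have h30 : inner ℝ (p 3) (p 0) = -(n / 3) := by rw [real_inner_comm]; exact h03
  have key : ∀ x : E 3, g 0 * inner ℝ x (p 0) + g 1 * inner ℝ x (p 1) + g 2 * inner ℝ x (p 2) +
      g 3 * inner ℝ x (p 3) = 0 := by
    intro x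
    have := congrArg (fun y => inner ℝ x y) hg
    simpa [inner_add_right, inner_smul_right] using this
  have k0 := key (p 0)
  have k1 := key (p 1)
  have k2 := key (p 2)
  have k3 := key (p 3)
  rw [h0, h01, h02, h03] at k0
  rw [h10, h0, h12, h13] at k1
  rw [h20, h21, h0, h23] at k2
  rw [h30, h31, h32, h0] at k3
  have c0 : 3 * g 0 + g 1 - g 2 - g 3 = 0 := by
    have : n * (3 * g 0 + g 1 - g 2 - g 3) = 0 := by linarith
    exact (mul_eq_zero.1 this).resolve_left hn.ne'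
  have c1 : g 0 + 3 * g 1 + g 2 - g 3 = 0 := by
    have : n * (g 0 + 3 * g 1 + g 2 - g 3) = 0 := by linarith
    exact (mul_eq_zero.1 this).resolve_left hn.ne'
  have c2 : - g 0 + g 1 + 3 * g 2 + g 3 = 0 := by
    have : n * (- g 0 + g 1 + 3 * g 2 + g 3) = 0 := by linarith
    exact (mul_eq_zero.1 this).resolve_left hn.ne'
  have c3 : - g 0 - g 1 + g 2 + 3 * g 3 = 0 := by
    have : n * (- g 0 - g 1 + g 2 + 3 * g 3) = 0 := by linarith
    exact (mul_eq_zero.1 this).resolve_left hn.ne'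
  apply hi
  fin_cases i
  · show g 0 = 0; linarith
  · show g 1 = 0; linarith
  · show g 2 = 0; linarith
  · show g 3 = 0; linarith

end Pool.R179.Ev
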