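import Pool.Agent.R179.EvI

/-!
# The even tiling is not isomorphic to an isometrically two-orbit tiling
-/

namespace Pool.R179.Ev
open Pool.R179.H435 (W B ph ph_gt ph_lt ph_mul ph_inv up pr rho rho_nonneg rho_sq up_0 up_1 up_2 up_3
  pr_0 pr_1 pr_2 pr_up up_pr pr_comb B_comm B_add_left B_smul_left mkLin w01 w12 rr w01_apply w12_apply
  rr_apply orth4 parallel r5 r5_apply r5_pow)
open Pool.R179.LFC Pool.R179.Gen

section iso
variable {𝒯 : Set (Set (E 3))}

theorem inner_dist (u v A : E 3) :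
    inner ℝ (u - A) (v - A) = (dist u A ^ 2 + dist v A ^ 2 - dist u v ^ 2) / 2 := by
  have h1 : dist u v = ‖(u - A) - (v - A)‖ := by rw [dist_eq_norm]; congr 1; abel
  have h2 := norm_sub_sq_real (u - A) (v - A)
  rw [h1, dist_eq_norm, dist_eq_norm, h2]; ring

/-- the image of the standard quadrilateral is planar -/
theorem plane (h : IsLFC 𝒯) (θ : FL TE ≃o FL 𝒯) :
    ∃ n : E 3, n ≠ 0 ∧ ∀ x ∈ (θ sQ).1, ∀ y ∈ (θ sQ).1, inner ℝ n (x - y) = 0 := by
  have hlt : θ sQ < θ sT := θ.strictMono sQ_lt_sT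
  rcases (θ sT).2 with hu | ⟨T, hT, hf⟩
  · exfalso
    have : θ sT = topF 𝒯 := Subtype.ext hu
    rw [← topE_iso θ] at this
    exact FX_ne_top _ (θ.injective this)
  · have hsub : (θ sQ).1 ⊆ T := Set.Subset.trans hlt.le hf.subset
    have hf2 := h.face_of_subset hT (θ sQ) hsub
    apply hf2.flat
    · rw [Set.nonempty_iff_ne_empty]
      intro e; exact FX_ne_bot _ (botE_iso' θ e)
    · intro e
      apply hlt.ne
      apply Subtype.ext
      apply Set.Subset.antisymm hlt.le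
      show (θ sT).1 ⊆ (θ sQ).1
      rw [e]; exact hf.subset

theorem Pt.mem {θ : FL TE ≃o FL 𝒯} {X : W} {w : E 3} (h : Pt θ X w) {F : FL TE}
    (hF : ∀ hX : TL X, FX X hX ≤ F) : w ∈ (θ F).1 := by
  obtain ⟨hX, h⟩ := h
  have h1 : (θ (FX X hX)).1 ⊆ (θ F).1 := θ.monotone (hF hX)
  rw [h] at h1
  exact Set.singleton_subset_iff.1 h1

theorem R23_pow (X : W) : R 2 (R 3 (R 2 (R 3 (R 2 (R 3 (R 2 (R 3 (R 2 (R 3 X))))))))) = X := by
  have h : ∀ Y, R 2 (R 3 Y) = r5 Y := fun Y => rfl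
  rw [h, h, h, h, h]
  exact r5_pow X

/-- the pentagon around the vertex `A` is impossible -/
theorem pentagon {θ : FL TE ≃o FL 𝒯} {g2 g3 : E 3 ≃ᵢ E 3}
    (hg2 : ∀ F : FL TE, g2 '' (θ F).1 = (θ (rf 2 F)).1)
    (hg3 : ∀ F : FL TE, g3 '' (θ F).1 = (θ (rf 3 F)).1)
    {A P P2 P3 : E 3} {n : ℝ} (g2A : g2 A = A) (g3A : g3 A = A) (pP : Pt θ Xb P)
    (pP3 : Pt θ (R 2 (R 3 Xb)) P3) (g2P : g2 P = P) (g3P2 : g3 P2 = P) (hn : 0 < n)
    (hPA : inner ℝ (P - A) (P - A) = n) (u2 : inner ℝ (P - A) (P3 - A) = n / 3)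
    (r23 : inner ℝ (P2 - A) (P3 - A) = -(n / 3)) : False := by
  obtain ⟨s, hs⟩ : ∃ s : E 3 ≃ᵢ E 3, ∀ x, s x = g2 (g3 x) := ⟨g3.trans g2, fun x => rfl⟩
  have sA : s A = A := by rw [hs, g3A, g2A]
  have step : ∀ {X : W} {w : E 3}, Pt θ X w → Pt θ (R 2 (R 3 X)) (s w) := by
    intro X w hw
    rw [hs]
    exact (hw.map hg3).map hg2
  have t1 := step pP
  have t2 := step t1
  have t3 := step t2
  have t4 := step t3
  have t5 := step t4
  have e5 : s (s (s (s (s P)))) = P := t5.unique pP (R23_pow Xb)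
  have e1 : s P = P3 := t1.unique pP3 rfl
  have e4 : s (s (s (s P))) = P2 := by
    apply s.injective
    rw [e5, hs, g3P2, g2P]
  have sh : ∀ a b : E 3, inner ℝ (s a - A) (s b - A) = inner ℝ (a - A) (b - A) := fun a b =>
    ip_iso s sA
  have n0 := hPA
  have n1 : inner ℝ (s P - A) (s P - A) = n := (sh _ _).trans n0
  have n2 : inner ℝ (s (s P) - A) (s (s P) - A) = n := (sh _ _).trans n1
  have n3 : inner ℝ (s (s (s P)) - A) (s (s (s P)) - A) = n := (sh _ _).trans n2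
  have q01 : inner ℝ (P - A) (s P - A) = n / 3 := by rw [e1]; exact u2
  have q12 : inner ℝ (s P - A) (s (s P) - A) = n / 3 := (sh _ _).trans q01
  have q23 : inner ℝ (s (s P) - A) (s (s (s P)) - A) = n / 3 := (sh _ _).trans q12
  have q41 : inner ℝ (s (s (s (s P))) - A) (s P - A) = -(n / 3) := by rw [e4, e1]; exact r23
  have q30 : inner ℝ (s (s (s P)) - A) (P - A) = -(n / 3) := (sh _ _).symm.trans q41
  have q52 : inner ℝ (s (s (s (s (s P)))) - A) (s (s P) - A) = -(n / 3) := (sh _ _).trans q41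
  have q02 : inner ℝ (P - A) (s (s P) - A) = -(n / 3) := by rw [e5] at q52; exact q52
  have q13 : inner ℝ (s P - A) (s (s (s P)) - A) = -(n / 3) := (sh _ _).trans q02
  have q03 : inner ℝ (P - A) (s (s (s P)) - A) = -(n / 3) := by rw [real_inner_comm]; exact q30
  apply no_gram (p := ![P - A, s P - A, s (s P) - A, s (s (s P)) - A]) hn
  · intro i
    fin_cases i
    · exact n0
    · exact n1
    · exact n2
    · exact n3
  · exact q01
  · exact q12
  · exact q23
  · exact q02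
  · exact q13
  · exact q03

theorem no_two_orbit (h : IsLFC 𝒯) (h2 : IsTwoOrbit 𝒯) (θ : FL TE ≃o FL 𝒯) : False := by
  obtain ⟨g0, hg0⟩ := isom_rf h h2 θ 0
  obtain ⟨g1, hg1⟩ := isom_rf h h2 θ 1
  obtain ⟨g2, hg2⟩ := isom_rf h h2 θ 2
  obtain ⟨g3, hg3⟩ := isom_rf h h2 θ 3
  obtain ⟨A, hA⟩ := atomE_iso h θ (x := sa) (FX_ne_bot _) (fun y hy => by
    by_cases hb : y = botE
    · left; exact hb
    · right; exact atom_sa hy hb) (FX_ne_top _)
  obtain ⟨P, hP⟩ := atomE_iso h θ (x := sb) (FX_ne_bot _) (fun y hy => by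
    by_cases hb : y = botE
    · left; exact hb
    · right; exact atom_sb hy hb) (FX_ne_top _)
  have pA : Pt θ Xa A := ⟨InD_Xa.1, hA⟩
  have pP : Pt θ Xb P := ⟨InD_Xb.1, hP⟩
  have pA2 := pA.map hg0
  have pA3 := pA2.map hg2
  have pA4 := pA3.map hg1
  have pP2 := pP.map hg3
  have pP3 := pP2.map hg2
  have pP4 := pP3.map hg1
  set A2 := g0 A with hA2
  set A3 := g2 A2 with hA3
  set A4 := g1 A3 with hA4
  set P2 := g3 P with hP2
  set P3 := g2 P2 with hP3
  set P4 := g1 P3 with hP4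
  -- fixed points
  have g1A : g1 A = A := (pA.map hg1).unique pA a1_1
  have g2A : g2 A = A := (pA.map hg2).unique pA a1_2
  have g3A : g3 A = A := (pA.map hg3).unique pA a1_3
  have g1A2 : g1 A2 = A2 := (pA2.map hg1).unique pA2 a2_1
  have g0A3 : g0 A3 = A3 := (pA3.map hg0).unique pA3 a3_0
  have g0A4 : g0 A4 = A4 := (pA4.map hg0).unique pA4 a4_0
  have g2A4 : g2 A4 = A4 := (pA4.map hg2).unique pA4 a4_2
  have g0A2 : g0 A2 = A := (pA2.map hg0).unique pA (R_invol 0 _)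
  have g2A3 : g2 A3 = A2 := (pA3.map hg2).unique pA2 (R_invol 2 _)
  have g1A4 : g1 A4 = A3 := (pA4.map hg1).unique pA3 (R_invol 1 _)
  have g0P : g0 P = P := (pP.map hg0).unique pP b1_0
  have g1P : g1 P = P := (pP.map hg1).unique pP b1_1
  have g2P : g2 P = P := (pP.map hg2).unique pP b1_2
  have g0P2 : g0 P2 = P2 := (pP2.map hg0).unique pP2 b2_0
  have g1P2 : g1 P2 = P2 := (pP2.map hg1).unique pP2 b2_1
  have g2P4 : g2 P4 = P4 := (pP4.map hg2).unique pP4 b4_2
  have g3P2 : g3 P2 = P := (pP2.map hg3).unique pP (R_invol 3 _)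
  have g2P3 : g2 P3 = P2 := (pP3.map hg2).unique pP2 (R_invol 2 _)
  have g1P4 : g1 P4 = P3 := (pP4.map hg1).unique pP3 (R_invol 1 _)
  -- distinctness
  have neA : A ≠ A2 := pA.ne pA2 ne_a12
  have neAP : A ≠ P := pA.ne pP ne_ab
  have neP : P ≠ P2 := pP.ne pP2 ne_b12
  have neP23 : P2 ≠ P3 := pP2.ne pP3 ne_b23
  set n := inner ℝ (P - A) (P - A) with hn
  have npos : 0 < n := by
    rw [hn, real_inner_self_eq_norm_sq]
    have : P - A ≠ 0 := sub_ne_zero.2 neAP.symm
    positivity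
  -- step 1
  set p := inner ℝ (A - P) (A2 - P) with hp
  have sw : ∀ x y : E 3, inner ℝ (x - y) (x - y) = inner ℝ (y - x) (y - x) := by
    intro x y
    rw [real_inner_self_eq_norm_sq, real_inner_self_eq_norm_sq, norm_sub_rev]
  have n1 : inner ℝ (A - P) (A - P) = n := by rw [hn]; exact sw _ _
  have n2 : inner ℝ (A2 - P) (A2 - P) = n := by
    have := ip_iso g0 (x := A) (y := A) g0P
    rw [← hA2] at this; rw [this]; exact n1
  have n3 : inner ℝ (A3 - P) (A3 - P) = n := by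
    have := ip_iso g2 (x := A2) (y := A2) g2P
    rw [← hA3] at this; rw [this]; exact n2
  have n4 : inner ℝ (A4 - P) (A4 - P) = n := by
    have := ip_iso g1 (x := A3) (y := A3) g1P
    rw [← hA4] at this; rw [this]; exact n3
  have p13 : inner ℝ (A - P) (A3 - P) = p := by
    have := ip_iso g2 (x := A) (y := A2) g2P
    rw [g2A, ← hA3] at this; exact this
  have p14 : inner ℝ (A - P) (A4 - P) = p := by
    have := ip_iso g1 (x := A) (y := A3) g1P
    rw [g1A, ← hA4] at this; rw [this]; exact p13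
  have p23 : inner ℝ (A2 - P) (A3 - P) = p := by
    have := ip_iso g0 (x := A) (y := A3) g0P
    rw [← hA2, g0A3] at this; rw [this]; exact p13
  have p24 : inner ℝ (A2 - P) (A4 - P) = p := by
    have := ip_iso g1 (x := A2) (y := A3) g1P
    rw [g1A2, ← hA4] at this; rw [this]; exact p23
  have p34 : inner ℝ (A3 - P) (A4 - P) = p := by
    have := ip_iso g2 (x := A2) (y := A4) g2P
    rw [g2A4, ← hA3] at this; rw [this]; exact p24
  have hpn : 3 * p = -n := tetra n1 n2 n3 n4 rfl p13 p14 p23 p24 p34 (fun e => neA (by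
    have := congrArg (fun z => z + P) e
    simpa using this))
  -- step 2
  obtain ⟨m, hm, hpl⟩ := plane h θ
  have mA : A ∈ (θ sQ).1 := pA.mem (fun _ => (sa_lt_sE.trans sE_lt_sQ).le)
  have mP : P ∈ (θ sQ).1 := pP.mem (fun _ => (sb_lt_sE.trans sE_lt_sQ).le)
  have mA2 : A2 ∈ (θ sQ).1 := pA2.mem (fun hX => by
    have h1 := (rf 0).monotone (sa_lt_sE.trans sE_lt_sQ).le
    rw [rf0_sQ, sa, rf_FX] at h1
    exact h1)
  have mP2 : P2 ∈ (θ sQ).1 := pP2.mem (fun hX => by
    have h1 := (rf 3).monotone (sb_lt_sE.trans sE_lt_sQ).le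
    rw [rf3_sQ, sb, rf_FX] at h1
    exact h1)
  have hr : P2 - A = A2 - P := by
    apply rhombus hm (hpl _ mA2 _ mA) (hpl _ mP _ mA) (hpl _ mP2 _ mA) _ _ _ neA neP
    · rw [← g0.dist_eq A P, g0P]
    · rw [← g3.dist_eq A P, g3A]
    · rw [← g3.dist_eq A P, g3A, ← g0.dist_eq A P2, g0P2]
  -- step 3
  have u1 : inner ℝ (P - A) (P2 - A) = n / 3 := by
    rw [hr]
    have : P - A = -(A - P) := by abel
    rw [this, inner_neg_left]
    linarith
  have u2 : inner ℝ (P - A) (P3 - A) = n / 3 := by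
    have := ip_iso g2 (x := P) (y := P2) g2A
    rw [g2P, ← hP3] at this; rw [this]; exact u1
  have u3 : inner ℝ (P - A) (P4 - A) = n / 3 := by
    have := ip_iso g1 (x := P) (y := P3) g1A
    rw [g1P, ← hP4] at this; rw [this]; exact u2
  have m1 : inner ℝ (P2 - A) (P2 - A) = n := by
    have := ip_iso g3 (x := P) (y := P) g3A
    rw [← hP2] at this; exact this
  have m2 : inner ℝ (P3 - A) (P3 - A) = n := by
    have := ip_iso g2 (x := P2) (y := P2) g2A
    rw [← hP3] at this; rw [this]; exact m1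
  have m3 : inner ℝ (P4 - A) (P4 - A) = n := by
    have := ip_iso g1 (x := P3) (y := P3) g1A
    rw [← hP4] at this; rw [this]; exact m2
  set r := inner ℝ (P2 - A) (P3 - A) with hrr
  have r13 : inner ℝ (P2 - A) (P4 - A) = r := by
    have := ip_iso g1 (x := P2) (y := P3) g1A
    rw [g1P2, ← hP4] at this; exact this
  have r23 : inner ℝ (P3 - A) (P4 - A) = r := by
    have := ip_iso g2 (x := P2) (y := P4) g2A
    rw [g2P4, ← hP3] at this; rw [this]; exact r13
  have hrn : 3 * r = -n := three (sub_ne_zero.2 neAP.symm) rfl m1 m2 m3 u1 u2 u3 rfl r13 r23 (fun e => neP23 (by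
    have := congrArg (fun z => z + A) e
    simpa using this))
  have hr3 : r = -(n / 3) := by linarith
  exact pentagon hg2 hg3 g2A g3A pP pP3 g2P g3P2 npos rfl u2 (hrr.symm.trans hr3)

end iso

/-- **Main theorem.** There is a combinatorially two-orbit LFC tiling of Euclidean 3-space which is
not isomorphic to any LFC tiling whose isometry group has exactly two flag orbits. -/
theorem main2 : ∃ 𝒯 : Set (Set (E 3)), IsLFC 𝒯 ∧ CombTwoOrbit 𝒯 ∧
    ∀ 𝒯' : Set (Set (E 3)), IsLFC 𝒯' → IsTwoOrbit 𝒯' → IsEmpty (FL 𝒯 ≃o FL 𝒯') :=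
  ⟨TE, TE_LFC, TE_combTwoOrbit, fun _ h hr => ⟨fun θ => no_two_orbit h hr θ⟩⟩

end Pool.R179.Ev
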