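import Pool.Agent.R179.H435B

/-!
# Tilings of `E 3` from discrete sets of timelike vectors

For a discrete set `V` of timelike vectors, invariant under a group `Γ` of Lorentz
transformations, the polar polyhedral surface projects vertically to a face-to-face tiling of
`E 3` whose tiles correspond to the vectors of `V`.
-/

namespace Pool.R179.Gen
open Pool.R179.LFC
open Pool.R179.H435 (W B ph ph_gt ph_lt ph_mul ph_inv up pr rho rho_nonneg rho_sq up_0 up_1 up_2 up_3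
  pr_0 pr_1 pr_2 pr_up up_pr pr_comb B_comm B_add_left B_smul_left)

structure Sys (V : Set W) (Γ : Subgroup (W ≃ₗ[ℝ] W)) : Prop where
  pres : ∀ g ∈ Γ, ∀ X Y, B (g X) (g Y) = B X Y
  inv : ∀ g ∈ Γ, ∀ v ∈ V, g v ∈ V
  pos : ∀ v ∈ V, 0 < v 3
  tl : ∀ v ∈ V, ph * (v 0 ^ 2 + v 1 ^ 2 + v 2 ^ 2) < v 3 ^ 2
  fin : ∀ R : ℝ, {v ∈ V | v 3 ≤ R}.Finite
  gap : ∀ p : E 3, ∃ v ∈ V, -1 < B (up p (rho p)) v

/-- the space part of a vector -/
noncomputable def rhoW (c : W) : ℝ := √(ph * (c 0 ^ 2 + c 1 ^ 2 + c 2 ^ 2))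
theorem rhoW_nonneg (c : W) : 0 ≤ rhoW c := Real.sqrt_nonneg _
theorem rhoW_sq (c : W) : rhoW c ^ 2 = ph * (c 0 ^ 2 + c 1 ^ 2 + c 2 ^ 2) :=
  Real.sq_sqrt (by have := ph_gt; positivity)

theorem dot_le_q (p : E 3) (c : W) :
    p 0 * c 0 + p 1 * c 1 + p 2 * c 2 ≤ (ph - 1) * rho p * rhoW c := by
  have p1 := ph_gt
  apply le_of_sq_le_sq _ (mul_nonneg (mul_nonneg (by linarith) (rho_nonneg p)) (rhoW_nonneg c))
  have e : ((ph - 1) * rho p * rhoW c) ^ 2 =
      (p 0 ^ 2 + p 1 ^ 2 + p 2 ^ 2) * (c 0 ^ 2 + c 1 ^ 2 + c 2 ^ 2) := by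
    rw [mul_pow, mul_pow, rho_sq, rhoW_sq]
    linear_combination ((p 0 ^ 2 + p 1 ^ 2 + p 2 ^ 2) * (c 0 ^ 2 + c 1 ^ 2 + c 2 ^ 2) *
      ((ph - 1) * ph + 1)) * ph_inv
  rw [e]
  nlinarith [sq_nonneg (p 0 * c 1 - p 1 * c 0), sq_nonneg (p 0 * c 2 - p 2 * c 0),
    sq_nonneg (p 1 * c 2 - p 2 * c 1)]

variable {V : Set W} {Γ : Subgroup (W ≃ₗ[ℝ] W)}

theorem Sys.rhoW_lt (S : Sys V Γ) {c : W} (hc : c ∈ V) : rhoW c < c 3 := by
  have h := S.tl c hc
  rw [← rhoW_sq] at h
  exact lt_of_abs_lt (abs_lt_of_sq_lt_sq h (S.pos c hc).le)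

theorem Sys.height_bound (S : Sys V Γ) (p : E 3) {c : W} (hc : c ∈ V) {s : ℝ} (hs : rho p < s)
    (hB : -1 ≤ B (up p s) c) : c 3 ≤ ph / (s - rho p) := by
  have h1 := dot_le_q p c
  have hlt := S.rhoW_lt hc
  have p1 := ph_gt
  have hd : 0 < s - rho p := by linarith
  rw [le_div_iff₀ hd]
  simp only [B, up_0, up_1, up_2, up_3] at hB
  have h4 : (ph - 1) * rho p * rhoW c ≤ (ph - 1) * rho p * c 3 :=
    mul_le_mul_of_nonneg_left hlt.le (mul_nonneg (by linarith) (rho_nonneg p))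
  have h2 : (ph - 1) * (s - rho p) * c 3 ≤ 1 := by nlinarith
  have h3 : ph * ((ph - 1) * (s - rho p) * c 3) ≤ ph * 1 := mul_le_mul_of_nonneg_left h2 (by linarith)
  have e : ph * ((ph - 1) * (s - rho p) * c 3) = c 3 * (s - rho p) := by
    linear_combination ((s - rho p) * c 3) * ph_inv
  linarith

/-- height of the supporting plane of `c` above `p` -/
noncomputable def ht (c : W) (p : E 3) : ℝ := ph * (1 + (p 0 * c 0 + p 1 * c 1 + p 2 * c 2)) / c 3

theorem ht_cont (c : W) : Continuous (ht c) := by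
  unfold ht
  fun_prop

theorem rho_cont : Continuous rho := by
  unfold rho
  fun_prop

theorem B_ht {c : W} (h0 : 0 < c 3) (p : E 3) : B (up p (ht c p)) c = -1 := by
  simp only [B, up_0, up_1, up_2, up_3, ht]
  field_simp
  linear_combination (-(1 + (p 0 * c 0 + p 1 * c 1 + p 2 * c 2))) * ph_inv

theorem B_le_iff {c : W} (h0 : 0 < c 3) (p : E 3) (s : ℝ) : B (up p s) c ≤ -1 ↔ ht c p ≤ s := by
  have p1 := ph_gt
  have e := B_ht h0 p
  simp only [B, up_0, up_1, up_2, up_3] at e ⊢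
  have hpos : 0 < (ph - 1) * c 3 := mul_pos (by linarith) h0
  constructor
  · intro h
    by_contra hlt
    push Not at hlt
    have := mul_lt_mul_of_pos_left hlt hpos
    nlinarith
  · intro h
    have := mul_le_mul_of_nonneg_left h hpos.le
    nlinarith

theorem B_eq_iff {c : W} (h0 : 0 < c 3) (p : E 3) (s : ℝ) : B (up p s) c = -1 ↔ s = ht c p := by
  have p1 := ph_gt
  have e := B_ht h0 p
  simp only [B, up_0, up_1, up_2, up_3] at e ⊢
  have hpos : 0 < (ph - 1) * c 3 := mul_pos (by linarith) h0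
  constructor
  · intro h
    have : (ph - 1) * c 3 * s = (ph - 1) * c 3 * ht c p := by linarith
    exact mul_left_cancel₀ hpos.ne' this
  · rintro rfl; exact e

theorem Sys.exists_gap (S : Sys V Γ) (p : E 3) : ∃ c ∈ V, rho p < ht c p := by
  obtain ⟨c, hc, h⟩ := S.gap p
  refine ⟨c, hc, ?_⟩
  by_contra hle
  push Not at hle
  have := (B_le_iff (S.pos c hc) p (rho p)).2 hle
  linarith

/-- the polyhedral surface -/
def IsS (V : Set W) (X : W) : Prop := (∀ c ∈ V, B X c ≤ -1) ∧ ∃ c ∈ V, B X c = -1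

theorem Sys.exists_lift (S : Sys V Γ) (p : E 3) : ∃ s, IsS V (up p s) := by
  obtain ⟨c1, hc1, hgap⟩ := S.exists_gap p
  have p1 := ph_gt
  have hA : {c ∈ V | ht c1 p ≤ ht c p}.Finite := by
    apply (S.fin (ph / (ht c1 p - rho p))).subset
    rintro c ⟨hc, hle⟩
    refine ⟨hc, ?_⟩
    apply S.height_bound p hc hgap
    by_contra hlt
    push Not at hlt
    have h1 := (B_le_iff (S.pos c hc) p _).1 hlt.le
    have h2 : ht c p = ht c1 p := le_antisymm h1 hle
    rw [← h2, B_ht (S.pos c hc)] at hlt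
    exact lt_irrefl _ hlt
  obtain ⟨m, ⟨hm, hmle⟩, hmax⟩ := Set.exists_max_image _ (fun c => ht c p) hA ⟨c1, hc1, le_refl _⟩
  refine ⟨ht m p, fun c hc => ?_, m, hm, B_ht (S.pos m hm) p⟩
  rw [B_le_iff (S.pos c hc)]
  by_cases h : ht c1 p ≤ ht c p
  · exact hmax c ⟨hc, h⟩
  · push Not at h
    exact h.le.trans hmle

theorem Sys.lift_unique (S : Sys V Γ) {X Y : W} (hX : IsS V X) (hY : IsS V Y) (h : pr X = pr Y) :
    X = Y := by
  have key : ∀ X Y : W, IsS V X → IsS V Y → pr X = pr Y → X 3 ≤ Y 3 := by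
    intro X Y hX hY h
    obtain ⟨c, hc, e⟩ := hX.2
    have h1 := hY.1 c hc
    rw [← up_pr X, B_eq_iff (S.pos c hc)] at e
    rw [← up_pr Y, B_le_iff (S.pos c hc), ← h] at h1
    rw [e]; exact h1
  have e3 : X 3 = Y 3 := le_antisymm (key X Y hX hY h) (key Y X hY hX h.symm)
  rw [← up_pr X, ← up_pr Y, h, e3]

/-- the lift of a point -/
noncomputable def Sys.L (S : Sys V Γ) (p : E 3) : W := up p (Classical.choose (S.exists_lift p))

theorem Sys.L_IsS (S : Sys V Γ) (p : E 3) : IsS V (S.L p) := Classical.choose_spec (S.exists_lift p)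
theorem Sys.pr_L (S : Sys V Γ) (p : E 3) : pr (S.L p) = p := pr_up _ _
theorem Sys.L_pr (S : Sys V Γ) {X : W} (hX : IsS V X) : S.L (pr X) = X :=
  S.lift_unique (S.L_IsS _) hX (S.pr_L _)
theorem Sys.L_eq (S : Sys V Γ) (p : E 3) : S.L p = up p (S.L p 3) := by
  conv_lhs => rw [← up_pr (S.L p), S.pr_L]

theorem Sys.IsS_G (S : Sys V Γ) {g : W ≃ₗ[ℝ] W} (hg : g ∈ Γ) {X : W} (hX : IsS V X) :
    IsS V (g X) := by
  constructor
  · intro c hc
    have := hX.1 (g⁻¹ c) (S.inv _ (inv_mem hg) c hc)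
    rw [← S.pres g hg] at this
    have e : g (g⁻¹ c) = c := g.apply_symm_apply c
    rwa [e] at this
  · obtain ⟨c, hc, e⟩ := hX.2
    exact ⟨g c, S.inv g hg c hc, by rw [S.pres g hg, e]⟩

/-- the map induced on `E 3` -/
noncomputable def Sys.hat (S : Sys V Γ) (g : W ≃ₗ[ℝ] W) (p : E 3) : E 3 := pr (g (S.L p))

theorem Sys.L_hat (S : Sys V Γ) {g : W ≃ₗ[ℝ] W} (hg : g ∈ Γ) (p : E 3) :
    S.L (S.hat g p) = g (S.L p) := S.L_pr (S.IsS_G hg (S.L_IsS p))

theorem Sys.hat_mul (S : Sys V Γ) {g h : W ≃ₗ[ℝ] W} (hh : h ∈ Γ) (p : E 3) :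
    S.hat (g * h) p = S.hat g (S.hat h p) := by
  show pr (g (h (S.L p))) = pr (g (S.L (S.hat h p)))
  rw [S.L_hat hh]

theorem Sys.hat_one (S : Sys V Γ) (p : E 3) : S.hat 1 p = p := S.pr_L p

/-- the bijection induced on `E 3` -/
noncomputable def Sys.hatE (S : Sys V Γ) (g : W ≃ₗ[ℝ] W) (hg : g ∈ Γ) : E 3 ≃ E 3 where
  toFun := S.hat g
  invFun := S.hat g⁻¹
  left_inv p := by rw [← S.hat_mul hg, inv_mul_cancel, S.hat_one]
  right_inv p := by rw [← S.hat_mul (inv_mem hg), mul_inv_cancel, S.hat_one]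

/-! ### The tiles -/

/-- the tile with centre `c` -/
def Sys.Tile (S : Sys V Γ) (c : W) : Set (E 3) := {p | B (S.L p) c = -1}

theorem Sys.comb_mem (S : Sys V Γ) {c : W} (hc : c ∈ V) {p q : E 3} (hp : p ∈ S.Tile c)
    (hq : q ∈ S.Tile c) {a b : ℝ} (ha : 0 ≤ a) (hb : 0 ≤ b) (hab : a + b = 1) :
    S.L (a • p + b • q) = a • S.L p + b • S.L q := by
  have h1 : IsS V (a • S.L p + b • S.L q) := by
    constructor
    · intro c' hc'
      rw [B_add_left, B_smul_left, B_smul_left]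
      have := (S.L_IsS p).1 c' hc'
      have := (S.L_IsS q).1 c' hc'
      nlinarith
    · refine ⟨c, hc, ?_⟩
      rw [B_add_left, B_smul_left, B_smul_left, hp, hq]
      linarith
  have := S.L_pr h1
  rwa [pr_comb, S.pr_L, S.pr_L] at this

theorem Sys.Tile_convex (S : Sys V Γ) {c : W} (hc : c ∈ V) : Convex ℝ (S.Tile c) := by
  intro p hp q hq a b ha hb hab
  show B (S.L (a • p + b • q)) c = -1
  rw [S.comb_mem hc hp hq ha hb hab, B_add_left, B_smul_left, B_smul_left, hp, hq]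
  linarith

theorem Sys.hat_affOn (S : Sys V Γ) {c : W} (hc : c ∈ V) (g : W ≃ₗ[ℝ] W) :
    AffOn (S.hat g) (S.Tile c) := by
  intro p hp q hq a b ha hb hab
  show pr (g (S.L (a • p + b • q))) = a • pr (g (S.L p)) + b • pr (g (S.L q))
  rw [S.comb_mem hc hp hq ha hb hab, map_add, map_smul, map_smul, pr_comb]

theorem Sys.hat_Tile (S : Sys V Γ) {g : W ≃ₗ[ℝ] W} (hg : g ∈ Γ) (c : W) :
    S.hat g '' S.Tile c = S.Tile (g c) := by
  ext p
  constructor
  · rintro ⟨q, hq, rfl⟩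
    show B (S.L (S.hat g q)) (g c) = -1
    rw [S.L_hat hg, S.pres g hg]; exact hq
  · intro hp
    refine ⟨S.hat g⁻¹ p, ?_, (S.hatE g hg).apply_symm_apply p⟩
    show B (S.L (S.hat g⁻¹ p)) c = -1
    rw [S.L_hat (inv_mem hg), ← S.pres g hg]
    have e : g (g⁻¹ (S.L p)) = S.L p := g.apply_symm_apply _
    rw [e]; exact hp

/-- tiles meet in faces -/
theorem Sys.Tile_inter (S : Sys V Γ) {c c' : W} (hc : c ∈ V) (hc' : c' ∈ V) :
    IsFaceOf (S.Tile c) (S.Tile c ∩ S.Tile c') := by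
  refine ⟨(S.Tile_convex hc).inter (S.Tile_convex hc'), ⟨Set.inter_subset_left, ?_⟩⟩
  rintro p hp q hq z ⟨_, hz'⟩ ⟨a, b, ha, hb, hab, rfl⟩
  refine ⟨hp, ?_⟩
  have hz2 : B (S.L (a • p + b • q)) c' = -1 := hz'
  rw [S.comb_mem hc hp hq ha.le hb.le hab, B_add_left, B_smul_left, B_smul_left] at hz2
  have h1 := (S.L_IsS p).1 c' hc'
  have h2 := (S.L_IsS q).1 c' hc'
  show B (S.L p) c' = -1
  nlinarith

theorem Sys.Tile_cover (S : Sys V Γ) (p : E 3) : ∃ c ∈ V, p ∈ S.Tile c := (S.L_IsS p).2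

theorem Sys.mem_Tile_iff (S : Sys V Γ) {c : W} (hc : c ∈ V) (p : E 3) :
    p ∈ S.Tile c ↔ ∀ c' ∈ V, ht c' p ≤ ht c p := by
  constructor
  · intro h c' hc'
    have h1 : B (S.L p) c = -1 := h
    rw [S.L_eq, B_eq_iff (S.pos c hc)] at h1
    have h2 := (S.L_IsS p).1 c' hc'
    rw [S.L_eq, B_le_iff (S.pos c' hc'), h1] at h2
    exact h2
  · intro h
    have h1 : IsS V (up p (ht c p)) :=
      ⟨fun c' hc' => (B_le_iff (S.pos c' hc') _ _).2 (h c' hc'), c, hc, B_ht (S.pos c hc) p⟩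
    have h2 := S.L_pr h1
    rw [pr_up] at h2
    show B (S.L p) c = -1
    rw [h2, B_ht (S.pos c hc)]

theorem Sys.Tile_closed (S : Sys V Γ) {c : W} (hc : c ∈ V) : IsClosed (S.Tile c) := by
  have : S.Tile c = ⋂ c' ∈ V, {p | ht c' p ≤ ht c p} := by
    ext p; rw [S.mem_Tile_iff hc]; simp
  rw [this]
  exact isClosed_biInter fun c' _ => isClosed_le (ht_cont c') (ht_cont c)

theorem Sys.rho_lt_L (S : Sys V Γ) (p : E 3) : rho p < S.L p 3 := by
  obtain ⟨c, hc, h⟩ := S.exists_gap p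
  have h2 := (S.L_IsS p).1 c hc
  rw [S.L_eq, B_le_iff (S.pos c hc)] at h2
  linarith

theorem Sys.Tile_bounded (S : Sys V Γ) {c : W} (hc : c ∈ V) : Bornology.IsBounded (S.Tile c) := by
  have hlt := S.rhoW_lt hc
  have h0 := S.pos c hc
  have p1 := ph_gt
  have hsub : S.Tile c ⊆ Metric.closedBall 0 (ph / (c 3 - rhoW c)) := by
    intro p hp
    have h1 : B (S.L p) c = -1 := hp
    have h2 := S.rho_lt_L p
    have h3 := dot_le_q p c
    rw [S.L_eq] at h1
    simp only [B, up_0, up_1, up_2, up_3] at h1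
    have h4 : (ph - 1) * (rho p * c 3) ≤ (ph - 1) * (S.L p 3 * c 3) :=
      mul_le_mul_of_nonneg_left (mul_le_mul_of_nonneg_right h2.le h0.le) (by linarith)
    have h5 : (ph - 1) * (rho p * (c 3 - rhoW c)) ≤ 1 := by nlinarith
    have h6 : rho p * (c 3 - rhoW c) ≤ ph := by
      have h7 : ph * ((ph - 1) * (rho p * (c 3 - rhoW c))) ≤ ph * 1 :=
        mul_le_mul_of_nonneg_left h5 (by linarith)
      have e : ph * ((ph - 1) * (rho p * (c 3 - rhoW c))) = rho p * (c 3 - rhoW c) := by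
        linear_combination (rho p * (c 3 - rhoW c)) * ph_inv
      linarith
    have h8 : rho p ≤ ph / (c 3 - rhoW c) := by
      rw [le_div_iff₀ (by linarith)]; exact h6
    rw [mem_closedBall_zero_iff]
    refine le_trans ?_ h8
    rw [EuclideanSpace.norm_eq, rho]
    apply Real.sqrt_le_sqrt
    rw [Fin.sum_univ_three]
    simp only [Real.norm_eq_abs, sq_abs]
    nlinarith [sq_nonneg (p 0), sq_nonneg (p 1), sq_nonneg (p 2)]
  exact Metric.isBounded_closedBall.subset hsub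

theorem Sys.Tile_locallyFinite (S : Sys V Γ) : LocallyFinite (fun c : V => S.Tile c) := by
  intro p0
  obtain ⟨c1, hc1, hgap⟩ := S.exists_gap p0
  have p1 := ph_gt
  set δ := ht c1 p0 - rho p0 with hδ
  have hδ0 : 0 < δ := by linarith
  refine ⟨{p | δ / 2 < ht c1 p - rho p}, ?_, ?_⟩
  · apply (isOpen_lt continuous_const ((ht_cont c1).sub rho_cont)).mem_nhds
    show δ / 2 < ht c1 p0 - rho p0
    linarith
  · have hfin := S.fin (ph / (δ / 2))
    apply Set.Finite.of_injOn (f := fun c : V => (c : W)) _ Subtype.val_injective.injOn hfin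
    rintro c ⟨p, hp, hp2⟩
    refine ⟨c.2, ?_⟩
    have hs : ht c1 p ≤ (S.L p) 3 := by
      have h2 := (S.L_IsS p).1 c1 hc1
      rwa [S.L_eq, B_le_iff (S.pos c1 hc1)] at h2
    have hp2' : δ / 2 < ht c1 p - rho p := hp2
    have hb := S.height_bound p c.2 (s := (S.L p) 3) (by linarith) (by
      rw [← S.L_eq]
      exact (le_of_eq hp.symm))
    refine hb.trans ?_
    apply div_le_div_of_nonneg_left (by linarith) (by linarith) (by linarith)

theorem Sys.Tile_locFin (S : Sys V Γ) {K : Set (E 3)} (hK : Bornology.IsBounded K) :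
    {c : V | (S.Tile c ∩ K).Nonempty}.Finite := by
  have hcomp : IsCompact (closure K) := hK.isCompact_closure
  apply (S.Tile_locallyFinite.finite_nonempty_inter_compact hcomp).subset
  rintro c ⟨x, hx, hxK⟩
  exact ⟨x, hx, subset_closure hxK⟩

/-! ### Faces as intersections of tiles -/

/-- the set of the centres of the tiles containing `p` -/
def Sys.NN (S : Sys V Γ) (p : E 3) : Set W := {c | c ∈ V ∧ p ∈ S.Tile c}

/-- the set of the centres of the tiles containing `F` -/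
def Sys.NF (S : Sys V Γ) (F : Set (E 3)) : Set W := {c | c ∈ V ∧ F ⊆ S.Tile c}

theorem Sys.NN_finite (S : Sys V Γ) (p : E 3) : (S.NN p).Finite := by
  have h := S.Tile_locallyFinite.point_finite p
  have : S.NN p = (fun c : V => (c : W)) '' {c : V | p ∈ S.Tile c} := by
    ext c; constructor
    · rintro ⟨hc, hp⟩; exact ⟨⟨c, hc⟩, hp, rfl⟩
    · rintro ⟨⟨c, hc⟩, hp, rfl⟩; exact ⟨hc, hp⟩
  rw [this]
  exact h.image _

theorem Sys.NN_near (S : Sys V Γ) (z : E 3) : ∀ᶠ y in nhds z, S.NN y ⊆ S.NN z := by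
  have h := S.Tile_locallyFinite.eventually_subset (fun c => S.Tile_closed c.2) z
  apply h.mono
  rintro y hy c ⟨hc, hyc⟩
  exact ⟨hc, hy (show (⟨c, hc⟩ : V) ∈ {c : V | y ∈ S.Tile c} from hyc)⟩

/-- transfer of faces between tiles -/
theorem Sys.face_transfer (S : Sys V Γ) {c c' : W} (hc : c ∈ V) (hc' : c' ∈ V) {F : Set (E 3)}
    (hF : IsFaceOf (S.Tile c) F) (hs : F ⊆ S.Tile c') : IsFaceOf (S.Tile c') F := by
  refine ⟨hF.1, ?_⟩
  have h1 : IsExtreme ℝ (S.Tile c' ∩ S.Tile c) F :=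
    hF.2.mono Set.inter_subset_right (Set.subset_inter hs hF.subset)
  exact (S.Tile_inter hc' hc).2.trans h1

/-- a nonempty face has a relative interior point -/
theorem Sys.exists_relint (S : Sys V Γ) {c : W} (hc : c ∈ V) {F : Set (E 3)}
    (hF : IsFaceOf (S.Tile c) F) (hne : F.Nonempty) : ∃ z ∈ F, S.NN z = S.NF F := by
  classical
  -- minimal number of tiles
  obtain ⟨z, hz, hmin⟩ : ∃ z ∈ F, ∀ y ∈ F, (S.NN z).ncard ≤ (S.NN y).ncard := by
    have hex : ∃ n, ∃ z ∈ F, (S.NN z).ncard = n := ⟨_, hne.some, hne.some_mem, rfl⟩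
    obtain ⟨z, hz, hzn⟩ := Nat.find_spec hex
    refine ⟨z, hz, fun y hy => ?_⟩
    rw [hzn]
    exact Nat.find_min' hex ⟨y, hy, rfl⟩
  refine ⟨z, hz, ?_⟩
  apply Set.Subset.antisymm
  · rintro c' ⟨hc', hzc'⟩
    refine ⟨hc', fun y hy => ?_⟩
    by_contra hyc'
    -- move towards y
    have hcont : Continuous fun ε : ℝ => z + ε • (y - z) := by fun_prop
    have h0 : (fun ε : ℝ => z + ε • (y - z)) 0 = z := by simp
    have hev : ∀ᶠ ε in nhds (0 : ℝ), S.NN (z + ε • (y - z)) ⊆ S.NN z := by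
      have := S.NN_near z
      rw [← h0] at this
      exact (hcont.continuousAt.eventually this).mono (fun ε hε => by rwa [h0] at hε)
    have hev1 : ∀ᶠ ε in nhds (0 : ℝ), ε < 1 := Iio_mem_nhds (by norm_num)
    have hev2 := (hev.and hev1).filter_mono (nhdsWithin_le_nhds (s := Set.Ioi 0))
    obtain ⟨ε, ⟨hε, hε1⟩, hpos⟩ := (hev2.and self_mem_nhdsWithin).exists
    have hpos' : 0 < ε := hpos
    have e : z + ε • (y - z) = (1 - ε) • z + ε • y := by module
    rw [e] at hε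
    have hmem : (1 - ε) • z + ε • y ∈ F := hF.1 hz hy (by linarith) hpos'.le (by ring)
    have hnot : c' ∉ S.NN ((1 - ε) • z + ε • y) := by
      rintro ⟨_, h⟩
      have hin : (1 - ε) • z + ε • y ∈ S.Tile c ∩ S.Tile c' := ⟨hF.subset hmem, h⟩
      have := (S.Tile_inter hc hc').2.right_mem_of_mem_openSegment (hF.subset hz) (hF.subset hy) hin
        ⟨1 - ε, ε, by linarith, hpos', by ring, rfl⟩
      exact hyc' this.2
    have hss : S.NN ((1 - ε) • z + ε • y) ⊂ S.NN z :=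
      Set.ssubset_iff_subset_ne.2 ⟨hε, fun h => hnot (by rw [h]; exact ⟨hc', hzc'⟩)⟩
    have hlt := Set.ncard_lt_ncard hss (S.NN_finite z)
    have hle := hmin _ hmem
    omega
  · rintro c' ⟨hc', h⟩
    exact ⟨hc', h hz⟩

/-- a nonempty face is the intersection of the tiles containing it -/
theorem Sys.face_eq (S : Sys V Γ) {c : W} (hc : c ∈ V) {F : Set (E 3)}
    (hF : IsFaceOf (S.Tile c) F) (hne : F.Nonempty) : F = {p | ∀ c' ∈ S.NF F, p ∈ S.Tile c'} := by
  apply Set.Subset.antisymm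
  · intro p hp c' hc'
    exact hc'.2 hp
  · intro y hy
    obtain ⟨z, hz, hN⟩ := S.exists_relint hc hF hne
    have hcont : Continuous fun ε : ℝ => z + ε • (z - y) := by fun_prop
    have h0 : (fun ε : ℝ => z + ε • (z - y)) 0 = z := by simp
    have hev : ∀ᶠ ε in nhds (0 : ℝ), S.NN (z + ε • (z - y)) ⊆ S.NN z := by
      have := S.NN_near z
      rw [← h0] at this
      exact (hcont.continuousAt.eventually this).mono (fun ε hε => by rwa [h0] at hε)
    have hev2 := hev.filter_mono (nhdsWithin_le_nhds (s := Set.Ioi 0))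
    obtain ⟨ε, hε, hpos⟩ := (hev2.and self_mem_nhdsWithin).exists
    have hpos' : 0 < ε := hpos
    obtain ⟨c', hc', hin⟩ := S.Tile_cover (z + ε • (z - y))
    have hc'N : c' ∈ S.NF F := by rw [← hN]; exact hε ⟨hc', hin⟩
    have hF' := S.face_transfer hc hc' hF hc'N.2
    refine hF'.2.left_mem_of_mem_openSegment (hy c' hc'N) hin hz
      ⟨ε / (1 + ε), 1 / (1 + ε), by positivity, by positivity, by field_simp; ring, ?_⟩
    have h1 : (1 + ε) ≠ 0 := by positivity
    have : (ε / (1 + ε)) • y + (1 / (1 + ε)) • (z + ε • (z - y))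
        = ((1 / (1 + ε)) * (1 + ε)) • z := by
      rw [div_eq_mul_one_div ε]; module
    rw [this, one_div, inv_mul_cancel₀ h1, one_smul]

theorem Sys.Tile_polytope (S : Sys V Γ) {c : W} (hc : c ∈ V) :
    ∃ s : Set (E 3), s.Finite ∧ S.Tile c = convexHull ℝ s := by
  have hcomp : IsCompact (S.Tile c) :=
    Metric.isCompact_of_isClosed_isBounded (S.Tile_closed hc) (S.Tile_bounded hc)
  have hfinN : {c' | c' ∈ V ∧ (S.Tile c' ∩ S.Tile c).Nonempty}.Finite := by
    have h := S.Tile_locFin (S.Tile_bounded hc)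
    have : {c' | c' ∈ V ∧ (S.Tile c' ∩ S.Tile c).Nonempty} =
        (fun c' : V => (c' : W)) '' {c' : V | (S.Tile c' ∩ S.Tile c).Nonempty} := by
      ext c'; constructor
      · rintro ⟨h1, h2⟩; exact ⟨⟨c', h1⟩, h2, rfl⟩
      · rintro ⟨⟨c', h1⟩, h2, rfl⟩; exact ⟨h1, h2⟩
    rw [this]; exact h.image _
  have hfin : ((S.Tile c).extremePoints ℝ).Finite := by
    apply Set.Finite.of_injOn (f := fun v : E 3 => S.NF {v}) _ _ hfinN.finite_subsets
    · intro v hv c' hc'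
      exact ⟨hc'.1, v, hc'.2 rfl, hv.1⟩
    · intro v hv w hw h
      have h1 : IsFaceOf (S.Tile c) {v} := ⟨convex_singleton v, isExtreme_singleton.2 hv⟩
      have h2 : IsFaceOf (S.Tile c) {w} := ⟨convex_singleton w, isExtreme_singleton.2 hw⟩
      have e1 := S.face_eq hc h1 (Set.singleton_nonempty v)
      have e2 := S.face_eq hc h2 (Set.singleton_nonempty w)
      have h' : S.NF {v} = S.NF {w} := h
      rw [h', ← e2] at e1
      exact Set.singleton_injective e1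
  refine ⟨(S.Tile c).extremePoints ℝ, hfin, ?_⟩
  have e := closure_convexHull_extremePoints hcomp (S.Tile_convex hc)
  rw [(hfin.isClosed_convexHull (𝕜 := ℝ)).closure_eq] at e
  exact e.symm

/-- a tile with a point in no other tile has nonempty interior -/
theorem Sys.Tile_interior (S : Sys V Γ) {c : W} {z : E 3} (hz : S.NN z = {c}) :
    z ∈ interior (S.Tile c) := by
  rw [mem_interior_iff_mem_nhds]
  apply Filter.mem_of_superset (S.NN_near z)
  intro y hy
  obtain ⟨c', hc', hin⟩ := S.Tile_cover y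
  have : c' ∈ S.NN z := hy ⟨hc', hin⟩
  rw [hz] at this
  have e : c' = c := this
  rw [← e]; exact hin

/-- the tiling -/
def Sys.tiling (S : Sys V Γ) : Set (Set (E 3)) := S.Tile '' V

theorem Sys.isLFC (S : Sys V Γ) (hint : ∀ c ∈ V, ∃ z, S.NN z = {c}) : IsLFC S.tiling where
  polytope := by
    rintro _ ⟨c, hc, rfl⟩
    exact S.Tile_polytope hc
  full := by
    rintro _ ⟨c, hc, rfl⟩
    obtain ⟨z, hz⟩ := hint c hc
    exact ⟨z, S.Tile_interior hz⟩
  cover := by
    intro x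
    obtain ⟨c, hc, hx⟩ := S.Tile_cover x
    exact ⟨_, ⟨c, hc, rfl⟩, hx⟩
  disj := by
    rintro _ ⟨c, hc, rfl⟩ _ ⟨c', hc', rfl⟩ hne
    rw [Set.disjoint_left]
    intro z hz hz'
    apply hne
    have h1 := S.Tile_inter hc hc'
    have h2 := S.Tile_inter hc' hc
    rw [Set.inter_comm] at h2
    have e1 := h1.eq_of_interior ⟨interior_subset hz, interior_subset hz'⟩ hz
    have e2 := h2.eq_of_interior ⟨interior_subset hz, interior_subset hz'⟩ hz'
    rw [← e1, e2]
  faceToFace := by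
    rintro _ ⟨c, hc, rfl⟩ _ ⟨c', hc', rfl⟩
    refine ⟨S.Tile_inter hc hc', ?_⟩
    rw [Set.inter_comm]
    exact S.Tile_inter hc' hc
  locFin := by
    intro K hK
    apply ((S.Tile_locFin hK).image (fun c : V => S.Tile c)).subset
    rintro _ ⟨⟨c, hc, rfl⟩, hne⟩
    exact ⟨⟨c, hc⟩, hne, rfl⟩

end Pool.R179.Gen
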