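import Mathlib

/-!
# The order-5 cubic honeycomb in Minkowski space, arithmetic part

`C` is an orbit of vectors (the cell centres of the hyperbolic honeycomb `{4,3,5}`)
of the reflection group generated by signed permutations of the three space coordinates
and one more reflection, in `ℝ⁴` with a form of signature `(3,1)` over `ℤ[φ]`.
-/

namespace Pool.R179.H435

/-- the golden ratio -/
noncomputable def ph : ℝ := Real.goldenRatio

theorem ph_sq : ph ^ 2 = ph + 1 := Real.goldenRatio_sq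
theorem ph_mul : ph * ph = ph + 1 := by rw [← sq]; exact ph_sq
theorem ph_gt : (1.618 : ℝ) < ph := by
  have h := ph_sq
  have h1 : 1 < ph := Real.one_lt_goldenRatio
  nlinarith
theorem ph_lt : ph < (1.6181 : ℝ) := by
  have h := ph_sq
  have h1 : 1 < ph := Real.one_lt_goldenRatio
  nlinarith

abbrev W := Fin 4 → ℝ

/-- The Lorentzian form. -/
noncomputable def B (X Y : W) : ℝ := X 0 * Y 0 + X 1 * Y 1 + X 2 * Y 2 - (ph - 1) * (X 3 * Y 3)

theorem B_comm (X Y : W) : B X Y = B Y X := by unfold B; ring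
theorem B_add_left (X Y Z : W) : B (X + Y) Z = B X Z + B Y Z := by
  unfold B; simp only [Pi.add_apply]; ring
theorem B_smul_left (a : ℝ) (X Z : W) : B (a • X) Z = a * B X Z := by
  unfold B; simp only [Pi.smul_apply, smul_eq_mul]; ring

/-- A linear involution given by coordinates. -/
def mkLin (f : W → W) (ha : ∀ X Y, f (X + Y) = f X + f Y) (hs : ∀ (a : ℝ) X, f (a • X) = a • f X)
    (hi : ∀ X, f (f X) = X) : W ≃ₗ[ℝ] W where
  toFun := f
  map_add' := ha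
  map_smul' := hs
  invFun := f
  left_inv := hi
  right_inv := hi

/-- sign change of coordinate 0 -/
noncomputable def s0 : W ≃ₗ[ℝ] W := mkLin (fun X => ![-X 0, X 1, X 2, X 3])
  (by intro X Y; ext i; fin_cases i <;> simp; ring)
  (by intro a X; ext i; fin_cases i <;> simp)
  (by intro X; ext i; fin_cases i <;> simp)
noncomputable def s1 : W ≃ₗ[ℝ] W := mkLin (fun X => ![X 0, -X 1, X 2, X 3])
  (by intro X Y; ext i; fin_cases i <;> simp; ring)
  (by intro a X; ext i; fin_cases i <;> simp)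
  (by intro X; ext i; fin_cases i <;> simp)
noncomputable def s2 : W ≃ₗ[ℝ] W := mkLin (fun X => ![X 0, X 1, -X 2, X 3])
  (by intro X Y; ext i; fin_cases i <;> simp; ring)
  (by intro a X; ext i; fin_cases i <;> simp)
  (by intro X; ext i; fin_cases i <;> simp)
noncomputable def w01 : W ≃ₗ[ℝ] W := mkLin (fun X => ![X 1, X 0, X 2, X 3])
  (by intro X Y; ext i; fin_cases i <;> simp)
  (by intro a X; ext i; fin_cases i <;> simp)
  (by intro X; ext i; fin_cases i <;> simp)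
noncomputable def w12 : W ≃ₗ[ℝ] W := mkLin (fun X => ![X 0, X 2, X 1, X 3])
  (by intro X Y; ext i; fin_cases i <;> simp)
  (by intro a X; ext i; fin_cases i <;> simp)
  (by intro X; ext i; fin_cases i <;> simp)
noncomputable def w02 : W ≃ₗ[ℝ] W := mkLin (fun X => ![X 2, X 1, X 0, X 3])
  (by intro X Y; ext i; fin_cases i <;> simp)
  (by intro a X; ext i; fin_cases i <;> simp)
  (by intro X; ext i; fin_cases i <;> simp)
noncomputable def rr : W ≃ₗ[ℝ] W := mkLin (fun X => ![X 0, X 1, X 3 - ph * X 2, ph * X 3 - ph * X 2])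
  (by intro X Y; ext i; fin_cases i <;> simp <;> ring)
  (by intro a X; ext i; fin_cases i <;> simp <;> ring)
  (by intro X; ext i
      have h := ph_mul
      fin_cases i
      · simp
      · simp
      · simp; linear_combination (X 2) * h
      · simp; linear_combination (X 3) * h)

theorem s0_apply (X : W) : s0 X = ![-X 0, X 1, X 2, X 3] := rfl
theorem s1_apply (X : W) : s1 X = ![X 0, -X 1, X 2, X 3] := rfl
theorem s2_apply (X : W) : s2 X = ![X 0, X 1, -X 2, X 3] := rfl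
theorem w01_apply (X : W) : w01 X = ![X 1, X 0, X 2, X 3] := rfl
theorem w12_apply (X : W) : w12 X = ![X 0, X 2, X 1, X 3] := rfl
theorem w02_apply (X : W) : w02 X = ![X 2, X 1, X 0, X 3] := rfl
theorem rr_apply (X : W) : rr X = ![X 0, X 1, X 3 - ph * X 2, ph * X 3 - ph * X 2] := rfl

/-- generators -/
def gens : Set (W ≃ₗ[ℝ] W) := {s0, s1, s2, w01, w12, w02, rr}

/-- The symmetry group. -/
def G : Subgroup (W ≃ₗ[ℝ] W) := Subgroup.closure gens

theorem s0_mem : s0 ∈ G := Subgroup.subset_closure (by simp [gens])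
theorem s1_mem : s1 ∈ G := Subgroup.subset_closure (by simp [gens])
theorem s2_mem : s2 ∈ G := Subgroup.subset_closure (by simp [gens])
theorem w01_mem : w01 ∈ G := Subgroup.subset_closure (by simp [gens])
theorem w12_mem : w12 ∈ G := Subgroup.subset_closure (by simp [gens])
theorem w02_mem : w02 ∈ G := Subgroup.subset_closure (by simp [gens])
theorem rr_mem : rr ∈ G := Subgroup.subset_closure (by simp [gens])

theorem gens_cases {g : W ≃ₗ[ℝ] W} (hg : g ∈ gens) :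
    g = s0 ∨ g = s1 ∨ g = s2 ∨ g = w01 ∨ g = w12 ∨ g = w02 ∨ g = rr := by
  simpa [gens] using hg

theorem gens_invol {g : W ≃ₗ[ℝ] W} (hg : g ∈ gens) (X : W) : g (g X) = X := by
  rcases gens_cases hg with h | h | h | h | h | h | h <;> subst h
  · exact s0.left_inv X
  · exact s1.left_inv X
  · exact s2.left_inv X
  · exact w01.left_inv X
  · exact w12.left_inv X
  · exact w02.left_inv X
  · exact rr.left_inv X

theorem gens_B {g : W ≃ₗ[ℝ] W} (hg : g ∈ gens) (X Y : W) : B (g X) (g Y) = B X Y := by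
  rcases gens_cases hg with h | h | h | h | h | h | h <;> subst h
  · simp [s0_apply, B]
  · simp [s1_apply, B]
  · simp [s2_apply, B]
  · simp [w01_apply, B]; ring
  · simp [w12_apply, B]; ring
  · simp [w02_apply, B]; ring
  · simp [rr_apply, B]
    have h := ph_mul
    linear_combination (X 2 * Y 2 - ph * (X 3 - X 2) * (Y 3 - Y 2)) * h

theorem G_B {g : W ≃ₗ[ℝ] W} (hg : g ∈ G) (X Y : W) : B (g X) (g Y) = B X Y := by
  induction hg using Subgroup.closure_induction generalizing X Y with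
  | mem g hg => exact gens_B hg X Y
  | one => rfl
  | mul g h _ _ ihg ihh => 
    show B (g (h X)) (g (h Y)) = _
    rw [ihg, ihh]
  | inv g _ ih =>
    have e : ∀ Z, g (g⁻¹ Z) = Z := fun Z => g.apply_symm_apply Z
    have := ih (g⁻¹ X) (g⁻¹ Y)
    rw [e, e] at this
    exact this.symm

/-- The base point of the orbit. -/
def c0 : W := ![0, 0, 0, 1]

/-- The orbit. -/
def C : Set W := {c | ∃ g ∈ G, c = g c0}

theorem c0_mem : c0 ∈ C := ⟨1, one_mem _, rfl⟩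
theorem C_G {g : W ≃ₗ[ℝ] W} (hg : g ∈ G) {c : W} (hc : c ∈ C) : g c ∈ C := by
  obtain ⟨h, hh, rfl⟩ := hc
  exact ⟨g * h, mul_mem hg hh, rfl⟩

/-- The arithmetic invariants of the vectors of `C`. -/
def Inv (X : W) : Prop := ∃ a b : Fin 4 → ℤ, (∀ i, X i = a i + b i * ph) ∧ 0 < X 3 ∧
  (a 3 ^ 2 + b 3 ^ 2 = 1 + (2 * a 0 * b 0 + b 0 ^ 2) + (2 * a 1 * b 1 + b 1 ^ 2)
    + (2 * a 2 * b 2 + b 2 ^ 2)) ∧
  (2 * a 3 * b 3 + b 3 ^ 2 = (a 0 ^ 2 + 2 * a 0 * b 0 + 2 * b 0 ^ 2) +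
    (a 1 ^ 2 + 2 * a 1 * b 1 + 2 * b 1 ^ 2) + (a 2 ^ 2 + 2 * a 2 * b 2 + 2 * b 2 ^ 2)) ∧
  (a 0 + a 1 + a 2 - b 3) % 2 = 0 ∧ (b 0 + b 1 + b 2 - (a 3 - 1 + b 3)) % 2 = 0

theorem Inv_c0 : Inv c0 := by
  refine ⟨![0, 0, 0, 1], ![0, 0, 0, 0], ?_, ?_, ?_, ?_, ?_, ?_⟩
  · intro i; fin_cases i <;> simp [c0]
  all_goals simp [c0]

theorem Inv_norm {X : W} (h : Inv X) : X 3 ^ 2 = 1 + ph * (X 0 ^ 2 + X 1 ^ 2 + X 2 ^ 2) := by
  obtain ⟨a, b, h1, _, h2, h3, _⟩ := h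
  have h2' : ((a 3 : ℝ) ^ 2 + b 3 ^ 2 = 1 + (2 * a 0 * b 0 + b 0 ^ 2) + (2 * a 1 * b 1 + b 1 ^ 2)
    + (2 * a 2 * b 2 + b 2 ^ 2)) := by exact_mod_cast h2
  have h3' : (2 * (a 3 : ℝ) * b 3 + b 3 ^ 2 = (a 0 ^ 2 + 2 * a 0 * b 0 + 2 * b 0 ^ 2) +
    (a 1 ^ 2 + 2 * a 1 * b 1 + 2 * b 1 ^ 2) + (a 2 ^ 2 + 2 * a 2 * b 2 + 2 * b 2 ^ 2)) := by
    exact_mod_cast h3
  rw [h1 0, h1 1, h1 2, h1 3]
  have h := ph_mul
  linear_combination h2' + ph * h3' + ((b 3 : ℝ) ^ 2 - (2 * a 0 * b 0 + (1 + ph) * b 0 ^ 2)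
    - (2 * a 1 * b 1 + (1 + ph) * b 1 ^ 2) - (2 * a 2 * b 2 + (1 + ph) * b 2 ^ 2)) * h

/-- the conjugate identity -/
theorem conj_norm {a b : Fin 4 → ℤ} (h2 : a 3 ^ 2 + b 3 ^ 2 = 1 + (2 * a 0 * b 0 + b 0 ^ 2)
    + (2 * a 1 * b 1 + b 1 ^ 2) + (2 * a 2 * b 2 + b 2 ^ 2))
    (h3 : 2 * a 3 * b 3 + b 3 ^ 2 = (a 0 ^ 2 + 2 * a 0 * b 0 + 2 * b 0 ^ 2) +
    (a 1 ^ 2 + 2 * a 1 * b 1 + 2 * b 1 ^ 2) + (a 2 ^ 2 + 2 * a 2 * b 2 + 2 * b 2 ^ 2)) :
    (a 3 + b 3 * (1 - ph)) ^ 2 + (ph - 1) * ((a 0 + b 0 * (1 - ph)) ^ 2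
      + (a 1 + b 1 * (1 - ph)) ^ 2 + (a 2 + b 2 * (1 - ph)) ^ 2) = 1 := by
  have h2' : ((a 3 : ℝ) ^ 2 + b 3 ^ 2 = 1 + (2 * a 0 * b 0 + b 0 ^ 2) + (2 * a 1 * b 1 + b 1 ^ 2)
    + (2 * a 2 * b 2 + b 2 ^ 2)) := by exact_mod_cast h2
  have h3' : (2 * (a 3 : ℝ) * b 3 + b 3 ^ 2 = (a 0 ^ 2 + 2 * a 0 * b 0 + 2 * b 0 ^ 2) +
    (a 1 ^ 2 + 2 * a 1 * b 1 + 2 * b 1 ^ 2) + (a 2 ^ 2 + 2 * a 2 * b 2 + 2 * b 2 ^ 2)) := by
    exact_mod_cast h3
  have h := ph_mul
  have h4 : (1 - ph) * (1 - ph) = (1 - ph) + 1 := by linear_combination h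
  linear_combination h2' + (1 - ph) * h3' + ((b 3 : ℝ) ^ 2 - (2 * a 0 * b 0 + (1 + (1 - ph)) * b 0 ^ 2)
    - (2 * a 1 * b 1 + (1 + (1 - ph)) * b 1 ^ 2) - (2 * a 2 * b 2 + (1 + (1 - ph)) * b 2 ^ 2)) * h4

theorem Inv_gens {g : W ≃ₗ[ℝ] W} (hg : g ∈ gens) {X : W} (hX : Inv X) : Inv (g X) := by
  have hn := Inv_norm hX
  obtain ⟨a, b, h1, h0, h2, h3, h4, h5⟩ := hX
  rcases gens_cases hg with h | h | h | h | h | h | h <;> subst h
  · refine ⟨![-a 0, a 1, a 2, a 3], ![-b 0, b 1, b 2, b 3], ?_, ?_, ?_, ?_, ?_, ?_⟩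
    · intro i; fin_cases i <;> simp [s0_apply, h1]; ring
    · simpa [s0_apply] using h0
    all_goals simp
    · linarith
    · linarith
    · omega
    · omega
  · refine ⟨![a 0, -a 1, a 2, a 3], ![b 0, -b 1, b 2, b 3], ?_, ?_, ?_, ?_, ?_, ?_⟩
    · intro i; fin_cases i <;> simp [s1_apply, h1]; ring
    · simpa [s1_apply] using h0
    all_goals simp
    · linarith
    · linarith
    · omega
    · omega
  · refine ⟨![a 0, a 1, -a 2, a 3], ![b 0, b 1, -b 2, b 3], ?_, ?_, ?_, ?_, ?_, ?_⟩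
    · intro i; fin_cases i <;> simp [s2_apply, h1]; ring
    · simpa [s2_apply] using h0
    all_goals simp
    · linarith
    · linarith
    · omega
    · omega
  · refine ⟨![a 1, a 0, a 2, a 3], ![b 1, b 0, b 2, b 3], ?_, ?_, ?_, ?_, ?_, ?_⟩
    · intro i; fin_cases i <;> simp [w01_apply, h1]
    · simpa [w01_apply] using h0
    all_goals simp
    · linarith
    · linarith
    · omega
    · omega
  · refine ⟨![a 0, a 2, a 1, a 3], ![b 0, b 2, b 1, b 3], ?_, ?_, ?_, ?_, ?_, ?_⟩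
    · intro i; fin_cases i <;> simp [w12_apply, h1]
    · simpa [w12_apply] using h0
    all_goals simp
    · linarith
    · linarith
    · omega
    · omega
  · refine ⟨![a 2, a 1, a 0, a 3], ![b 2, b 1, b 0, b 3], ?_, ?_, ?_, ?_, ?_, ?_⟩
    · intro i; fin_cases i <;> simp [w02_apply, h1]
    · simpa [w02_apply] using h0
    all_goals simp
    · linarith
    · linarith
    · omega
    · omega
  · refine ⟨![a 0, a 1, a 3 - b 2, b 3 - b 2], ![b 0, b 1, b 3 - (a 2 + b 2), (a 3 - a 2) + (b 3 - b 2)],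
      ?_, ?_, ?_, ?_, ?_, ?_⟩
    · have h := ph_mul
      intro i; fin_cases i <;> simp [rr_apply, h1]
      · linear_combination (- (b 2 : ℝ)) * h
      · linear_combination ((b 3 : ℝ) - b 2) * h
    · simp [rr_apply]
      have hp := ph_gt
      nlinarith [sq_nonneg (X 0), sq_nonneg (X 1), sq_nonneg (X 2), sq_nonneg (X 3 - X 2), sq_nonneg (X 3 + X 2)]
    all_goals simp
    · nlinarith
    · nlinarith
    · omega
    · omega

theorem Inv_G {g : W ≃ₗ[ℝ] W} (hg : g ∈ G) : ∀ X : W, Inv X ↔ Inv (g X) := by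
  induction hg using Subgroup.closure_induction with
  | mem g hg =>
    intro X
    refine ⟨Inv_gens hg, fun h => ?_⟩
    have := Inv_gens hg h
    rwa [gens_invol hg] at this
  | one => intro X; exact Iff.rfl
  | mul g h _ _ ihg ihh =>
    intro X
    rw [ihh X, ihg (h X)]
    exact Iff.rfl
  | inv g _ ih =>
    intro X
    have e : ∀ Z, g (g⁻¹ Z) = Z := fun Z => g.apply_symm_apply Z
    rw [ih (g⁻¹ X), e]

theorem C_Inv {c : W} (hc : c ∈ C) : Inv c := by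
  obtain ⟨g, hg, rfl⟩ := hc
  exact (Inv_G hg c0).1 Inv_c0

theorem C_pos {c : W} (hc : c ∈ C) : 0 < c 3 := by
  obtain ⟨a, b, _, h, _⟩ := C_Inv hc
  exact h

theorem C_norm {c : W} (hc : c ∈ C) : c 3 ^ 2 = 1 + ph * (c 0 ^ 2 + c 1 ^ 2 + c 2 ^ 2) :=
  Inv_norm (C_Inv hc)

/-- The key integer lemma. -/
theorem key_int {m n : ℤ} (hm : m % 2 = 0) (hn : n % 2 = 1) (hpos : 0 < (m : ℝ) + n * ph)
    (hc : ((m : ℝ) + n * (1 - ph)) ^ 2 ≤ 2 * (ph + 1)) : ph ≤ (m : ℝ) + n * ph := by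
  have h1 := ph_gt
  have h2 := ph_lt
  have hlt : |(m : ℝ) + n * (1 - ph)| < 2.3 := by
    apply abs_lt_of_sq_lt_sq _ (by norm_num)
    nlinarith
  rw [abs_lt] at hlt
  obtain ⟨hl, hr⟩ := hlt
  by_cases hn3 : 3 ≤ n
  · have : (3 : ℝ) ≤ n := by exact_mod_cast hn3
    nlinarith
  · by_cases hn1 : n = 1
    · subst hn1
      have : (-2 : ℝ) < m := by push_cast at hpos; linarith
      have : (-2 : ℤ) < m := by exact_mod_cast this
      have hm0 : (0 : ℤ) ≤ m := by omega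
      have : (0 : ℝ) ≤ m := by exact_mod_cast hm0
      push_cast
      linarith
    · exfalso
      have hn' : n ≤ -1 := by omega
      by_cases hn2 : n = -1
      · subst hn2
        push_cast at *
        have a1 : (1 : ℝ) < m := by linarith
        have a2 : (m : ℝ) < 2 := by linarith
        have a1' : (1 : ℤ) < m := by exact_mod_cast a1
        have a2' : (m : ℤ) < 2 := by exact_mod_cast a2
        omega
      · have hn4 : n ≤ -3 := by omega
        have : (n : ℝ) ≤ -3 := by exact_mod_cast hn4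
        nlinarith

theorem conj_bound {A v S : ℝ} (kc : A ^ 2 + (ph - 1) * S = 1) (cs : v ^ 2 ≤ 3 * S) :
    ((1 - ph) * A - v) ^ 2 ≤ 2 * (ph + 1) := by
  have h := ph_mul
  have h1 := ph_gt
  have id1 : 2 * (ph + 1) - ((1 - ph) * A - v) ^ 2
      = (2 + 2 * ph) * ((ph - 1) * (S - v ^ 2 / 3)) + 3 * ph * (A - (2 - ph) * v / 3) ^ 2 := by
    linear_combination (-(2 + 2 * ph)) * kc + (-A ^ 2 - 2 * A * v + (5 - ph) * v ^ 2 / 3) * h
  have a1 : 0 ≤ (2 + 2 * ph) * ((ph - 1) * (S - v ^ 2 / 3)) :=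
    mul_nonneg (by linarith) (mul_nonneg (by linarith) (by linarith))
  have a2 : 0 ≤ 3 * ph * (A - (2 - ph) * v / 3) ^ 2 := by positivity
  linarith

theorem cs3 {e0 e1 e2 x y z : ℝ} (h0 : e0 ^ 2 = 1) (h1 : e1 ^ 2 = 1) (h2 : e2 ^ 2 = 1) :
    (e0 * x + e1 * y + e2 * z) ^ 2 ≤ 3 * (x ^ 2 + y ^ 2 + z ^ 2) := by
  have : 3 * (x ^ 2 + y ^ 2 + z ^ 2) = 3 * ((e0 * x) ^ 2 + (e1 * y) ^ 2 + (e2 * z) ^ 2) := by
    rw [mul_pow, mul_pow, mul_pow, h0, h1, h2]; ring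
  rw [this]
  nlinarith [sq_nonneg (e0 * x - e1 * y), sq_nonneg (e0 * x - e2 * z), sq_nonneg (e1 * y - e2 * z)]

theorem key_sum {c : W} (hc : c ∈ C) (e0 e1 e2 : ℤ) (h0 : e0 = 1 ∨ e0 = -1) (h1 : e1 = 1 ∨ e1 = -1)
    (h2 : e2 = 1 ∨ e2 = -1) : ph ≤ ph * c 3 - (e0 * c 0 + e1 * c 1 + e2 * c 2) := by
  have hn := C_norm hc
  obtain ⟨a, b, k1, k0, k2, k3, k4, k5⟩ := C_Inv hc
  have kc := conj_norm k2 k3
  have g1 := ph_gt
  have g2 := ph_lt
  have h := ph_mul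
  have key := key_int (m := b 3 - (e0 * a 0 + e1 * a 1 + e2 * a 2))
    (n := a 3 + b 3 - (e0 * b 0 + e1 * b 1 + e2 * b 2))
    (by rcases h0 with rfl | rfl <;> rcases h1 with rfl | rfl <;> rcases h2 with rfl | rfl <;> omega)
    (by rcases h0 with rfl | rfl <;> rcases h1 with rfl | rfl <;> rcases h2 with rfl | rfl <;> omega)
  have e : ((b 3 - (e0 * a 0 + e1 * a 1 + e2 * a 2) : ℤ) : ℝ)
      + ((a 3 + b 3 - (e0 * b 0 + e1 * b 1 + e2 * b 2) : ℤ) : ℝ) * ph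
      = ph * c 3 - (e0 * c 0 + e1 * c 1 + e2 * c 2) := by
    rw [k1 0, k1 1, k1 2, k1 3]; push_cast; linear_combination (- (b 3 : ℝ)) * h
  rw [e] at key
  apply key
  · -- positivity
    have hs : (e0 * c 0 + e1 * c 1 + e2 * c 2) ^ 2 < (ph * c 3) ^ 2 := by
      have e0' : (e0 : ℝ) ^ 2 = 1 := by rcases h0 with rfl | rfl <;> norm_num
      have e1' : (e1 : ℝ) ^ 2 = 1 := by rcases h1 with rfl | rfl <;> norm_num
      have e2' : (e2 : ℝ) ^ 2 = 1 := by rcases h2 with rfl | rfl <;> norm_num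
      have cs := cs3 (x := c 0) (y := c 1) (z := c 2) e0' e1' e2'
      nlinarith [sq_nonneg (c 0), sq_nonneg (c 1), sq_nonneg (c 2)]
    have := abs_lt_of_sq_lt_sq hs (by positivity)
    have := (abs_lt.1 this).2
    linarith
  · -- conjugate
    have e0' : (e0 : ℝ) ^ 2 = 1 := by rcases h0 with rfl | rfl <;> norm_num
    have e1' : (e1 : ℝ) ^ 2 = 1 := by rcases h1 with rfl | rfl <;> norm_num
    have e2' : (e2 : ℝ) ^ 2 = 1 := by rcases h2 with rfl | rfl <;> norm_num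
    set A0 : ℝ := a 0 + b 0 * (1 - ph) with hA0
    set A1 : ℝ := a 1 + b 1 * (1 - ph) with hA1
    set A2 : ℝ := a 2 + b 2 * (1 - ph) with hA2
    set A3 : ℝ := a 3 + b 3 * (1 - ph) with hA3
    have e4 : ((b 3 - (e0 * a 0 + e1 * a 1 + e2 * a 2) : ℤ) : ℝ)
      + ((a 3 + b 3 - (e0 * b 0 + e1 * b 1 + e2 * b 2) : ℤ) : ℝ) * (1 - ph)
      = (1 - ph) * A3 - (e0 * A0 + e1 * A1 + e2 * A2) := by
      rw [hA0, hA1, hA2, hA3]; push_cast; linear_combination (- (b 3 : ℝ)) * h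
    rw [e4]
    exact conj_bound kc (cs3 e0' e1' e2')

end Pool.R179.H435
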