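import Mathlib

/-!
# LFC tilings of Euclidean space and their face lattices
-/

namespace Pool.R179.LFC

/-- Euclidean `d`-space. -/
abbrev E (d : ℕ) := EuclideanSpace ℝ (Fin d)

/-- `F` is a face of the convex set `T`: a convex extreme subset of `T`
(the empty set and `T` itself are faces). -/
def IsFaceOf {d : ℕ} (T F : Set (E d)) : Prop := Convex ℝ F ∧ IsExtreme ℝ T F

/-- A locally finite, face-to-face tiling of `E d` by convex `d`-polytopes. -/
structure IsLFC {d : ℕ} (𝒯 : Set (Set (E d))) : Prop where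
  /-- every tile is a polytope -/
  polytope : ∀ T ∈ 𝒯, ∃ s : Set (E d), s.Finite ∧ T = convexHull ℝ s
  /-- of full dimension -/
  full : ∀ T ∈ 𝒯, (interior T).Nonempty
  /-- the tiles cover space -/
  cover : ∀ x : E d, ∃ T ∈ 𝒯, x ∈ T
  /-- the tiles do not overlap -/
  disj : ∀ T ∈ 𝒯, ∀ T' ∈ 𝒯, T ≠ T' → Disjoint (interior T) (interior T')
  /-- any two tiles meet in a face of each -/
  faceToFace : ∀ T ∈ 𝒯, ∀ T' ∈ 𝒯, IsFaceOf T (T ∩ T') ∧ IsFaceOf T' (T ∩ T')
  /-- each bounded set meets only finitely many tiles -/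
  locFin : ∀ K : Set (E d), Bornology.IsBounded K → {T ∈ 𝒯 | (T ∩ K).Nonempty}.Finite

/-- The face lattice of `𝒯`: the faces of the tiles (the tiles and the empty face included),
together with the whole space, ordered by inclusion. -/
def FL {d : ℕ} (𝒯 : Set (Set (E d))) : Type :=
  {F : Set (E d) // F = Set.univ ∨ ∃ T ∈ 𝒯, IsFaceOf T F}

instance {d : ℕ} (𝒯 : Set (Set (E d))) : PartialOrder (FL 𝒯) :=
  inferInstanceAs (PartialOrder {F : Set (E d) // F = Set.univ ∨ ∃ T ∈ 𝒯, IsFaceOf T F})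

theorem FL.le_iff {d : ℕ} {𝒯 : Set (Set (E d))} {F G : FL 𝒯} : F ≤ G ↔ F.1 ⊆ G.1 := Iff.rfl

/-- Two flags are equivalent under the automorphism group of the face lattice. -/
def CombEquiv {d : ℕ} {𝒯 : Set (Set (E d))} (s t : Flag (FL 𝒯)) : Prop :=
  ∃ θ : FL 𝒯 ≃o FL 𝒯, Flag.map θ s = t

/-- Two flags are equivalent under the group of isometries of `E d` mapping `𝒯` to itself. -/
def IsomEquiv {d : ℕ} {𝒯 : Set (Set (E d))} (s t : Flag (FL 𝒯)) : Prop :=
  ∃ g : E d ≃ᵢ E d, (∀ T, T ∈ 𝒯 ↔ g '' T ∈ 𝒯) ∧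
    (fun F : FL 𝒯 => g '' F.1) '' (s : Set (FL 𝒯)) = (fun F : FL 𝒯 => F.1) '' (t : Set (FL 𝒯))

/-- The automorphism group of the face lattice acts transitively on the flags. -/
def CombRegular {d : ℕ} (𝒯 : Set (Set (E d))) : Prop :=
  ∀ s t : Flag (FL 𝒯), CombEquiv s t

/-- The group of isometries of `E d` mapping `𝒯` to itself acts transitively on the flags. -/
def IsRegular {d : ℕ} (𝒯 : Set (Set (E d))) : Prop :=
  ∀ s t : Flag (FL 𝒯), IsomEquiv s t

variable {d : ℕ}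

/-! ### Faces -/

theorem IsFaceOf.refl {T : Set (E d)} (hT : Convex ℝ T) : IsFaceOf T T := ⟨hT, IsExtreme.rfl⟩

theorem IsFaceOf.subset {T F : Set (E d)} (h : IsFaceOf T F) : F ⊆ T := h.2.subset

theorem isFaceOf_empty (T : Set (E d)) : IsFaceOf T ∅ :=
  ⟨convex_empty, ⟨Set.empty_subset _, fun _ _ _ _ _ h => h.elim⟩⟩

/-- a map is affine on `T` -/
def AffOn (h : E d → E d) (T : Set (E d)) : Prop :=
  ∀ p ∈ T, ∀ q ∈ T, ∀ a b : ℝ, 0 ≤ a → 0 ≤ b → a + b = 1 → h (a • p + b • q) = a • h p + b • h q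

theorem AffOn.convex {h : E d → E d} {T F : Set (E d)} (hh : AffOn h T) (hFT : F ⊆ T)
    (hF : Convex ℝ F) : Convex ℝ (h '' F) := by
  rintro _ ⟨p, hp, rfl⟩ _ ⟨q, hq, rfl⟩ a b ha hb hab
  exact ⟨a • p + b • q, hF hp hq ha hb hab, hh p (hFT hp) q (hFT hq) a b ha hb hab⟩

theorem IsFaceOf.image {h : E d → E d} {T F : Set (E d)} (hT : Convex ℝ T) (hh : AffOn h T)
    (hi : Set.InjOn h T) (hF : IsFaceOf T F) : IsFaceOf (h '' T) (h '' F) := by
  refine ⟨hh.convex hF.subset hF.1, ⟨Set.image_mono hF.subset, ?_⟩⟩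
  rintro _ ⟨p, hp, rfl⟩ _ ⟨q, hq, rfl⟩ _ ⟨z, hz, rfl⟩ ⟨a, b, ha, hb, hab, e⟩
  rw [← hh p hp q hq a b ha.le hb.le hab] at e
  have : a • p + b • q = z := hi (hT hp hq ha.le hb.le hab) (hF.subset hz) e
  exact ⟨p, hF.2.left_mem_of_mem_openSegment hp hq hz ⟨a, b, ha, hb, hab, this⟩, rfl⟩

theorem AffOn.image_convexHull {h : E d → E d} {s : Set (E d)} (hh : AffOn h (convexHull ℝ s)) :
    h '' convexHull ℝ s = convexHull ℝ (h '' s) := by
  apply Set.Subset.antisymm
  · rintro _ ⟨p, hp, rfl⟩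
    have key : convexHull ℝ s ⊆ {p ∈ convexHull ℝ s | h p ∈ convexHull ℝ (h '' s)} := by
      apply convexHull_min
      · intro x hx
        exact ⟨subset_convexHull ℝ s hx, subset_convexHull ℝ _ ⟨x, hx, rfl⟩⟩
      · rintro x ⟨hx, hx'⟩ y ⟨hy, hy'⟩ a b ha hb hab
        refine ⟨convex_convexHull ℝ s hx hy ha hb hab, ?_⟩
        show h (a • x + b • y) ∈ _
        rw [hh x hx y hy a b ha hb hab]
        exact convex_convexHull ℝ _ hx' hy' ha hb hab
    exact (key hp).2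
  · apply convexHull_min
    · exact Set.image_mono (subset_convexHull ℝ s)
    · exact hh.convex subset_rfl (convex_convexHull ℝ s)

/-- A nonempty face of a polytope contains an extreme point of the polytope. -/
theorem IsFaceOf.exists_extreme {T F : Set (E d)} (hT : ∃ s : Set (E d), s.Finite ∧ T = convexHull ℝ s)
    (hF : IsFaceOf T F) (hne : F.Nonempty) : ∃ v ∈ F, IsFaceOf T {v} := by
  obtain ⟨s, hs, rfl⟩ := hT
  have hc : IsCompact (convexHull ℝ s) := hs.isCompact_convexHull (𝕜 := ℝ)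
  have hfin : ((convexHull ℝ s).extremePoints ℝ).Finite := hs.subset extremePoints_convexHull_subset
  have e := closure_convexHull_extremePoints hc (convex_convexHull ℝ s)
  rw [(hfin.isClosed_convexHull (𝕜 := ℝ)).closure_eq] at e
  by_contra hcon
  push Not at hcon
  have h1 : convexHull ℝ ((convexHull ℝ s).extremePoints ℝ) ⊆ convexHull ℝ s \ F := by
    apply convexHull_min
    · intro v hv
      refine ⟨extremePoints_subset hv, fun hvF => ?_⟩
      exact hcon v hvF ⟨convex_singleton v, isExtreme_singleton.2 hv⟩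
    · exact hF.2.convex_sdiff (convex_convexHull ℝ s)
  rw [e] at h1
  obtain ⟨x, hx⟩ := hne
  exact (h1 (hF.subset hx)).2 hx

/-- A face containing an interior point of `T` is `T`. -/
theorem IsFaceOf.eq_of_interior {T F : Set (E d)} (hF : IsFaceOf T F) {z : E d}
    (hz : z ∈ F) (hzi : z ∈ interior T) : F = T := by
  apply Set.Subset.antisymm hF.subset
  intro y hy
  -- extend the segment from y through z
  have hcont : Continuous fun ε : ℝ => z + ε • (z - y) := by fun_prop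
  have h0 : (fun ε : ℝ => z + ε • (z - y)) 0 ∈ interior T := by simpa using hzi
  have hev : ∀ᶠ ε in nhds (0 : ℝ), z + ε • (z - y) ∈ interior T :=
    hcont.continuousAt.eventually (isOpen_interior.mem_nhds h0)
  have hev2 : ∀ᶠ ε in nhdsWithin (0 : ℝ) (Set.Ioi 0), z + ε • (z - y) ∈ interior T :=
    hev.filter_mono nhdsWithin_le_nhds
  obtain ⟨ε, hε, hpos⟩ := (hev2.and self_mem_nhdsWithin).exists
  have hpos' : 0 < ε := hpos
  refine hF.2.left_mem_of_mem_openSegment hy (interior_subset hε) hz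
    ⟨ε / (1 + ε), 1 / (1 + ε), by positivity, by positivity, by field_simp; ring, ?_⟩
  have h1 : (1 + ε) ≠ 0 := by positivity
  have : (ε / (1 + ε)) • y + (1 / (1 + ε)) • (z + ε • (z - y))
      = ((1 / (1 + ε)) * (1 + ε)) • z := by
    rw [div_eq_mul_one_div ε]; module
  rw [this, one_div, inv_mul_cancel₀ h1, one_smul]

/-- A proper face with an interior point cannot exist; hence proper faces are flat. -/
theorem IsFaceOf.flat {T F : Set (E d)} (hF : IsFaceOf T F) (hne : F.Nonempty) (hp : F ≠ T) :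
    ∃ n : E d, n ≠ 0 ∧ ∀ x ∈ F, ∀ y ∈ F, inner ℝ n (x - y) = 0 := by
  by_contra hcon
  push Not at hcon
  apply hp
  have htop : affineSpan ℝ F = ⊤ := by
    rw [← AffineSubspace.direction_eq_top_iff_of_nonempty ((affineSpan_nonempty ℝ).2 hne)]
    by_contra hd
    have hd' : ((affineSpan ℝ F).direction)ᗮ ≠ ⊥ := by
      intro h
      exact hd (Submodule.orthogonal_eq_bot_iff.1 h)
    obtain ⟨n, hn, hn0⟩ := Submodule.exists_mem_ne_zero_of_ne_bot hd'
    obtain ⟨x, hx, y, hy, hxy⟩ := hcon n hn0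
    apply hxy
    have hm : x - y ∈ (affineSpan ℝ F).direction := by
      have := AffineSubspace.vsub_mem_direction (subset_affineSpan ℝ F hx) (subset_affineSpan ℝ F hy)
      simpa using this
    rw [real_inner_comm]
    exact (Submodule.mem_orthogonal _ _).1 hn _ hm
  obtain ⟨z, hz⟩ := (hF.1.interior_nonempty_iff_affineSpan_eq_top).2 htop
  exact hF.eq_of_interior (interior_subset hz) (interior_mono hF.subset hz)

/-! ### The face lattice -/

variable {𝒯 : Set (Set (E d))}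

theorem IsLFC.convex (h : IsLFC 𝒯) {T : Set (E d)} (hT : T ∈ 𝒯) : Convex ℝ T := by
  obtain ⟨s, _, rfl⟩ := h.polytope T hT
  exact convex_convexHull ℝ s

theorem IsLFC.ne_univ [Nontrivial (E d)] (h : IsLFC 𝒯) {T : Set (E d)} (hT : T ∈ 𝒯) :
    T ≠ Set.univ := by
  obtain ⟨s, hs, e⟩ := h.polytope T hT
  intro hu
  apply NormedSpace.unbounded_univ ℝ (E d)
  rw [← hu, e]
  exact (hs.isCompact_convexHull (𝕜 := ℝ)).isBounded

theorem IsLFC.tile_eq (h : IsLFC 𝒯) {T T' : Set (E d)} (hT : T ∈ 𝒯) (hT' : T' ∈ 𝒯) (hs : T ⊆ T') :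
    T = T' := by
  by_contra hne
  have := h.disj T hT T' hT' hne
  obtain ⟨z, hz⟩ := h.full T hT
  exact Set.disjoint_left.1 this hz (interior_mono hs hz)

/-- bottom, top, tiles as elements of the face lattice -/
def tileF (h : IsLFC 𝒯) {T : Set (E d)} (hT : T ∈ 𝒯) : FL 𝒯 :=
  ⟨T, Or.inr ⟨T, hT, IsFaceOf.refl (h.convex hT)⟩⟩

def topF (𝒯 : Set (Set (E d))) : FL 𝒯 := ⟨Set.univ, Or.inl rfl⟩

theorem IsLFC.face_of_subset [Nontrivial (E d)] (h : IsLFC 𝒯) {T : Set (E d)} (hT : T ∈ 𝒯) (F : FL 𝒯)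
    (hF : F.1 ⊆ T) : IsFaceOf T F.1 := by
  rcases F.2 with hu | ⟨T', hT', hf⟩
  · exfalso
    apply h.ne_univ hT
    rw [hu] at hF
    exact Set.univ_subset_iff.1 hF
  · refine ⟨hf.1, ?_⟩
    have h1 : IsExtreme ℝ (T ∩ T') F.1 :=
      hf.2.mono Set.inter_subset_right (Set.subset_inter hF hf.subset)
    exact (h.faceToFace T hT T' hT').1.2.trans h1

/-- Every chain of the face lattice lies, apart from the top, under a common tile. -/
theorem IsLFC.chain_tile (h : IsLFC 𝒯) (s : Set (FL 𝒯)) (hs : IsChain (· ≤ ·) s) :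
    ∃ T ∈ 𝒯, ∀ F ∈ s, F.1 = Set.univ ∨ F.1 ⊆ T := by
  by_cases hne : ∃ F ∈ s, F.1.Nonempty ∧ F.1 ≠ Set.univ
  · obtain ⟨F0, hF0, ⟨x, hx⟩, hu0⟩ := hne
    by_contra hcon
    push Not at hcon
    choose G hG using hcon
    have hfin := h.locFin {x} Bornology.isBounded_singleton
    -- the finite set of elements of the chain
    let S : Set (FL 𝒯) := insert F0 {F | ∃ (T : Set (E d)) (hT : T ∈ 𝒯), (T ∩ {x}).Nonempty ∧ F = G T hT}
    have hSfin : S.Finite := by
      apply Set.Finite.insert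
      have : {F | ∃ (T : Set (E d)) (hT : T ∈ 𝒯), (T ∩ {x}).Nonempty ∧ F = G T hT}
          = (fun T : {T // T ∈ {T ∈ 𝒯 | (T ∩ {x}).Nonempty}} => G T.1 T.2.1) '' Set.univ := by
        ext F
        constructor
        · rintro ⟨T, hT, hx, rfl⟩
          exact ⟨⟨T, hT, hx⟩, trivial, rfl⟩
        · rintro ⟨⟨T, hT, hx⟩, _, rfl⟩
          exact ⟨T, hT, hx, rfl⟩
      rw [this]
      have := hfin.to_subtype
      exact Set.Finite.image _ Set.finite_univ
    have hSs : S ⊆ s := by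
      rintro F (rfl | ⟨T, hT, _, rfl⟩)
      · exact hF0
      · exact (hG T hT).1
    have hSu : ∀ F ∈ S, F.1 ≠ Set.univ := by
      rintro F (rfl | ⟨T, hT, _, rfl⟩)
      · exact hu0
      · exact (hG T hT).2.1
    obtain ⟨M, hM⟩ := hSfin.exists_maximal ⟨F0, Set.mem_insert _ _⟩
    have hmax : ∀ F ∈ S, F ≤ M := by
      intro F hF
      rcases hs.total (hSs hF) (hSs hM.prop) with h1 | h1
      · exact h1
      · exact hM.le_of_ge hF h1
    rcases M.2 with hu | ⟨T, hT, hf⟩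
    · exact hSu M hM.prop hu
    · have hxT : x ∈ T := hf.subset (hmax F0 (Set.mem_insert _ _) hx)
      have hmem : G T hT ∈ S := Set.mem_insert_of_mem _ ⟨T, hT, ⟨x, hxT, rfl⟩, rfl⟩
      exact (hG T hT).2.2 (Set.Subset.trans (hmax _ hmem) hf.subset)
  · push Not at hne
    obtain ⟨T, hT, _⟩ := h.cover 0
    refine ⟨T, hT, fun F hF => ?_⟩
    rcases Set.eq_empty_or_nonempty F.1 with h1 | h1
    · right; rw [h1]; exact Set.empty_subset _
    · left; exact hne F hF h1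

/-- Automorphism of the face lattice from a tile-wise affine bijection of space. -/
def autF (hc : ∀ T ∈ 𝒯, Convex ℝ T) (e : E d ≃ E d)
    (h1 : ∀ T ∈ 𝒯, e '' T ∈ 𝒯 ∧ AffOn e T) (h2 : ∀ T ∈ 𝒯, e.symm '' T ∈ 𝒯 ∧ AffOn e.symm T) :
    FL 𝒯 ≃o FL 𝒯 where
  toFun F := ⟨e '' F.1, by
    rcases F.2 with hu | ⟨T, hT, hf⟩
    · left; rw [hu, Set.image_univ, e.range_eq_univ]
    · right; exact ⟨e '' T, (h1 T hT).1, hf.image (hc T hT) (h1 T hT).2 e.injective.injOn⟩⟩
  invFun F := ⟨e.symm '' F.1, by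
    rcases F.2 with hu | ⟨T, hT, hf⟩
    · left; rw [hu, Set.image_univ, e.symm.range_eq_univ]
    · right; exact ⟨e.symm '' T, (h2 T hT).1, hf.image (hc T hT) (h2 T hT).2 e.symm.injective.injOn⟩⟩
  left_inv F := Subtype.ext (e.symm_image_image F.1)
  right_inv F := Subtype.ext (e.image_symm_image F.1)
  map_rel_iff' := by
    intro F G
    exact Set.image_subset_image_iff e.injective

theorem autF_val (hc : ∀ T ∈ 𝒯, Convex ℝ T) (e : E d ≃ E d)
    (h1 : ∀ T ∈ 𝒯, e '' T ∈ 𝒯 ∧ AffOn e T) (h2 : ∀ T ∈ 𝒯, e.symm '' T ∈ 𝒯 ∧ AffOn e.symm T)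
    (F : FL 𝒯) : (autF hc e h1 h2 F).1 = e '' F.1 := rfl

theorem affOn_isometry (g : E d ≃ᵢ E d) (T : Set (E d)) : AffOn g T := by
  intro p _ q _ a b _ _ hab
  have h := g.toRealAffineIsometryEquiv.toAffineIsometry.toAffineMap.map_vadd
  have e : ∀ x, g x = g.toRealAffineIsometryEquiv x := fun x => by simp
  rw [e, e, e]
  exact Convex.combo_affine_apply (f := g.toRealAffineIsometryEquiv.toAffineEquiv.toAffineMap) hab

/-- the automorphism induced by an isometry -/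
def isomF (hc : ∀ T ∈ 𝒯, Convex ℝ T) (g : E d ≃ᵢ E d) (hg : ∀ T, T ∈ 𝒯 ↔ g '' T ∈ 𝒯) :
    FL 𝒯 ≃o FL 𝒯 :=
  autF hc g.toEquiv (fun T hT => ⟨(hg T).1 hT, affOn_isometry g T⟩)
    (fun T hT => ⟨(hg _).2 (by
      have : (g '' (g.toEquiv.symm '' T)) = T := g.toEquiv.image_symm_image T
      rw [this]; exact hT), affOn_isometry g.symm T⟩)

theorem isomF_val (hc : ∀ T ∈ 𝒯, Convex ℝ T) (g : E d ≃ᵢ E d) (hg : ∀ T, T ∈ 𝒯 ↔ g '' T ∈ 𝒯)
    (F : FL 𝒯) : (isomF hc g hg F).1 = g '' F.1 := rfl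

end Pool.R179.LFC
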