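import Pool.Agent.R179.H435A
import Pool.Agent.R179.LFC

/-!
# The vertical projection of the order-5 cubic honeycomb: a tiling of `E 3` by cubes
-/

namespace Pool.R179.H435
open Pool.R179.LFC

theorem C_sub {c : W} (hc : c ∈ C) : ph * (c 0 ^ 2 + c 1 ^ 2 + c 2 ^ 2) ≤ c 3 ^ 2 := by
  rw [C_norm hc]; linarith

theorem C_coord_le {c : W} (hc : c ∈ C) {R : ℝ} (hR : c 3 ≤ R) (i : Fin 4) : |c i| ≤ R := by
  have hs := C_sub hc
  have h0 := C_pos hc
  have hR0 : 0 < R := lt_of_lt_of_le h0 hR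
  have hR2 : c 3 ^ 2 ≤ R ^ 2 := by nlinarith
  have p1 := ph_gt
  have q0 := sq_nonneg (c 0)
  have q1 := sq_nonneg (c 1)
  have q2 := sq_nonneg (c 2)
  apply abs_le_of_sq_le_sq _ hR0.le
  fin_cases i
  · show c 0 ^ 2 ≤ R ^ 2; nlinarith
  · show c 1 ^ 2 ≤ R ^ 2; nlinarith
  · show c 2 ^ 2 ≤ R ^ 2; nlinarith
  · exact hR2

theorem conj_le {A0 A1 A2 A3 : ℝ} (h : A3 ^ 2 + (ph - 1) * (A0 ^ 2 + A1 ^ 2 + A2 ^ 2) = 1) :
    |A0| ≤ 1.3 ∧ |A1| ≤ 1.3 ∧ |A2| ≤ 1.3 ∧ |A3| ≤ 1.3 := by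
  have p1 := ph_gt
  have q0 := sq_nonneg A0
  have q1 := sq_nonneg A1
  have q2 := sq_nonneg A2
  have q3 := sq_nonneg A3
  refine ⟨?_, ?_, ?_, ?_⟩ <;> apply abs_le_of_sq_le_sq _ (by norm_num : (0:ℝ) ≤ 1.3)
  · nlinarith
  · nlinarith
  · nlinarith
  · nlinarith

theorem int_bd {a b R : ℝ} (h1 : |a + b * ph| ≤ R) (h2 : |a + b * (1 - ph)| ≤ 1.3) :
    |a| ≤ 2 * R + 4 ∧ |b| ≤ 2 * R + 4 := by
  have p1 := ph_gt
  have p2 := ph_lt
  have hR : 0 ≤ R := (abs_nonneg _).trans h1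
  rw [abs_le] at h1 h2
  have hb : |b| ≤ R + 1.3 := by
    rw [abs_le]; constructor <;> nlinarith
  have hb' := hb
  rw [abs_le] at hb
  refine ⟨?_, hb'.trans (by linarith)⟩
  rw [abs_le]; constructor <;> nlinarith

/-- finitely many centres of bounded height -/
theorem C_finite (R : ℝ) : {c ∈ C | c 3 ≤ R}.Finite := by
  obtain ⟨N, hN⟩ := exists_nat_gt (2 * R + 4)
  let box : Set (Fin 4 → ℤ × ℤ) := Set.Icc (fun _ => (-N, -N)) (fun _ => (N, N))
  have hbox : box.Finite := Set.finite_Icc _ _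
  apply (hbox.image (fun ab : Fin 4 → ℤ × ℤ => fun i : Fin 4 => ((ab i).1 : ℝ) + (ab i).2 * ph)).subset
  rintro c ⟨hc, hR⟩
  have hco := C_coord_le hc hR
  obtain ⟨a, b, h1, h0, h2, h3, _⟩ := C_Inv hc
  have hcj := conj_le (conj_norm h2 h3)
  have hcj' : ∀ i, |(a i : ℝ) + b i * (1 - ph)| ≤ 1.3 := by
    intro i; fin_cases i
    · exact hcj.1
    · exact hcj.2.1
    · exact hcj.2.2.1
    · exact hcj.2.2.2
  have key2 : ∀ i, |(a i : ℝ)| ≤ N ∧ |(b i : ℝ)| ≤ N := by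
    intro i
    have k1 := hco i
    rw [h1 i] at k1
    have := int_bd k1 (hcj' i)
    exact ⟨this.1.trans hN.le, this.2.trans hN.le⟩
  refine ⟨fun i => (a i, b i), ⟨fun i => ?_, fun i => ?_⟩, ?_⟩
  · have := key2 i
    rw [abs_le, abs_le] at this
    exact ⟨by exact_mod_cast this.1.1, by exact_mod_cast this.2.1⟩
  · have := key2 i
    rw [abs_le, abs_le] at this
    exact ⟨by exact_mod_cast this.1.2, by exact_mod_cast this.2.2⟩
  · funext i
    exact (h1 i).symm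

/-! ### Descent for lightlike vectors -/

theorem perm_max (X : W) : ∃ h ∈ G, (h X) 3 = X 3 ∧
    (h X) 0 ^ 2 + (h X) 1 ^ 2 + (h X) 2 ^ 2 = X 0 ^ 2 + X 1 ^ 2 + X 2 ^ 2 ∧ 0 ≤ (h X) 2 ∧
    X 0 ^ 2 + X 1 ^ 2 + X 2 ^ 2 ≤ 3 * (h X) 2 ^ 2 := by
  have step : ∃ h ∈ G, (h X) 3 = X 3 ∧
    (h X) 0 ^ 2 + (h X) 1 ^ 2 + (h X) 2 ^ 2 = X 0 ^ 2 + X 1 ^ 2 + X 2 ^ 2 ∧
    X 0 ^ 2 + X 1 ^ 2 + X 2 ^ 2 ≤ 3 * (h X) 2 ^ 2 := by
    by_cases h1 : X 0 ^ 2 + X 1 ^ 2 + X 2 ^ 2 ≤ 3 * (X 2) ^ 2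
    · exact ⟨1, one_mem _, rfl, rfl, h1⟩
    · by_cases h2 : X 0 ^ 2 + X 1 ^ 2 + X 2 ^ 2 ≤ 3 * (X 1) ^ 2
      · refine ⟨w12, w12_mem, ?_, ?_, ?_⟩ <;> simp [w12_apply]
        · ring
        · exact h2
      · refine ⟨w02, w02_mem, ?_, ?_, ?_⟩ <;> simp [w02_apply]
        · ring
        · push Not at h1 h2
          nlinarith [sq_nonneg (X 0)]
  obtain ⟨h, hh, e1, e2, e3⟩ := step
  by_cases hpos : 0 ≤ (h X) 2
  · exact ⟨h, hh, e1, e2, hpos, e3⟩
  · refine ⟨s2 * h, mul_mem s2_mem hh, ?_, ?_, ?_, ?_⟩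
    all_goals
      rw [LinearEquiv.mul_apply, s2_apply]
      simp
    · exact e1
    · exact e2
    · linarith
    · exact e3

theorem light (n : ℕ) : ∀ X : W, 0 ≤ X 3 → X 3 ^ 2 = ph * (X 0 ^ 2 + X 1 ^ 2 + X 2 ^ 2) →
    X 3 < ph * (10 / 9) ^ n → ∃ g ∈ G, (g X) 3 < ph := by
  induction n with
  | zero =>
    intro X _ _ h
    exact ⟨1, one_mem _, by simpa using h⟩
  | succ n ih =>
    intro X h0 hl hlt
    obtain ⟨h, hh, e1, e2, e3, e4⟩ := perm_max X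
    have p1 := ph_gt
    have p2 := ph_lt
    have pm := ph_mul
    set Y := h X with hY
    have hYl : Y 3 ^ 2 = ph * (Y 0 ^ 2 + Y 1 ^ 2 + Y 2 ^ 2) := by rw [e1, e2, hl]
    have hY0 : 0 ≤ Y 3 := by rw [e1]; exact h0
    have hle : Y 2 ≤ Y 3 := by
      have : Y 2 ^ 2 ≤ Y 3 ^ 2 := by nlinarith [sq_nonneg (Y 0), sq_nonneg (Y 1), sq_nonneg (Y 2)]
      exact le_of_sq_le_sq this hY0
    have hge : 0.4438 * Y 3 ≤ Y 2 := by
      have : (0.4438 * Y 3) ^ 2 ≤ Y 2 ^ 2 := by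
        have e5 : Y 3 ^ 2 ≤ ph * (3 * Y 2 ^ 2) := by rw [hYl, e2]; nlinarith
        nlinarith [sq_nonneg (Y 2), sq_nonneg (Y 3)]
      exact le_of_sq_le_sq this e3
    obtain ⟨g, hg, hg'⟩ := ih (rr Y) (by simp [rr_apply]; nlinarith) (by
        simp [rr_apply]
        linear_combination hYl + (Y 3 ^ 2 - ph * Y 2 ^ 2) * pm) (by
        simp [rr_apply]
        rw [pow_succ] at hlt
        rw [← e1] at hlt
        nlinarith)
    refine ⟨g * (rr * h), mul_mem hg (mul_mem rr_mem hh), ?_⟩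
    simpa [LinearEquiv.mul_apply] using hg'

/-! ### Vertical projection and lift -/

/-- vertical projection -/
noncomputable def pr (X : W) : E 3 := !₂[X 0, X 1, X 2]

/-- the point at height `s` above `p` -/
noncomputable def up (p : E 3) (s : ℝ) : W := ![p 0, p 1, p 2, s]

@[simp] theorem pr_0 (X : W) : pr X 0 = X 0 := rfl
@[simp] theorem pr_1 (X : W) : pr X 1 = X 1 := rfl
@[simp] theorem pr_2 (X : W) : pr X 2 = X 2 := rfl
@[simp] theorem up_0 (p : E 3) (s : ℝ) : up p s 0 = p 0 := rfl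
@[simp] theorem up_1 (p : E 3) (s : ℝ) : up p s 1 = p 1 := rfl
@[simp] theorem up_2 (p : E 3) (s : ℝ) : up p s 2 = p 2 := rfl
@[simp] theorem up_3 (p : E 3) (s : ℝ) : up p s 3 = s := rfl

theorem pr_up (p : E 3) (s : ℝ) : pr (up p s) = p := by
  ext i; fin_cases i <;> simp
theorem up_pr (X : W) : up (pr X) (X 3) = X := by
  ext i; fin_cases i <;> simp

theorem pr_comb (a b : ℝ) (X Y : W) : pr (a • X + b • Y) = a • pr X + b • pr Y := by
  ext i; fin_cases i <;> simp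

/-- the norm-like function -/
noncomputable def rho (p : E 3) : ℝ := √(ph * (p 0 ^ 2 + p 1 ^ 2 + p 2 ^ 2))

theorem rho_nonneg (p : E 3) : 0 ≤ rho p := Real.sqrt_nonneg _
theorem rho_sq (p : E 3) : rho p ^ 2 = ph * (p 0 ^ 2 + p 1 ^ 2 + p 2 ^ 2) :=
  Real.sq_sqrt (by have := ph_gt; positivity)

theorem ph_inv : (ph - 1) * ph = 1 := by linear_combination ph_mul

theorem dot_le (p : E 3) {c : W} (hc : c ∈ C) :
    p 0 * c 0 + p 1 * c 1 + p 2 * c 2 ≤ (ph - 1) * rho p * c 3 := by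
  have p1 := ph_gt
  have hcs := C_sub hc
  have hr := rho_sq p
  have h0 := C_pos hc
  apply le_of_sq_le_sq _ (mul_nonneg (mul_nonneg (by linarith) (rho_nonneg p)) h0.le)
  have e : ((ph - 1) * rho p * c 3) ^ 2 = (ph - 1) * (p 0 ^ 2 + p 1 ^ 2 + p 2 ^ 2) * c 3 ^ 2 := by
    rw [mul_pow, mul_pow, hr]
    linear_combination ((ph - 1) * (p 0 ^ 2 + p 1 ^ 2 + p 2 ^ 2) * c 3 ^ 2) * ph_inv
  rw [e]
  have h2 : (p 0 * c 0 + p 1 * c 1 + p 2 * c 2) ^ 2 ≤
      (p 0 ^ 2 + p 1 ^ 2 + p 2 ^ 2) * (c 0 ^ 2 + c 1 ^ 2 + c 2 ^ 2) := by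
    nlinarith [sq_nonneg (p 0 * c 1 - p 1 * c 0), sq_nonneg (p 0 * c 2 - p 2 * c 0),
      sq_nonneg (p 1 * c 2 - p 2 * c 1)]
  have h3 : (p 0 ^ 2 + p 1 ^ 2 + p 2 ^ 2) * (c 0 ^ 2 + c 1 ^ 2 + c 2 ^ 2) ≤
      (ph - 1) * (p 0 ^ 2 + p 1 ^ 2 + p 2 ^ 2) * c 3 ^ 2 := by
    have h4 : (c 0 ^ 2 + c 1 ^ 2 + c 2 ^ 2) ≤ (ph - 1) * c 3 ^ 2 := by
      have : (ph - 1) * (ph * (c 0 ^ 2 + c 1 ^ 2 + c 2 ^ 2)) ≤ (ph - 1) * c 3 ^ 2 :=
        mul_le_mul_of_nonneg_left hcs (by linarith)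
      calc (c 0 ^ 2 + c 1 ^ 2 + c 2 ^ 2) = (ph - 1) * (ph * (c 0 ^ 2 + c 1 ^ 2 + c 2 ^ 2)) := by
            linear_combination (-(c 0 ^ 2 + c 1 ^ 2 + c 2 ^ 2)) * ph_inv
        _ ≤ _ := this
    calc (p 0 ^ 2 + p 1 ^ 2 + p 2 ^ 2) * (c 0 ^ 2 + c 1 ^ 2 + c 2 ^ 2)
        ≤ (p 0 ^ 2 + p 1 ^ 2 + p 2 ^ 2) * ((ph - 1) * c 3 ^ 2) :=
          mul_le_mul_of_nonneg_left h4 (by positivity)
      _ = _ := by ring
  exact h2.trans h3

theorem height_bound (p : E 3) {c : W} (hc : c ∈ C) {s : ℝ} (hs : rho p < s)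
    (hB : -1 ≤ B (up p s) c) : c 3 ≤ ph / (s - rho p) := by
  have h1 := dot_le p hc
  have p1 := ph_gt
  have hd : 0 < s - rho p := by linarith
  rw [le_div_iff₀ hd]
  simp only [B, up_0, up_1, up_2, up_3] at hB
  have h2 : (ph - 1) * (s - rho p) * c 3 ≤ 1 := by nlinarith
  have h3 : ph * ((ph - 1) * (s - rho p) * c 3) ≤ ph * 1 := mul_le_mul_of_nonneg_left h2 (by linarith)
  have e : ph * ((ph - 1) * (s - rho p) * c 3) = c 3 * (s - rho p) := by
    linear_combination ((s - rho p) * c 3) * ph_inv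
  linarith

/-- `gap c p`: how far the supporting plane of `c` lies above the light cone at `p`. -/
noncomputable def gap (c : W) (p : E 3) : ℝ :=
  ph * (1 + (p 0 * c 0 + p 1 * c 1 + p 2 * c 2)) / c 3 - rho p

theorem gap_cont (c : W) : Continuous (gap c) := by
  unfold gap rho
  fun_prop

theorem le_height {p : E 3} {c : W} (hc : c ∈ C) {s : ℝ} (hB : B (up p s) c ≤ -1) :
    gap c p ≤ s - rho p := by
  unfold gap
  have h0 := C_pos hc
  have p1 := ph_gt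
  simp only [B, up_0, up_1, up_2, up_3] at hB
  have : ph * (1 + (p 0 * c 0 + p 1 * c 1 + p 2 * c 2)) / c 3 ≤ s := by
    rw [div_le_iff₀ h0]
    have h3 : ph * (1 + (p 0 * c 0 + p 1 * c 1 + p 2 * c 2)) ≤ ph * ((ph - 1) * (s * c 3)) :=
      mul_le_mul_of_nonneg_left (by linarith) (by linarith)
    have e : ph * ((ph - 1) * (s * c 3)) = s * c 3 := by linear_combination (s * c 3) * ph_inv
    linarith
  linarith

theorem exists_gap (p : E 3) : ∃ c ∈ C, 0 < gap c p := by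
  obtain ⟨n, hn⟩ := pow_unbounded_of_one_lt (rho p) (by norm_num : (1 : ℝ) < 10 / 9)
  have p1 := ph_gt
  obtain ⟨g, hg, hlt⟩ := light n (up p (rho p)) (rho_nonneg p) (rho_sq p) (by
    show rho p < _
    have : (0:ℝ) < (10 / 9) ^ n := by positivity
    nlinarith)
  refine ⟨g⁻¹ c0, C_G (inv_mem hg) c0_mem, ?_⟩
  have hc := C_G (inv_mem hg) c0_mem
  have h0 := C_pos hc
  have e : B (up p (rho p)) (g⁻¹ c0) = B (g (up p (rho p))) c0 := by
    rw [← G_B hg]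
    congr 1
    exact g.apply_symm_apply c0
  have e2 : B (g (up p (rho p))) c0 = -((ph - 1) * (g (up p (rho p)) 3)) := by
    simp [B, c0]
  have hB : -1 < B (up p (rho p)) (g⁻¹ c0) := by
    rw [e, e2]
    have : (ph - 1) * (g (up p (rho p)) 3) < (ph - 1) * ph :=
      mul_lt_mul_of_pos_left hlt (by linarith)
    rw [ph_inv] at this
    linarith
  set c := g⁻¹ c0 with hcdef
  unfold gap
  simp only [B, up_0, up_1, up_2, up_3] at hB
  rw [sub_pos, lt_div_iff₀ h0]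
  have h3 : ph * ((ph - 1) * (rho p * c 3)) < ph * (1 + (p 0 * c 0 + p 1 * c 1 + p 2 * c 2)) :=
    mul_lt_mul_of_pos_left (by linarith) (by linarith)
  have e : ph * ((ph - 1) * (rho p * c 3)) = rho p * c 3 := by
    linear_combination (rho p * c 3) * ph_inv
  linarith

/-- the polyhedral surface -/
def IsS (X : W) : Prop := (∀ c ∈ C, B X c ≤ -1) ∧ ∃ c ∈ C, B X c = -1

theorem exists_lift (p : E 3) : ∃ s, IsS (up p s) := by
  obtain ⟨c1, hc1, hgap⟩ := exists_gap p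
  have p1 := ph_gt
  let sc : W → ℝ := fun c => ph * (1 + (p 0 * c 0 + p 1 * c 1 + p 2 * c 2)) / c 3
  have hsc : ∀ c ∈ C, B (up p (sc c)) c = -1 := by
    intro c hc
    have h0 := C_pos hc
    simp only [B, up_0, up_1, up_2, up_3, sc]
    field_simp
    linear_combination (-(1 + (p 0 * c 0 + p 1 * c 1 + p 2 * c 2))) * ph_inv
  have hmono : ∀ c ∈ C, ∀ s s', s ≤ s' → B (up p s') c ≤ B (up p s) c := by
    intro c hc s s' h
    have h0 := C_pos hc
    simp only [B, up_0, up_1, up_2, up_3]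
    have : (ph - 1) * (s * c 3) ≤ (ph - 1) * (s' * c 3) :=
      mul_le_mul_of_nonneg_left (mul_le_mul_of_nonneg_right h h0.le) (by linarith)
    linarith
  have hA : {c ∈ C | sc c1 ≤ sc c}.Finite := by
    apply (C_finite (ph / (sc c1 - rho p))).subset
    rintro c ⟨hc, hle⟩
    refine ⟨hc, ?_⟩
    apply height_bound p hc
    · unfold gap at hgap; show rho p < sc c1; linarith
    · rw [← hsc c hc]
      exact hmono c hc _ _ hle
  obtain ⟨m, ⟨hm, hmle⟩, hmax⟩ := Set.exists_max_image _ sc hA ⟨c1, hc1, le_refl _⟩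
  refine ⟨sc m, fun c hc => ?_, m, hm, hsc m hm⟩
  have : sc c ≤ sc m := by
    by_cases h : sc c1 ≤ sc c
    · exact hmax c ⟨hc, h⟩
    · push Not at h
      exact h.le.trans hmle
  rw [← hsc c hc]
  exact hmono c hc _ _ this

theorem lift_unique {X Y : W} (hX : IsS X) (hY : IsS Y) (h : pr X = pr Y) : X = Y := by
  have p1 := ph_gt
  have key : ∀ X Y : W, IsS X → IsS Y → pr X = pr Y → X 3 ≤ Y 3 := by
    intro X Y hX hY h
    by_contra hlt
    push Not at hlt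
    obtain ⟨c, hc, e⟩ := hX.2
    have h1 := hY.1 c hc
    have h0 := C_pos hc
    have e0 : X 0 = Y 0 := congrArg (fun p : E 3 => p 0) h
    have e1 : X 1 = Y 1 := congrArg (fun p : E 3 => p 1) h
    have e2 : X 2 = Y 2 := congrArg (fun p : E 3 => p 2) h
    unfold B at e h1
    rw [e0, e1, e2] at e
    have : (ph - 1) * (Y 3 * c 3) < (ph - 1) * (X 3 * c 3) :=
      mul_lt_mul_of_pos_left (mul_lt_mul_of_pos_right hlt h0) (by linarith)
    linarith
  have e3 : X 3 = Y 3 := le_antisymm (key X Y hX hY h) (key Y X hY hX h.symm)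
  rw [← up_pr X, ← up_pr Y, h, e3]

/-- the lift of a point -/
noncomputable def L (p : E 3) : W := up p (Classical.choose (exists_lift p))

theorem L_IsS (p : E 3) : IsS (L p) := Classical.choose_spec (exists_lift p)
theorem pr_L (p : E 3) : pr (L p) = p := pr_up _ _
theorem L_pr {X : W} (hX : IsS X) : L (pr X) = X := lift_unique (L_IsS _) hX (pr_L _)

theorem IsS_G {g : W ≃ₗ[ℝ] W} (hg : g ∈ G) {X : W} (hX : IsS X) : IsS (g X) := by
  constructor
  · intro c hc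
    have := hX.1 (g⁻¹ c) (C_G (inv_mem hg) hc)
    rw [← G_B hg] at this
    have e : g (g⁻¹ c) = c := g.apply_symm_apply c
    rwa [e] at this
  · obtain ⟨c, hc, e⟩ := hX.2
    exact ⟨g c, C_G hg hc, by rw [G_B hg, e]⟩

/-- the map induced on `E 3` -/
noncomputable def hat (g : W ≃ₗ[ℝ] W) (p : E 3) : E 3 := pr (g (L p))

theorem L_hat {g : W ≃ₗ[ℝ] W} (hg : g ∈ G) (p : E 3) : L (hat g p) = g (L p) :=
  L_pr (IsS_G hg (L_IsS p))

theorem hat_mul {g h : W ≃ₗ[ℝ] W} (hh : h ∈ G) (p : E 3) : hat (g * h) p = hat g (hat h p) := by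
  show pr (g (h (L p))) = pr (g (L (hat h p)))
  rw [L_hat hh]

theorem hat_one (p : E 3) : hat 1 p = p := pr_L p

/-- the bijection induced on `E 3` -/
noncomputable def hatE (g : W ≃ₗ[ℝ] W) (hg : g ∈ G) : E 3 ≃ E 3 where
  toFun := hat g
  invFun := hat g⁻¹
  left_inv p := by rw [← hat_mul hg, inv_mul_cancel, hat_one]
  right_inv p := by rw [← hat_mul (inv_mem hg), mul_inv_cancel, hat_one]

/-! ### The tiles -/

/-- the tile with centre `c` -/
def Tile (c : W) : Set (E 3) := {p | B (L p) c = -1}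

theorem comb_mem {c : W} (hc : c ∈ C) {p q : E 3} (hp : p ∈ Tile c) (hq : q ∈ Tile c) {a b : ℝ}
    (ha : 0 ≤ a) (hb : 0 ≤ b) (hab : a + b = 1) :
    IsS (a • L p + b • L q) ∧ L (a • p + b • q) = a • L p + b • L q := by
  have h1 : IsS (a • L p + b • L q) := by
    constructor
    · intro c' hc'
      rw [B_add_left, B_smul_left, B_smul_left]
      have := (L_IsS p).1 c' hc'
      have := (L_IsS q).1 c' hc'
      nlinarith
    · refine ⟨c, hc, ?_⟩
      rw [B_add_left, B_smul_left, B_smul_left, hp, hq]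
      linarith
  refine ⟨h1, ?_⟩
  have := L_pr h1
  rwa [pr_comb, pr_L, pr_L] at this

theorem Tile_convex {c : W} (hc : c ∈ C) : Convex ℝ (Tile c) := by
  intro p hp q hq a b ha hb hab
  show B (L (a • p + b • q)) c = -1
  rw [(comb_mem hc hp hq ha hb hab).2, B_add_left, B_smul_left, B_smul_left, hp, hq]
  linarith

theorem hat_affOn {c : W} (hc : c ∈ C) (g : W ≃ₗ[ℝ] W) : AffOn (hat g) (Tile c) := by
  intro p hp q hq a b ha hb hab
  show pr (g (L (a • p + b • q))) = a • pr (g (L p)) + b • pr (g (L q))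
  rw [(comb_mem hc hp hq ha hb hab).2, map_add, map_smul, map_smul, pr_comb]

theorem hat_Tile {g : W ≃ₗ[ℝ] W} (hg : g ∈ G) (c : W) : hat g '' Tile c = Tile (g c) := by
  ext p
  constructor
  · rintro ⟨q, hq, rfl⟩
    show B (L (hat g q)) (g c) = -1
    rw [L_hat hg, G_B hg]; exact hq
  · intro hp
    refine ⟨hat g⁻¹ p, ?_, (hatE g hg).apply_symm_apply p⟩
    show B (L (hat g⁻¹ p)) c = -1
    rw [L_hat (inv_mem hg), ← G_B hg]
    have e : g (g⁻¹ (L p)) = L p := g.apply_symm_apply _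
    rw [e]; exact hp

/-- tiles meet in faces -/
theorem Tile_inter {c c' : W} (hc : c ∈ C) (hc' : c' ∈ C) : IsFaceOf (Tile c) (Tile c ∩ Tile c') := by
  refine ⟨(Tile_convex hc).inter (Tile_convex hc'), ⟨Set.inter_subset_left, ?_⟩⟩
  rintro p hp q hq z ⟨_, hz'⟩ ⟨a, b, ha, hb, hab, rfl⟩
  refine ⟨hp, ?_⟩
  have hz2 : B (L (a • p + b • q)) c' = -1 := hz'
  rw [(comb_mem hc hp hq ha.le hb.le hab).2, B_add_left, B_smul_left, B_smul_left] at hz2
  have h1 := (L_IsS p).1 c' hc'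
  have h2 := (L_IsS q).1 c' hc'
  show B (L p) c' = -1
  nlinarith

theorem Tile_cover (p : E 3) : ∃ c ∈ C, p ∈ Tile c := (L_IsS p).2

theorem Tile_locallyFinite : LocallyFinite (fun c : C => Tile c) := by
  intro p0
  obtain ⟨c1, hc1, hgap⟩ := exists_gap p0
  have p1 := ph_gt
  refine ⟨{p | gap c1 p0 / 2 < gap c1 p}, ?_, ?_⟩
  · apply (isOpen_lt continuous_const (gap_cont c1)).mem_nhds
    show gap c1 p0 / 2 < gap c1 p0
    linarith
  · have hfin := C_finite (ph / (gap c1 p0 / 2))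
    apply Set.Finite.of_injOn (f := fun c : C => (c : W)) _ Subtype.val_injective.injOn hfin
    rintro c ⟨p, hp, hp2⟩
    refine ⟨c.2, ?_⟩
    have hs : gap c1 p ≤ (L p) 3 - rho p := le_height hc1 (by
      show B (up p _) c1 ≤ -1
      exact (L_IsS p).1 c1 hc1)
    have hp2' : gap c1 p0 / 2 < gap c1 p := hp2
    have hb := height_bound p c.2 (s := (L p) 3) (by linarith) (by
      show -1 ≤ B (L p) c
      exact (le_of_eq hp.symm))
    refine hb.trans ?_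
    apply div_le_div_of_nonneg_left (by linarith) (by linarith) (by linarith)

theorem Tile_locFin {K : Set (E 3)} (hK : Bornology.IsBounded K) :
    {c : C | (Tile c ∩ K).Nonempty}.Finite := by
  have hcomp : IsCompact (closure K) := hK.isCompact_closure
  apply (Tile_locallyFinite.finite_nonempty_inter_compact hcomp).subset
  rintro c ⟨x, hx, hxK⟩
  exact ⟨x, hx, subset_closure hxK⟩

end Pool.R179.H435
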