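import Pool.Agent.R179.H435B

/-!
# The central tile is a cube; its faces
-/

namespace Pool.R179.H435
open Pool.R179.LFC

/-- the cube -/
def cube : Set (E 3) := {p | ∀ i, |p i| ≤ ph - 1}

theorem nb2_mem : (![0, 0, 1, ph] : W) ∈ C := by
  have := C_G rr_mem c0_mem
  have e : rr c0 = ![0, 0, 1, ph] := by
    rw [rr_apply]; ext i; fin_cases i <;> simp [c0]
  rwa [e] at this

theorem nb_mem (i : Fin 3) (σ : ℝ) (hσ : σ = 1 ∨ σ = -1) :
    (![if i = 0 then σ else 0, if i = 1 then σ else 0, if i = 2 then σ else 0, ph] : W) ∈ C := by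
  have h2 : ∀ σ : ℝ, (σ = 1 ∨ σ = -1) → (![0, 0, σ, ph] : W) ∈ C := by
    rintro σ (rfl | rfl)
    · exact nb2_mem
    · have := C_G s2_mem nb2_mem
      have e : s2 ![0, 0, 1, ph] = ![0, 0, -1, ph] := by
        rw [s2_apply]; ext i; fin_cases i <;> simp
      rwa [e] at this
  fin_cases i
  · have := C_G w02_mem (h2 σ hσ)
    have e : w02 ![0, 0, σ, ph] = ![σ, 0, 0, ph] := by
      rw [w02_apply]; ext i; fin_cases i <;> simp
    rw [e] at this
    simpa using this
  · have := C_G w12_mem (h2 σ hσ)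
    have e : w12 ![0, 0, σ, ph] = ![0, σ, 0, ph] := by
      rw [w12_apply]; ext i; fin_cases i <;> simp
    rw [e] at this
    simpa using this
  · simpa using h2 σ hσ

theorem cube_lift {p : E 3} (hp : p ∈ cube) : L p = up p ph ∧ p ∈ Tile c0 := by
  have hS : IsS (up p ph) := by
    constructor
    · intro c hc
      have p1 := ph_gt
      have h0 := hp 0
      have h1 := hp 1
      have h2 := hp 2
      have sgn : ∀ x : ℝ, ∃ e : ℤ, (e = 1 ∨ e = -1) ∧ (e : ℝ) * x = |x| := by
        intro x
        rcases le_total 0 x with h | h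
        · exact ⟨1, Or.inl rfl, by rw [abs_of_nonneg h]; simp⟩
        · exact ⟨-1, Or.inr rfl, by rw [abs_of_nonpos h]; simp⟩
      obtain ⟨e0, he0, k0⟩ := sgn (c 0)
      obtain ⟨e1, he1, k1⟩ := sgn (c 1)
      obtain ⟨e2, he2, k2⟩ := sgn (c 2)
      have key := key_sum hc e0 e1 e2 he0 he1 he2
      rw [k0, k1, k2] at key
      have m : ∀ i : Fin 3, ∀ x : ℝ, p i * x ≤ (ph - 1) * |x| := by
        intro i x
        calc p i * x ≤ |p i * x| := le_abs_self _
          _ = |p i| * |x| := abs_mul _ _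
          _ ≤ (ph - 1) * |x| := mul_le_mul_of_nonneg_right (hp i) (abs_nonneg _)
      have m0 := m 0 (c 0)
      have m1 := m 1 (c 1)
      have m2 := m 2 (c 2)
      simp only [B, up_0, up_1, up_2, up_3]
      have k3 : (ph - 1) * ph ≤ (ph - 1) * (ph * c 3 - (|c 0| + |c 1| + |c 2|)) :=
        mul_le_mul_of_nonneg_left key (by linarith)
      rw [ph_inv] at k3
      linarith
    · refine ⟨c0, c0_mem, ?_⟩
      simp only [B, up_0, up_1, up_2, up_3, c0]
      simp
      exact ph_inv
  have e := L_pr hS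
  rw [pr_up] at e
  refine ⟨e, ?_⟩
  show B (L p) c0 = -1
  rw [e]
  simp only [B, up_0, up_1, up_2, up_3, c0]
  simp
  exact ph_inv

theorem Tile_c0 : Tile c0 = cube := by
  apply Set.Subset.antisymm
  · intro p hp i
    have p1 := ph_gt
    have hh : (L p) 3 = ph := by
      have : B (L p) c0 = -1 := hp
      simp only [B, c0] at this
      simp at this
      have h2 : ph * ((ph - 1) * (L p) 3) = ph * 1 := by rw [show (ph - 1) * (L p) 3 = 1 by linarith]
      have e : ph * ((ph - 1) * (L p) 3) = (L p) 3 := by linear_combination ((L p) 3) * ph_inv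
      linarith
    have key : ∀ σ : ℝ, (σ = 1 ∨ σ = -1) → σ * p i ≤ ph - 1 := by
      intro σ hσ
      have h := (L_IsS p).1 _ (nb_mem i σ hσ)
      have e : L p = up p ph := by
        conv_lhs => rw [← up_pr (L p), pr_L, hh]
      rw [e] at h
      simp only [B, up_0, up_1, up_2, up_3] at h
      fin_cases i
      · simp at h
        show σ * p 0 ≤ _
        linarith [ph_inv, ph_mul, mul_comm (p 0) σ, show (ph - 1) * (ph * ph) = ph by linear_combination ph * ph_inv]
      · simp at h
        show σ * p 1 ≤ _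
        linarith [ph_inv, ph_mul, mul_comm (p 1) σ, show (ph - 1) * (ph * ph) = ph by linear_combination ph * ph_inv]
      · simp at h
        show σ * p 2 ≤ _
        linarith [ph_inv, ph_mul, mul_comm (p 2) σ, show (ph - 1) * (ph * ph) = ph by linear_combination ph * ph_inv]
    rw [abs_le]
    have k1 := key 1 (Or.inl rfl)
    have k2 := key (-1) (Or.inr rfl)
    constructor <;> linarith
  · intro p hp
    exact (cube_lift hp).2

theorem L_cube {p : E 3} (hp : p ∈ cube) : L p = up p ph := (cube_lift hp).1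

theorem hat_cube (g : W ≃ₗ[ℝ] W) {p : E 3} (hp : p ∈ cube) : hat g p = pr (g (up p ph)) := by
  unfold hat; rw [L_cube hp]

theorem cube_convex : Convex ℝ cube := by rw [← Tile_c0]; exact Tile_convex c0_mem

/-! ### The faces of the cube -/

/-- the face of the cube with sign vector `σ` -/
def cf (σ : Fin 3 → SignType) : Set (E 3) := {p | p ∈ cube ∧ ∀ i, σ i ≠ 0 → p i = (σ i : ℝ) * (ph - 1)}

/-- the centre of the face -/
noncomputable def ctr (σ : Fin 3 → SignType) : E 3 := WithLp.toLp 2 (fun i => (σ i : ℝ) * (ph - 1))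

@[simp] theorem ctr_apply (σ : Fin 3 → SignType) (i : Fin 3) : ctr σ i = (σ i : ℝ) * (ph - 1) := rfl

theorem sign_abs_le (s : SignType) : |(s : ℝ)| ≤ 1 := by
  cases s <;> simp

theorem ctr_mem_cube (σ : Fin 3 → SignType) : ctr σ ∈ cube := by
  intro i
  rw [ctr_apply, abs_mul, abs_of_pos (show (0:ℝ) < ph - 1 by linarith [ph_gt])]
  have := sign_abs_le (σ i)
  have := ph_gt
  nlinarith

theorem ctr_mem (σ : Fin 3 → SignType) : ctr σ ∈ cf σ := ⟨ctr_mem_cube σ, fun _ _ => rfl⟩

theorem cf_subset_iff (σ τ : Fin 3 → SignType) : cf σ ⊆ cf τ ↔ ∀ i, τ i ≠ 0 → σ i = τ i := by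
  have p1 := ph_gt
  constructor
  · intro h i hi
    have := (h (ctr_mem σ)).2 i hi
    rw [ctr_apply] at this
    have h2 : (σ i : ℝ) = (τ i : ℝ) := mul_right_cancel₀ (by linarith : ph - 1 ≠ 0) this
    revert h2 hi
    cases σ i <;> cases τ i <;> simp <;> norm_num
  · rintro h p ⟨hp, hp2⟩
    refine ⟨hp, fun i hi => ?_⟩
    rw [← h i hi]
    exact hp2 i (by rw [h i hi]; exact hi)

theorem cf_face (σ : Fin 3 → SignType) : IsFaceOf cube (cf σ) := by
  have p1 := ph_gt
  constructor
  · rintro p ⟨hp, hp'⟩ q ⟨hq, hq'⟩ a b ha hb hab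
    refine ⟨cube_convex hp hq ha hb hab, fun i hi => ?_⟩
    show a * p i + b * q i = _
    rw [hp' i hi, hq' i hi]
    linear_combination ((σ i : ℝ) * (ph - 1)) * hab
  · refine ⟨fun p hp => hp.1, ?_⟩
    rintro p hp q hq z ⟨_, hz⟩ ⟨a, b, ha, hb, hab, rfl⟩
    refine ⟨hp, fun i hi => ?_⟩
    have h1 : a * p i + b * q i = (σ i : ℝ) * (ph - 1) := hz i hi
    have h2 := abs_le.1 (hp i)
    have h3 := abs_le.1 (hq i)
    revert h1 hi
    cases σ i with
    | zero => intro hi; exact absurd rfl hi
    | neg => intro _ h1; simp at h1 ⊢; nlinarith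
    | pos => intro _ h1; simp at h1 ⊢; nlinarith

theorem cf_classify {F : Set (E 3)} (hF : IsFaceOf cube F) : F = ∅ ∨ ∃ σ, F = cf σ := by
  classical
  rcases Set.eq_empty_or_nonempty F with h | ⟨x0, hx0⟩
  · left; exact h
  right
  have p1 := ph_gt
  let σ : Fin 3 → SignType := fun i =>
    if ∀ p ∈ F, p i = ph - 1 then 1 else if ∀ p ∈ F, p i = -(ph - 1) then -1 else 0
  refine ⟨σ, ?_⟩
  -- a point in the relative interior
  have hpt : ∀ i, ∃ z ∈ F, σ i = 0 → |z i| < ph - 1 := by
    intro i
    by_cases h1 : ∀ p ∈ F, p i = ph - 1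
    · refine ⟨x0, hx0, fun h => ?_⟩
      simp only [σ] at h
      rw [if_pos h1] at h
      exact absurd h (by decide)
    · by_cases h2 : ∀ p ∈ F, p i = -(ph - 1)
      · refine ⟨x0, hx0, fun h => ?_⟩
        simp only [σ] at h
        rw [if_neg h1, if_pos h2] at h
        exact absurd h (by decide)
      · push Not at h1 h2
        obtain ⟨p, hp, hp'⟩ := h1
        obtain ⟨q, hq, hq'⟩ := h2
        refine ⟨(1/2 : ℝ) • p + (1/2 : ℝ) • q, hF.1 hp hq (by norm_num) (by norm_num) (by norm_num), fun _ => ?_⟩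
        have a1 := abs_le.1 (hF.subset hp i)
        have a2 := abs_le.1 (hF.subset hq i)
        show |1/2 * p i + 1/2 * q i| < ph - 1
        have b1 : p i < ph - 1 := lt_of_le_of_ne a1.2 hp'
        have b2 : -(ph - 1) < q i := lt_of_le_of_ne a2.1 (Ne.symm hq')
        rw [abs_lt]; constructor <;> linarith
  choose z hz hz' using hpt
  have hsig : ∀ i, σ i ≠ 0 → ∀ p ∈ F, p i = (σ i : ℝ) * (ph - 1) := by
    intro i hi p hp
    simp only [σ] at hi ⊢
    split_ifs at hi ⊢ with h1 h2
    · rw [h1 p hp]; simp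
    · rw [h2 p hp]; simp
    · exact absurd rfl hi
  have hFc : F ⊆ cf σ := fun p hp => ⟨hF.subset hp, fun i hi => hsig i hi p hp⟩
  let w : E 3 := (1/3 : ℝ) • z 0 + (2/3 : ℝ) • ((1/2 : ℝ) • z 1 + (1/2 : ℝ) • z 2)
  have hw : w ∈ F := hF.1 (hz 0) (hF.1 (hz 1) (hz 2) (by norm_num) (by norm_num) (by norm_num))
    (by norm_num) (by norm_num) (by norm_num)
  have hwi : ∀ i, σ i = 0 → |w i| < ph - 1 := by
    intro i hi
    have e : w i = 1/3 * z 0 i + 2/3 * (1/2 * z 1 i + 1/2 * z 2 i) := rfl
    have k : |z i i| < ph - 1 := hz' i hi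
    have k0 := abs_le.1 (hF.subset (hz 0) i)
    have k1 := abs_le.1 (hF.subset (hz 1) i)
    have k2 := abs_le.1 (hF.subset (hz 2) i)
    rw [e, abs_lt]
    rw [abs_lt] at k
    fin_cases i
    · simp only [Fin.zero_eta] at *; constructor <;> linarith
    · simp only [Fin.mk_one] at *; constructor <;> linarith
    · simp only [Fin.reduceFinMk] at *; constructor <;> linarith
  apply Set.Subset.antisymm hFc
  intro y hy
  have hev : ∀ i, ∀ᶠ ε in nhdsWithin (0 : ℝ) (Set.Ioi 0), |w i + ε * (w i - y i)| ≤ ph - 1 := by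
    intro i
    by_cases hi : σ i = 0
    · have hcont : Continuous fun ε : ℝ => |w i + ε * (w i - y i)| := by fun_prop
      have h0 : (fun ε : ℝ => |w i + ε * (w i - y i)|) 0 < ph - 1 := by simpa using hwi i hi
      have := hcont.continuousAt.eventually (Iio_mem_nhds h0)
      apply (this.filter_mono nhdsWithin_le_nhds).mono
      intro ε hε
      exact le_of_lt hε
    · have e : w i = y i := by rw [hsig i hi w hw, hy.2 i hi]
      apply Filter.Eventually.of_forall
      intro ε
      rw [e]; simpa using hy.1 i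
  obtain ⟨ε, ⟨hε0, hε1, hε2⟩, hpos⟩ := (((hev 0).and ((hev 1).and (hev 2))).and self_mem_nhdsWithin).exists
  have hpos' : 0 < ε := hpos
  have hy' : w + ε • (w - y) ∈ cube := by
    intro i
    show |w i + ε * (w i - y i)| ≤ ph - 1
    fin_cases i
    · exact hε0
    · exact hε1
    · exact hε2
  refine hF.2.left_mem_of_mem_openSegment hy.1 hy' hw
    ⟨ε / (1 + ε), 1 / (1 + ε), by positivity, by positivity, by field_simp; ring, ?_⟩
  have h1 : (1 + ε) ≠ 0 := by positivity
  have : (ε / (1 + ε)) • y + (1 / (1 + ε)) • (w + ε • (w - y))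
      = ((1 / (1 + ε)) * (1 + ε)) • w := by
    rw [div_eq_mul_one_div ε]; module
  rw [this, one_div, inv_mul_cancel₀ h1, one_smul]

theorem cube_polytope : ∃ s : Set (E 3), s.Finite ∧ cube = convexHull ℝ s := by
  have p1 := ph_gt
  have hcomp : IsCompact cube := by
    have hb : Bornology.IsBounded cube := by
      have : cube ⊆ Metric.closedBall 0 3 := by
        intro p hp
        rw [mem_closedBall_zero_iff, EuclideanSpace.norm_eq]
        apply Real.sqrt_le_iff.2 ⟨by norm_num, ?_⟩
        have p2 := ph_lt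
        have h : ∀ i, ‖p i‖ ^ 2 ≤ 1 := by
          intro i
          have := hp i
          rw [Real.norm_eq_abs]
          have := abs_nonneg (p i)
          nlinarith
        rw [Fin.sum_univ_three]
        have := h 0
        have := h 1
        have := h 2
        linarith
      exact Metric.isBounded_closedBall.subset this
    have hcl : IsClosed cube := by
      have : cube = ⋂ i : Fin 3, {p : E 3 | |p i| ≤ ph - 1} := by
        ext p; simp [cube]
      rw [this]
      apply isClosed_iInter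
      intro i
      exact isClosed_le (by fun_prop) continuous_const
    exact Metric.isCompact_of_isClosed_isBounded hcl hb
  have hfin : (cube.extremePoints ℝ).Finite := by
    have hfaces : {F : Set (E 3) | IsFaceOf cube F}.Finite := by
      apply ((Set.finite_singleton (∅ : Set (E 3))).union (Set.finite_range cf)).subset
      intro F hF
      rcases cf_classify hF with h | ⟨σ, h⟩
      · left; exact h
      · right; exact ⟨σ, h.symm⟩
    apply Set.Finite.of_injOn (f := fun v : E 3 => ({v} : Set (E 3))) _ _ hfaces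
    · intro v hv
      exact ⟨convex_singleton v, isExtreme_singleton.2 hv⟩
    · intro v _ w _ h
      exact Set.singleton_injective h
  refine ⟨cube.extremePoints ℝ, hfin, ?_⟩
  have e := closure_convexHull_extremePoints hcomp cube_convex
  rw [(hfin.isClosed_convexHull (𝕜 := ℝ)).closure_eq] at e
  exact e.symm

theorem Tile_polytope {c : W} (hc : c ∈ C) : ∃ s : Set (E 3), s.Finite ∧ Tile c = convexHull ℝ s := by
  obtain ⟨g, hg, rfl⟩ := hc
  obtain ⟨s, hs, e⟩ := cube_polytope
  refine ⟨hat g '' s, hs.image _, ?_⟩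
  rw [← hat_Tile hg, Tile_c0, e]
  apply AffOn.image_convexHull
  rw [← e, ← Tile_c0]
  exact hat_affOn c0_mem g

theorem Tile_interior {c : W} (hc : c ∈ C) : (interior (Tile c)).Nonempty := by
  obtain ⟨g, hg, rfl⟩ := hc
  have p1 := ph_gt
  let f : E 3 →ₗ[ℝ] E 3 :=
    { toFun := fun p => pr (g (up p 0))
      map_add' := by
        intro p q
        have : up (p + q) 0 = (1:ℝ) • up p 0 + (1:ℝ) • up q 0 := by
          ext i; fin_cases i <;> simp
        rw [this, map_add, map_smul, map_smul, pr_comb, one_smul, one_smul]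
      map_smul' := by
        intro a p
        have : up (a • p) 0 = a • up p 0 + (0:ℝ) • up p 0 := by
          ext i; fin_cases i <;> simp
        rw [this, map_add, map_smul, map_smul, pr_comb, zero_smul, add_zero]; rfl }
  have hf : ∀ p ∈ cube, hat g p = f p + pr (g (up 0 ph)) := by
    intro p hp
    rw [hat_cube g hp]
    have : up p ph = (1:ℝ) • up p 0 + (1:ℝ) • up 0 ph := by
      ext i; fin_cases i <;> simp
    rw [this, map_add, map_smul, map_smul, pr_comb, one_smul, one_smul]; rfl
  have h0 : (0 : E 3) ∈ cube := by intro i; simp; linarith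
  -- a neighbourhood of 0 lies in the cube
  have hnhds : cube ∈ nhds (0 : E 3) := by
    have : (⋂ i : Fin 3, {p : E 3 | |p i| < ph - 1}) ⊆ cube := by
      intro p hp i
      exact le_of_lt (Set.mem_iInter.1 hp i)
    apply Filter.mem_of_superset _ this
    rw [Filter.iInter_mem]
    intro i
    apply (isOpen_lt (by fun_prop) continuous_const).mem_nhds
    show |(0 : E 3) i| < ph - 1
    simp; linarith
  have hinj : Function.Injective f := by
    rw [injective_iff_map_eq_zero]
    intro p hp
    have hcont : Continuous fun ε : ℝ => ε • p := by fun_prop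
    have hc0 : (fun ε : ℝ => ε • p) 0 = 0 := by simp
    have hev : ∀ᶠ ε in nhds (0 : ℝ), ε • p ∈ cube := by
      apply hcont.continuousAt.eventually
      rw [hc0]; exact hnhds
    have hev2 : ∀ᶠ ε in nhdsWithin (0 : ℝ) (Set.Ioi 0), ε • p ∈ cube := hev.filter_mono nhdsWithin_le_nhds
    obtain ⟨ε, hε, hpos⟩ := (hev2.and self_mem_nhdsWithin).exists
    have hpos' : 0 < ε := hpos
    have e1 := hf _ hε
    have e2 := hf _ h0
    rw [map_smul, hp, smul_zero] at e1
    rw [map_zero] at e2
    have e3 : ε • p = 0 := (hatE g hg).injective (by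
      show hat g (ε • p) = hat g 0
      rw [e1, e2])
    exact (smul_eq_zero.1 e3).resolve_left hpos'.ne'
  have hsurj : Function.Surjective f := LinearMap.injective_iff_surjective.1 hinj
  have hopen : IsOpenMap f := f.isOpenMap_of_finiteDimensional hsurj
  have hopen2 : IsOpen ((fun x => x + pr (g (up 0 ph))) '' (f '' interior cube)) :=
    (Homeomorph.addRight (pr (g (up 0 ph)))).isOpenMap _ (hopen _ isOpen_interior)
  have hsub : (fun x => x + pr (g (up 0 ph))) '' (f '' interior cube) ⊆ Tile (g c0) := by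
    rintro _ ⟨_, ⟨p, hp, rfl⟩, rfl⟩
    rw [← hat_Tile hg, Tile_c0]
    exact ⟨p, interior_subset hp, hf p (interior_subset hp)⟩
  exact ⟨_, interior_maximal hsub hopen2 ⟨_, ⟨0, mem_interior_iff_mem_nhds.2 hnhds, rfl⟩, rfl⟩⟩

/-- the tiling -/
def TT : Set (Set (E 3)) := Tile '' C

theorem TT_LFC : IsLFC TT where
  polytope := by
    rintro _ ⟨c, hc, rfl⟩
    exact Tile_polytope hc
  full := by
    rintro _ ⟨c, hc, rfl⟩
    exact Tile_interior hc
  cover := by
    intro x
    obtain ⟨c, hc, hx⟩ := Tile_cover x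
    exact ⟨_, ⟨c, hc, rfl⟩, hx⟩
  disj := by
    rintro _ ⟨c, hc, rfl⟩ _ ⟨c', hc', rfl⟩ hne
    rw [Set.disjoint_left]
    intro z hz hz'
    apply hne
    have h1 := Tile_inter hc hc'
    have h2 := Tile_inter hc' hc
    rw [Set.inter_comm] at h2
    have e1 := h1.eq_of_interior ⟨interior_subset hz, interior_subset hz'⟩ hz
    have e2 := h2.eq_of_interior ⟨interior_subset hz, interior_subset hz'⟩ hz'
    rw [← e1, e2]
  faceToFace := by
    rintro _ ⟨c, hc, rfl⟩ _ ⟨c', hc', rfl⟩
    refine ⟨Tile_inter hc hc', ?_⟩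
    rw [Set.inter_comm]
    exact Tile_inter hc' hc
  locFin := by
    intro K hK
    apply ((Tile_locFin hK).image (fun c : C => Tile c)).subset
    rintro _ ⟨⟨c, hc, rfl⟩, hne⟩
    exact ⟨⟨c, hc⟩, hne, rfl⟩

end Pool.R179.H435
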