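import Pool.Agent.R179.H435C

/-!
# Combinatorial regularity of the tiling
-/

namespace Pool.R179.H435
open Pool.R179.LFC

theorem TT_convex : ∀ T ∈ TT, Convex ℝ T := fun _ hT => TT_LFC.convex hT

/-- automorphism induced by a group element -/
noncomputable def autG (g : W ≃ₗ[ℝ] W) (hg : g ∈ G) : FL TT ≃o FL TT :=
  autF TT_convex (hatE g hg)
    (by
      rintro _ ⟨c, hc, rfl⟩
      exact ⟨⟨g c, C_G hg hc, (hat_Tile hg c).symm⟩, hat_affOn hc g⟩)
    (by
      rintro _ ⟨c, hc, rfl⟩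
      exact ⟨⟨g⁻¹ c, C_G (inv_mem hg) hc, (hat_Tile (inv_mem hg) c).symm⟩, hat_affOn hc g⁻¹⟩)

theorem autG_val (g : W ≃ₗ[ℝ] W) (hg : g ∈ G) (F : FL TT) : (autG g hg F).1 = hat g '' F.1 := rfl

theorem Tc0_mem : Tile c0 ∈ TT := ⟨c0, c0_mem, rfl⟩
theorem cube_mem : cube ∈ TT := by rw [← Tile_c0]; exact Tc0_mem

/-- elements of the face lattice: faces of the cube, the empty face -/
def cfF (σ : Fin 3 → SignType) : FL TT := ⟨cf σ, Or.inr ⟨cube, cube_mem, cf_face σ⟩⟩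
def botF : FL TT := ⟨∅, Or.inr ⟨cube, cube_mem, isFaceOf_empty _⟩⟩

abbrev Sg := Fin 3 → SignType

/-- the order on sign vectors -/
def sle (σ τ : Sg) : Prop := ∀ i, τ i ≠ 0 → σ i = τ i

instance : DecidableRel sle := fun σ τ => inferInstanceAs (Decidable (∀ i, τ i ≠ 0 → σ i = τ i))

theorem cfF_le (σ τ : Sg) : cfF σ ≤ cfF τ ↔ sle σ τ := cf_subset_iff σ τ

theorem sle_antisymm : ∀ σ τ : Sg, sle σ τ → sle τ σ → σ = τ := by decide

theorem cfF_inj {σ τ : Sg} (h : cfF σ = cfF τ) : σ = τ :=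
  sle_antisymm σ τ ((cfF_le _ _).1 h.le) ((cfF_le _ _).1 h.ge)

theorem cf_nonempty (σ : Sg) : (cf σ).Nonempty := ⟨_, ctr_mem σ⟩

theorem cube_ne_univ : cube ≠ Set.univ := TT_LFC.ne_univ cube_mem

theorem cfF_ne_top (σ : Sg) : cfF σ ≠ topF TT := by
  intro h
  apply cube_ne_univ
  have h1 : cf σ = Set.univ := congrArg Subtype.val h
  exact Set.univ_subset_iff.1 (h1 ▸ (cf_face σ).subset)

theorem cfF_ne_bot (σ : Sg) : cfF σ ≠ botF := by
  intro h
  have h1 : cf σ = ∅ := congrArg Subtype.val h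
  exact (cf_nonempty σ).ne_empty h1

theorem cf_zero : cf (0 : Sg) = cube := by
  ext p; simp [cf]

theorem le_cube {F : FL TT} (h : F.1 ⊆ cube) : F = botF ∨ ∃ σ, F = cfF σ := by
  rcases cf_classify (TT_LFC.face_of_subset cube_mem F h) with h1 | ⟨σ, h1⟩
  · left; exact Subtype.ext h1
  · right; exact ⟨σ, Subtype.ext h1⟩

theorem botF_le (F : FL TT) : botF ≤ F := Set.empty_subset _
theorem le_topF (F : FL TT) : F ≤ topF TT := Set.subset_univ _

/-- signed permutations act on the faces of the cube -/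
theorem hat_cf {g : W ≃ₗ[ℝ] W} (π : Equiv.Perm (Fin 3)) (ε : Sg)
    (hε : ∀ i, ε i ≠ 0) (h : ∀ p ∈ cube, ∀ i, hat g p i = (ε i : ℝ) * p (π i)) (σ : Sg) :
    hat g '' cf σ = cf (fun i => ε i * σ (π i)) := by
  have eps : ∀ i, (ε i : ℝ) = 1 ∨ (ε i : ℝ) = -1 := by
    intro i
    have := hε i
    revert this
    cases ε i <;> simp
  have eps2 : ∀ i, (ε i : ℝ) * (ε i : ℝ) = 1 := by
    intro i
    rcases eps i with h | h <;> rw [h] <;> norm_num
  ext q
  constructor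
  · rintro ⟨p, ⟨hp, hp2⟩, rfl⟩
    refine ⟨fun i => ?_, fun i hi => ?_⟩
    · rw [h p hp i, abs_mul]
      have : |(ε i : ℝ)| = 1 := by rcases eps i with h | h <;> rw [h] <;> simp
      rw [this, one_mul]; exact hp _
    · rw [h p hp i, hp2 (π i) (fun h0 => hi (by simp [h0])), SignType.coe_mul]
      ring
  · rintro ⟨hq, hq2⟩
    let p : E 3 := WithLp.toLp 2 (fun j => (ε (π.symm j) : ℝ) * q (π.symm j))
    have hpj : ∀ j, p j = (ε (π.symm j) : ℝ) * q (π.symm j) := fun j => rfl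
    have hp : p ∈ cube := by
      intro j
      rw [hpj, abs_mul]
      have : |(ε (π.symm j) : ℝ)| = 1 := by rcases eps (π.symm j) with h | h <;> rw [h] <;> simp
      rw [this, one_mul]; exact hq _
    refine ⟨p, ⟨hp, fun j hj => ?_⟩, ?_⟩
    · rw [hpj]
      have h1 := hq2 (π.symm j) (by
        simp only [Equiv.apply_symm_apply]
        exact mul_ne_zero (hε _) hj)
      simp only [Equiv.apply_symm_apply, SignType.coe_mul] at h1
      rw [h1]
      linear_combination ((σ j : ℝ) * (ph - 1)) * eps2 (π.symm j)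
    · ext i
      rw [h p hp i, hpj, Equiv.symm_apply_apply]
      linear_combination (q i) * eps2 i

theorem signs_exist (ε : Sg) (hε : ∀ i, ε i ≠ 0) :
    ∃ g ∈ G, ∀ p ∈ cube, ∀ i, hat g p i = (ε i : ℝ) * p i := by
  have h0 : ∃ g ∈ G, ∀ X : W, g X = ![(ε 0 : ℝ) * X 0, X 1, X 2, X 3] := by
    have := hε 0
    revert this
    cases ε 0 with
    | zero => intro h; exact absurd rfl h
    | neg => intro _; exact ⟨s0, s0_mem, fun X => by rw [s0_apply]; ext i; fin_cases i <;> simp⟩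
    | pos => intro _; exact ⟨1, one_mem _, fun X => by ext i; fin_cases i <;> simp⟩
  have h1 : ∃ g ∈ G, ∀ X : W, g X = ![X 0, (ε 1 : ℝ) * X 1, X 2, X 3] := by
    have := hε 1
    revert this
    cases ε 1 with
    | zero => intro h; exact absurd rfl h
    | neg => intro _; exact ⟨s1, s1_mem, fun X => by rw [s1_apply]; ext i; fin_cases i <;> simp⟩
    | pos => intro _; exact ⟨1, one_mem _, fun X => by ext i; fin_cases i <;> simp⟩
  have h2 : ∃ g ∈ G, ∀ X : W, g X = ![X 0, X 1, (ε 2 : ℝ) * X 2, X 3] := by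
    have := hε 2
    revert this
    cases ε 2 with
    | zero => intro h; exact absurd rfl h
    | neg => intro _; exact ⟨s2, s2_mem, fun X => by rw [s2_apply]; ext i; fin_cases i <;> simp⟩
    | pos => intro _; exact ⟨1, one_mem _, fun X => by ext i; fin_cases i <;> simp⟩
  obtain ⟨g0, hg0, e0⟩ := h0
  obtain ⟨g1, hg1, e1⟩ := h1
  obtain ⟨g2, hg2, e2⟩ := h2
  refine ⟨g0 * (g1 * g2), mul_mem hg0 (mul_mem hg1 hg2), fun p hp i => ?_⟩
  rw [hat_cube _ hp, LinearEquiv.mul_apply, LinearEquiv.mul_apply, e0, e1, e2]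
  fin_cases i <;> simp

theorem perm_exist (π : Equiv.Perm (Fin 3)) :
    ∃ g ∈ G, ∀ p ∈ cube, ∀ i, hat g p i = p (π i) := by
  have key : ∀ g ∈ G, (∀ X : W, g X = ![X (π 0).castSucc, X (π 1).castSucc, X (π 2).castSucc, X 3]) →
      ∃ g ∈ G, ∀ p ∈ cube, ∀ i, hat g p i = p (π i) := by
    intro g hg h
    refine ⟨g, hg, fun p hp i => ?_⟩
    rw [hat_cube _ hp, h]
    have hu : ∀ j : Fin 3, up p ph j.castSucc = p j := by intro j; fin_cases j <;> rfl
    fin_cases i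
    · show up p ph (π 0).castSucc = p (π 0); exact hu _
    · show up p ph (π 1).castSucc = p (π 1); exact hu _
    · show up p ph (π 2).castSucc = p (π 2); exact hu _
  have cases6 : (π 0 = 0 ∧ π 1 = 1 ∧ π 2 = 2) ∨ (π 0 = 1 ∧ π 1 = 0 ∧ π 2 = 2) ∨
      (π 0 = 0 ∧ π 1 = 2 ∧ π 2 = 1) ∨ (π 0 = 2 ∧ π 1 = 1 ∧ π 2 = 0) ∨
      (π 0 = 1 ∧ π 1 = 2 ∧ π 2 = 0) ∨ (π 0 = 2 ∧ π 1 = 0 ∧ π 2 = 1) := by
    clear key; revert π; decide
  rcases cases6 with ⟨a, b, c⟩ | ⟨a, b, c⟩ | ⟨a, b, c⟩ | ⟨a, b, c⟩ | ⟨a, b, c⟩ | ⟨a, b, c⟩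
  · exact key 1 (one_mem _) (fun X => by rw [a, b, c]; ext i; fin_cases i <;> rfl)
  · exact key w01 w01_mem (fun X => by rw [a, b, c, w01_apply]; rfl)
  · exact key w12 w12_mem (fun X => by rw [a, b, c, w12_apply]; rfl)
  · exact key w02 w02_mem (fun X => by rw [a, b, c, w02_apply]; rfl)
  · exact key (w12 * w01) (mul_mem w12_mem w01_mem)
      (fun X => by rw [a, b, c, LinearEquiv.mul_apply, w12_apply, w01_apply]; rfl)
  · exact key (w12 * w02) (mul_mem w12_mem w02_mem)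
      (fun X => by rw [a, b, c, LinearEquiv.mul_apply, w12_apply, w02_apply]; rfl)

/-- the four standard nonempty faces -/
def stdv : Set Sg := {![1, 1, 1], ![0, 1, 1], ![0, 0, 1], ![0, 0, 0]}

theorem vec_cases : ∀ σ : Sg, (∀ i, σ i ≠ -1) → σ = ![1, 1, 1] ∨ σ = ![0, 0, 0] ∨
    (∃ i, σ = fun k => if k = i then 1 else 0) ∨ (∃ j, σ = fun k => if k = j then 0 else 1) := by
  decide

theorem u_not_le : ∀ i i' : Fin 3, sle (fun k => if k = i then 1 else 0) (fun k => if k = i' then 1 else 0) → i = i' := by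
  decide
theorem z_not_le : ∀ i i' : Fin 3, sle (fun k => if k = i then 0 else 1) (fun k => if k = i' then 0 else 1) → i = i' := by
  decide
theorem uz_not_le : ∀ i j : Fin 3, (sle (fun k => if k = i then 1 else 0) (fun k => if k = j then 0 else 1) ∨
    sle (fun k => if k = j then 0 else 1) (fun k => if k = i then 1 else 0)) → i ≠ j := by
  decide
theorem perm_pick : ∀ i j : Fin 3, i ≠ j → ∃ π : Equiv.Perm (Fin 3), π 0 = j ∧ π 2 = i := by
  decide

theorem exists_ij (S : Set Sg) (hch : ∀ σ ∈ S, ∀ τ ∈ S, sle σ τ ∨ sle τ σ) :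
    ∃ i j : Fin 3, i ≠ j ∧ (∀ i', (fun k => if k = i' then 1 else 0 : Sg) ∈ S → i' = i) ∧
      (∀ j', (fun k => if k = j' then 0 else 1 : Sg) ∈ S → j' = j) := by
  by_cases hu : ∃ i, (fun k => if k = i then 1 else 0 : Sg) ∈ S
  · obtain ⟨i, hi⟩ := hu
    have hui : ∀ i', (fun k => if k = i' then 1 else 0 : Sg) ∈ S → i' = i := by
      intro i' hi'
      rcases hch _ hi' _ hi with h | h
      · exact u_not_le _ _ h
      · exact (u_not_le _ _ h).symm
    by_cases hz : ∃ j, (fun k => if k = j then 0 else 1 : Sg) ∈ S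
    · obtain ⟨j, hj⟩ := hz
      refine ⟨i, j, uz_not_le i j (hch _ hi _ hj), hui, ?_⟩
      intro j' hj'
      rcases hch _ hj' _ hj with h | h
      · exact z_not_le _ _ h
      · exact (z_not_le _ _ h).symm
    · obtain ⟨j, hj⟩ := exists_ne i
      refine ⟨i, j, hj.symm, hui, fun j' hj' => (hz ⟨j', hj'⟩).elim⟩
  · by_cases hz : ∃ j, (fun k => if k = j then 0 else 1 : Sg) ∈ S
    · obtain ⟨j, hj⟩ := hz
      obtain ⟨i, hi⟩ := exists_ne j
      refine ⟨i, j, hi, fun i' hi' => (hu ⟨i', hi'⟩).elim, ?_⟩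
      intro j' hj'
      rcases hch _ hj' _ hj with h | h
      · exact z_not_le _ _ h
      · exact (z_not_le _ _ h).symm
    · exact ⟨0, 1, by decide, fun i' hi' => (hu ⟨i', hi'⟩).elim, fun j' hj' => (hz ⟨j', hj'⟩).elim⟩

theorem std_of_nonneg (S : Set Sg) (hch : ∀ σ ∈ S, ∀ τ ∈ S, sle σ τ ∨ sle τ σ)
    (hpos : ∀ σ ∈ S, ∀ i, σ i ≠ -1) :
    ∃ g ∈ G, ∀ σ ∈ S, ∃ τ ∈ stdv, hat g '' cf σ = cf τ := by
  obtain ⟨i, j, hij, hi, hj⟩ := exists_ij S hch
  obtain ⟨π, hπ0, hπ2⟩ := perm_pick i j hij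
  obtain ⟨g, hg, h⟩ := perm_exist π
  refine ⟨g, hg, fun σ hσ => ?_⟩
  have e := hat_cf (g := g) π ![1, 1, 1] (by decide)
    (by intro p hp i; rw [h p hp i]; fin_cases i <;> simp) σ
  refine ⟨_, ?_, e⟩
  have e2 : (fun i => (![1, 1, 1] : Sg) i * σ (π i)) = fun i => σ (π i) := by
    funext k; fin_cases k <;> simp
  rw [e2]
  rcases vec_cases σ (hpos σ hσ) with rfl | rfl | ⟨i', rfl⟩ | ⟨j', rfl⟩
  · left; funext k
    have : ∀ m : Fin 3, (![1, 1, 1] : Sg) m = 1 := by decide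
    rw [this, this]
  · right; right; right
    show _ = _
    funext k
    have : ∀ m : Fin 3, (![0, 0, 0] : Sg) m = 0 := by decide
    rw [this, this]
  · have := hi i' hσ
    subst this
    right; right; left
    funext k
    have h3 : π k = i' ↔ k = 2 := by rw [← hπ2]; exact π.injective.eq_iff
    simp only [h3]
    fin_cases k <;> rfl
  · have := hj j' hσ
    subst this
    right; left
    funext k
    have h3 : π k = j' ↔ k = 0 := by rw [← hπ0]; exact π.injective.eq_iff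
    simp only [h3]
    fin_cases k <;> rfl

theorem std_of_chain (S : Set Sg) (hch : ∀ σ ∈ S, ∀ τ ∈ S, sle σ τ ∨ sle τ σ) :
    ∃ g ∈ G, ∀ σ ∈ S, ∃ τ ∈ stdv, hat g '' cf σ = cf τ := by
  classical
  let ε : Sg := fun i => if ∃ σ ∈ S, σ i = -1 then -1 else 1
  have hε : ∀ i, ε i ≠ 0 := by
    intro i; simp only [ε]; split_ifs <;> decide
  obtain ⟨g1, hg1, h1⟩ := signs_exist ε hε
  have hcf := hat_cf (g := g1) 1 ε hε h1
  let a : Sg → Sg := fun σ i => ε i * σ i
  have hcf' : ∀ σ, hat g1 '' cf σ = cf (a σ) := hcf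
  have hinj : Function.Injective (hat g1) := (hatE g1 hg1).injective
  obtain ⟨g2, hg2, h2⟩ := std_of_nonneg (a '' S) (by
      rintro _ ⟨σ, hσ, rfl⟩ _ ⟨τ, hτ, rfl⟩
      rw [show sle (a σ) (a τ) ↔ cf (a σ) ⊆ cf (a τ) from (cf_subset_iff _ _).symm,
        show sle (a τ) (a σ) ↔ cf (a τ) ⊆ cf (a σ) from (cf_subset_iff _ _).symm,
        ← hcf', ← hcf', Set.image_subset_image_iff hinj, Set.image_subset_image_iff hinj,
        cf_subset_iff, cf_subset_iff]
      exact hch σ hσ τ hτ) (by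
      rintro _ ⟨σ, hσ, rfl⟩ i hi
      simp only [a, ε] at hi
      split_ifs at hi with h
      · obtain ⟨τ, hτ, hτi⟩ := h
        have hσi : σ i = 1 := by
          revert hi; generalize σ i = s; revert s; decide
        rcases hch σ hσ τ hτ with h3 | h3
        · have := h3 i (by rw [hτi]; decide)
          rw [hσi, hτi] at this
          exact absurd this (by decide)
        · have := h3 i (by rw [hσi]; decide)
          rw [hσi, hτi] at this
          exact absurd this (by decide)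
      · exact h ⟨σ, hσ, by simpa using hi⟩)
  refine ⟨g2 * g1, mul_mem hg2 hg1, fun σ hσ => ?_⟩
  obtain ⟨τ, hτ, e⟩ := h2 (a σ) ⟨σ, hσ, rfl⟩
  refine ⟨τ, hτ, ?_⟩
  rw [← e, ← hcf', Set.image_image]
  apply Set.image_congr
  intro p _
  exact hat_mul hg1 p

/-- the standard flag, enumerated -/
noncomputable def fl : Fin 6 → FL TT :=
  ![botF, cfF ![1, 1, 1], cfF ![0, 1, 1], cfF ![0, 0, 1], cfF ![0, 0, 0], topF TT]

theorem fl_strictMono : StrictMono fl := by
  have lt_of : ∀ σ τ : Sg, sle σ τ → σ ≠ τ → cfF σ < cfF τ := fun σ τ h hne =>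
    lt_of_le_of_ne ((cfF_le _ _).2 h) (fun h2 => hne (cfF_inj h2))
  rw [Fin.strictMono_iff_lt_succ]
  intro i
  fin_cases i
  · exact lt_of_le_of_ne (botF_le _) (cfF_ne_bot _).symm
  · exact lt_of _ _ (by decide) (by decide)
  · exact lt_of _ _ (by decide) (by decide)
  · exact lt_of _ _ (by decide) (by decide)
  · exact lt_of_le_of_ne (le_topF _) (cfF_ne_top _)

theorem fl_chain : IsChain (· ≤ ·) (Set.range fl) := by
  rintro _ ⟨i, rfl⟩ _ ⟨j, rfl⟩ _
  rcases le_total i j with h | h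
  · left; exact fl_strictMono.monotone h
  · right; exact fl_strictMono.monotone h

theorem chain_std (s : Set (FL TT)) (hs : IsChain (· ≤ ·) s) :
    ∃ θ : FL TT ≃o FL TT, θ '' s ⊆ Set.range fl := by
  obtain ⟨_, ⟨c, ⟨g, hg, rfl⟩, rfl⟩, hT⟩ := TT_LFC.chain_tile s hs
  let θ1 := autG g⁻¹ (inv_mem hg)
  have h1 : ∀ F ∈ s, θ1 F = topF TT ∨ θ1 F = botF ∨ ∃ σ, θ1 F = cfF σ := by
    intro F hF
    rcases hT F hF with h | h
    · left
      apply Subtype.ext
      show hat g⁻¹ '' F.1 = Set.univ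
      rw [h]
      rw [Set.image_univ]
      exact (hatE g⁻¹ (inv_mem hg)).surjective.range_eq
    · right
      apply le_cube
      show hat g⁻¹ '' F.1 ⊆ cube
      have : hat g⁻¹ '' Tile (g c0) = cube := by
        rw [hat_Tile (inv_mem hg)]
        have : g⁻¹ (g c0) = c0 := g.symm_apply_apply c0
        rw [this, Tile_c0]
      rw [← this]
      exact Set.image_mono h
  let S : Set Sg := {σ | ∃ F ∈ s, θ1 F = cfF σ}
  obtain ⟨g2, hg2, h2⟩ := std_of_chain S (by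
    rintro σ ⟨F, hF, eF⟩ τ ⟨F', hF', eF'⟩
    rw [← cfF_le, ← cfF_le, ← eF, ← eF', θ1.le_iff_le, θ1.le_iff_le]
    exact hs.total hF hF')
  refine ⟨θ1.trans (autG g2 hg2), ?_⟩
  rintro _ ⟨F, hF, rfl⟩
  show autG g2 hg2 (θ1 F) ∈ _
  rcases h1 F hF with h | h | ⟨σ, h⟩
  · rw [h]
    refine ⟨5, ?_⟩
    apply Subtype.ext
    show Set.univ = hat g2 '' Set.univ
    rw [Set.image_univ]
    exact (hatE g2 hg2).surjective.range_eq.symm
  · rw [h]
    refine ⟨0, ?_⟩
    apply Subtype.ext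
    show ∅ = hat g2 '' ∅
    rw [Set.image_empty]
  · rw [h]
    obtain ⟨τ, hτ, e⟩ := h2 σ ⟨F, hF, h⟩
    have e' : autG g2 hg2 (cfF σ) = cfF τ := Subtype.ext e
    rw [e']
    rcases hτ with rfl | rfl | rfl | rfl
    · exact ⟨1, rfl⟩
    · exact ⟨2, rfl⟩
    · exact ⟨3, rfl⟩
    · exact ⟨4, rfl⟩

theorem flag_std (s : Flag (FL TT)) : ∃ θ : FL TT ≃o FL TT, θ '' (s : Set (FL TT)) = Set.range fl := by
  obtain ⟨θ, hθ⟩ := chain_std s s.chain_le
  refine ⟨θ, ?_⟩
  exact (Flag.map θ s).max_chain' fl_chain hθ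

theorem TT_combRegular : CombRegular TT := by
  intro s t
  obtain ⟨θ, hθ⟩ := flag_std s
  obtain ⟨η, hη⟩ := flag_std t
  refine ⟨θ.trans η.symm, ?_⟩
  apply Flag.ext
  rw [Flag.coe_map]
  have : (θ.trans η.symm) '' (s : Set (FL TT)) = η.symm '' (θ '' (s : Set (FL TT))) := by
    rw [Set.image_image]; rfl
  rw [this, hθ, ← hη]
  exact η.symm_image_image _

/-- the standard flag -/
theorem exists_fl : ∃ s : Flag (FL TT), (s : Set (FL TT)) = Set.range fl := by
  obtain ⟨s, hs⟩ := fl_chain.exists_subset_flag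
  obtain ⟨θ, hθ⟩ := flag_std s
  exact ⟨Flag.map θ s, hθ⟩

end Pool.R179.H435
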