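import Pool.Agent.R179.MobDefs

/-!
Abstract theory of full dimensional polyhedral cones generated by finitely many vectors
`u i` of a five dimensional space, in terms of zero sets of nonnegative functionals.
-/

set_option linter.unusedSectionVars false

namespace R179.Mob

open Finset Module

section
variable {ι : Type*} [Fintype ι] [DecidableEq ι]
variable {L : Type*} [AddCommGroup L] [Module ℝ L]

/-- `φ` is nonnegative on all `u i`, with zero set `S` -/
def Supp (u : ι → L) (S : Finset ι) (φ : Dual ℝ L) : Prop :=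
  (∀ i, 0 ≤ φ (u i)) ∧ ∀ i, φ (u i) = 0 ↔ i ∈ S

/-- faces of the cone -/
def Fc (u : ι → L) (S : Finset ι) : Prop := ∃ φ, Supp u S φ

lemma tilt {u : ι → L} {S : Finset ι} {φ g : Dual ℝ L} (hφ : Supp u S φ)
    (hg : ∀ i ∈ S, 0 ≤ g (u i)) (hk : ∃ k, g (u k) < 0) :
    ∃ t : ℝ, 0 < t ∧ (∀ i, 0 ≤ φ (u i) + t * g (u i)) ∧
      ∃ k, k ∉ S ∧ g (u k) < 0 ∧ φ (u k) + t * g (u k) = 0 := by
  classical
  obtain ⟨k0, hk0⟩ := hk
  have hne : (univ.filter (fun k => g (u k) < 0)).Nonempty := ⟨k0, by simp [hk0]⟩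
  obtain ⟨k, hkm, hmin⟩ := Finset.exists_min_image _ (fun k => φ (u k) / (-g (u k))) hne
  simp only [mem_filter, mem_univ, true_and] at hkm hmin
  have hkS : k ∉ S := fun h => absurd (hg k h) (not_le.2 hkm)
  have hφk : 0 < φ (u k) := lt_of_le_of_ne (hφ.1 k) (fun h => hkS ((hφ.2 k).1 h.symm))
  refine ⟨φ (u k) / (-g (u k)), div_pos hφk (by linarith), fun i => ?_, k, hkS, hkm, ?_⟩
  · by_cases hi : 0 ≤ g (u i)
    · have : 0 ≤ φ (u k) / (-g (u k)) := (div_pos hφk (by linarith)).le
      have h2 := hφ.1 i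
      positivity
    · push Not at hi
      have h1 := hmin i hi
      have h2 : φ (u k) / (-g (u k)) * (-g (u i)) ≤ φ (u i) := by
        rw [le_div_iff₀ (by linarith)] at h1
        exact h1
      linarith
  · have : g (u k) ≠ 0 := hkm.ne
    field_simp
    ring

lemma ext_of_span {u : ι → L} (hsp : Submodule.span ℝ (Set.range u) = ⊤) {g : Dual ℝ L}
    (h : ∀ i, g (u i) = 0) : g = 0 := by
  apply LinearMap.ext_on_range (v := u) hsp
  intro i
  simp [h i]

lemma supp_pos {u : ι → L} {S : Finset ι} {φ : Dual ℝ L} (hφ : Supp u S φ) (hS : S ≠ univ) :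
    0 < φ (∑ i, u i) := by
  rw [map_sum]
  obtain ⟨i, hi⟩ : ∃ i, i ∉ S := by
    by_contra h
    push Not at h
    exact hS (Finset.eq_univ_iff_forall.2 h)
  apply Finset.sum_pos' (fun j _ => hφ.1 j) ⟨i, mem_univ _, ?_⟩
  exact lt_of_le_of_ne (hφ.1 i) (fun h => hi ((hφ.2 i).1 h.symm))

lemma exists_neg {u : ι → L} (hsp : Submodule.span ℝ (Set.range u) = ⊤) {g : Dual ℝ L}
    (hg : g ≠ 0) (h0 : g (∑ i, u i) = 0) : ∃ k, g (u k) < 0 := by
  by_contra h
  push Not at h
  apply hg
  apply ext_of_span hsp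
  rw [map_sum] at h0
  intro i
  exact (Finset.sum_eq_zero_iff_of_nonneg (fun j _ => h j)).1 h0 i (mem_univ _)

/-- a functional vanishing on a facet is a multiple of the supporting functional -/
lemma facet_unique {u : ι → L} (hsp : Submodule.span ℝ (Set.range u) = ⊤) {S : Finset ι}
    (hS : IsFacet (Fc u) S) {φ g : Dual ℝ L} (hφ : Supp u S φ) (hg : ∀ i ∈ S, g (u i) = 0) :
    ∃ c : ℝ, g = c • φ := by
  classical
  have hpos := supp_pos hφ hS.2.1
  refine ⟨g (∑ i, u i) / φ (∑ i, u i), ?_⟩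
  set c := g (∑ i, u i) / φ (∑ i, u i) with hc
  by_contra hne
  have hg' : g - c • φ ≠ 0 := sub_ne_zero.2 hne
  have h0 : (g - c • φ) (∑ i, u i) = 0 := by
    simp only [LinearMap.sub_apply, LinearMap.smul_apply, smul_eq_mul, hc]
    field_simp
    ring
  have hgS : ∀ i ∈ S, (g - c • φ) (u i) = 0 := by
    intro i hi
    simp [hg i hi, (hφ.2 i).2 hi]
  obtain ⟨t, ht, hnn, k, hkS, hgk, hk0⟩ := tilt hφ (fun i hi => (hgS i hi).ge)
    (exists_neg hsp hg' h0)
  have hF : Fc u (univ.filter (fun i => (φ + t • (g - c • φ)) (u i) = 0)) := by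
    refine ⟨φ + t • (g - c • φ), fun i => ?_, fun i => by simp⟩
    have := hnn i
    simpa [LinearMap.add_apply] using this
  have hsub : S ⊆ univ.filter (fun i => (φ + t • (g - c • φ)) (u i) = 0) := by
    intro i hi
    simp only [mem_filter, mem_univ, true_and, LinearMap.add_apply, LinearMap.smul_apply,
      smul_eq_mul]
    rw [(hφ.2 i).2 hi, hgS i hi]; simp
  rcases hS.2.2 _ hF hsub with h | h
  · apply hkS
    rw [← h]
    simp only [mem_filter, mem_univ, true_and, LinearMap.add_apply, LinearMap.smul_apply,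
      smul_eq_mul]
    exact hk0
  · have hz : φ + t • (g - c • φ) = 0 := by
      apply ext_of_span hsp
      intro i
      have : i ∈ univ.filter (fun i => (φ + t • (g - c • φ)) (u i) = 0) := by rw [h]; simp
      exact (mem_filter.1 this).2
    have h1 : (φ + t • (g - c • φ)) (∑ i, u i) = 0 := by rw [hz]; simp
    rw [LinearMap.add_apply, LinearMap.smul_apply, h0] at h1
    simp at h1
    simp at hpos
    linarith

lemma exists_dual_of_li {κ : Type*} {w : κ → L} (h : LinearIndependent ℝ w) (f : κ → ℝ) :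
    ∃ g : Dual ℝ L, ∀ i, g (w i) = f i := by
  obtain ⟨g, hg⟩ := ((Basis.span h).constr ℝ f).exists_extend
  refine ⟨g, fun i => ?_⟩
  have h1 := congrArg (fun m => m ((Basis.span h) i)) hg
  simp only [LinearMap.comp_apply, Submodule.subtype_apply, Basis.constr_basis] at h1
  rw [Basis.span_apply] at h1
  exact h1

variable [FiniteDimensional ℝ L]

lemma facet_li {u : ι → L} (hsp : Submodule.span ℝ (Set.range u) = ⊤) (hd : finrank ℝ L = 5)
    {S : Finset ι} (hS : IsFacet (Fc u) S) (h4 : S.card = 4) :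
    LinearIndependent ℝ (fun i : S => u i) := by
  obtain ⟨φ, hφ⟩ := hS.1
  rw [linearIndependent_iff_card_eq_finrank_span]
  set W := Submodule.span ℝ (Set.range (fun i : S => u i)) with hW
  have h1 : W.dualAnnihilator = Submodule.span ℝ {φ} := by
    ext g
    rw [Submodule.mem_dualAnnihilator, Submodule.mem_span_singleton]
    constructor
    · intro h
      obtain ⟨c, hc⟩ := facet_unique hsp hS hφ (g := g)
        (fun i hi => h _ (Submodule.subset_span ⟨⟨i, hi⟩, rfl⟩))
      exact ⟨c, hc.symm⟩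
    · rintro ⟨c, rfl⟩ w hw
      have : W ≤ LinearMap.ker (c • φ) := by
        rw [hW, Submodule.span_le]
        rintro _ ⟨i, rfl⟩
        simp [(hφ.2 i).2 i.2]
      exact this hw
  have hφ0 : φ ≠ 0 := by
    intro h
    have := supp_pos hφ hS.2.1
    rw [h] at this
    simp at this
  have h2 := Subspace.finrank_add_finrank_dualAnnihilator_eq W
  rw [h1, finrank_span_singleton hφ0, hd] at h2
  have h3 : Fintype.card S = 4 := by simpa using h4
  rw [h3]
  show 4 = finrank ℝ W
  omega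

/-- dual functionals adapted to a facet -/
lemma exists_adapted {u : ι → L} (hsp : Submodule.span ℝ (Set.range u) = ⊤)
    (hd : finrank ℝ L = 5) {S : Finset ι} (hS : IsFacet (Fc u) S) (h4 : S.card = 4)
    (f : ι → ℝ) : ∃ g : Dual ℝ L, (∀ i ∈ S, g (u i) = f i) ∧ g (∑ i, u i) = 0 := by
  obtain ⟨φ, hφ⟩ := hS.1
  obtain ⟨g, hg⟩ := exists_dual_of_li (facet_li hsp hd hS h4) (fun i => f i)
  have hpos := supp_pos hφ hS.2.1
  refine ⟨g - (g (∑ i, u i) / φ (∑ i, u i)) • φ, fun i hi => ?_, ?_⟩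
  · have := hg ⟨i, hi⟩
    simp only [LinearMap.sub_apply, LinearMap.smul_apply, (hφ.2 i).2 hi]
    simpa using this
  · simp only [LinearMap.sub_apply, LinearMap.smul_apply, smul_eq_mul]
    field_simp
    ring

/-- a functional which vanishes on all but one vertex of a facet -/
lemma ridge_span {u : ι → L} (hsp : Submodule.span ℝ (Set.range u) = ⊤)
    {S : Finset ι} (hS : IsFacet (Fc u) S) {φ g χ : Dual ℝ L} (hφ : Supp u S φ) {j : ι}
    (hj : j ∈ S) (hg : ∀ i ∈ S, g (u i) = if i = j then 1 else 0)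
    (hχ : ∀ i ∈ S.erase j, χ (u i) = 0) : ∃ a : ℝ, χ = a • φ + (χ (u j)) • g := by
  obtain ⟨c, hc⟩ := facet_unique hsp hS hφ (g := χ - (χ (u j)) • g) (by
    intro i hi
    by_cases hij : i = j
    · subst hij
      simp [hg i hi]
    · simp [hg i hi, hij, hχ i (mem_erase.2 ⟨hij, hi⟩)])
  exact ⟨c, by rw [← hc]; simp⟩

/-- the neighbour of a facet across a ridge -/
lemma neighbour {u : ι → L} (hsp : Submodule.span ℝ (Set.range u) = ⊤)
    (hd : finrank ℝ L = 5) (h4 : ∀ S, IsFacet (Fc u) S → S.card = 4) {S : Finset ι}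
    (hS : IsFacet (Fc u) S) {φ : Dual ℝ L} (hφ : Supp u S φ) {j : ι} (hj : j ∈ S) :
    ∃ (g : Dual ℝ L) (t : ℝ) (k : ι), (∀ i ∈ S, g (u i) = if i = j then 1 else 0) ∧
      g (∑ i, u i) = 0 ∧ 0 < t ∧ k ∉ S ∧ IsFacet (Fc u) (insert k (S.erase j)) ∧
      Supp u (insert k (S.erase j)) (φ + t • g) ∧
      ∀ T, IsFacet (Fc u) T → S.erase j ⊆ T → T = S ∨ T = insert k (S.erase j) := by
  classical
  obtain ⟨g, hg, hg0⟩ := exists_adapted hsp hd hS (h4 S hS) (fun i => if i = j then 1 else 0)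
  have hgne : g ≠ 0 := by
    intro h
    have := hg j hj
    rw [h] at this
    simp at this
  obtain ⟨t, ht, hnn, k, hkS, hgk, hk0⟩ := tilt hφ (g := g)
    (fun i hi => by rw [hg i hi]; split_ifs <;> norm_num) (exists_neg hsp hgne hg0)
  set ψ := φ + t • g with hψ
  have hψv : ∀ i, ψ (u i) = φ (u i) + t * g (u i) := by
    intro i; simp [hψ]
  set S' := univ.filter (fun i => ψ (u i) = 0) with hS'
  have hsupp' : Supp u S' ψ := ⟨fun i => by rw [hψv]; exact hnn i, fun i => by simp [hS']⟩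
  have hjS' : j ∉ S' := by
    simp only [hS', mem_filter, mem_univ, true_and, hψv, (hφ.2 j).2 hj, hg j hj]
    simp [ht.ne']
  have hkS' : k ∈ S' := by
    simp only [hS', mem_filter, mem_univ, true_and, hψv]; exact hk0
  have hsub : S.erase j ⊆ S' := by
    intro i hi
    have hi' := mem_erase.1 hi
    simp only [hS', mem_filter, mem_univ, true_and, hψv, (hφ.2 i).2 hi'.2, hg i hi'.2]
    simp [hi'.1]
  have hfacet : IsFacet (Fc u) S' := by
    refine ⟨⟨ψ, hsupp'⟩, fun h => hjS' (by rw [h]; simp), ?_⟩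
    rintro T ⟨χ, hχ⟩ hST
    by_cases hT : T = univ
    · exact Or.inr hT
    left
    obtain ⟨a, ha⟩ := ridge_span hsp hS hφ hj hg (χ := χ)
      (fun i hi => (hχ.2 i).2 (hST (hsub hi)))
    have h1 : χ (u k) = 0 := (hχ.2 k).2 (hST hkS')
    have h2 : χ (u k) = a * φ (u k) + χ (u j) * g (u k) := by
      conv_lhs => rw [ha]
      simp
    have h3 : φ (u k) = - t * g (u k) := by linarith
    rw [h1, h3] at h2
    have h4' : χ (u j) = a * t := by
      have : g (u k) * (χ (u j) - a * t) = 0 := by linarith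
      rcases mul_eq_zero.1 this with h | h
      · exact absurd h hgk.ne
      · linarith
    have hχψ : χ = a • ψ := by
      rw [ha, h4', hψ, smul_add, smul_smul]
    have ha0 : a ≠ 0 := by
      intro h
      apply hT
      rw [Finset.eq_univ_iff_forall]
      intro i
      rw [← hχ.2 i, hχψ, h]; simp
    ext i
    rw [← hχ.2 i, hχψ, ← hsupp'.2 i]
    simp [ha0]
  have hcardS := h4 S hS
  have hcardS' := h4 S' hfacet
  have hkj : k ∉ S.erase j := fun h => hkS (mem_erase.1 h).2
  have hSeq : S' = insert k (S.erase j) := by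
    symm
    apply Finset.eq_of_subset_of_card_le
    · intro i hi
      rcases mem_insert.1 hi with rfl | h
      · exact hkS'
      · exact hsub h
    · rw [card_insert_of_notMem hkj, card_erase_of_mem hj]
      omega
  rw [hSeq] at hfacet hsupp'
  refine ⟨g, t, k, hg, hg0, ht, hkS, hfacet, hsupp', ?_⟩
  intro T hT hsubT
  by_cases hTS : T = S
  · exact Or.inl hTS
  right
  obtain ⟨χ, hχ⟩ := hT.1
  obtain ⟨a, ha⟩ := ridge_span hsp hS hφ hj hg (χ := χ) (fun i hi => (hχ.2 i).2 (hsubT hi))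
  have hjT : j ∉ T := by
    intro h
    apply hTS
    rcases hS.2.2 T hT.1 (by
      intro i hi
      by_cases hij : i = j
      · rw [hij]; exact h
      · exact hsubT (mem_erase.2 ⟨hij, hi⟩)) with h' | h'
    · exact h'
    · exact absurd h' hT.2.1
  have hβ : 0 < χ (u j) := lt_of_le_of_ne (hχ.1 j) (fun h => hjT ((hχ.2 j).1 h.symm))
  have hval : ∀ i, χ (u i) = a * φ (u i) + χ (u j) * g (u i) := by
    intro i
    conv_lhs => rw [ha]
    simp
  -- a vertex of T outside S
  obtain ⟨m, hmT, hmS⟩ : ∃ m ∈ T, m ∉ S := by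
    by_contra h
    push Not at h
    have h1 : T ⊆ S.erase j := fun i hi => mem_erase.2 ⟨fun h' => hjT (h' ▸ hi), h i hi⟩
    have h2 := Finset.card_le_card h1
    rw [card_erase_of_mem hj, h4 T hT, hcardS] at h2
    omega
  have hφm : 0 < φ (u m) := lt_of_le_of_ne (hφ.1 m) (fun h => hmS ((hφ.2 m).1 h.symm))
  have hm0 : χ (u m) = 0 := (hχ.2 m).2 hmT
  rw [hval m] at hm0
  have hk1 := hχ.1 k
  rw [hval k] at hk1
  have h3 : φ (u k) = - t * g (u k) := by linarith
  rw [h3] at hk1
  have e1 : χ (u j) ≤ a * t := by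
    by_contra h
    push Not at h
    have : g (u k) * (χ (u j) - a * t) < 0 := mul_neg_of_neg_of_pos hgk (by linarith)
    linarith
  have e2 : a * t ≤ χ (u j) := by
    have h5 := hnn m
    by_contra h
    push Not at h
    -- χ(u j) * g(u m) = - a φ(u m)
    have h6 : 0 ≤ χ (u j) * (φ (u m) + t * g (u m)) := mul_nonneg hβ.le h5
    have h7 : χ (u j) * (φ (u m) + t * g (u m)) = φ (u m) * (χ (u j) - a * t) := by
      have : χ (u j) * g (u m) = - a * φ (u m) := by linarith
      calc χ (u j) * (φ (u m) + t * g (u m)) = χ (u j) * φ (u m) + t * (χ (u j) * g (u m)) := by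
            ring
        _ = _ := by rw [this]; ring
    have h8 : φ (u m) * (χ (u j) - a * t) < 0 := mul_neg_of_pos_of_neg hφm (by linarith)
    linarith
  have e3 : χ (u j) = a * t := le_antisymm e1 e2
  have ha0 : a ≠ 0 := by
    intro h
    rw [h] at e3
    simp at e3
    exact hβ.ne' e3
  have hχψ : χ = a • ψ := by
    rw [ha, e3, hψ, smul_add, smul_smul]
  ext i
  rw [← hχ.2 i, hχψ, ← hsupp'.2 i]
  simp [ha0]

/-- subsets of facets are faces -/
lemma face_of_subset {u : ι → L} (hsp : Submodule.span ℝ (Set.range u) = ⊤)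
    (hd : finrank ℝ L = 5) {S : Finset ι} (hS : IsFacet (Fc u) S) (h4 : S.card = 4)
    {R : Finset ι} (hR : R ⊆ S) : Fc u R := by
  classical
  obtain ⟨φ, hφ⟩ := hS.1
  obtain ⟨g, hg, -⟩ := exists_adapted hsp hd hS h4 (fun i => if i ∈ R then 0 else 1)
  have hev : ∀ i, i ∉ S → ∀ᶠ t : ℝ in nhdsWithin 0 (Set.Ioi 0), 0 < φ (u i) + t * g (u i) := by
    intro i hi
    have hφi : 0 < φ (u i) := lt_of_le_of_ne (hφ.1 i) (fun h => hi ((hφ.2 i).1 h.symm))
    have hc : Filter.Tendsto (fun t : ℝ => φ (u i) + t * g (u i)) (nhdsWithin 0 (Set.Ioi 0))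
        (nhds (φ (u i) + 0 * g (u i))) := by
      apply Filter.Tendsto.mono_left _ nhdsWithin_le_nhds
      exact (Continuous.tendsto (by fun_prop) 0)
    apply hc.eventually
    apply lt_mem_nhds
    simpa using hφi
  have hall : ∀ᶠ t : ℝ in nhdsWithin 0 (Set.Ioi 0), ∀ i, i ∉ S → 0 < φ (u i) + t * g (u i) := by
    rw [Filter.eventually_all]
    intro i
    by_cases hi : i ∈ S
    · exact Filter.Eventually.of_forall (fun t h => absurd hi h)
    · filter_upwards [hev i hi] with t ht _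
      exact ht
  obtain ⟨t, ht, htpos⟩ := (hall.and self_mem_nhdsWithin).exists
  have htpos' : (0 : ℝ) < t := htpos
  refine ⟨φ + t • g, fun i => ?_, fun i => ?_⟩
  · by_cases hi : i ∈ S
    · simp only [LinearMap.add_apply, LinearMap.smul_apply, (hφ.2 i).2 hi, hg i hi, smul_eq_mul]
      split_ifs <;> simp [htpos'.le]
    · have := ht i hi
      simp only [LinearMap.add_apply, LinearMap.smul_apply, smul_eq_mul]
      exact this.le
  · by_cases hi : i ∈ S
    · simp only [LinearMap.add_apply, LinearMap.smul_apply, (hφ.2 i).2 hi, hg i hi, smul_eq_mul]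
      split_ifs with h
      · simp [h]
      · simp [h, htpos'.ne']
    · have := ht i hi
      simp only [LinearMap.add_apply, LinearMap.smul_apply, smul_eq_mul]
      constructor
      · intro h; exact absurd h this.ne'
      · intro h; exact absurd (hR h) hi

/-- the dual graph is connected -/
lemma facet_induction {u : ι → L} (hsp : Submodule.span ℝ (Set.range u) = ⊤)
    (hd : finrank ℝ L = 5) (h4 : ∀ S, IsFacet (Fc u) S → S.card = 4)
    {P : Finset ι → Prop} {S0 : Finset ι} (hS0 : IsFacet (Fc u) S0) (hP0 : P S0)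
    (hstep : ∀ S j k, IsFacet (Fc u) S → P S → j ∈ S → k ∉ S →
      IsFacet (Fc u) (insert k (S.erase j)) → P (insert k (S.erase j)))
    {G : Finset ι} (hG : IsFacet (Fc u) G) : P G := by
  classical
  obtain ⟨γ, hγ⟩ := hG.1
  have hγo := supp_pos hγ hG.2.1
  -- normalised functionals
  have hnorm : ∀ S, ∃ φ : Dual ℝ L, IsFacet (Fc u) S → Supp u S φ ∧ φ (∑ i, u i) = 1 := by
    intro S
    by_cases hS : IsFacet (Fc u) S
    · obtain ⟨φ, hφ⟩ := hS.1
      have hpos := supp_pos hφ hS.2.1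
      refine ⟨(φ (∑ i, u i))⁻¹ • φ, fun _ => ⟨⟨fun i => ?_, fun i => ?_⟩, ?_⟩⟩
      · simp only [LinearMap.smul_apply, smul_eq_mul]
        exact mul_nonneg (inv_nonneg.2 hpos.le) (hφ.1 i)
      · simp only [LinearMap.smul_apply, smul_eq_mul]
        rw [mul_eq_zero, inv_eq_zero, hφ.2 i]
        constructor
        · rintro (h | h)
          · exact absurd h hpos.ne'
          · exact h
        · intro h; exact Or.inr h
      · simp only [LinearMap.smul_apply, smul_eq_mul]
        exact inv_mul_cancel₀ hpos.ne'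
    · exact ⟨0, fun h => absurd h hS⟩
  choose Φ hΦ using hnorm
  set q := ∑ i ∈ G, u i with hq
  have hγq : γ q = 0 := by
    rw [hq, map_sum]
    exact Finset.sum_eq_zero (fun i hi => (hγ.2 i).2 hi)
  obtain ⟨S, hSm, hmin⟩ := Finset.exists_min_image
    (univ.filter (fun S : Finset ι => IsFacet (Fc u) S ∧ P S)) (fun S => Φ S q)
    ⟨S0, by simp [hS0, hP0]⟩
  simp only [mem_filter, mem_univ, true_and] at hSm hmin
  obtain ⟨hS, hPS⟩ := hSm
  obtain ⟨hφ, hφ1⟩ := hΦ S hS
  set φ := Φ S with hφdef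
  by_cases hGS : G ⊆ S
  · rcases hG.2.2 S hS.1 hGS with h | h
    · rw [← h]; exact hPS
    · exact absurd h hS.2.1
  exfalso
  -- φ q > 0
  have hφq : 0 < φ q := by
    rw [hq, map_sum]
    obtain ⟨i, hiG, hiS⟩ := Finset.not_subset.1 hGS
    apply Finset.sum_pos' (fun j _ => hφ.1 j) ⟨i, hiG, ?_⟩
    exact lt_of_le_of_ne (hφ.1 i) (fun h => hiS ((hφ.2 i).1 h.symm))
  -- coordinates with respect to the facet
  have hcoord : ∀ j ∈ S, ∃ g : Dual ℝ L, (∀ i ∈ S, g (u i) = if i = j then 1 else 0) ∧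
      g (∑ i, u i) = 0 ∧ 0 ≤ g q := by
    intro j hj
    obtain ⟨g, t, k, hg, hg0, ht, hkS, hfacet, hsupp', -⟩ := neighbour hsp hd h4 hS hφ hj
    refine ⟨g, hg, hg0, ?_⟩
    have hP' := hstep S j k hS hPS hj hkS hfacet
    have h1 := hmin _ ⟨hfacet, hP'⟩
    have h2 : Φ (insert k (S.erase j)) = φ + t • g := by
      obtain ⟨hs, h1'⟩ := hΦ _ hfacet
      obtain ⟨c, hc⟩ := facet_unique hsp hfacet hs (g := φ + t • g)
        (fun i hi => (hsupp'.2 i).2 hi)
      have h3 : (φ + t • g) (∑ i, u i) = 1 := by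
        rw [LinearMap.add_apply, LinearMap.smul_apply, hg0, hφ1]; simp
      rw [hc, LinearMap.smul_apply, h1'] at h3
      simp at h3
      rw [hc, h3, one_smul]
    rw [h2] at h1
    simp only [LinearMap.add_apply, LinearMap.smul_apply, smul_eq_mul] at h1
    have h5 : 0 ≤ t * g q := by linarith
    by_contra h
    push Not at h
    have : t * g q < 0 := mul_neg_of_pos_of_neg ht h
    linarith
  choose! g hg hg0 hgq using hcoord
  -- γ is a combination of φ and the g j
  have hγ' : γ = (γ (∑ i, u i)) • φ + ∑ j ∈ S, (γ (u j)) • g j := by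
    have hd0 : ∀ i ∈ S, (γ - ∑ j ∈ S, (γ (u j)) • g j) (u i) = 0 := by
      intro i hi
      simp only [LinearMap.sub_apply, LinearMap.sum_apply, LinearMap.smul_apply, smul_eq_mul]
      rw [Finset.sum_eq_single i]
      · rw [hg i hi i hi]; simp
      · intro b hb hbi
        rw [hg b hb i hi]
        simp [Ne.symm hbi]
      · intro h; exact absurd hi h
    obtain ⟨c, hc⟩ := facet_unique hsp hS hφ hd0
    have h1 : (γ - ∑ j ∈ S, (γ (u j)) • g j) (∑ i, u i) = γ (∑ i, u i) := by
      simp only [LinearMap.sub_apply, LinearMap.sum_apply, LinearMap.smul_apply, smul_eq_mul]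
      have h0 : ∑ j ∈ S, γ (u j) * g j (∑ i, u i) = 0 :=
        Finset.sum_eq_zero (fun j hj => by rw [hg0 j hj]; simp)
      rw [h0, sub_zero]
    rw [hc, LinearMap.smul_apply, hφ1] at h1
    simp only [smul_eq_mul, mul_one] at h1
    rw [← h1, ← hc]
    simp
  have h1 : γ q = γ (∑ i, u i) * φ q + ∑ j ∈ S, γ (u j) * g j q := by
    conv_lhs => rw [hγ']
    simp only [LinearMap.add_apply, LinearMap.sum_apply, LinearMap.smul_apply, smul_eq_mul]
  have h2 : 0 ≤ ∑ j ∈ S, γ (u j) * g j q :=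
    Finset.sum_nonneg (fun j hj => mul_nonneg (hγ.1 j) (hgq j hj))
  have h3 : 0 < γ (∑ i, u i) * φ q := mul_pos hγo hφq
  rw [hγq] at h1
  linarith

end

/-- each proper member of a family lies in a maximal proper one -/
lemma exists_facet {ι : Type*} [Fintype ι] [DecidableEq ι] (F : Finset ι → Prop)
    {R : Finset ι} (hR : F R) (hRu : R ≠ univ) : ∃ S, IsFacet F S ∧ R ⊆ S := by
  classical
  obtain ⟨S, hSm, hmax⟩ := Finset.exists_max_image
    (univ.filter (fun S : Finset ι => F S ∧ S ≠ univ ∧ R ⊆ S)) (fun S => S.card)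
    ⟨R, by simp [hR, hRu]⟩
  simp only [mem_filter, mem_univ, true_and] at hSm hmax
  refine ⟨S, ⟨hSm.1, hSm.2.1, fun T hT hST => ?_⟩, hSm.2.2⟩
  by_cases hTu : T = univ
  · exact Or.inr hTu
  left
  have h1 := hmax T ⟨hT, hTu, hSm.2.2.trans hST⟩
  exact (Finset.eq_of_subset_of_card_le hST h1).symm

end R179.Mob
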