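import Mathlib

/-!
An inequality for convex equilateral pentagons.
-/

namespace R179.Mob

lemma point_caseA {M v τ W : ℝ} (hτ : τ ^ 2 + τ = 1) (hτ0 : 0 < τ) (f1 : v ^ 2 ≤ M)
    (hW : W = τ - v) (hW0 : W ≤ 0) :
    W ^ 2 ≤ (M / 2 + v - 1/2 - τ/2) ^ 2 := by
  have h1 : M / 2 + v - 1/2 - τ/2 = (1 + τ) * (-W) + 1/2 * W ^ 2 + 1/2 * (M - v ^ 2) := by
    rw [hW]
    linear_combination (1/2) * hτ
  have h2 : -W ≤ M / 2 + v - 1/2 - τ/2 := by
    rw [h1]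
    nlinarith [mul_nonneg hτ0.le (neg_nonneg.2 hW0), sq_nonneg W]
  nlinarith

lemma point_caseB1 {M v τ W D : ℝ} (hτ1 : 618/1000 < τ) (hτ2 : τ < 6184/10000)
    (hτ : τ ^ 2 + τ = 1)
    (f2 : M * D = (M - v ^ 2) * (4 - M))
    (hW : W = τ - v) (hW0 : 0 < W) (hμ : τ ^ 2 < M) (hv : M / 2 ≤ v) :
    (M - τ ^ 2) * W ≤ 2/25 * (W ^ 2 + D) := by
  obtain ⟨μ, hμd⟩ : ∃ μ, μ = M - τ ^ 2 := ⟨_, rfl⟩
  have hμ0 : 0 < μ := by linarith
  have hM : M = μ + (1 - τ) := by linarith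
  have hv' : v = τ - W := by linarith
  have hτsq : τ ^ 2 = 1 - τ := by linarith
  have hMpos : 0 < M := by nlinarith
  have hb : μ ≤ 427/500 - 2 * W + 1/100 := by
    have : M / 2 ≤ τ - W := by rw [← hv']; exact hv
    linarith
  have key : M * ((M - τ ^ 2) * W) ≤ M * (2/25 * (W ^ 2 + D)) := by
    have e1 : M * (2/25 * (W ^ 2 + D)) = 2/25 * (M * W ^ 2 + (M - v ^ 2) * (4 - M)) := by
      rw [← f2]; ring
    rw [e1, ← hμd]
    have e2 : M - v ^ 2 = μ + W * (2 * τ - W) := by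
      rw [hv', hM]
      linear_combination (-1) * hτsq
    rw [e2]
    have h3 : 8/10 * W ≤ W * (2 * τ - W) := by nlinarith
    have h4 : 0 < 4 - M := by nlinarith
    have h5 : (μ + 8/10 * W) * (4 - M) ≤ (μ + W * (2 * τ - W)) * (4 - M) :=
      mul_le_mul_of_nonneg_right (by linarith) h4.le
    have h6 : M * (μ * W) ≤ 2/25 * ((μ + 8/10 * W) * (4 - M)) := by
      have hM1 : M ≤ μ + 382/1000 := by linarith
      have h7 : M * (μ * W) ≤ (μ + 382/1000) * (μ * W) :=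
        mul_le_mul_of_nonneg_right hM1 (by positivity)
      have h8 : (μ + 8/10 * W) * (3618/1000 - μ) ≤ (μ + 8/10 * W) * (4 - M) :=
        mul_le_mul_of_nonneg_left (by linarith) (by positivity)
      have h9 : (μ + 382/1000) * (μ * W) ≤ 2/25 * ((μ + 8/10 * W) * (3618/1000 - μ)) := by
        nlinarith [mul_pos hμ0 hW0, mul_pos hμ0 hμ0,
          mul_nonneg hμ0.le (sub_nonneg.2 hb), mul_nonneg hW0.le (sub_nonneg.2 hb),
          mul_nonneg (mul_pos hμ0 hW0).le (sub_nonneg.2 hb),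
          mul_nonneg (mul_pos hμ0 hμ0).le (sub_nonneg.2 hb),
          sq_nonneg (μ - 1/2), sq_nonneg (W - 1/5)]
      linarith
    nlinarith [mul_nonneg hMpos.le (sq_nonneg W)]
  exact le_of_mul_le_mul_left key hMpos

lemma point_caseB2 {M v τ W D : ℝ} (hτ1 : 618/1000 < τ) (hτ2 : τ < 6184/10000)
    (hτ : τ ^ 2 + τ = 1)
    (hD0 : 0 ≤ D) (f2 : M * D = (M - v ^ 2) * (4 - M)) (hDv : D ≤ (7/4 + v) ^ 2)
    (hW : W = τ - v) (hμ : τ ^ 2 < M) (hv : v ≤ - M / 2) (hs : -1/2 ≤ v) :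
    (M - τ ^ 2) * W ≤ 2/25 * (W ^ 2 + D) := by
  obtain ⟨V, hV⟩ : ∃ V, V = - v := ⟨_, rfl⟩
  have hv' : v = - V := by linarith
  subst hv'
  have hτsq : τ ^ 2 = 1 - τ := by linarith
  have hM0 : 0 < M := lt_of_le_of_lt (sq_nonneg _) hμ
  have hVM : M / 2 ≤ V := by linarith
  have hV2 : V ≤ 1/2 := by linarith
  have hW0 : 0 < W := by rw [hW]; linarith
  have hf : 0 ≤ M ^ 2 - M * (15/16 + 7/2 * V) + 4 * V ^ 2 := by
    have : M * D ≤ M * (7/4 + -V) ^ 2 := mul_le_mul_of_nonneg_left hDv hM0.le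
    linarith
  have hkey : M ≤ 431/1000 + 8/100 * V := by
    by_contra h
    push Not at h
    obtain ⟨a, ha⟩ : ∃ a, a = 431/1000 + 8/100 * V := ⟨_, rfl⟩
    rw [← ha] at h
    have g1 : 0 ≤ (M - a) * (2 * V - M) := mul_nonneg (by linarith) (by linarith)
    have g2 : 0 ≤ (M - a) * (15/16 + 3/2 * V - a) := mul_nonneg (by linarith) (by linarith)
    have g3 : 0 ≤ a ^ 2 - a * (15/16 + 7/2 * V) + 4 * V ^ 2 := by linarith
    rw [ha] at g3
    have g4 : 0 ≤ V * (1/2 - V) := mul_nonneg (by linarith) (by linarith)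
    linarith
  have h1 : M - τ ^ 2 ≤ 2/25 * W := by
    rw [hτsq, hW]; linarith
  have h2 := mul_le_mul_of_nonneg_right h1 hW0.le
  linarith

/-- pointwise inequality for two consecutive angles and the opposite one -/
lemma point_ineq {x y p τ : ℝ} (hτ1 : 618/1000 < τ) (hτ2 : τ < 6184/10000) (hτ : τ ^ 2 + τ = 1)
    (hp : 0 ≤ p) (hp2 : p ^ 2 = (1 - x ^ 2) * (1 - y ^ 2)) (hx : -7/8 ≤ x) (hy : -7/8 ≤ y)
    (hx1 : x ≤ 1) (hy1 : y ≤ 1) (hs : -1/2 ≤ x + y) :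
    (x + y - τ) ^ 2 ≤ (x * y - p + x + y + 1/2 - τ/2) ^ 2
      + 4/25 * ((x - τ/2) ^ 2 + (y - τ/2) ^ 2) := by
  obtain ⟨M, hM⟩ : ∃ M, M = 2 + 2 * x * y - 2 * p := ⟨_, rfl⟩
  obtain ⟨v, hv⟩ : ∃ v, v = x + y := ⟨_, rfl⟩
  obtain ⟨D, hD⟩ : ∃ D, D = (x - y) ^ 2 := ⟨_, rfl⟩
  have hD0 : 0 ≤ D := by rw [hD]; positivity
  have hx2 : 0 ≤ 1 - x ^ 2 := by nlinarith
  have hy2 : 0 ≤ 1 - y ^ 2 := by nlinarith
  have f1 : v ^ 2 ≤ M := by
    have h3 : 2 * p ≤ (1 - x ^ 2) + (1 - y ^ 2) := by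
      rw [← pow_le_pow_iff_left₀ (by positivity) (by positivity) (two_ne_zero)]
      nlinarith [sq_nonneg ((1 - x ^ 2) - (1 - y ^ 2))]
    rw [hM, hv]
    nlinarith
  have f2 : M * D = (M - v ^ 2) * (4 - M) := by
    rw [hM, hD, hv]
    linear_combination (4) * hp2
  have f4 : v ^ 2 = (M / 2) * (M / 2 + 2 * p) := by
    rw [hM, hv]
    linear_combination (1) * hp2
  have hg : x * y - p + x + y + 1/2 - τ/2 = M / 2 + v - 1/2 - τ/2 := by
    rw [hM, hv]; ring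
  have hq : (x - τ/2) ^ 2 + (y - τ/2) ^ 2 = 1/2 * ((τ - v) ^ 2 + D) := by
    rw [hv, hD]; ring
  rw [hg, hq]
  obtain ⟨W, hW⟩ : ∃ W, W = τ - v := ⟨_, rfl⟩
  have hw : x + y - τ = - W := by rw [hW, hv]; ring
  rw [hw, neg_sq, ← hW]
  rcases le_or_gt W 0 with hW0 | hW0
  · have := point_caseA hτ (by linarith) f1 hW hW0
    have := sq_nonneg W
    linarith
  · have e1 : W + (M / 2 + v - 1/2 - τ/2) = (M - τ ^ 2) / 2 := by
      rw [hW]; linear_combination (1/2) * hτ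
    have e2 : W - (M / 2 + v - 1/2 - τ/2) = 2 * W - (M - τ ^ 2) / 2 := by
      rw [← e1]; ring
    have e3 : W ^ 2 - (M / 2 + v - 1/2 - τ/2) ^ 2
        = ((M - τ ^ 2) / 2) * (2 * W - (M - τ ^ 2) / 2) := by
      rw [← e2, ← e1]; ring
    rcases le_or_gt M (τ ^ 2) with hM2 | hM2
    · have : ((M - τ ^ 2) / 2) * (2 * W - (M - τ ^ 2) / 2) ≤ 0 :=
        mul_nonpos_of_nonpos_of_nonneg (by linarith) (by linarith)
      have := sq_nonneg W
      linarith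
    · have hM0 : 0 < M := lt_of_le_of_lt (sq_nonneg _) hM2
      have f4' : (M / 2) ^ 2 ≤ v ^ 2 := by
        rw [f4]
        have := mul_nonneg hM0.le hp
        linarith
      have hcase : (M - τ ^ 2) * W ≤ 2/25 * (W ^ 2 + D) := by
        rcases le_total 0 v with h | h
        · apply point_caseB1 hτ1 hτ2 hτ f2 hW hW0 hM2
          exact (pow_le_pow_iff_left₀ (by positivity) h two_ne_zero).1 f4'
        · apply point_caseB2 hτ1 hτ2 hτ hD0 f2 _ hW hM2 _ (by rw [hv]; exact hs)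
          · rw [hD, hv]
            nlinarith [mul_nonneg (by linarith : (0:ℝ) ≤ x + 7/8) (by linarith : (0:ℝ) ≤ y + 7/8)]
          · have := (pow_le_pow_iff_left₀ (a := M/2) (b := -v) (by positivity) (by linarith)
              two_ne_zero).1 (by rw [neg_sq]; exact f4')
            linarith
      have e4 : ((M - τ ^ 2) / 2) * (2 * W - (M - τ ^ 2) / 2)
          = (M - τ ^ 2) * W - (M - τ ^ 2) ^ 2 / 4 := by ring
      rw [e4] at e3
      have e5 := sq_nonneg (M - τ ^ 2)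
      linarith

end R179.Mob
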