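import Pool.Agent.R179.MobC

/-!
The inequality for convex equilateral pentagons, in coordinates.
-/

namespace R179.Mob

section
variable {a b κ : Fin 5 → ℝ}

/-- pentagon data: unit edge vectors `(a m, b m)` with zero sum, convexity with signs `κ` -/
structure Pent (a b κ : Fin 5 → ℝ) : Prop where
  unit : ∀ m, a m ^ 2 + b m ^ 2 = 1
  sa : ∑ m, a m = 0
  sb : ∑ m, b m = 0
  k1 : ∀ m, 0 < κ m * (a m * b (m+1) - b m * a (m+1))
  k2 : ∀ m, 0 < κ m * (a (m+4) * b m - b (m+4) * a m)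
  k3 : ∀ m, 0 < κ m * ((a m * b (m+1) - b m * a (m+1)) + (a m * b (m+2) - b m * a (m+2)))

def pC (a b : Fin 5 → ℝ) (m : Fin 5) : ℝ := a m * a (m+1) + b m * b (m+1)
def pE (a b : Fin 5 → ℝ) (m : Fin 5) : ℝ := a m * a (m+2) + b m * b (m+2)
def pw (a b : Fin 5 → ℝ) (m : Fin 5) : ℝ := a m * b (m+1) - b m * a (m+1)

lemma sum_rot (f : Fin 5 → ℝ) (m : Fin 5) :
    ∑ k, f k = f m + f (m+1) + f (m+2) + f (m+3) + f (m+4) := by
  rw [Fin.sum_univ_five]
  fin_cases m <;> simp only [] <;>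
  · simp only [Fin.isValue, Fin.reduceFinMk, Fin.reduceAdd]
    try ring_nf
    try rfl

lemma ix11 (m : Fin 5) : m + 1 + 1 = m + 2 := by revert m; decide
lemma ix12 (m : Fin 5) : m + 1 + 2 = m + 3 := by revert m; decide
lemma ix13 (m : Fin 5) : m + 1 + 3 = m + 4 := by revert m; decide
lemma ix14 (m : Fin 5) : m + 1 + 4 = m := by revert m; decide
lemma ix21 (m : Fin 5) : m + 2 + 1 = m + 3 := by revert m; decide
lemma ix22 (m : Fin 5) : m + 2 + 2 = m + 4 := by revert m; decide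
lemma ix23 (m : Fin 5) : m + 2 + 3 = m := by revert m; decide
lemma ix24 (m : Fin 5) : m + 2 + 4 = m + 1 := by revert m; decide
lemma ix31 (m : Fin 5) : m + 3 + 1 = m + 4 := by revert m; decide
lemma ix32 (m : Fin 5) : m + 3 + 2 = m := by revert m; decide
lemma ix33 (m : Fin 5) : m + 3 + 3 = m + 1 := by revert m; decide
lemma ix34 (m : Fin 5) : m + 3 + 4 = m + 2 := by revert m; decide
lemma ix41 (m : Fin 5) : m + 4 + 1 = m := by revert m; decide
lemma ix42 (m : Fin 5) : m + 4 + 2 = m + 1 := by revert m; decide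
lemma ix43 (m : Fin 5) : m + 4 + 3 = m + 2 := by revert m; decide
lemma ix44 (m : Fin 5) : m + 4 + 4 = m + 3 := by revert m; decide

lemma Pent.ww (h : Pent a b κ) (m : Fin 5) : 0 < pw a b m * pw a b (m+1) := by
  have h1 := h.k1 (m+1)
  have h2 := h.k2 (m+1)
  rw [ix11] at h1
  rw [ix14] at h2
  unfold pw
  rw [ix11]
  rcases lt_trichotomy (κ (m+1)) 0 with hk | hk | hk
  · have e1 := neg_of_mul_pos_right h1 hk.le
    have e2 := neg_of_mul_pos_right h2 hk.le
    exact mul_pos_of_neg_of_neg e2 e1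
  · rw [hk] at h1; simp at h1
  · have e1 := pos_of_mul_pos_right h1 hk.le
    have e2 := pos_of_mul_pos_right h2 hk.le
    exact mul_pos e2 e1

lemma Pent.ee (h : Pent a b κ) (m : Fin 5) :
    pE a b m = pC a b (m+3) - pC a b m - pC a b (m+1) - 1/2 := by
  have h1 := sum_rot a m
  have h2 := sum_rot b m
  rw [h.sa] at h1
  rw [h.sb] at h2
  unfold pE pC
  rw [ix11, ix31]
  have u0 := h.unit m
  have u1 := h.unit (m+1)
  have u2 := h.unit (m+2)
  have u3 := h.unit (m+3)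
  have u4 := h.unit (m+4)
  have e1 : (a m + a (m+1) + a (m+2)) ^ 2 = (a (m+3) + a (m+4)) ^ 2 := by
    have : a m + a (m+1) + a (m+2) = - (a (m+3) + a (m+4)) := by linarith
    rw [this]; ring
  have e2 : (b m + b (m+1) + b (m+2)) ^ 2 = (b (m+3) + b (m+4)) ^ 2 := by
    have : b m + b (m+1) + b (m+2) = - (b (m+3) + b (m+4)) := by linarith
    rw [this]; ring
  linarith

lemma Pent.cle (h : Pent a b κ) (m : Fin 5) : pC a b m ≤ 1 := by
  have u0 := h.unit m
  have u1 := h.unit (m+1)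
  unfold pC
  nlinarith [sq_nonneg (a m - a (m+1)), sq_nonneg (b m - b (m+1))]

lemma Pent.cge (h : Pent a b κ) (m : Fin 5) : -1 ≤ pC a b m := by
  have u0 := h.unit m
  have u1 := h.unit (m+1)
  unfold pC
  nlinarith [sq_nonneg (a m + a (m+1)), sq_nonneg (b m + b (m+1))]

lemma Pent.g1 (h : Pent a b κ) (m : Fin 5) :
    pC a b m * pC a b (m+1) - pE a b m = pw a b m * pw a b (m+1) := by
  unfold pC pE pw
  rw [ix11]
  have u1 := h.unit (m+1)
  linear_combination (a m * a (m+2) + b m * b (m+2)) * u1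

lemma Pent.g2 (h : Pent a b κ) (m : Fin 5) :
    (pw a b m * pw a b (m+1)) ^ 2 = (1 - pC a b m ^ 2) * (1 - pC a b (m+1) ^ 2) := by
  have e : ∀ m, pw a b m ^ 2 = 1 - pC a b m ^ 2 := by
    intro m
    have u0 := h.unit m
    have u1 := h.unit (m+1)
    unfold pw pC
    have : (a m * b (m+1) - b m * a (m+1)) ^ 2 + (a m * a (m+1) + b m * b (m+1)) ^ 2
        = (a m ^ 2 + b m ^ 2) * (a (m+1) ^ 2 + b (m+1) ^ 2) := by ring
    rw [u0, u1] at this
    linarith
  rw [mul_pow, e, e]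

lemma Pent.g4 (h : Pent a b κ) (m : Fin 5) : pE a b m ≤ pC a b m := by
  have hid : (1 + pC a b (m+1)) * (pC a b m - pE a b m)
      = pw a b (m+1) * (pw a b m + (a m * b (m+2) - b m * a (m+2))) := by
    unfold pC pE pw
    rw [ix11]
    have u1 := h.unit (m+1)
    have u2 := h.unit (m+2)
    linear_combination (a m * a (m+2) + b m * b (m+2)) * u1
      - (a m * a (m+1) + b m * b (m+1)) * u2
  have h1 := h.k1 m
  have h3 := h.k3 m
  have hw := h.ww m
  have hpos : 0 < pw a b (m+1) * (pw a b m + (a m * b (m+2) - b m * a (m+2))) := by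
    change 0 < κ m * pw a b m at h1
    change 0 < κ m * (pw a b m + (a m * b (m+2) - b m * a (m+2))) at h3
    have h5 := mul_pos (mul_pos h1 h3) hw
    have h6 : κ m * pw a b m * (κ m * (pw a b m + (a m * b (m+2) - b m * a (m+2))))
        * (pw a b m * pw a b (m+1))
        = (κ m * pw a b m) ^ 2 * (pw a b (m+1) * (pw a b m + (a m * b (m+2) - b m * a (m+2)))) := by
      ring
    rw [h6] at h5
    exact pos_of_mul_pos_right h5 (sq_nonneg _)
  rw [← hid] at hpos
  have hc := h.cge (m+1)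
  have := pos_of_mul_pos_right hpos (by linarith)
  linarith

lemma Pent.g5 (h : Pent a b κ) (m : Fin 5) : pE a b m ≤ pC a b (m+1) := by
  have hid : (1 + pC a b m) * (pC a b (m+1) - pE a b m)
      = pw a b m * ((a m * b (m+2) - b m * a (m+2)) + pw a b (m+1)) := by
    unfold pC pE pw
    rw [ix11]
    have u1 := h.unit (m+1)
    have u0 := h.unit m
    linear_combination (a m * a (m+2) + b m * b (m+2)) * u1
      - (a (m+1) * a (m+2) + b (m+1) * b (m+2)) * u0
  have h1 := h.k1 (m+2)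
  have h3 := h.k3 (m+2)
  have hw := h.ww m
  have hw1 := h.ww (m+1)
  rw [ix11] at hw1
  have h1' := sum_rot a m
  have h2' := sum_rot b m
  rw [h.sa] at h1'
  rw [h.sb] at h2'
  have hcl : (a (m+2) * b (m+2+1) - b (m+2) * a (m+2+1))
      + (a (m+2) * b (m+2+2) - b (m+2) * a (m+2+2))
      = (a m * b (m+2) - b m * a (m+2)) + pw a b (m+1) := by
    unfold pw
    rw [ix21, ix22, ix11]
    linear_combination (b (m+2)) * h1' - (a (m+2)) * h2'
  rw [hcl] at h3
  have hpos : 0 < pw a b m * ((a m * b (m+2) - b m * a (m+2)) + pw a b (m+1)) := by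
    change 0 < κ (m+2) * pw a b (m+2) at h1
    set X := (a m * b (m+2) - b m * a (m+2)) + pw a b (m+1)
    have h5 := mul_pos (mul_pos (mul_pos h1 h3) hw) hw1
    have h6 : κ (m+2) * pw a b (m+2) * (κ (m+2) * X)
        * (pw a b m * pw a b (m+1)) * (pw a b (m+1) * pw a b (m+2))
        = (κ (m+2) * pw a b (m+2) * pw a b (m+1)) ^ 2 * (pw a b m * X) := by
      ring
    rw [h6] at h5
    exact pos_of_mul_pos_right h5 (sq_nonneg _)
  rw [← hid] at hpos
  have hc := h.cge m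
  have := pos_of_mul_pos_right hpos (by linarith)
  linarith

lemma Pent.cc (h : Pent a b κ) (m : Fin 5) : -1/2 ≤ pC a b m + pC a b (m+1) := by
  have e1 := h.g4 (m+1)
  have e4 := h.g5 (m+4)
  rw [ix41] at e4
  have h1' := sum_rot a m
  have h2' := sum_rot b m
  rw [h.sa] at h1'
  rw [h.sb] at h2'
  have u1 := h.unit (m+1)
  unfold pE at e1 e4
  rw [ix12] at e1
  rw [ix42] at e4
  have : 1 + pC a b m + pC a b (m+1) + (a (m+1) * a (m+3) + b (m+1) * b (m+3))
      + (a (m+4) * a (m+1) + b (m+4) * b (m+1)) = 0 := by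
    unfold pC
    rw [ix11]
    linear_combination (-1) * u1 - a (m+1) * h1' - b (m+1) * h2'
  linarith

lemma Pent.c78 (h : Pent a b κ) (m : Fin 5) : -7/8 ≤ pC a b m := by
  have h1 := h.cc (m+2)
  have h2 := h.ee (m+2)
  have h3 := h.g1 (m+2)
  have h4 := h.g2 (m+2)
  have c2 := h.cle (m+2)
  have c3 := h.cle (m+3)
  have d2 := h.cge (m+2)
  have d3 := h.cge (m+3)
  have hw := h.ww (m+2)
  rw [ix23, ix21] at h2
  rw [ix21] at h1 h3 h4 hw
  set x := pC a b (m+2)
  set y := pC a b (m+3)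
  set p := pw a b (m+2) * pw a b (m+3)
  have hx2 : 0 ≤ 1 - x ^ 2 := by nlinarith
  have hy2 : 0 ≤ 1 - y ^ 2 := by nlinarith
  have h5 : 2 * p ≤ (1 - x ^ 2) + (1 - y ^ 2) := by
    rw [← pow_le_pow_iff_left₀ (by positivity) (by positivity) (two_ne_zero)]
    nlinarith [sq_nonneg ((1 - x ^ 2) - (1 - y ^ 2))]
  have h6 : pC a b m = x * y - p + x + y + 1/2 := by linarith
  have h7 : (x + y) ^ 2 ≤ 2 + 2 * x * y - 2 * p := by linarith
  have h8 : 0 ≤ (1 + (x + y)) ^ 2 - 1/4 := by nlinarith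
  linarith

/-- the pentagon inequality -/
lemma Pent.ineq (h : Pent a b κ) {τ : ℝ} (hτ1 : 618/1000 < τ) (hτ2 : τ < 6184/10000)
    (hτ : τ ^ 2 + τ = 1) :
    ∑ m, (pC a b m - τ/2) * (pC a b (m+1) - τ/2) + 34/100 * ∑ m, (pC a b m - τ/2) ^ 2 ≤ 0 := by
  have hpt : ∀ m, ((pC a b m - τ/2) + (pC a b (m+1) - τ/2)) ^ 2 ≤ (pC a b (m+3) - τ/2) ^ 2
      + 4/25 * ((pC a b m - τ/2) ^ 2 + (pC a b (m+1) - τ/2) ^ 2) := by
    intro m
    have h0 := point_ineq hτ1 hτ2 hτ (h.ww m).le (h.g2 m) (h.c78 m) (h.c78 (m+1)) (h.cle m)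
      (h.cle (m+1)) (h.cc m)
    have h1 := h.ee m
    have h2 := h.g1 m
    have h3 : pC a b m * pC a b (m+1) - pw a b m * pw a b (m+1) + pC a b m + pC a b (m+1) + 1/2
        = pC a b (m+3) := by linarith
    rw [h3] at h0
    have h4 : pC a b m + pC a b (m+1) - τ = (pC a b m - τ/2) + (pC a b (m+1) - τ/2) := by ring
    rw [h4] at h0
    exact h0
  have e0 := hpt 0
  have e1 := hpt 1
  have e2 := hpt 2
  have e3 := hpt 3
  have e4 := hpt 4
  rw [Fin.sum_univ_five, Fin.sum_univ_five]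
  simp only [Fin.isValue, Fin.reduceAdd, zero_add] at *
  linarith

end

end R179.Mob
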