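import Mathlib

/-!
Definitions: edge-scribed 4-polytopes, their ball-arrangement projections, and Möbius
transformations of the extended 3-space.
-/

namespace R179.Mob

open Finset

/-- a maximal proper member of a family of subsets of `ι` -/
def IsFacet {ι : Type*} [Fintype ι] (F : Finset ι → Prop) (S : Finset ι) : Prop :=
  F S ∧ S ≠ univ ∧ ∀ T, F T → S ⊆ T → T = S ∨ T = univ

abbrev E4 : Type := EuclideanSpace ℝ (Fin 4)
abbrev E3 : Type := EuclideanSpace ℝ (Fin 3)

section Polytope
variable {ι : Type*} [Fintype ι]

/-- `F` is the set of (indices of) vertices of a face of the polytope `conv {v i}`: some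
inequality `⟨f, x⟩ ≤ c` is valid for all `v i`, with equality exactly for `i ∈ F`. -/
def IsFace (v : ι → E4) (F : Finset ι) : Prop :=
  ∃ (f : E4) (c : ℝ), (∀ i, inner ℝ f (v i) ≤ c) ∧ ∀ i, inner ℝ f (v i) = c ↔ i ∈ F

/-- `v` enumerates the vertices of a convex 4-polytope in `E4` -/
structure IsPolytope (v : ι → E4) : Prop where
  full : affineSpan ℝ (Set.range v) = ⊤
  vertex : ∀ i, IsFace v {i}

/-- `v i` and `v j` span an edge -/
def IsEdge [DecidableEq ι] (v : ι → E4) (i j : ι) : Prop := i ≠ j ∧ IsFace v {i, j}

/-- every edge is tangent to the unit sphere (at an interior point of the edge) -/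
def EdgeScribed [DecidableEq ι] (v : ι → E4) : Prop :=
  ∀ i j, IsEdge v i j → ∃ x ∈ openSegment ℝ (v i) (v j), ‖x‖ = 1 ∧ inner ℝ x (v j - v i) = 0

/-- combinatorial type `{3,3,5}`: every facet has exactly four vertices and every edge lies in
exactly five facets -/
def Is335 [DecidableEq ι] (v : ι → E4) : Prop :=
  (∀ S, IsFacet (IsFace v) S → S.card = 4) ∧
  ∀ i j, IsEdge v i j → {S : Finset ι | IsFacet (IsFace v) S ∧ i ∈ S ∧ j ∈ S}.ncard = 5

end Polytope

section Moebius

/-- first three coordinates -/
noncomputable def pr (x : E4) : E3 := WithLp.toLp 2 ![x 0, x 1, x 2]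

/-- stereographic projection of the unit sphere of `E4` from the north pole `(0,0,0,1)` -/
noncomputable def stereo (x : E4) : OnePoint E3 :=
  if x 3 = 1 then OnePoint.infty else (((1 - x 3)⁻¹ • pr x : E3) : OnePoint E3)

/-- the ball `b_v`: stereographic image of the part of the unit sphere visible from `v` -/
noncomputable def ball (v : E4) : Set (OnePoint E3) := stereo '' {x | ‖x‖ = 1 ∧ 1 ≤ inner ℝ x v}

/-- inversion in the sphere with centre `c` and radius `r` -/
noncomputable def inversion (c : E3) (r : ℝ) : OnePoint E3 → OnePoint E3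
  | none => (c : OnePoint E3)
  | some x => if x = c then OnePoint.infty else
      ((c + (r ^ 2 / ‖x - c‖ ^ 2) • (x - c) : E3) : OnePoint E3)

/-- reflection in the plane `⟨n, x⟩ = t` (for a unit vector `n`) -/
noncomputable def planeReflection (n : E3) (t : ℝ) : OnePoint E3 → OnePoint E3
  | none => OnePoint.infty
  | some x => ((x - (2 * (inner ℝ n x - t)) • n : E3) : OnePoint E3)

/-- Möbius transformations: compositions of inversions in spheres and reflections in planes -/
inductive IsMoebius : (OnePoint E3 → OnePoint E3) → Prop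
  | id : IsMoebius id
  | inversion (c : E3) (r : ℝ) (hr : 0 < r) {g : OnePoint E3 → OnePoint E3} :
      IsMoebius g → IsMoebius (inversion c r ∘ g)
  | reflection (n : E3) (t : ℝ) (hn : ‖n‖ = 1) {g : OnePoint E3 → OnePoint E3} :
      IsMoebius g → IsMoebius (planeReflection n t ∘ g)

end Moebius

end R179.Mob
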