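import Pool.Agent.R179.MobC2
import Pool.Agent.R179.MobDefs

/-!
The Lorentz form on `E × ℝ` and Euclidean coordinates of the orthogonal space of two
tangent unit vectors.
-/

namespace R179.Mob

open Module

abbrev L5 : Type := E4 × ℝ

/-- the Lorentz form -/
noncomputable def B : L5 →ₗ[ℝ] L5 →ₗ[ℝ] ℝ :=
  LinearMap.mk₂ ℝ (fun x y => inner ℝ x.1 y.1 - x.2 * y.2)
    (fun x y z => by simp [inner_add_left]; ring)
    (fun c x y => by simp [inner_smul_left]; ring)
    (fun x y z => by simp [inner_add_right]; ring)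
    (fun c x y => by simp [inner_smul_right]; ring)

lemma B_apply (x y : L5) : B x y = inner ℝ x.1 y.1 - x.2 * y.2 := rfl

lemma B_comm (x y : L5) : B x y = B y x := by
  rw [B_apply, B_apply, real_inner_comm]; ring

lemma B_nondeg {x : L5} (h : ∀ y, B x y = 0) : x = 0 := by
  have h1 := h (x.1, 0)
  have h2 := h (0, 1)
  rw [B_apply] at h1 h2
  simp only [inner_self_eq_norm_sq_to_K, mul_zero, sub_zero, inner_zero_right, mul_one,
    zero_sub, neg_eq_zero] at h1 h2
  apply Prod.ext
  · simpa using h1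
  · exact h2

lemma exists_rep (φ : Dual ℝ L5) : ∃ n : L5, ∀ x, φ x = B n x := by
  let ψ : E4 →L[ℝ] ℝ := LinearMap.toContinuousLinearMap (φ ∘ₗ LinearMap.inl ℝ E4 ℝ)
  refine ⟨((InnerProductSpace.toDual ℝ E4).symm ψ, - φ (0, 1)), fun x => ?_⟩
  rw [B_apply]
  simp only [InnerProductSpace.toDual_symm_apply]
  have h1 : ψ x.1 = φ (x.1, 0) := rfl
  rw [h1]
  have h2 : x = (x.1, 0) + x.2 • ((0, 1) : L5) := by
    ext <;> simp
  conv_lhs => rw [h2]
  rw [map_add, map_smul, smul_eq_mul]
  ring

lemma finrank_L5 : finrank ℝ L5 = 5 := by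
  rw [Module.finrank_prod]; simp

/-- planar coordinates on the orthogonal space of two tangent vectors -/
lemma plane_coords {p q : L5} (hp : B p p = 1) (hq : B q q = 1) (hpq : B p q = -1)
    (hN : p + q ≠ 0) :
    ∃ α β : Dual ℝ L5, ∀ x y, B p x = 0 → B q x = 0 → B p y = 0 → B q y = 0 →
      B x y = α x * α y + β x * β y := by
  obtain ⟨n, hn⟩ : ∃ n, n = (p + q).1 := ⟨_, rfl⟩
  obtain ⟨s, hs⟩ : ∃ s, s = (p + q).2 := ⟨_, rfl⟩
  have hnull : B (p + q) (p + q) = 0 := by
    simp only [map_add, LinearMap.add_apply, hp, hq, hpq, B_comm q p]; norm_num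
  have hns : inner ℝ n n = s * s := by
    rw [B_apply, ← hn, ← hs] at hnull; linarith
  have hs0 : s ≠ 0 := by
    intro h
    apply hN
    rw [h] at hns
    simp only [mul_zero, inner_self_eq_zero] at hns
    apply Prod.ext
    · rw [← hn, hns]; rfl
    · rw [← hs, h]; rfl
  -- the projection
  let P : L5 →ₗ[ℝ] E4 := LinearMap.fst ℝ E4 ℝ - (s⁻¹ • (LinearMap.snd ℝ E4 ℝ)).smulRight n
  have hP : ∀ x : L5, P x = x.1 - (s⁻¹ * x.2) • n := fun x => by simp [P]
  have hperp : ∀ x : L5, B (p + q) x = 0 → inner ℝ n x.1 = s * x.2 := by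
    intro x hx
    rw [B_apply, ← hn, ← hs] at hx; linarith
  have hPB : ∀ x y : L5, B (p + q) x = 0 → B (p + q) y = 0 → inner ℝ (P x) (P y) = B x y := by
    intro x y hx hy
    have e1 := hperp x hx
    have e2 := hperp y hy
    rw [hP, hP, B_apply]
    have e3 : inner ℝ x.1 n = s * x.2 := by rw [real_inner_comm]; exact e1
    rw [inner_sub_left, inner_sub_right, inner_sub_right, inner_smul_left, inner_smul_right,
      inner_smul_right, inner_smul_left, hns, e2, e3]
    simp only [conj_trivial]
    field_simp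
    ring
  have hPn : ∀ x : L5, B (p + q) x = 0 → inner ℝ n (P x) = 0 := by
    intro x hx
    rw [hP, inner_sub_right, inner_smul_right, hns, hperp x hx]
    field_simp
    ring
  have hpN : B (p + q) p = 0 := by
    simp only [map_add, LinearMap.add_apply, hp, B_comm q p, hpq]; norm_num
  -- orthonormal pair
  let f : Fin 2 → E4 := ![s⁻¹ • n, P p]
  have hf : Orthonormal ℝ f := by
    rw [orthonormal_iff_ite]
    intro i j
    fin_cases i <;> fin_cases j
    · simp only [f, Fin.zero_eta, Matrix.cons_val_zero, if_true, inner_smul_left,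
        inner_smul_right, hns, conj_trivial]
      field_simp
    · simp only [f, Fin.zero_eta, Fin.mk_one, Matrix.cons_val_zero, Matrix.cons_val_one,
        inner_smul_left, hPn p hpN]
      simp
    · simp only [f, Fin.zero_eta, Fin.mk_one, Matrix.cons_val_zero, Matrix.cons_val_one,
        inner_smul_right, real_inner_comm, hPn p hpN]
      simp
    · change inner ℝ (P p) (P p) = _
      rw [hPB p p hpN hpN, hp]; rfl
  let K : Submodule ℝ E4 := (Submodule.span ℝ (Set.range f))ᗮ
  have hK : finrank ℝ K = 2 := by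
    have h1 := Submodule.finrank_add_finrank_orthogonal (Submodule.span ℝ (Set.range f))
    have h2 := finrank_span_eq_card hf.linearIndependent
    rw [h2] at h1
    simp only [Fintype.card_fin, finrank_euclideanSpace] at h1
    change 2 + finrank ℝ K = 4 at h1
    omega
  let b := (stdOrthonormalBasis ℝ K).reindex (finCongr hK)
  have hmem : ∀ x : L5, B p x = 0 → B q x = 0 → P x ∈ K := by
    intro x h1 h2
    have h3 : B (p + q) x = 0 := by simp [h1, h2]
    rw [Submodule.mem_orthogonal]
    intro v hv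
    have : ∀ v ∈ Submodule.span ℝ (Set.range f), inner ℝ v (P x) = 0 := by
      intro v hv
      refine Submodule.span_induction ?_ ?_ ?_ ?_ hv
      · rintro _ ⟨i, rfl⟩
        fin_cases i
        · simp only [f, Fin.zero_eta, Matrix.cons_val_zero, inner_smul_left, hPn x h3]
          simp
        · change inner ℝ (P p) (P x) = 0
          rw [hPB p x hpN h3, h1]
      · simp
      · intro x y _ _ hx hy; rw [inner_add_left, hx, hy, add_zero]
      · intro a x _ hx; rw [inner_smul_left, hx, mul_zero]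
    exact this v hv
  refine ⟨(innerₗ E4 (b 0 : E4)) ∘ₗ P, (innerₗ E4 (b 1 : E4)) ∘ₗ P, ?_⟩
  intro x y hx1 hx2 hy1 hy2
  have hx3 : B (p + q) x = 0 := by simp [hx1, hx2]
  have hy3 : B (p + q) y = 0 := by simp [hy1, hy2]
  rw [← hPB x y hx3 hy3]
  have h1 := b.sum_inner_mul_inner (⟨P x, hmem x hx1 hx2⟩ : K) (⟨P y, hmem y hy1 hy2⟩ : K)
  rw [Fin.sum_univ_two] at h1
  simp only [Submodule.coe_inner] at h1
  rw [← h1]
  simp only [LinearMap.comp_apply, innerₗ_apply_apply]
  rw [real_inner_comm, real_inner_comm (b 1 : E4)]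

end R179.Mob
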