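import Pool.Agent.R179.MobD

/-!
The pentagon around an edge.
-/

namespace R179.Mob

open Module

lemma edge_ineq {p q : L5} {U n : Fin 5 → L5} (hp : B p p = 1) (hq : B q q = 1)
    (hpq : B p q = -1) (hU : ∀ m, B (U m) (U m) = 1) (hUU : ∀ m, B (U m) (U (m+1)) = -1)
    (hpU : ∀ m, B p (U m) = -1) (hqU : ∀ m, B q (U m) = -1)
    (hnp : ∀ m, B (n m) p = 0) (hnq : ∀ m, B (n m) q = 0)
    (hn0 : ∀ m, B (n m) (U m) = 0) (hn1 : ∀ m, B (n m) (U (m+1)) = 0)
    (hn2 : ∀ m, 0 < B (n m) (U (m+2))) (hn3 : ∀ m, 0 < B (n m) (U (m+3)))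
    (hn4 : ∀ m, 0 < B (n m) (U (m+4)))
    {τ : ℝ} (hτ1 : 618/1000 < τ) (hτ2 : τ < 6184/10000) (hτ : τ ^ 2 + τ = 1) :
    ∑ m, (-(3 + B (U m) (U (m+2))) / 4 - τ/2) * (-(3 + B (U (m+1)) (U (m+3))) / 4 - τ/2)
      + 34/100 * ∑ m, (-(3 + B (U m) (U (m+2))) / 4 - τ/2) ^ 2 ≤ 0 := by
  have hN : p + q ≠ 0 := by
    intro h
    have : B (p + q) (U 0) = -2 := by
      rw [map_add, LinearMap.add_apply, hpU, hqU]; norm_num
    rw [h] at this
    simp at this
  obtain ⟨α, β, hαβ⟩ := plane_coords hp hq hpq hN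
  let y : Fin 5 → L5 := fun m => (1/2 : ℝ) • (U (m+1) - U m)
  have hy : ∀ m, y m = (1/2 : ℝ) • (U (m+1) - U m) := fun m => rfl
  have hpy : ∀ m, B p (y m) = 0 := by
    intro m; rw [hy, map_smul, map_sub, hpU, hpU]; simp
  have hqy : ∀ m, B q (y m) = 0 := by
    intro m; rw [hy, map_smul, map_sub, hqU, hqU]; simp
  have hpn : ∀ m, B p (n m) = 0 := fun m => by rw [B_comm]; exact hnp m
  have hqn : ∀ m, B q (n m) = 0 := fun m => by rw [B_comm]; exact hnq m
  have hyy : ∀ m k, B (y m) (y k) = α (y m) * α (y k) + β (y m) * β (y k) :=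
    fun m k => hαβ _ _ (hpy m) (hqy m) (hpy k) (hqy k)
  have hny : ∀ m k, B (n m) (y k) = α (n m) * α (y k) + β (n m) * β (y k) :=
    fun m k => hαβ _ _ (hpn m) (hqn m) (hpy k) (hqy k)
  have hunit : ∀ m, α (y m) ^ 2 + β (y m) ^ 2 = 1 := by
    intro m
    have h1 := hyy m m
    have h2 : B (y m) (y m) = 1 := by
      rw [hy]
      simp only [map_smul, map_sub, LinearMap.smul_apply, LinearMap.sub_apply, smul_eq_mul,
        hU, hUU, B_comm (U (m+1)) (U m)]
      norm_num
    rw [h2] at h1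
    linarith
  have hsum : ∑ m, y m = 0 := by
    simp only [hy]
    rw [← Finset.smul_sum, Finset.sum_sub_distrib]
    have : ∑ m, U (m+1) = ∑ m, U m := Fintype.sum_equiv (Equiv.addRight (1 : Fin 5)) _ _
      (fun m => rfl)
    rw [this, sub_self, smul_zero]
  have hor : ∀ m, α (n m) * α (y m) + β (n m) * β (y m) = 0 := by
    intro m
    rw [← hny, hy, map_smul, map_sub, hn0, hn1]; simp
  let κ : Fin 5 → ℝ := fun m => β (n m) * α (y m) - α (n m) * β (y m)
  have hκ1 : ∀ m, α (n m) = - κ m * β (y m) := by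
    intro m
    have h1 := hunit m
    have h2 := hor m
    show α (n m) = - (β (n m) * α (y m) - α (n m) * β (y m)) * β (y m)
    linear_combination (- α (n m)) * h1 + (α (y m)) * h2
  have hκ2 : ∀ m, β (n m) = κ m * α (y m) := by
    intro m
    have h1 := hunit m
    have h2 := hor m
    show β (n m) = (β (n m) * α (y m) - α (n m) * β (y m)) * α (y m)
    linear_combination (- β (n m)) * h1 + (β (y m)) * h2
  have hny' : ∀ m k, B (n m) (y k) = κ m * (α (y m) * β (y k) - β (y m) * α (y k)) := by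
    intro m k
    rw [hny, hκ1, hκ2]; ring
  have hP : Pent (fun m => α (y m)) (fun m => β (y m)) κ := by
    refine ⟨hunit, ?_, ?_, ?_, ?_, ?_⟩
    · rw [← map_sum, hsum, map_zero]
    · rw [← map_sum, hsum, map_zero]
    · intro m
      show 0 < κ m * (α (y m) * β (y (m+1)) - β (y m) * α (y (m+1)))
      rw [← hny', hy (m+1), map_smul, map_sub, hn1, ix11]
      have := hn2 m
      simp only [smul_eq_mul, sub_zero]
      positivity
    · intro m
      show 0 < κ m * (α (y (m+4)) * β (y m) - β (y (m+4)) * α (y m))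
      have h1 : κ m * (α (y (m+4)) * β (y m) - β (y (m+4)) * α (y m)) = - B (n m) (y (m+4)) := by
        rw [hny']; ring
      rw [h1, hy (m+4), map_smul, map_sub, ix41, hn0]
      have := hn4 m
      simp only [smul_eq_mul, zero_sub]
      linarith
    · intro m
      show 0 < κ m * ((α (y m) * β (y (m+1)) - β (y m) * α (y (m+1)))
        + (α (y m) * β (y (m+2)) - β (y m) * α (y (m+2))))
      rw [mul_add, ← hny', ← hny', hy (m+1), hy (m+2), map_smul, map_sub, map_smul, map_sub, hn1,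
        ix11, ix21]
      have := hn3 m
      simp only [smul_eq_mul, sub_zero]
      linarith
  have hfin := hP.ineq hτ1 hτ2 hτ
  have hC : ∀ m, pC (fun m => α (y m)) (fun m => β (y m)) m = -(3 + B (U m) (U (m+2))) / 4 := by
    intro m
    show α (y m) * α (y (m+1)) + β (y m) * β (y (m+1)) = _
    rw [← hyy, hy, hy (m+1), ix11]
    have h1 := hUU (m+1)
    rw [ix11] at h1
    simp only [map_smul, map_sub, LinearMap.smul_apply, LinearMap.sub_apply, smul_eq_mul,
      hU, hUU, h1]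
    ring
  simp only [hC, ix12] at hfin
  exact hfin

end R179.Mob
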