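import Pool.Agent.R179.MobA
import Pool.Agent.R179.MobC2

/-!
Counting argument over flags of a simplicial complex with pentagonal edge links.
-/

set_option linter.unusedSectionVars false

namespace R179.Mob

open Finset

variable {ι : Type*} [Fintype ι] [DecidableEq ι]

/-- cyclic enumeration of the facets around the edge `{a, b}` -/
structure LinkC (F : Finset ι → Prop) (a b : ι) (c : Fin 5 → ι) : Prop where
  inj : Function.Injective c
  na : ∀ m, c m ≠ a
  nb : ∀ m, c m ≠ b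
  fac : ∀ T, (IsFacet F T ∧ a ∈ T ∧ b ∈ T) ↔ ∃ m, T = {a, b, c m, c (m+1)}

section
variable (F : Finset ι → Prop)

open Classical in
/-- ordered facets -/
noncomputable def flags : Finset (Fin 4 → ι) :=
  univ.filter (fun t => Function.Injective t ∧ IsFacet F (univ.image t))

lemma mem_flags {t : Fin 4 → ι} :
    t ∈ flags F ↔ Function.Injective t ∧ IsFacet F (univ.image t) := by
  simp [flags]

/-- value of `h` on the triangle opposite to the vertex `t i` -/
def Xv (h : Finset ι → ℝ) (t : Fin 4 → ι) (i : Fin 4) : ℝ := h ((univ.erase i).image t)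

lemma Xv_comp (h : Finset ι → ℝ) (t : Fin 4 → ι) (σ : Equiv.Perm (Fin 4)) (i : Fin 4) :
    Xv h (t ∘ σ) i = Xv h t (σ i) := by
  unfold Xv
  congr 1
  rw [← Finset.image_image]
  congr 1
  ext x
  simp only [mem_image, mem_erase, mem_univ, and_true, ne_eq]
  constructor
  · rintro ⟨y, hy, rfl⟩
    exact fun h => hy (σ.injective h)
  · intro hx
    exact ⟨σ.symm x, fun h => hx (by rw [← h]; simp), by simp⟩

lemma flags_comp {t : Fin 4 → ι} (σ : Equiv.Perm (Fin 4)) : t ∘ σ ∈ flags F ↔ t ∈ flags F := by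
  rw [mem_flags, mem_flags]
  have h1 : Function.Injective (t ∘ σ) ↔ Function.Injective t := by
    constructor
    · intro h x y hxy
      have : σ.symm x = σ.symm y := h (by simp [hxy])
      exact σ.symm.injective this
    · intro h; exact h.comp σ.injective
  have h2 : univ.image (t ∘ σ) = univ.image t := by
    rw [← Finset.image_image, Finset.image_univ_of_surjective σ.surjective]
  rw [h1, h2]

lemma sum_flags_comp (f : (Fin 4 → ι) → ℝ) (σ : Equiv.Perm (Fin 4)) :
    ∑ t ∈ flags F, f (t ∘ σ) = ∑ t ∈ flags F, f t := by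
  apply Finset.sum_nbij' (fun t => t ∘ σ) (fun t => t ∘ σ.symm)
  · intro t ht; exact (flags_comp F σ).2 ht
  · intro t ht; exact (flags_comp F σ.symm).2 ht
  · intro t _; ext x; simp
  · intro t _; ext x; simp
  · intro t _; rfl

lemma perm_exists : ∀ i j : Fin 4, i ≠ j → ∃ σ : Equiv.Perm (Fin 4), σ 2 = i ∧ σ 3 = j := by
  decide

/-- `h` is square-summable to zero -/
lemma counting (h : Finset ι → ℝ)
    (hineq : ∑ t ∈ flags F, (Xv h t 2 * Xv h t 3 + 34/100 * Xv h t 2 ^ 2) ≤ 0) :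
    ∀ t ∈ flags F, Xv h t 3 = 0 := by
  have hsq : ∀ i, ∑ t ∈ flags F, Xv h t i ^ 2 = ∑ t ∈ flags F, Xv h t 2 ^ 2 := by
    intro i
    rw [← sum_flags_comp F (fun t => Xv h t 2 ^ 2) (Equiv.swap 2 i)]
    apply Finset.sum_congr rfl
    intro t _
    rw [Xv_comp]
    simp
  have hcr : ∀ i j, i ≠ j → ∑ t ∈ flags F, Xv h t i * Xv h t j
      = ∑ t ∈ flags F, Xv h t 2 * Xv h t 3 := by
    intro i j hij
    obtain ⟨σ, h2, h3⟩ := perm_exists i j hij
    rw [← sum_flags_comp F (fun t => Xv h t 2 * Xv h t 3) σ]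
    apply Finset.sum_congr rfl
    intro t _
    rw [Xv_comp, Xv_comp, h2, h3]
  have hpos : 0 ≤ ∑ t ∈ flags F, (Xv h t 0 + Xv h t 1 + Xv h t 2 + Xv h t 3) ^ 2 :=
    Finset.sum_nonneg (fun _ _ => sq_nonneg _)
  have hexp : ∀ t, (Xv h t 0 + Xv h t 1 + Xv h t 2 + Xv h t 3) ^ 2
      = Xv h t 0 ^ 2 + Xv h t 1 ^ 2 + Xv h t 2 ^ 2 + Xv h t 3 ^ 2
        + 2 * (Xv h t 0 * Xv h t 1) + 2 * (Xv h t 0 * Xv h t 2) + 2 * (Xv h t 0 * Xv h t 3)
        + 2 * (Xv h t 1 * Xv h t 2) + 2 * (Xv h t 1 * Xv h t 3) + 2 * (Xv h t 2 * Xv h t 3) := by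
    intro t; ring
  simp only [hexp, Finset.sum_add_distrib, ← Finset.mul_sum] at hpos hineq
  rw [hsq 0, hsq 1, hsq 3, hcr 0 1 (by decide), hcr 0 2 (by decide), hcr 0 3 (by decide),
    hcr 1 2 (by decide), hcr 1 3 (by decide)] at hpos
  have hz : ∑ t ∈ flags F, Xv h t 3 ^ 2 ≤ 0 := by
    rw [hsq 3]; linarith
  intro t ht
  have h1 := (Finset.sum_eq_zero_iff_of_nonneg (fun t _ => sq_nonneg (Xv h t 3))).1
    (le_antisymm hz (Finset.sum_nonneg (fun _ _ => sq_nonneg _))) t ht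
  exact pow_eq_zero_iff (two_ne_zero) |>.1 h1

variable {F}

lemma Xv2 (h : Finset ι → ℝ) (a b x y : ι) : Xv h ![a, b, x, y] 2 = h {a, b, y} := by
  unfold Xv
  congr 1
  have : (univ.erase (2 : Fin 4)) = {0, 1, 3} := by decide
  rw [this]
  simp [Finset.image_insert]

lemma Xv3 (h : Finset ι → ℝ) (a b x y : ι) : Xv h ![a, b, x, y] 3 = h {a, b, x} := by
  unfold Xv
  congr 1
  have : (univ.erase (3 : Fin 4)) = {0, 1, 2} := by decide
  rw [this]
  simp [Finset.image_insert]

lemma image4 (a b x y : ι) : univ.image ![a, b, x, y] = {a, b, x, y} := by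
  have : (univ : Finset (Fin 4)) = {0, 1, 2, 3} := by decide
  rw [this]
  simp [Finset.image_insert]

lemma fin5_succ_ne (m : Fin 5) : m + 1 ≠ m := by revert m; decide

lemma vec4_inj {a b x y : ι} (hab : a ≠ b) (hxa : x ≠ a) (hxb : x ≠ b) (hya : y ≠ a)
    (hyb : y ≠ b) (hxy : x ≠ y) : Function.Injective ![a, b, x, y] := by
  intro i j hij
  fin_cases i <;> fin_cases j <;> simp_all [eq_comm]

lemma fiber_eq {a b : ι} {c : Fin 5 → ι} (hab : a ≠ b) (hc : LinkC F a b c) :
    (flags F).filter (fun t => (t 0, t 1) = (a, b))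
      = univ.image (fun m : Fin 5 => (![a, b, c m, c (m+1)] : Fin 4 → ι))
        ∪ univ.image (fun m : Fin 5 => (![a, b, c (m+1), c m] : Fin 4 → ι)) := by
  ext t
  simp only [mem_filter, mem_flags, mem_union, mem_image, mem_univ, true_and, Prod.mk.injEq]
  constructor
  · rintro ⟨⟨hinj, hfac⟩, h0, h1⟩
    have ht : t = ![a, b, t 2, t 3] := by
      ext i; fin_cases i <;> simp [h0, h1]
    have himg : univ.image t = {a, b, t 2, t 3} := by
      conv_lhs => rw [ht]
      rw [image4]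
    rw [himg] at hfac
    obtain ⟨m, hm⟩ := (hc.fac {a, b, t 2, t 3}).1 ⟨hfac, by simp, by simp⟩
    have n2a : t 2 ≠ a := by rw [← h0]; exact fun h => absurd (hinj h) (by decide)
    have n2b : t 2 ≠ b := by rw [← h1]; exact fun h => absurd (hinj h) (by decide)
    have n3a : t 3 ≠ a := by rw [← h0]; exact fun h => absurd (hinj h) (by decide)
    have n3b : t 3 ≠ b := by rw [← h1]; exact fun h => absurd (hinj h) (by decide)
    have n23 : t 2 ≠ t 3 := fun h => absurd (hinj h) (by decide)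
    have m2 : t 2 = c m ∨ t 2 = c (m+1) := by
      have : t 2 ∈ ({a, b, c m, c (m+1)} : Finset ι) := by rw [← hm]; simp
      simpa [n2a, n2b] using this
    have m3 : t 3 = c m ∨ t 3 = c (m+1) := by
      have : t 3 ∈ ({a, b, c m, c (m+1)} : Finset ι) := by rw [← hm]; simp
      simpa [n3a, n3b] using this
    rcases m2 with m2 | m2 <;> rcases m3 with m3 | m3
    · exact absurd (m2.trans m3.symm) n23
    · left; exact ⟨m, by rw [← m2, ← m3]; exact ht.symm⟩
    · right; exact ⟨m, by rw [← m2, ← m3]; exact ht.symm⟩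
    · exact absurd (m2.trans m3.symm) n23
  · rintro (⟨m, rfl⟩ | ⟨m, rfl⟩)
    · refine ⟨⟨vec4_inj hab (hc.na _) (hc.nb _) (hc.na _) (hc.nb _)
        (fun h => fin5_succ_ne m (hc.inj h).symm), ?_⟩, rfl, rfl⟩
      rw [image4]
      exact ((hc.fac _).2 ⟨m, rfl⟩).1
    · refine ⟨⟨vec4_inj hab (hc.na _) (hc.nb _) (hc.na _) (hc.nb _)
        (fun h => fin5_succ_ne m (hc.inj h)), ?_⟩, rfl, rfl⟩
      rw [image4]
      have : ({a, b, c (m+1), c m} : Finset ι) = {a, b, c m, c (m+1)} := by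
        congr 2; exact Finset.pair_comm _ _
      rw [this]
      exact ((hc.fac _).2 ⟨m, rfl⟩).1

lemma fiber_sum {a b : ι} {c : Fin 5 → ι} (hab : a ≠ b) (hc : LinkC F a b c)
    (f : (Fin 4 → ι) → ℝ) :
    ∑ t ∈ (flags F).filter (fun t => (t 0, t 1) = (a, b)), f t
      = ∑ m, f ![a, b, c m, c (m+1)] + ∑ m, f ![a, b, c (m+1), c m] := by
  rw [fiber_eq hab hc, Finset.sum_union, Finset.sum_image, Finset.sum_image]
  · intro m _ m' _ h
    have := congrFun h 3
    exact hc.inj (by simpa using this)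
  · intro m _ m' _ h
    have := congrFun h 2
    exact hc.inj (by simpa using this)
  · rw [Finset.disjoint_left]
    intro t h1 h2
    simp only [mem_image, mem_univ, true_and] at h1 h2
    obtain ⟨m, rfl⟩ := h1
    obtain ⟨m', hm'⟩ := h2
    have e1 : c (m'+1) = c m := by simpa using congrFun hm' 2
    have e2 : c m' = c (m+1) := by simpa using congrFun hm' 3
    have e3 := hc.inj e1
    have e4 := hc.inj e2
    rw [e4] at e3
    have e5 : ∀ m : Fin 5, m + 1 + 1 ≠ m := by decide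
    exact e5 m e3

lemma sum_shift1 (f : Fin 5 → ℝ) : ∑ m, f (m+1) = ∑ m, f m :=
  Fintype.sum_equiv (Equiv.addRight (1 : Fin 5)) _ _ (fun _ => rfl)

/-- the counting argument -/
lemma all_zero (h : Finset ι → ℝ)
    (hedge : ∀ t ∈ flags F, ∃ c : Fin 5 → ι, LinkC F (t 0) (t 1) c ∧
      ∑ m, h {t 0, t 1, c (m+1)} * h {t 0, t 1, c (m+2)}
        + 34/100 * ∑ m, h {t 0, t 1, c (m+1)} ^ 2 ≤ 0) :
    ∀ t ∈ flags F, Xv h t 3 = 0 := by
  apply counting
  rw [← Finset.sum_fiberwise (flags F) (fun t => (t 0, t 1))]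
  apply Finset.sum_nonpos
  rintro ⟨a, b⟩ -
  by_cases hne : ((flags F).filter (fun t => (t 0, t 1) = (a, b))).Nonempty
  · obtain ⟨t, ht⟩ := hne
    rw [mem_filter] at ht
    obtain ⟨htf, htab⟩ := ht
    obtain ⟨c, hc, hineq⟩ := hedge t htf
    rw [Prod.mk.injEq] at htab
    have hab : a ≠ b := by
      rw [← htab.1, ← htab.2]
      exact fun h => absurd (((mem_flags F).1 htf).1 h) (by decide)
    rw [htab.1, htab.2] at hc hineq
    rw [fiber_sum hab hc]
    simp only [Xv2, Xv3]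
    have e1 : ∑ m, h {a, b, c (m+1)} * h {a, b, c (m+2)}
        = ∑ m, h {a, b, c m} * h {a, b, c (m+1)} := by
      rw [← sum_shift1 (fun m => h {a, b, c m} * h {a, b, c (m+1)})]
      simp only [ix11]
    have e2 : ∑ m, h {a, b, c (m+1)} ^ 2 = ∑ m, h {a, b, c m} ^ 2 :=
      sum_shift1 (fun m => h {a, b, c m} ^ 2)
    have e3 : ∑ m, h {a, b, c (m+1)} * h {a, b, c m}
        = ∑ m, h {a, b, c m} * h {a, b, c (m+1)} :=
      Finset.sum_congr rfl (fun m _ => mul_comm _ _)
    simp only [Finset.sum_add_distrib, ← Finset.mul_sum, e3]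
    rw [e1, e2] at hineq
    rw [e2]
    linarith
  · rw [Finset.not_nonempty_iff_eq_empty] at hne
    rw [hne]; simp

end

end R179.Mob
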