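import Pool.Agent.R179.MobE
import Pool.Agent.R179.MobD2

/-!
Rigidity of the Gram matrix, and propagation.
-/

set_option linter.unusedSectionVars false

namespace R179.Mob

open Finset Module

variable {ι : Type*} [Fintype ι] [DecidableEq ι]

/-- normalised Lorentz vectors of an edge-scribed simplicial polytope with pentagonal links -/
structure Sys (u : ι → L5) : Prop where
  sp : Submodule.span ℝ (Set.range u) = ⊤
  h4 : ∀ S, IsFacet (Fc u) S → S.card = 4
  un : ∀ S, IsFacet (Fc u) S → ∀ i ∈ S, B (u i) (u i) = 1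
  ed : ∀ S, IsFacet (Fc u) S → ∀ i ∈ S, ∀ j ∈ S, i ≠ j → B (u i) (u j) = -1
  lk : ∀ S, IsFacet (Fc u) S → ∀ a ∈ S, ∀ b ∈ S, a ≠ b → ∃ c, LinkC (Fc u) a b c

variable {u : ι → L5}

lemma Sys.unique (hu : Sys u) {S : Finset ι} (hS : IsFacet (Fc u) S) {j k : ι} (hj : j ∈ S)
    (hk : k ∉ S) (hk' : IsFacet (Fc u) (insert k (S.erase j))) {T : Finset ι}
    (hT : IsFacet (Fc u) T) (hsub : S.erase j ⊆ T) : T = S ∨ T = insert k (S.erase j) := by
  obtain ⟨φ, hφ⟩ := hS.1
  obtain ⟨g, t, k0, -, -, -, hk0, -, -, huniq⟩ := neighbour hu.sp finrank_L5 hu.h4 hS hφ hj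
  have h1 : insert k (S.erase j) = insert k0 (S.erase j) := by
    rcases huniq _ hk' (subset_insert _ _) with h | h
    · exfalso; apply hk; rw [← h]; simp
    · exact h
  rw [h1]
  exact huniq T hT hsub

open Classical in
/-- the quantity attached to a triangle -/
noncomputable def hT (u : ι → L5) (τ : ℝ) (T : Finset ι) : ℝ :=
  -(3 + (∑ x ∈ univ.filter (fun x => x ∉ T ∧ IsFacet (Fc u) (insert x T)),
    ∑ y ∈ (univ.filter (fun x => x ∉ T ∧ IsFacet (Fc u) (insert x T))).erase x,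
      B (u x) (u y)) / 2) / 4 - τ / 2

lemma Sys.hT_eq (hu : Sys u) (τ : ℝ) {S : Finset ι} (hS : IsFacet (Fc u) S) {j k : ι}
    (hj : j ∈ S) (hk : k ∉ S) (hk' : IsFacet (Fc u) (insert k (S.erase j))) :
    hT u τ (S.erase j) = -(3 + B (u j) (u k)) / 4 - τ / 2 := by
  classical
  have hjk : j ≠ k := fun h => hk (h ▸ hj)
  have hK : univ.filter (fun x => x ∉ S.erase j ∧ IsFacet (Fc u) (insert x (S.erase j)))
      = {j, k} := by
    ext x
    simp only [mem_filter, mem_univ, true_and, mem_insert, mem_singleton]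
    constructor
    · rintro ⟨hx, hxf⟩
      rcases hu.unique hS hj hk hk' hxf (subset_insert _ _) with h | h
      · left
        have h1 : x ∈ S := by rw [← h]; simp
        by_contra hne
        exact hx (mem_erase.2 ⟨hne, h1⟩)
      · right
        have h1 : x ∈ insert k (S.erase j) := by rw [← h]; simp
        rcases mem_insert.1 h1 with h2 | h2
        · exact h2
        · exact absurd h2 hx
    · rintro (rfl | rfl)
      · exact ⟨by simp, by rw [insert_erase hj]; exact hS⟩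
      · exact ⟨fun h => hk (mem_erase.1 h).2, hk'⟩
  unfold hT
  rw [hK, Finset.sum_pair hjk]
  have e1 : ({j, k} : Finset ι).erase j = {k} := by
    ext x; simp only [mem_erase, mem_insert, mem_singleton]
    constructor
    · rintro ⟨h1, h2 | h2⟩
      · exact absurd h2 h1
      · exact h2
    · rintro rfl; exact ⟨hjk.symm, Or.inr rfl⟩
  have e2 : ({j, k} : Finset ι).erase k = {j} := by
    ext x; simp only [mem_erase, mem_insert, mem_singleton]
    constructor
    · rintro ⟨h1, h2 | h2⟩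
      · exact h2
      · exact absurd h2 h1
    · rintro rfl; exact ⟨hjk, Or.inl rfl⟩
  rw [e1, e2, Finset.sum_singleton, Finset.sum_singleton, B_comm (u k) (u j)]
  ring

lemma n20 : ∀ m : Fin 5, m + 2 ≠ m := by decide
lemma n21 : ∀ m : Fin 5, m + 2 ≠ m + 1 := by decide
lemma n30 : ∀ m : Fin 5, m + 3 ≠ m := by decide
lemma n31 : ∀ m : Fin 5, m + 3 ≠ m + 1 := by decide
lemma n40 : ∀ m : Fin 5, m + 4 ≠ m := by decide
lemma n41 : ∀ m : Fin 5, m + 4 ≠ m + 1 := by decide

lemma set4_erase3 {a b x y : ι} (hxa : x ≠ a) (hxb : x ≠ b) (hxy : x ≠ y) :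
    ({a, b, x, y} : Finset ι).erase x = {a, b, y} := by
  ext z
  simp only [mem_erase, mem_insert, mem_singleton]
  constructor
  · rintro ⟨h1, h2 | h2 | h2 | h2⟩
    · exact Or.inl h2
    · exact Or.inr (Or.inl h2)
    · exact absurd h2 h1
    · exact Or.inr (Or.inr h2)
  · rintro (rfl | rfl | rfl)
    · exact ⟨hxa.symm, Or.inl rfl⟩
    · exact ⟨hxb.symm, Or.inr (Or.inl rfl)⟩
    · exact ⟨hxy.symm, Or.inr (Or.inr (Or.inr rfl))⟩

lemma Sys.hT_link (hu : Sys u) (τ : ℝ) {a b : ι} {c : Fin 5 → ι}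
    (hc : LinkC (Fc u) a b c) (m : Fin 5) :
    hT u τ {a, b, c (m+1)} = -(3 + B (u (c m)) (u (c (m+2)))) / 4 - τ / 2 := by
  have hS := ((hc.fac {a, b, c m, c (m+1)}).2 ⟨m, rfl⟩).1
  have hS' := ((hc.fac {a, b, c (m+1), c (m+1+1)}).2 ⟨m+1, rfl⟩).1
  rw [ix11] at hS'
  have h01 : c m ≠ c (m+1) := fun h => fin5_succ_ne m (hc.inj h).symm
  have h20 : c (m+2) ≠ c m := fun h => n20 m (hc.inj h)
  have h21 : c (m+2) ≠ c (m+1) := fun h => n21 m (hc.inj h)
  have he : ({a, b, c m, c (m+1)} : Finset ι).erase (c m) = {a, b, c (m+1)} :=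
    set4_erase3 (hc.na m) (hc.nb m) h01
  rw [← he]
  apply hu.hT_eq τ hS (by simp)
  · simp only [mem_insert, mem_singleton, not_or]
    exact ⟨hc.na _, hc.nb _, h20, h21⟩
  · rw [he]
    have : insert (c (m+2)) ({a, b, c (m+1)} : Finset ι) = {a, b, c (m+1), c (m+2)} := by
      ext z; simp only [mem_insert, mem_singleton]; tauto
    rw [this]; exact hS'

lemma Sys.link_ineq (hu : Sys u) {τ : ℝ} (hτ1 : 618/1000 < τ) (hτ2 : τ < 6184/10000)
    (hτ : τ ^ 2 + τ = 1) {a b : ι} (hab : a ≠ b) {c : Fin 5 → ι}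
    (hc : LinkC (Fc u) a b c) :
    ∑ m, hT u τ {a, b, c (m+1)} * hT u τ {a, b, c (m+2)}
        + 34/100 * ∑ m, hT u τ {a, b, c (m+1)} ^ 2 ≤ 0 := by
  have hfac : ∀ m, IsFacet (Fc u) {a, b, c m, c (m+1)} :=
    fun m => ((hc.fac {a, b, c m, c (m+1)}).2 ⟨m, rfl⟩).1
  have hφ : ∀ m, ∃ n : L5, (∀ i, 0 ≤ B n (u i)) ∧
      ∀ i, B n (u i) = 0 ↔ i ∈ ({a, b, c m, c (m+1)} : Finset ι) := by
    intro m
    obtain ⟨φ, h1, h2⟩ := (hfac m).1
    obtain ⟨n, hn⟩ := exists_rep φ
    exact ⟨n, fun i => by rw [← hn]; exact h1 i, fun i => by rw [← hn]; exact h2 i⟩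
  choose n hn0 hn1 using hφ
  have hpos : ∀ m i, i ∉ ({a, b, c m, c (m+1)} : Finset ι) → 0 < B (n m) (u i) := by
    intro m i hi
    exact lt_of_le_of_ne (hn0 m i) (fun h => hi ((hn1 m i).1 h.symm))
  have key := edge_ineq (p := u a) (q := u b) (U := fun m => u (c m)) (n := n)
    (hu.un _ (hfac 0) a (by simp)) (hu.un _ (hfac 0) b (by simp))
    (hu.ed _ (hfac 0) a (by simp) b (by simp) hab)
    (fun m => hu.un _ (hfac m) _ (by simp))
    (fun m => hu.ed _ (hfac m) _ (by simp) _ (by simp)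
      (fun h => fin5_succ_ne m (hc.inj h).symm))
    (fun m => hu.ed _ (hfac m) _ (by simp) _ (by simp) (hc.na m).symm)
    (fun m => hu.ed _ (hfac m) _ (by simp) _ (by simp) (hc.nb m).symm)
    (fun m => (hn1 m a).2 (by simp)) (fun m => (hn1 m b).2 (by simp))
    (fun m => (hn1 m _).2 (by simp)) (fun m => (hn1 m _).2 (by simp))
    (fun m => hpos m _ (by
      simp only [mem_insert, mem_singleton, not_or]
      exact ⟨hc.na _, hc.nb _, fun h => n20 m (hc.inj h), fun h => n21 m (hc.inj h)⟩))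
    (fun m => hpos m _ (by
      simp only [mem_insert, mem_singleton, not_or]
      exact ⟨hc.na _, hc.nb _, fun h => n30 m (hc.inj h), fun h => n31 m (hc.inj h)⟩))
    (fun m => hpos m _ (by
      simp only [mem_insert, mem_singleton, not_or]
      exact ⟨hc.na _, hc.nb _, fun h => n40 m (hc.inj h), fun h => n41 m (hc.inj h)⟩))
    hτ1 hτ2 hτ
  have h2 : ∀ m, hT u τ {a, b, c (m+2)} = -(3 + B (u (c (m+1))) (u (c (m+3)))) / 4 - τ / 2 := by
    intro m
    have := hu.hT_link τ hc (m+1)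
    rw [ix11, ix12] at this
    exact this
  simp only [hu.hT_link τ hc, h2]
  exact key

/-- the Gram entry across a ridge is determined -/
lemma Sys.ridge_value (hu : Sys u) {τ : ℝ} (hτ1 : 618/1000 < τ) (hτ2 : τ < 6184/10000)
    (hτ : τ ^ 2 + τ = 1) {S : Finset ι} (hS : IsFacet (Fc u) S) {j k : ι}
    (hj : j ∈ S) (hk : k ∉ S) (hk' : IsFacet (Fc u) (insert k (S.erase j))) :
    B (u j) (u k) = -3 - 2 * τ := by
  have hz := all_zero (F := Fc u) (hT u τ) (by
    intro t ht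
    rw [mem_flags] at ht
    obtain ⟨hinj, hfac⟩ := ht
    have h01 : t 0 ≠ t 1 := fun h => absurd (hinj h) (by decide)
    obtain ⟨c, hc⟩ := hu.lk _ hfac (t 0) (by simp) (t 1) (by simp) h01
    exact ⟨c, hc, hu.link_ineq hτ1 hτ2 hτ h01 hc⟩)
  have hcard := hu.h4 S hS
  have hcard3 : (S.erase j).card = 3 := by rw [card_erase_of_mem hj]; omega
  obtain ⟨a, b, d, hab, had, hbd, hSe⟩ := Finset.card_eq_three.1 hcard3
  have ha : a ∈ S.erase j := by rw [hSe]; simp
  have hb : b ∈ S.erase j := by rw [hSe]; simp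
  have hd : d ∈ S.erase j := by rw [hSe]; simp
  have hS' : S = {a, b, d, j} := by
    rw [← insert_erase hj, hSe]
    ext z; simp only [mem_insert, mem_singleton]; tauto
  have ht : (![a, b, d, j] : Fin 4 → ι) ∈ flags (Fc u) := by
    rw [mem_flags]
    refine ⟨vec4_inj hab had.symm hbd.symm (mem_erase.1 ha).1.symm (mem_erase.1 hb).1.symm
      (mem_erase.1 hd).1, ?_⟩
    rw [image4, ← hS']; exact hS
  have h1 := hz _ ht
  rw [Xv3, ← hSe, hu.hT_eq τ hS hj hk hk'] at h1
  linarith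

end R179.Mob
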