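import Pool.Agent.R179.MobF

/-!
Propagation: equal combinatorics gives a Lorentz isometry.
-/

set_option linter.unusedSectionVars false

namespace R179.Mob

open Finset Module

variable {ι : Type*} [Fintype ι] [DecidableEq ι] {u w : ι → L5}

lemma tau_exists : ∃ τ : ℝ, 618/1000 < τ ∧ τ < 6184/10000 ∧ τ ^ 2 + τ = 1 := by
  refine ⟨(Real.sqrt 5 - 1) / 2, ?_, ?_, ?_⟩
  · have : (2236/1000 : ℝ) < Real.sqrt 5 := by
      rw [Real.lt_sqrt (by norm_num)]; norm_num
    linarith
  · have : Real.sqrt 5 < 22368/10000 := by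
      rw [Real.sqrt_lt' (by norm_num)]; norm_num
    linarith
  · have := Real.sq_sqrt (show (0:ℝ) ≤ 5 by norm_num)
    linear_combination (1/4) * this

lemma Sys.within (hu : Sys u) (hw : Sys w) (hF : Fc u = Fc w) {S : Finset ι}
    (hS : IsFacet (Fc u) S) {i j : ι} (hi : i ∈ S) (hj : j ∈ S) :
    B (w i) (w j) = B (u i) (u j) := by
  have hS' : IsFacet (Fc w) S := hF ▸ hS
  by_cases hij : i = j
  · subst hij; rw [hu.un S hS i hi, hw.un S hS' i hi]
  · rw [hu.ed S hS i hi j hj hij, hw.ed S hS' i hi j hj hij]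

lemma Sys.across (hu : Sys u) (hw : Sys w) (hF : Fc u = Fc w) {S : Finset ι}
    (hS : IsFacet (Fc u) S) {j k : ι} (hj : j ∈ S) (hk : k ∉ S)
    (hk' : IsFacet (Fc u) (insert k (S.erase j))) {i : ι} (hi : i ∈ S) :
    B (w k) (w i) = B (u k) (u i) := by
  by_cases hij : i = j
  · subst hij
    obtain ⟨τ, h1, h2, h3⟩ := tau_exists
    rw [B_comm (w k), B_comm (u k), hu.ridge_value h1 h2 h3 hS hj hk hk']
    rw [hF] at hS hk'
    rw [hw.ridge_value h1 h2 h3 hS hj hk hk']
  · exact hu.within hw hF hk' (mem_insert_self _ _) (mem_insert_of_mem (mem_erase.2 ⟨hij, hi⟩))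

lemma span_five {u : ι → L5} (hsp : Submodule.span ℝ (Set.range u) = ⊤) {S : Finset ι}
    (hS : IsFacet (Fc u) S) {k : ι} (hk : k ∉ S) :
    Submodule.span ℝ (Set.range (fun i : (insert k S : Finset ι) => u i)) = ⊤ := by
  by_contra h
  obtain ⟨f, hf0, hf⟩ := Submodule.exists_le_ker_of_lt_top _ (lt_top_iff_ne_top.2 h)
  have hfv : ∀ i ∈ insert k S, f (u i) = 0 := by
    intro i hi
    exact hf (Submodule.subset_span ⟨⟨i, hi⟩, rfl⟩)
  obtain ⟨φ, hφ⟩ := hS.1
  obtain ⟨c, hc⟩ := facet_unique hsp hS hφ (g := f) (fun i hi => hfv i (mem_insert_of_mem hi))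
  have h1 := hfv k (mem_insert_self _ _)
  rw [hc, LinearMap.smul_apply, smul_eq_mul, mul_eq_zero] at h1
  rcases h1 with h1 | h1
  · apply hf0; rw [hc, h1, zero_smul]
  · exact hk ((hφ.2 k).1 h1)

/-- equal combinatorics gives a Lorentz isometry -/
lemma propagate (hu : Sys u) (hw : Sys w) (hF : Fc u = Fc w) {S0 : Finset ι}
    (hS0 : IsFacet (Fc u) S0) :
    ∃ A : L5 ≃ₗ[ℝ] L5, (∀ x y, B (A x) (A y) = B x y) ∧
      ∀ S, IsFacet (Fc u) S → ∀ i ∈ S, A (u i) = w i := by
  classical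
  have hcard0 := hu.h4 S0 hS0
  obtain ⟨j0, hj0⟩ : S0.Nonempty := by rw [← Finset.card_pos]; omega
  obtain ⟨φ0, hφ0⟩ := hS0.1
  obtain ⟨-, -, k0, -, -, -, hk0, hfac0, -, -⟩ := neighbour hu.sp finrank_L5 hu.h4 hS0 hφ0 hj0
  have hS0w : IsFacet (Fc w) S0 := hF ▸ hS0
  have hcR : Fintype.card (insert k0 S0 : Finset ι) = finrank ℝ L5 := by
    rw [Fintype.card_coe, card_insert_of_notMem hk0, hcard0, finrank_L5]
  let bu := basisOfTopLeSpanOfCardEqFinrank (fun i : (insert k0 S0 : Finset ι) => u i)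
    (span_five hu.sp hS0 hk0).ge hcR
  let bw := basisOfTopLeSpanOfCardEqFinrank (fun i : (insert k0 S0 : Finset ι) => w i)
    (span_five hw.sp hS0w hk0).ge hcR
  have hbu : ∀ i, bu i = u i := fun i => by simp [bu]
  have hbw : ∀ i, bw i = w i := fun i => by simp [bw]
  let A : L5 ≃ₗ[ℝ] L5 := bu.equiv bw (Equiv.refl _)
  have hA0 : ∀ i ∈ insert k0 S0, A (u i) = w i := by
    intro i hi
    have := Basis.equiv_apply bu ⟨i, hi⟩ bw (Equiv.refl _)
    rw [hbu] at this
    rw [Equiv.refl_apply, hbw] at this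
    exact this
  have hgram : ∀ i ∈ insert k0 S0, ∀ j ∈ insert k0 S0, B (w i) (w j) = B (u i) (u j) := by
    intro i hi j hj
    rcases mem_insert.1 hi with hik | hi'
    · rcases mem_insert.1 hj with hjk | hj'
      · rw [hik, hjk]
        exact hu.within hw hF hfac0 (mem_insert_self _ _) (mem_insert_self _ _)
      · rw [hik]
        exact hu.across hw hF hS0 hj0 hk0 hfac0 hj'
    · rcases mem_insert.1 hj with hjk | hj'
      · rw [hjk, B_comm, B_comm (u i)]
        exact hu.across hw hF hS0 hj0 hk0 hfac0 hi'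
      · exact hu.within hw hF hS0 hi' hj'
  have hAB : B.compl₁₂ (A : L5 →ₗ[ℝ] L5) (A : L5 →ₗ[ℝ] L5) = B := by
    apply LinearMap.ext_basis bu bu
    intro i j
    rw [LinearMap.compl₁₂_apply, hbu, hbu]
    simp only [LinearEquiv.coe_coe]
    rw [hA0 _ i.2, hA0 _ j.2]
    exact hgram _ i.2 _ j.2
  have hiso : ∀ x y, B (A x) (A y) = B x y := by
    intro x y
    have := congrArg (fun f => f x y) hAB
    simpa using this
  refine ⟨A, hiso, ?_⟩
  -- propagation
  suffices hmain : ∀ S, IsFacet (Fc u) S →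
      ((∀ i ∈ S, A (u i) = w i) ∧ ∃ m, m ∉ S ∧ A (u m) = w m) from
    fun S hS => (hmain S hS).1
  intro S hS
  refine facet_induction hu.sp finrank_L5 hu.h4
    (P := fun S => (∀ i ∈ S, A (u i) = w i) ∧ ∃ m, m ∉ S ∧ A (u m) = w m) hS0
    ⟨fun i hi => hA0 i (mem_insert_of_mem hi), k0, hk0, hA0 k0 (mem_insert_self _ _)⟩ ?_ hS
  intro S j k hS ⟨hin, m, hmS, hm⟩ hj hk hk'
  obtain ⟨φ, hφ⟩ := hS.1
  have hSw : IsFacet (Fc w) S := hF ▸ hS
  obtain ⟨φ', hφ'⟩ := hSw.1
  obtain ⟨c, hc⟩ := facet_unique hu.sp hS hφ (g := φ' ∘ₗ (A : L5 →ₗ[ℝ] L5)) (by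
    intro i hi
    simp only [LinearMap.comp_apply, LinearEquiv.coe_coe]
    rw [hin i hi]
    exact (hφ'.2 i).2 hi)
  have hcv : ∀ x, φ' (A x) = c * φ x := by
    intro x
    have := congrArg (fun f => f x) hc
    simpa using this
  have hpos : ∀ {v : ι → L5} {ψ : Dual ℝ L5}, Supp v S ψ → ∀ i, i ∉ S → 0 < ψ (v i) :=
    fun hψ i hi => lt_of_le_of_ne (hψ.1 i) (fun h => hi ((hψ.2 i).1 h.symm))
  have hcpos : 0 < c := by
    have h1 := hcv (u m)
    rw [hm] at h1
    have h2 := hpos hφ' m hmS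
    rw [h1] at h2
    exact pos_of_mul_pos_left h2 (hpos hφ m hmS).le
  have hφk : 0 < φ' (A (u k)) := by
    rw [hcv]; exact mul_pos hcpos (hpos hφ k hk)
  have hφk' : 0 < φ' (w k) := hpos hφ' k hk
  have hkey : A (u k) = w k := by
    -- delta is orthogonal to everything
    have h1 : ∀ i ∈ S, B (w k - A (u k)) (w i) = 0 := by
      intro i hi
      rw [map_sub, LinearMap.sub_apply, hu.across hw hF hS hj hk hk' hi]
      conv_lhs => rw [← hin i hi]
      rw [hiso]
      ring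
    obtain ⟨c', hc'⟩ := facet_unique hw.sp hSw hφ' (g := B (w k - A (u k))) h1
    have h2 : B (w k - A (u k)) (w k + A (u k)) = 0 := by
      have e1 : B (w k) (w k) = B (A (u k)) (A (u k)) := by
        rw [hiso]
        exact hu.within hw hF hk' (mem_insert_self _ _) (mem_insert_self _ _)
      simp only [map_sub, map_add, LinearMap.sub_apply]
      rw [e1, B_comm (w k) (A (u k))]
      ring
    have h3 : c' = 0 := by
      rw [hc', LinearMap.smul_apply, map_add, smul_eq_mul, mul_eq_zero] at h2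
      rcases h2 with h | h
      · exact h
      · linarith
    have h4 : w k - A (u k) = 0 := by
      apply B_nondeg
      intro y
      rw [hc', h3]; simp
    exact (sub_eq_zero.1 h4).symm
  refine ⟨fun i hi => ?_, j, ?_, hin j hj⟩
  · rcases mem_insert.1 hi with rfl | hi
    · exact hkey
    · exact hin i (mem_erase.1 hi).2
  · simp only [mem_insert, mem_erase, ne_eq, not_true_eq_false, false_and, or_false]
    exact fun h => hk (h ▸ hj)

end R179.Mob
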