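import Pool.Agent.R179.MobE

/-!
If an edge lies in exactly five facets then its link is a pentagon.
-/

set_option linter.unusedSectionVars false

namespace R179.Mob

open Finset Module

variable {ι : Type*} [Fintype ι] [DecidableEq ι]

lemma vec5_inj {ι : Type*} {a b c d e : ι} (hab : a ≠ b) (hac : a ≠ c) (had : a ≠ d) (hae : a ≠ e)
    (hbc : b ≠ c) (hbd : b ≠ d) (hbe : b ≠ e) (hcd : c ≠ d) (hce : c ≠ e) (hde : d ≠ e) :
    Function.Injective ![a, b, c, d, e] := by
  intro i j hij
  fin_cases i <;> fin_cases j <;> simp_all [eq_comm]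

/-- abstract graph lemma: `f x y` are the edges, at most five of them, every vertex of degree two -/
lemma five_cycle {β : Type*} [DecidableEq β] (R : ι → ι → Prop) (f : ι → ι → β) (E : Finset β)
    (hE : E.card = 5) (hsymm : ∀ x y, R x y → R y x) (hirr : ∀ x, ¬ R x x)
    (hf : ∀ x y x' y', R x y → R x' y' → f x y = f x' y' →
      (x = x' ∧ y = y') ∨ (x = y' ∧ y = x'))
    (hfs : ∀ x y, f x y = f y x)
    (hmem : ∀ T, T ∈ E ↔ ∃ x y, R x y ∧ T = f x y)
    (hdeg : ∀ x y, R x y → ∃ z, z ≠ x ∧ R y z ∧ ∀ w, R y w → w = x ∨ w = z) :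
    ∃ c : Fin 5 → ι, Function.Injective c ∧ (∀ m, R (c m) (c (m+1))) ∧
      ∀ T, T ∈ E ↔ ∃ m, T = f (c m) (c (m+1)) := by
  obtain ⟨T0', hT0'⟩ : E.Nonempty := by rw [← Finset.card_pos]; omega
  obtain ⟨x0, x1, h01, -⟩ := (hmem _).1 hT0'
  obtain ⟨x2, h20, h12, u1⟩ := hdeg _ _ h01
  obtain ⟨x3, h31, h23, u2⟩ := hdeg _ _ h12
  obtain ⟨x4, h42, h34, u3⟩ := hdeg _ _ h23
  obtain ⟨x5, h53, h45, u4⟩ := hdeg _ _ h34
  have hne : ∀ {x y}, R x y → x ≠ y := by
    intro x y h hxy; rw [hxy] at h; exact hirr _ h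
  have n01 := hne h01
  have n12 := hne h12
  have n23 := hne h23
  have n34 := hne h34
  have n45 := hne h45
  have m : ∀ {x y}, R x y → f x y ∈ E := fun h => (hmem _).2 ⟨_, _, h, rfl⟩
  -- edges are determined by membership
  have key : ∀ {x y z w}, R x y → R z w → f x y = f z w → (x = z ∨ x = w) ∧ (y = z ∨ y = w) := by
    intro x y z w h1 h2 h3
    rcases hf _ _ _ _ h1 h2 h3 with ⟨rfl, rfl⟩ | ⟨rfl, rfl⟩
    · exact ⟨Or.inl rfl, Or.inr rfl⟩
    · exact ⟨Or.inr rfl, Or.inl rfl⟩
  have hA : x3 ≠ x0 := by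
    intro h
    subst h
    have h41 : x4 = x1 := by
      rcases u3 _ h01 with h | h
      · exact absurd h n12
      · exact h.symm
    -- neighbours of x3 = x0 are x2, x1
    have hcl : ∀ x, (x = x3 ∨ x = x1 ∨ x = x2) → ∀ y, R x y → (y = x3 ∨ y = x1 ∨ y = x2) := by
      rintro x (rfl | rfl | rfl) y hy
      · rcases u3 _ hy with h | h
        · exact Or.inr (Or.inr h)
        · exact Or.inr (Or.inl (h.trans h41))
      · rcases u1 _ hy with h | h
        · exact Or.inl h
        · exact Or.inr (Or.inr h)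
      · rcases u2 _ hy with h | h
        · exact Or.inr (Or.inl h)
        · exact Or.inl h
    have e1 : f x3 x1 ≠ f x1 x2 := fun h => by
      rcases (key h01 h12 h).1 with h | h
      · exact n01 h
      · exact n23 h.symm
    have e2 : f x1 x2 ≠ f x2 x3 := fun h => by
      rcases (key h12 h23 h).1 with h | h
      · exact n12 h
      · exact n01 h.symm
    have e3 : f x3 x1 ≠ f x2 x3 := fun h => by
      rcases (key h01 h23 h).2 with h | h
      · exact n12 h
      · exact n01 h.symm
    have hlt : ({f x3 x1, f x1 x2, f x2 x3} : Finset β).card < E.card := by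
      rw [hE]
      exact lt_of_le_of_lt Finset.card_le_three (by norm_num)
    obtain ⟨T, hTE, hT⟩ := Finset.exists_mem_notMem_of_card_lt_card hlt
    obtain ⟨p, q, hpq, rfl⟩ := (hmem _).1 hTE
    simp only [mem_insert, mem_singleton, not_or] at hT
    have hp : ∀ {p q}, R p q → f p q ≠ f x3 x1 → f p q ≠ f x1 x2 → f p q ≠ f x2 x3 →
        ¬ (p = x3 ∨ p = x1 ∨ p = x2) := by
      rintro p q hpq g1 g2 g3 (rfl | rfl | rfl)
      · rcases u3 _ hpq with h | h
        · exact g3 (by rw [h, hfs])
        · exact g1 (by rw [h, h41])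
      · rcases u1 _ hpq with h | h
        · exact g1 (by rw [h, hfs])
        · exact g2 (by rw [h])
      · rcases u2 _ hpq with h | h
        · exact g2 (by rw [h, hfs])
        · exact g3 (by rw [h])
    have hq : ¬ (q = x3 ∨ q = x1 ∨ q = x2) := by
      apply hp (hsymm _ _ hpq)
      · rw [hfs]; exact hT.1
      · rw [hfs]; exact hT.2.1
      · rw [hfs]; exact hT.2.2
    obtain ⟨r, hrp, hqr, uq⟩ := hdeg _ _ hpq
    obtain ⟨s, hsq, hrs, ur⟩ := hdeg _ _ hqr
    have hr : ¬ (r = x3 ∨ r = x1 ∨ r = x2) := fun h => hq (hcl _ h _ (hsymm _ _ hqr))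
    have out : ∀ {x y z w}, R x y → ¬ (x = x3 ∨ x = x1 ∨ x = x2) → R z w →
        (z = x3 ∨ z = x1 ∨ z = x2) → (w = x3 ∨ w = x1 ∨ w = x2) → f z w ≠ f x y := by
      intro x y z w h1 h2 h3 h4 h5 h6
      rcases (key h1 h3 h6.symm).1 with h | h
      · exact h2 (h ▸ h4)
      · exact h2 (h ▸ h5)
    have d1 : f p q ≠ f q r := fun h => by
      rcases (key hpq hqr h).1 with h | h
      · exact hne hpq h
      · exact hrp h.symm
    have d2 : f q r ≠ f r s := fun h => by
      rcases (key hqr hrs h).1 with h | h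
      · exact hne hqr h
      · exact hsq h.symm
    have d3 : f p q ≠ f r s := fun h => by
      rcases (key hrs hpq h.symm).1 with h | h
      · exact hrp h
      · exact hne hqr h.symm
    have i3 : (x3 = x3 ∨ x3 = x1 ∨ x3 = x2) := Or.inl rfl
    have i1 : (x1 = x3 ∨ x1 = x1 ∨ x1 = x2) := Or.inr (Or.inl rfl)
    have i2 : (x2 = x3 ∨ x2 = x1 ∨ x2 = x2) := Or.inr (Or.inr rfl)
    have hcard : ({f x3 x1, f x1 x2, f x2 x3, f p q, f q r, f r s} : Finset β).card = 6 := by
      rw [card_insert_of_notMem, card_insert_of_notMem, card_insert_of_notMem,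
        card_insert_of_notMem, card_insert_of_notMem, card_singleton]
      · simp only [mem_singleton]; exact d2
      · simp only [mem_insert, mem_singleton, not_or]; exact ⟨d1, d3⟩
      · simp only [mem_insert, mem_singleton, not_or]
        exact ⟨fun h => hT.2.2 h.symm, out hqr hq h23 i2 i3, out hrs hr h23 i2 i3⟩
      · simp only [mem_insert, mem_singleton, not_or]
        exact ⟨e2, fun h => hT.2.1 h.symm, out hqr hq h12 i1 i2, out hrs hr h12 i1 i2⟩
      · simp only [mem_insert, mem_singleton, not_or]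
        exact ⟨e1, e3, fun h => hT.1 h.symm, out hqr hq h01 i3 i1, out hrs hr h01 i3 i1⟩
    have hsub : ({f x3 x1, f x1 x2, f x2 x3, f p q, f q r, f r s} : Finset β) ⊆ E := by
      intro T hT
      simp only [mem_insert, mem_singleton] at hT
      rcases hT with rfl | rfl | rfl | rfl | rfl | rfl
      exacts [m h01, m h12, m h23, m hpq, m hqr, m hrs]
    have := Finset.card_le_card hsub
    omega
  have hB : x4 ≠ x1 := by
    intro h
    rw [h] at h34
    rcases u1 _ (hsymm _ _ h34) with h | h
    · exact hA h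
    · exact n23 h.symm
  have t01 : f x0 x1 ≠ f x1 x2 := fun h => by
    rcases (key h01 h12 h).1 with h | h
    · exact n01 h
    · exact h20 h.symm
  have t12 : f x1 x2 ≠ f x2 x3 := fun h => by
    rcases (key h12 h23 h).1 with h | h
    · exact n12 h
    · exact h31 h.symm
  have t23 : f x2 x3 ≠ f x3 x4 := fun h => by
    rcases (key h23 h34 h).1 with h | h
    · exact n23 h
    · exact h42 h.symm
  have t02 : f x0 x1 ≠ f x2 x3 := fun h => by
    rcases (key h01 h23 h).1 with h | h
    · exact h20 h.symm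
    · exact hA h.symm
  have t13 : f x1 x2 ≠ f x3 x4 := fun h => by
    rcases (key h12 h34 h).1 with h | h
    · exact h31 h.symm
    · exact hB h.symm
  have hC : x4 ≠ x0 := by
    intro h
    subst h
    have h51 : x5 = x1 := by
      rcases u4 _ h01 with h | h
      · exact absurd h.symm h31
      · exact h.symm
    have hcl : ∀ x, (x = x4 ∨ x = x1 ∨ x = x2 ∨ x = x3) → ∀ y, R x y →
        (y = x4 ∨ y = x1 ∨ y = x2 ∨ y = x3) := by
      rintro x (rfl | rfl | rfl | rfl) y hy
      · rcases u4 _ hy with h | h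
        · exact Or.inr (Or.inr (Or.inr h))
        · exact Or.inr (Or.inl (h.trans h51))
      · rcases u1 _ hy with h | h
        · exact Or.inl h
        · exact Or.inr (Or.inr (Or.inl h))
      · rcases u2 _ hy with h | h
        · exact Or.inr (Or.inl h)
        · exact Or.inr (Or.inr (Or.inr h))
      · rcases u3 _ hy with h | h
        · exact Or.inr (Or.inr (Or.inl h))
        · exact Or.inl h
    have t03 : f x4 x1 ≠ f x3 x4 := fun h => by
      rcases (key h01 h34 h).2 with h | h
      · exact h31 h.symm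
      · exact n01 h.symm
    have hlt : ({f x4 x1, f x1 x2, f x2 x3, f x3 x4} : Finset β).card < E.card := by
      rw [hE]
      exact lt_of_le_of_lt Finset.card_le_four (by norm_num)
    obtain ⟨T, hTE, hT⟩ := Finset.exists_mem_notMem_of_card_lt_card hlt
    obtain ⟨p, q, hpq, rfl⟩ := (hmem _).1 hTE
    simp only [mem_insert, mem_singleton, not_or] at hT
    have hp : ∀ {p q}, R p q → f p q ≠ f x4 x1 → f p q ≠ f x1 x2 → f p q ≠ f x2 x3 →
        f p q ≠ f x3 x4 → ¬ (p = x4 ∨ p = x1 ∨ p = x2 ∨ p = x3) := by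
      rintro p q hpq g1 g2 g3 g4 (rfl | rfl | rfl | rfl)
      · rcases u4 _ hpq with h | h
        · exact g4 (by rw [h, hfs])
        · exact g1 (by rw [h, h51])
      · rcases u1 _ hpq with h | h
        · exact g1 (by rw [h, hfs])
        · exact g2 (by rw [h])
      · rcases u2 _ hpq with h | h
        · exact g2 (by rw [h, hfs])
        · exact g3 (by rw [h])
      · rcases u3 _ hpq with h | h
        · exact g3 (by rw [h, hfs])
        · exact g4 (by rw [h])
    have hq : ¬ (q = x4 ∨ q = x1 ∨ q = x2 ∨ q = x3) := by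
      apply hp (hsymm _ _ hpq)
      · rw [hfs]; exact hT.1
      · rw [hfs]; exact hT.2.1
      · rw [hfs]; exact hT.2.2.1
      · rw [hfs]; exact hT.2.2.2
    obtain ⟨r, hrp, hqr, uq⟩ := hdeg _ _ hpq
    have out : ∀ {x y z w}, R x y → ¬ (x = x4 ∨ x = x1 ∨ x = x2 ∨ x = x3) → R z w →
        (z = x4 ∨ z = x1 ∨ z = x2 ∨ z = x3) → (w = x4 ∨ w = x1 ∨ w = x2 ∨ w = x3) →
        f z w ≠ f x y := by
      intro x y z w h1 h2 h3 h4 h5 h6
      rcases (key h1 h3 h6.symm).1 with h | h
      · exact h2 (h ▸ h4)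
      · exact h2 (h ▸ h5)
    have d1 : f p q ≠ f q r := fun h => by
      rcases (key hpq hqr h).1 with h | h
      · exact hne hpq h
      · exact hrp h.symm
    have i4 : (x4 = x4 ∨ x4 = x1 ∨ x4 = x2 ∨ x4 = x3) := Or.inl rfl
    have i1 : (x1 = x4 ∨ x1 = x1 ∨ x1 = x2 ∨ x1 = x3) := Or.inr (Or.inl rfl)
    have i2 : (x2 = x4 ∨ x2 = x1 ∨ x2 = x2 ∨ x2 = x3) := Or.inr (Or.inr (Or.inl rfl))
    have i3 : (x3 = x4 ∨ x3 = x1 ∨ x3 = x2 ∨ x3 = x3) := Or.inr (Or.inr (Or.inr rfl))
    have hcard : ({f x4 x1, f x1 x2, f x2 x3, f x3 x4, f p q, f q r} : Finset β).card = 6 := by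
      rw [card_insert_of_notMem, card_insert_of_notMem, card_insert_of_notMem,
        card_insert_of_notMem, card_insert_of_notMem, card_singleton]
      · simp only [mem_singleton]; exact d1
      · simp only [mem_insert, mem_singleton, not_or]
        exact ⟨fun h => hT.2.2.2 h.symm, out hqr hq h34 i3 i4⟩
      · simp only [mem_insert, mem_singleton, not_or]
        exact ⟨t23, fun h => hT.2.2.1 h.symm, out hqr hq h23 i2 i3⟩
      · simp only [mem_insert, mem_singleton, not_or]
        exact ⟨t12, t13, fun h => hT.2.1 h.symm, out hqr hq h12 i1 i2⟩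
      · simp only [mem_insert, mem_singleton, not_or]
        exact ⟨t01, t02, t03, fun h => hT.1 h.symm, out hqr hq h01 i4 i1⟩
    have hsub : ({f x4 x1, f x1 x2, f x2 x3, f x3 x4, f p q, f q r} : Finset β) ⊆ E := by
      intro T hT
      simp only [mem_insert, mem_singleton] at hT
      rcases hT with rfl | rfl | rfl | rfl | rfl | rfl
      exacts [m h01, m h12, m h23, m h34, m hpq, m hqr]
    have := Finset.card_le_card hsub
    omega
  have t03 : f x0 x1 ≠ f x3 x4 := fun h => by
    rcases (key h01 h34 h).1 with h | h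
    · exact hA h.symm
    · exact hC h.symm
  have t34 : f x3 x4 ≠ f x4 x5 := fun h => by
    rcases (key h34 h45 h).1 with h | h
    · exact n34 h
    · exact h53 h.symm
  have t24 : f x2 x3 ≠ f x4 x5 := fun h => by
    rcases (key h45 h23 h.symm).1 with h | h
    · exact h42 h
    · exact n34 h.symm
  have t14 : f x1 x2 ≠ f x4 x5 := fun h => by
    rcases (key h45 h12 h.symm).1 with h | h
    · exact hB h
    · exact h42 h
  have t04 : f x0 x1 ≠ f x4 x5 := fun h => by
    rcases (key h45 h01 h.symm).1 with h | h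
    · exact hC h
    · exact hB h
  have hcard : ({f x0 x1, f x1 x2, f x2 x3, f x3 x4, f x4 x5} : Finset β).card = 5 := by
    rw [card_insert_of_notMem, card_insert_of_notMem, card_insert_of_notMem,
      card_insert_of_notMem, card_singleton]
    · simp only [mem_singleton]; exact t34
    · simp only [mem_insert, mem_singleton, not_or]; exact ⟨t23, t24⟩
    · simp only [mem_insert, mem_singleton, not_or]; exact ⟨t12, t13, t14⟩
    · simp only [mem_insert, mem_singleton, not_or]; exact ⟨t01, t02, t03, t04⟩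
  have hsub : ({f x0 x1, f x1 x2, f x2 x3, f x3 x4, f x4 x5} : Finset β) ⊆ E := by
    intro T hT
    simp only [mem_insert, mem_singleton] at hT
    rcases hT with rfl | rfl | rfl | rfl | rfl
    exacts [m h01, m h12, m h23, m h34, m h45]
  have hEeq : ({f x0 x1, f x1 x2, f x2 x3, f x3 x4, f x4 x5} : Finset β) = E :=
    Finset.eq_of_subset_of_card_le hsub (by omega)
  have h50 : x5 = x0 := by
    obtain ⟨z, hz1, h0z, -⟩ := hdeg _ _ (hsymm _ _ h01)
    have hin := m h0z
    rw [← hEeq] at hin
    simp only [mem_insert, mem_singleton] at hin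
    rcases hin with h | h | h | h | h
    · rcases (key h0z h01 h).2 with h | h
      · exact absurd h.symm (hne h0z)
      · exact absurd h hz1
    · rcases (key h0z h12 h).1 with h | h
      · exact absurd h n01
      · exact absurd h.symm h20
    · rcases (key h0z h23 h).1 with h | h
      · exact absurd h.symm h20
      · exact absurd h.symm hA
    · rcases (key h0z h34 h).1 with h | h
      · exact absurd h.symm hA
      · exact absurd h.symm hC
    · rcases (key h0z h45 h).1 with h | h
      · exact absurd h.symm hC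
      · exact h.symm
  rw [h50] at h45 hEeq
  refine ⟨![x0, x1, x2, x3, x4], ?_, ?_, ?_⟩
  · exact vec5_inj n01 h20.symm hA.symm hC.symm n12 h31.symm hB.symm n23 h42.symm n34
  · intro i
    fin_cases i
    exacts [h01, h12, h23, h34, h45]
  · intro T
    rw [← hEeq]
    simp only [mem_insert, mem_singleton]
    constructor
    · rintro (rfl | rfl | rfl | rfl | rfl)
      exacts [⟨0, rfl⟩, ⟨1, rfl⟩, ⟨2, rfl⟩, ⟨3, rfl⟩, ⟨4, rfl⟩]
    · rintro ⟨i, rfl⟩
      fin_cases i
      · exact Or.inl rfl
      · exact Or.inr (Or.inl rfl)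
      · exact Or.inr (Or.inr (Or.inl rfl))
      · exact Or.inr (Or.inr (Or.inr (Or.inl rfl)))
      · exact Or.inr (Or.inr (Or.inr (Or.inr rfl)))

end R179.Mob
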