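import Pool.Agent.R179.MobG
import Pool.Agent.R179.MobH

/-!
From edge-scribed polytopes to systems of Lorentz vectors.
-/

set_option linter.unusedSectionVars false

namespace R179.Mob

open Finset Module

section link
variable {ι : Type*} [Fintype ι] [DecidableEq ι]
variable {L : Type*} [AddCommGroup L] [Module ℝ L] [FiniteDimensional ℝ L]

lemma pair_eq4 {a b x y x' y' : ι} (hxa : x ≠ a) (hxb : x ≠ b) (hya : y ≠ a)
    (hyb : y ≠ b) (hxy : x ≠ y)
    (h : ({a, b, x, y} : Finset ι) = {a, b, x', y'}) : (x = x' ∧ y = y') ∨ (x = y' ∧ y = x') := by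
  have h1 : x ∈ ({a, b, x', y'} : Finset ι) := by rw [← h]; simp
  have h2 : y ∈ ({a, b, x', y'} : Finset ι) := by rw [← h]; simp
  simp only [mem_insert, mem_singleton, hxa, hxb, hya, hyb, false_or] at h1 h2
  rcases h1 with h1 | h1 <;> rcases h2 with h2 | h2
  · exact absurd (h1.trans h2.symm) hxy
  · exact Or.inl ⟨h1, h2⟩
  · exact Or.inr ⟨h1, h2⟩
  · exact absurd (h1.trans h2.symm) hxy

open Classical in
lemma link_of_five {u : ι → L} (hsp : Submodule.span ℝ (Set.range u) = ⊤)
    (hd : finrank ℝ L = 5) (h4 : ∀ S, IsFacet (Fc u) S → S.card = 4) {a b : ι} (hab : a ≠ b)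
    (h5 : (univ.filter (fun S : Finset ι => IsFacet (Fc u) S ∧ a ∈ S ∧ b ∈ S)).card = 5) :
    ∃ c, LinkC (Fc u) a b c := by
  obtain ⟨c, hinj, hR, hc⟩ := five_cycle
    (R := fun x y => x ≠ a ∧ x ≠ b ∧ y ≠ a ∧ y ≠ b ∧ x ≠ y ∧ IsFacet (Fc u) {a, b, x, y})
    (f := fun x y => ({a, b, x, y} : Finset ι))
    (E := univ.filter (fun S : Finset ι => IsFacet (Fc u) S ∧ a ∈ S ∧ b ∈ S)) h5
    (by
      rintro x y ⟨h1, h2, h3, h4, h5, h6⟩
      refine ⟨h3, h4, h1, h2, h5.symm, ?_⟩
      have : ({a, b, y, x} : Finset ι) = {a, b, x, y} := by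
        congr 2; exact Finset.pair_comm _ _
      rw [this]; exact h6)
    (fun x h => h.2.2.2.2.1 rfl)
    (by
      rintro x y x' y' ⟨h1, h2, h3, h4, h5, h6⟩ _ h
      exact pair_eq4 h1 h2 h3 h4 h5 h)
    (fun x y => by congr 2; exact Finset.pair_comm _ _)
    (by
      intro T
      simp only [mem_filter, mem_univ, true_and]
      constructor
      · rintro ⟨hT, ha, hb⟩
        have hcard := h4 T hT
        have h2 : ((T.erase a).erase b).card = 2 := by
          rw [card_erase_of_mem (mem_erase.2 ⟨hab.symm, hb⟩), card_erase_of_mem ha]; omega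
        obtain ⟨x, y, hxy, he⟩ := Finset.card_eq_two.1 h2
        have hx : x ∈ (T.erase a).erase b := by rw [he]; simp
        have hy : y ∈ (T.erase a).erase b := by rw [he]; simp
        simp only [mem_erase] at hx hy
        have hT' : T = {a, b, x, y} := by
          rw [← insert_erase ha, ← insert_erase (mem_erase.2 ⟨hab.symm, hb⟩), he]
        exact ⟨x, y, ⟨hx.2.1, hx.1, hy.2.1, hy.1, hxy, by rw [← hT']; exact hT⟩, hT'⟩
      · rintro ⟨x, y, ⟨-, -, -, -, -, h⟩, rfl⟩
        exact ⟨h, by simp, by simp⟩)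
    (by
      rintro x y ⟨hxa, hxb, hya, hyb, hxy, hS⟩
      obtain ⟨φ, hφ⟩ := hS.1
      obtain ⟨g, t, k, -, -, -, hk, hfac, -, huniq⟩ :=
        neighbour hsp hd h4 hS hφ (j := x) (by simp)
      rw [set4_erase3 hxa hxb hxy] at hfac huniq
      simp only [mem_insert, mem_singleton, not_or] at hk
      have he : insert k ({a, b, y} : Finset ι) = {a, b, y, k} := by
        ext z; simp only [mem_insert, mem_singleton]; tauto
      rw [he] at hfac huniq
      refine ⟨k, hk.2.2.1, ⟨hya, hyb, hk.1, hk.2.1, fun h => hk.2.2.2 h.symm, hfac⟩, ?_⟩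
      rintro w ⟨-, -, hwa, hwb, hyw, hw⟩
      rcases huniq _ hw (by
        intro z hz
        simp only [mem_insert, mem_singleton] at hz ⊢
        tauto) with h | h
      · left
        have : w ∈ ({a, b, x, y} : Finset ι) := by rw [← h]; simp
        simp only [mem_insert, mem_singleton] at this
        rcases this with h | h | h | h
        · exact absurd h hwa
        · exact absurd h hwb
        · exact h
        · exact absurd h.symm hyw
      · right
        have : w ∈ ({a, b, y, k} : Finset ι) := by rw [← h]; simp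
        simp only [mem_insert, mem_singleton] at this
        rcases this with h | h | h | h
        · exact absurd h hwa
        · exact absurd h hwb
        · exact absurd h.symm hyw
        · exact h)
  refine ⟨c, hinj, fun m => (hR m).1, fun m => (hR m).2.1, fun T => ?_⟩
  rw [← hc T]
  simp

end link

lemma tangent_calc {a b x : E4} (hx : x ∈ openSegment ℝ a b) (h1 : ‖x‖ = 1)
    (h2 : inner ℝ x (b - a) = 0) (hab : a ≠ b) :
    1 < ‖a‖ ^ 2 ∧ 1 < ‖b‖ ^ 2 ∧
      inner ℝ a b - 1 = - (Real.sqrt (‖a‖ ^ 2 - 1) * Real.sqrt (‖b‖ ^ 2 - 1)) := by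
  obtain ⟨s, t, hs, ht, hst, hx⟩ := hx
  obtain ⟨d, hd⟩ : ∃ d, d = b - a := ⟨_, rfl⟩
  have ha : a = x - t • d := by
    rw [← hx, hd, smul_sub]
    have : s = 1 - t := by linarith
    rw [this, sub_smul, one_smul]; abel
  have hb : b = x + s • d := by
    rw [← hx, hd, smul_sub]
    have : t = 1 - s := by linarith
    rw [this, sub_smul, one_smul]; abel
  rw [← hd] at h2
  have hd0 : 0 < ‖d‖ := norm_pos_iff.2 (by rw [hd]; exact sub_ne_zero.2 hab.symm)
  have hna : ‖a‖ ^ 2 = 1 + (t * ‖d‖) ^ 2 := by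
    rw [ha, norm_sub_sq_real, inner_smul_right, h2, norm_smul, h1, Real.norm_eq_abs,
      abs_of_pos ht]
    ring
  have hnb : ‖b‖ ^ 2 = 1 + (s * ‖d‖) ^ 2 := by
    rw [hb, norm_add_sq_real, inner_smul_right, h2, norm_smul, h1, Real.norm_eq_abs,
      abs_of_pos hs]
    ring
  have hin : inner ℝ a b - 1 = - (t * ‖d‖ * (s * ‖d‖)) := by
    rw [ha, hb, inner_add_right, inner_sub_left, inner_sub_left, inner_smul_left,
      inner_smul_right, inner_smul_left, inner_smul_right, real_inner_comm x d, h2,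
      real_inner_self_eq_norm_sq, real_inner_self_eq_norm_sq, h1]
    simp only [conj_trivial]
    ring
  refine ⟨?_, ?_, ?_⟩
  · rw [hna]; have := mul_pos ht hd0; nlinarith
  · rw [hnb]; have := mul_pos hs hd0; nlinarith
  · rw [hin, hna, hnb, add_sub_cancel_left, add_sub_cancel_left, Real.sqrt_sq (by positivity),
      Real.sqrt_sq (by positivity)]

variable {ι : Type*} [Fintype ι] [DecidableEq ι]

lemma Fc_iff {v : ι → E4} {r : ι → ℝ} (hr : ∀ i, 0 < r i) (F : Finset ι) :
    Fc (fun i => r i • ((v i, 1) : L5)) F ↔ IsFace v F := by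
  constructor
  · rintro ⟨φ, h1, h2⟩
    obtain ⟨n, hn⟩ := exists_rep φ
    have hval : ∀ i, φ (r i • ((v i, 1) : L5)) = r i * (inner ℝ n.1 (v i) - n.2) := by
      intro i
      rw [map_smul, hn, B_apply, smul_eq_mul]; simp
    refine ⟨-n.1, -n.2, fun i => ?_, fun i => ?_⟩
    · have := h1 i
      rw [hval] at this
      have := nonneg_of_mul_nonneg_right this (hr i)
      rw [inner_neg_left]; linarith
    · rw [← h2 i, hval, inner_neg_left, mul_eq_zero]
      constructor
      · intro h; right; linarith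
      · rintro (h | h)
        · exact absurd h (hr i).ne'
        · linarith
  · rintro ⟨f, c, h1, h2⟩
    have hval : ∀ i, B (-f, -c) (r i • ((v i, 1) : L5)) = r i * (c - inner ℝ f (v i)) := by
      intro i
      rw [map_smul, B_apply, smul_eq_mul, inner_neg_left]; ring
    refine ⟨B (-f, -c), fun i => ?_, fun i => ?_⟩
    · rw [hval]; exact mul_nonneg (hr i).le (by linarith [h1 i])
    · rw [hval, ← h2 i, mul_eq_zero]
      constructor
      · rintro (h | h)
        · exact absurd h (hr i).ne'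
        · linarith
      · intro h; right; linarith

lemma Fc_eq {v : ι → E4} {r : ι → ℝ} (hr : ∀ i, 0 < r i) :
    Fc (fun i => r i • ((v i, 1) : L5)) = IsFace v :=
  funext fun F => propext (Fc_iff hr F)

lemma span_hat {v : ι → E4} (hv : affineSpan ℝ (Set.range v) = ⊤) {r : ι → ℝ}
    (hr : ∀ i, 0 < r i) : Submodule.span ℝ (Set.range (fun i => r i • ((v i, 1) : L5))) = ⊤ := by
  by_contra h
  obtain ⟨φ, hφ0, hφ⟩ := Submodule.exists_le_ker_of_lt_top _ (lt_top_iff_ne_top.2 h)
  obtain ⟨n, hn⟩ := exists_rep φ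
  have h1 : ∀ i, inner ℝ n.1 (v i) = n.2 := by
    intro i
    have h2 : φ (r i • ((v i, 1) : L5)) = 0 := hφ (Submodule.subset_span ⟨i, rfl⟩)
    rw [map_smul, smul_eq_mul, mul_eq_zero, hn, B_apply] at h2
    rcases h2 with h2 | h2
    · exact absurd h2 (hr i).ne'
    · simp at h2; linarith
  have h2 : ∀ x : E4, inner ℝ n.1 x = n.2 := by
    intro x
    have hx : x ∈ affineSpan ℝ (Set.range v) := by rw [hv]; trivial
    refine affineSpan_induction hx ?_ ?_
    · rintro _ ⟨i, rfl⟩; exact h1 i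
    · intro c x y z hx hy hz
      rw [vsub_eq_sub, vadd_eq_add, inner_add_right, inner_smul_right, inner_sub_right, hx, hy, hz]
      ring
  have h3 : n.2 = 0 := by rw [← h2 0, inner_zero_right]
  have h4 : n.1 = 0 := by
    have := h2 n.1
    rw [h3] at this
    exact inner_self_eq_zero.1 this
  apply hφ0
  ext x
  · simp [hn, B_apply, h3, h4]
  · simp [hn, B_apply, h3, h4]

/-- the normalised Lorentz vectors of an edge-scribed polytope of type `{3,3,5}` -/
lemma sys_of {v : ι → E4} (hv : IsPolytope v) (hs : EdgeScribed v) (ht : Is335 v) :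
    (∀ i, 1 < ‖v i‖ ^ 2) ∧ (∀ i, ∃ S, IsFacet (IsFace v) S ∧ i ∈ S) ∧
      Sys (fun i => (Real.sqrt (‖v i‖ ^ 2 - 1))⁻¹ • ((v i, 1) : L5)) := by
  classical
  have hr1 : ∀ i : ι, (0:ℝ) < 1 := fun _ => one_pos
  have hsp1 := span_hat hv.full hr1
  have hFc1 := Fc_eq (v := v) hr1
  have h4 : ∀ S, IsFacet (Fc (fun i => (1:ℝ) • ((v i, 1) : L5))) S → S.card = 4 := by
    rw [hFc1]; exact ht.1
  have hne : ∀ i, ({i} : Finset ι) ≠ univ := by
    intro i h
    have hc : (Set.range (fun i => (1:ℝ) • ((v i, 1) : L5))) = {(1:ℝ) • ((v i, 1) : L5)} := by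
      ext x
      constructor
      · rintro ⟨j, rfl⟩
        have : j ∈ ({i} : Finset ι) := by rw [h]; simp
        rw [mem_singleton] at this
        rw [this]; rfl
      · rintro rfl; exact ⟨i, rfl⟩
    have hx0 : (1:ℝ) • ((v i, 1) : L5) ≠ 0 := by
      intro h0
      have := congrArg Prod.snd h0
      simp at this
    have h1 := finrank_span_singleton (K := ℝ) hx0
    rw [← hc, hsp1, finrank_top, finrank_L5] at h1
    norm_num at h1
  have hfac : ∀ i, ∃ S, IsFacet (IsFace v) S ∧ i ∈ S := by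
    intro i
    obtain ⟨S, hS, hi⟩ := exists_facet (IsFace v) (hv.vertex i) (hne i)
    exact ⟨S, hS, hi (mem_singleton_self i)⟩
  have hface : ∀ S, IsFacet (IsFace v) S → ∀ i ∈ S, ∀ j ∈ S, i ≠ j → IsEdge v i j := by
    intro S hS i hi j hj hij
    refine ⟨hij, ?_⟩
    rw [← hFc1] at hS ⊢
    apply face_of_subset hsp1 finrank_L5 hS (h4 S hS)
    intro x hx
    rcases mem_insert.1 hx with rfl | hx
    · exact hi
    · rw [mem_singleton.1 hx]; exact hj
  have hvinj : ∀ i j, i ≠ j → v i ≠ v j := by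
    intro i j hij h
    obtain ⟨f, c, h1, h2⟩ := hv.vertex i
    have h3 : inner ℝ f (v i) = c := (h2 i).2 (mem_singleton_self i)
    rw [h] at h3
    exact hij (mem_singleton.1 ((h2 j).1 h3)).symm
  have htan : ∀ S, IsFacet (IsFace v) S → ∀ i ∈ S, ∀ j ∈ S, i ≠ j →
      1 < ‖v i‖ ^ 2 ∧ inner ℝ (v i) (v j) - 1
        = - (Real.sqrt (‖v i‖ ^ 2 - 1) * Real.sqrt (‖v j‖ ^ 2 - 1)) := by
    intro S hS i hi j hj hij
    obtain ⟨x, hx, h1, h2⟩ := hs i j (hface S hS i hi j hj hij)
    have := tangent_calc hx h1 h2 (hvinj i j hij)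
    exact ⟨this.1, this.2.2⟩
  have hbig : ∀ i, 1 < ‖v i‖ ^ 2 := by
    intro i
    obtain ⟨S, hS, hi⟩ := hfac i
    have hcard := ht.1 S hS
    obtain ⟨j, hj, hji⟩ := Finset.exists_mem_ne (by omega : 1 < S.card) i
    exact (htan S hS i hi j hj hji.symm).1
  have hρ : ∀ i, 0 < Real.sqrt (‖v i‖ ^ 2 - 1) := fun i => Real.sqrt_pos.2 (by linarith [hbig i])
  have hr : ∀ i, 0 < (Real.sqrt (‖v i‖ ^ 2 - 1))⁻¹ := fun i => inv_pos.2 (hρ i)
  have hFc := Fc_eq (v := v) hr
  refine ⟨hbig, hfac, ⟨span_hat hv.full hr, ?_, ?_, ?_, ?_⟩⟩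
  · rw [hFc]; exact ht.1
  · intro S hS i hi
    have h1 : Real.sqrt (‖v i‖ ^ 2 - 1) ^ 2 = ‖v i‖ ^ 2 - 1 :=
      Real.sq_sqrt (by linarith [hbig i])
    rw [map_smul, map_smul, LinearMap.smul_apply, B_apply, smul_eq_mul, smul_eq_mul,
      real_inner_self_eq_norm_sq]
    have := (hρ i).ne'
    field_simp
    rw [h1]
  · intro S hS i hi j hj hij
    rw [hFc] at hS
    have h1 := (htan S hS i hi j hj hij).2
    rw [map_smul, map_smul, LinearMap.smul_apply, B_apply, smul_eq_mul, smul_eq_mul]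
    have hi0 := (hρ i).ne'
    have hj0 := (hρ j).ne'
    simp only [mul_one]
    rw [h1]
    field_simp
  · intro S hS a ha b hb hab
    have hS' := hS
    rw [hFc] at hS'
    apply link_of_five (span_hat hv.full hr) finrank_L5 (by rw [hFc]; exact ht.1) hab
    rw [hFc]
    have h5 := ht.2 a b (hface S hS' a ha b hb hab)
    rw [← h5, ← Set.ncard_coe_finset]
    congr 1
    ext S; simp

end R179.Mob
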