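import Pool.Agent.R179.MobD

/-!
Lorentz isometries act on the extended 3-space as Möbius transformations.
-/

set_option linter.unusedSectionVars false

namespace R179.Mob

open Module

lemma pr_add (x y : E4) : pr (x + y) = pr x + pr y := by
  ext i; fin_cases i <;> simp [pr]

lemma pr_smul (c : ℝ) (x : E4) : pr (c • x) = c • pr x := by
  ext i; fin_cases i <;> simp [pr]

lemma pr_sub (x y : E4) : pr (x - y) = pr x - pr y := by
  ext i; fin_cases i <;> simp [pr]

lemma inner_pr (x y : E4) : inner ℝ x y = inner ℝ (pr x) (pr y) + x 3 * y 3 := by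
  simp only [PiLp.inner_apply, Fin.sum_univ_four, Fin.sum_univ_three, pr]
  simp
  ring

lemma B_pr (x y : L5) :
    B x y = inner ℝ (pr x.1) (pr y.1) + x.1 3 * y.1 3 - x.2 * y.2 := by
  rw [B_apply, inner_pr]

/-- projection of the light cone onto the extended 3-space -/
noncomputable def proj (x : L5) : OnePoint E3 :=
  open Classical in
  if x.2 = x.1 3 then OnePoint.infty else (((x.2 - x.1 3)⁻¹ • pr x.1 : E3) : OnePoint E3)

lemma proj_inf {x : L5} (h : x.2 = x.1 3) : proj x = OnePoint.infty := by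
  simp [proj, h]

lemma proj_fin {x : L5} (h : x.2 ≠ x.1 3) :
    proj x = (((x.2 - x.1 3)⁻¹ • pr x.1 : E3) : OnePoint E3) := by
  simp [proj, h]

lemma stereo_eq (x : E4) : stereo x = proj (x, 1) := by
  by_cases h : x 3 = 1
  · rw [proj_inf (by simp [h])]; simp [stereo, h]
  · rw [proj_fin (by simpa [eq_comm] using h)]; simp [stereo, h]

lemma proj_smul {c : ℝ} (hc : c ≠ 0) (x : L5) : proj (c • x) = proj x := by
  by_cases h : x.2 = x.1 3
  · rw [proj_inf h, proj_inf (by simp [h])]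
  · rw [proj_fin h, proj_fin (by simpa [hc] using h)]
    congr 1
    simp only [Prod.smul_fst, Prod.smul_snd, PiLp.smul_apply, smul_eq_mul, pr_smul]
    rw [smul_smul]
    congr 1
    have : x.2 - x.1 3 ≠ 0 := sub_ne_zero.2 h
    field_simp

/-- reflection of the Lorentz space in a space-like vector -/
noncomputable def rfl5 (q : L5) (x : L5) : L5 := x - (2 * B q x / B q q) • q

lemma planeReflection_coe (n : E3) (t : ℝ) (x : E3) :
    planeReflection n t (x : OnePoint E3) = ((x - (2 * (inner ℝ n x - t)) • n : E3) :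
      OnePoint E3) := rfl

lemma planeReflection_inf (n : E3) (t : ℝ) :
    planeReflection n t OnePoint.infty = OnePoint.infty := rfl

lemma inversion_inf (c : E3) (r : ℝ) : inversion c r OnePoint.infty = (c : OnePoint E3) := rfl

lemma inversion_self (c : E3) (r : ℝ) : inversion c r (c : OnePoint E3) = OnePoint.infty := by
  show (if c = c then OnePoint.infty else _) = _
  rw [if_pos rfl]

lemma inversion_coe {c : E3} (r : ℝ) {x : E3} (h : x ≠ c) :
    inversion c r (x : OnePoint E3)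
      = ((c + (r ^ 2 / ‖x - c‖ ^ 2) • (x - c) : E3) : OnePoint E3) := by
  show (if x = c then OnePoint.infty else _) = _
  rw [if_neg h]

lemma rfl5_action {q : L5} (hq : 0 < B q q) :
    ∃ g : OnePoint E3 → OnePoint E3, (∀ h, IsMoebius h → IsMoebius (g ∘ h)) ∧
      ∀ x, B x x = 0 → x ≠ 0 → proj (rfl5 q x) = g (proj x) := by
  obtain ⟨α, hα⟩ : ∃ α, α = pr q.1 := ⟨_, rfl⟩
  obtain ⟨β, hβ⟩ : ∃ β, β = q.1 3 := ⟨_, rfl⟩
  obtain ⟨γ, hγ⟩ : ∃ γ, γ = q.2 := ⟨_, rfl⟩
  obtain ⟨Q, hQ⟩ : ∃ Q, Q = B q q := ⟨_, rfl⟩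
  have hQ' : Q = ‖α‖ ^ 2 + β ^ 2 - γ ^ 2 := by
    rw [hQ, B_pr, ← hα, ← hβ, ← hγ, real_inner_self_eq_norm_sq]; ring
  rw [← hQ] at hq
  have hr1 : ∀ x : L5, (rfl5 q x).2 = x.2 - (2 * B q x / Q) * γ := by
    intro x; rw [hQ, hγ]; simp [rfl5]
  have hr2 : ∀ x : L5, (rfl5 q x).1 3 = x.1 3 - (2 * B q x / Q) * β := by
    intro x; rw [hQ, hβ]; simp [rfl5]
  have hr3 : ∀ x : L5, pr (rfl5 q x).1 = pr x.1 - (2 * B q x / Q) • α := by
    intro x
    have : (rfl5 q x).1 = x.1 - (2 * B q x / Q) • q.1 := by rw [hQ]; simp [rfl5]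
    rw [this, pr_sub, pr_smul, hα]
  have hB : ∀ x : L5, B q x = inner ℝ α (pr x.1) + β * x.1 3 - γ * x.2 := by
    intro x; rw [B_pr, hα, hβ, hγ]
  by_cases hκ : γ = β
  · -- plane reflection
    have hα0 : 0 < ‖α‖ := by
      rw [hQ', hκ] at hq
      have : 0 < ‖α‖ ^ 2 := by linarith
      exact norm_pos_iff.2 (fun h => by rw [h] at this; simp at this)
    refine ⟨planeReflection (‖α‖⁻¹ • α) (β / ‖α‖), fun h hh => IsMoebius.reflection _ _ ?_ hh, ?_⟩
    · rw [norm_smul, norm_inv, norm_norm]; field_simp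
    · intro x hx hx0
      by_cases hδ : x.2 = x.1 3
      · rw [proj_inf hδ, planeReflection_inf, proj_inf]
        rw [hr1, hr2, hδ, hκ]
      · have hδ' : (rfl5 q x).2 ≠ (rfl5 q x).1 3 := by
          rw [hr1, hr2, hκ]
          intro h; apply hδ; linarith
        rw [proj_fin hδ, proj_fin hδ', planeReflection_coe, hr1, hr2, hr3]
        congr 1
        have hd0 : x.2 - x.1 3 ≠ 0 := sub_ne_zero.2 hδ
        have e1 : x.2 - 2 * B q x / Q * γ - (x.1 3 - 2 * B q x / Q * β) = x.2 - x.1 3 := by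
          rw [hκ]; ring
        rw [e1, smul_sub, smul_smul, smul_smul]
        congr 2
        rw [inner_smul_left, inner_smul_right, hB, hQ', hκ]
        simp only [conj_trivial]
        have : ‖α‖ ≠ 0 := hα0.ne'
        have e2 : ‖α‖ ^ 2 + β ^ 2 - β ^ 2 = ‖α‖ ^ 2 := by ring
        rw [e2]
        field_simp
        ring
  · -- inversion
    have hκ0 : γ - β ≠ 0 := sub_ne_zero.2 hκ
    obtain ⟨κ, hκd⟩ : ∃ κ, κ = γ - β := ⟨_, rfl⟩
    rw [← hκd] at hκ0
    obtain ⟨c, hc⟩ : ∃ c, c = κ⁻¹ • α := ⟨_, rfl⟩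
    have hαc : α = κ • c := by rw [hc, smul_smul, mul_inv_cancel₀ hκ0, one_smul]
    have hr : (Real.sqrt Q / |κ|) ^ 2 = Q / κ ^ 2 := by
      rw [div_pow, Real.sq_sqrt hq.le, sq_abs]
    refine ⟨inversion c (Real.sqrt Q / |κ|), fun h hh => IsMoebius.inversion _ _ ?_ hh, ?_⟩
    · have := Real.sqrt_pos.2 hq
      have := abs_pos.2 hκ0
      positivity
    · intro x hx hx0
      have hnull : ‖pr x.1‖ ^ 2 + x.1 3 ^ 2 - x.2 ^ 2 = 0 := by
        rw [B_pr, real_inner_self_eq_norm_sq] at hx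
        linarith
      have hQc : Q = κ ^ 2 * ‖c‖ ^ 2 - κ * (γ + β) := by
        rw [hQ', hαc, norm_smul, Real.norm_eq_abs, mul_pow, sq_abs, hκd]; ring
      have hdiff : (rfl5 q x).2 - (rfl5 q x).1 3 = (x.2 - x.1 3) - (2 * B q x / Q) * κ := by
        rw [hr1, hr2, hκd]; ring
      by_cases hδ : x.2 = x.1 3
      · -- point at infinity
        have ha : pr x.1 = 0 := by
          rw [hδ] at hnull
          have : ‖pr x.1‖ ^ 2 = 0 := by linarith
          exact norm_eq_zero.1 (pow_eq_zero_iff two_ne_zero |>.1 this)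
        have hs0 : x.2 ≠ 0 := by
          intro h
          apply hx0
          have h3 : x.1 3 = 0 := by rw [← hδ, h]
          have hx1 : x.1 = 0 := by
            have h5 : inner ℝ x.1 x.1 = 0 := by
              rw [inner_pr, ha, h3]; simp
            exact inner_self_eq_zero.1 h5
          exact Prod.ext hx1 h
        have hBx : B q x = - (κ * x.2) := by
          rw [hB, ha, ← hδ, inner_zero_right, hκd]; ring
        have hd' : (rfl5 q x).2 - (rfl5 q x).1 3 = 2 * κ ^ 2 * x.2 / Q := by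
          rw [hdiff, hBx, ← hδ]; field_simp; ring
        have hne : (rfl5 q x).2 ≠ (rfl5 q x).1 3 := by
          intro h
          rw [h, sub_self] at hd'
          have : 2 * κ ^ 2 * x.2 / Q ≠ 0 := by positivity
          exact this hd'.symm
        rw [proj_inf hδ, inversion_inf, proj_fin hne, hd', hr3, hBx, ha, zero_sub, ← neg_smul,
          smul_smul]
        congr 1
        rw [hc]
        congr 1
        field_simp
      · have hd0 : x.2 - x.1 3 ≠ 0 := sub_ne_zero.2 hδ
        obtain ⟨δ, hδd⟩ : ∃ δ, δ = x.2 - x.1 3 := ⟨_, rfl⟩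
        rw [← hδd] at hd0
        obtain ⟨y, hy⟩ : ∃ y, y = δ⁻¹ • pr x.1 := ⟨_, rfl⟩
        have hay : pr x.1 = δ • y := by rw [hy, smul_smul, mul_inv_cancel₀ hd0, one_smul]
        have hny : δ ^ 2 * ‖y‖ ^ 2 = δ * (x.2 + x.1 3) := by
          have : ‖pr x.1‖ ^ 2 = δ ^ 2 * ‖y‖ ^ 2 := by
            rw [hay, norm_smul, Real.norm_eq_abs, mul_pow, sq_abs]
          rw [← this, hδd]; linarith
        have hny' : δ * ‖y‖ ^ 2 = x.2 + x.1 3 := by
          have : δ * (δ * ‖y‖ ^ 2 - (x.2 + x.1 3)) = 0 := by linarith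
          rcases mul_eq_zero.1 this with h | h
          · exact absurd h hd0
          · linarith
        have hs : x.2 = δ / 2 * (‖y‖ ^ 2 + 1) := by linarith
        have hb : x.1 3 = δ / 2 * (‖y‖ ^ 2 - 1) := by linarith
        have hyc : ‖y - c‖ ^ 2 = ‖y‖ ^ 2 - 2 * inner ℝ c y + ‖c‖ ^ 2 := by
          rw [norm_sub_sq_real, real_inner_comm]
        have hBx : B q x = - (δ * κ / 2 * (‖y - c‖ ^ 2 - Q / κ ^ 2)) := by
          rw [hB, hay, inner_smul_right, hαc, inner_smul_left, hs, hb, hyc]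
          have e1 : Q / κ ^ 2 = ‖c‖ ^ 2 - (γ + β) / κ := by
            rw [hQc]; field_simp
          rw [e1]
          simp only [conj_trivial]
          have e2 : γ = κ + β := by rw [hκd]; ring
          rw [e2]
          field_simp
          ring
        have hd' : (rfl5 q x).2 - (rfl5 q x).1 3 = δ * κ ^ 2 / Q * ‖y - c‖ ^ 2 := by
          rw [hdiff, hBx, ← hδd]
          field_simp
          ring
        rw [proj_fin hδ, ← hδd, ← hy]
        by_cases hyc0 : y = c
        · rw [hyc0, inversion_self, proj_inf]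
          rw [hyc0] at hd'
          simp at hd'
          linarith
        · have hn0 : ‖y - c‖ ≠ 0 := norm_ne_zero_iff.2 (sub_ne_zero.2 hyc0)
          have hne : (rfl5 q x).2 ≠ (rfl5 q x).1 3 := by
            intro h
            rw [h, sub_self] at hd'
            have : δ * κ ^ 2 / Q * ‖y - c‖ ^ 2 ≠ 0 := by positivity
            exact this hd'.symm
          rw [inversion_coe _ hyc0, proj_fin hne, hd', hr3, hBx, hay, hr]
          congr 1
          rw [hαc, smul_smul, smul_sub, smul_smul, smul_smul, smul_sub]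
          have e3 : c + ((Q / κ ^ 2 / ‖y - c‖ ^ 2) • y - (Q / κ ^ 2 / ‖y - c‖ ^ 2) • c)
              = (Q / κ ^ 2 / ‖y - c‖ ^ 2) • y + (1 - (Q / κ ^ 2 / ‖y - c‖ ^ 2)) • c := by
            rw [sub_smul, one_smul]; abel
          rw [e3, sub_eq_add_neg, ← neg_smul]
          congr 2
          · field_simp
          · field_simp

end R179.Mob
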