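import Pool.Agent.R179.MobJ

/-!
Every orthochronous Lorentz isometry acts on the extended 3-space as a composition of inversions
and reflections.
-/

set_option linter.unusedSectionVars false

namespace R179.Mob

open Module

lemma isMoebius_comp {f g : OnePoint E3 → OnePoint E3} (hf : IsMoebius f) (hg : IsMoebius g) :
    IsMoebius (f ∘ g) := by
  induction hf with
  | id => exact hg
  | inversion c r hr _ ih => exact IsMoebius.inversion c r hr ih
  | reflection n t hn _ ih => exact IsMoebius.reflection n t hn ih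

/-- `A` acts on the projectivised light cone by a Möbius transformation -/
def Gen (A : L5 → L5) : Prop :=
  ∃ μ, IsMoebius μ ∧ ∀ x, B x x = 0 → x ≠ 0 → proj (A x) = μ (proj x)

lemma gen_comp {A A' : L5 → L5} (hA : Gen A) (hA' : Gen A')
    (h : ∀ x, B x x = 0 → x ≠ 0 → B (A' x) (A' x) = 0 ∧ A' x ≠ 0) :
    Gen (fun x => A (A' x)) := by
  obtain ⟨μ, hμ, h1⟩ := hA
  obtain ⟨μ', hμ', h2⟩ := hA'
  refine ⟨μ ∘ μ', isMoebius_comp hμ hμ', fun x hx hx0 => ?_⟩
  obtain ⟨h3, h4⟩ := h x hx hx0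
  rw [h1 _ h3 h4, h2 x hx hx0]; rfl

lemma gen_id : Gen (fun x => x) := ⟨id, IsMoebius.id, fun _ _ _ => rfl⟩

lemma gen_rfl5 {q : L5} (hq : 0 < B q q) : Gen (rfl5 q) := by
  obtain ⟨g, h1, h2⟩ := rfl5_action hq
  exact ⟨g ∘ id, h1 _ IsMoebius.id, h2⟩

/-- linear version of the reflection -/
noncomputable def rflL (q : L5) : L5 →ₗ[ℝ] L5 := LinearMap.id - ((2 / B q q) • B q).smulRight q

lemma rflL_apply (q x : L5) : rflL q x = rfl5 q x := by
  simp only [rflL, rfl5, LinearMap.sub_apply, LinearMap.id_apply, LinearMap.smulRight_apply,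
    LinearMap.smul_apply, smul_eq_mul]
  congr 2
  ring

lemma rfl5_B {q : L5} (hq : B q q ≠ 0) (x y : L5) : B (rfl5 q x) (rfl5 q y) = B x y := by
  simp only [rfl5, map_sub, LinearMap.sub_apply, map_smul, LinearMap.smul_apply, smul_eq_mul]
  rw [B_comm x q]
  field_simp
  ring

lemma rfl5_invol {q : L5} (hq : B q q ≠ 0) (x : L5) : rfl5 q (rfl5 q x) = x := by
  have h1 : B q (rfl5 q x) = - B q x := by
    simp only [rfl5, map_sub, map_smul, smul_eq_mul]
    field_simp
    ring
  have h2 : rfl5 q (rfl5 q x) = rfl5 q x - (2 * B q (rfl5 q x) / B q q) • q := rfl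
  rw [h2, h1]
  unfold rfl5
  rw [sub_sub, ← add_smul]
  have : 2 * B q x / B q q + 2 * -B q x / B q q = 0 := by ring
  rw [this, zero_smul, sub_zero]

lemma iso_ne {A : L5 →ₗ[ℝ] L5} (hA : ∀ x y, B (A x) (A y) = B x y) {x : L5} (hx : x ≠ 0) :
    A x ≠ 0 := by
  intro h
  apply hx
  apply B_nondeg
  intro y
  rw [← hA, h]; simp

lemma iso_null {A : L5 →ₗ[ℝ] L5} (hA : ∀ x y, B (A x) (A y) = B x y) :
    ∀ x, B x x = 0 → x ≠ 0 → B (A x) (A x) = 0 ∧ A x ≠ 0 :=
  fun x h1 h2 => ⟨by rw [hA]; exact h1, iso_ne hA h2⟩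

lemma gen_refl4 (v : E4) : Gen (fun x => ((ℝ ∙ v)ᗮ.reflection x.1, x.2)) := by
  by_cases hv : v = 0
  · have : (fun x : L5 => ((ℝ ∙ v)ᗮ.reflection x.1, x.2)) = fun x => x := by
      funext x
      rw [Submodule.reflection_orthogonal_apply, Submodule.reflection_singleton_apply, hv]
      simp
    rw [this]; exact gen_id
  · have hq : 0 < B (v, 0) (v, 0) := by
      rw [B_apply]
      simp only [mul_zero, sub_zero, real_inner_self_eq_norm_sq]
      have := norm_pos_iff.2 hv
      positivity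
    have : (fun x : L5 => ((ℝ ∙ v)ᗮ.reflection x.1, x.2)) = rfl5 (v, 0) := by
      funext x
      rw [Submodule.reflection_orthogonal_apply, Submodule.reflection_singleton_apply]
      unfold rfl5
      rw [B_apply, B_apply]
      apply Prod.ext
      · simp only [zero_mul, mul_zero, sub_zero, real_inner_self_eq_norm_sq, Prod.fst_sub,
          Prod.smul_fst, neg_sub]
        congr 1
        rw [← Nat.cast_smul_eq_nsmul ℝ, smul_smul]
        congr 1
        simp only [RCLike.ofReal_real_eq_id, id_eq, Nat.cast_ofNat]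
        ring
      · simp
    rw [this]; exact gen_rfl5 hq

lemma gen_orth (O : E4 ≃ₗᵢ[ℝ] E4) : Gen (fun x => (O x.1, x.2)) := by
  obtain ⟨l, -, rfl⟩ := O.reflections_generate_dim
  induction l with
  | nil => simpa using gen_id
  | cons v l ih =>
    simp only [List.map_cons, List.prod_cons]
    set O' := (l.map fun v => (ℝ ∙ v)ᗮ.reflection).prod with hO'
    have h := gen_comp (gen_refl4 v) ih (by
      intro x hx hx0
      refine ⟨?_, ?_⟩
      · rw [B_apply] at hx ⊢
        simp only [LinearIsometryEquiv.inner_map_map]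
        exact hx
      · intro h0
        apply hx0
        have h1 : O' x.1 = 0 := congrArg Prod.fst h0
        have h2 : x.2 = 0 := congrArg Prod.snd h0
        exact Prod.ext (by simpa using h1) h2)
    exact h

lemma gen_fix {A : L5 →ₗ[ℝ] L5} (hA : ∀ x y, B (A x) (A y) = B x y)
    (he : A (0, 1) = (0, 1)) : Gen A := by
  have h2 : ∀ x : E4, (A (x, 0)).2 = 0 := by
    intro x
    have h := hA (x, 0) (0, 1)
    rw [he, B_apply, B_apply] at h
    simp at h
    linarith
  let O₀ : E4 →ₗ[ℝ] E4 := (LinearMap.fst ℝ E4 ℝ) ∘ₗ A ∘ₗ (LinearMap.inl ℝ E4 ℝ)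
  have hO : ∀ x, O₀ x = (A (x, 0)).1 := fun x => rfl
  have hiso : ∀ x, ‖O₀ x‖ = ‖x‖ := by
    intro x
    have h := hA (x, 0) (x, 0)
    rw [B_apply, B_apply, h2, ← hO] at h
    simp only [mul_zero, sub_zero, real_inner_self_eq_norm_sq] at h
    exact (pow_left_inj₀ (norm_nonneg _) (norm_nonneg _) two_ne_zero).1 h
  let O : E4 ≃ₗᵢ[ℝ] E4 := LinearIsometry.toLinearIsometryEquiv ⟨O₀, hiso⟩ rfl
  have hfin : (A : L5 → L5) = fun x => (O x.1, x.2) := by
    funext x
    have hx : x = (x.1, 0) + x.2 • ((0, 1) : L5) := by ext <;> simp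
    have h3 : A x = A (x.1, 0) + x.2 • ((0, 1) : L5) := by
      conv_lhs => rw [hx]
      rw [map_add, map_smul, he]
    rw [h3]
    apply Prod.ext
    · simp only [Prod.fst_add, Prod.smul_fst, smul_zero, add_zero]
      rfl
    · simp [h2]
  rw [hfin]
  exact gen_orth O

/-- Lorentz isometries preserving the time direction act as Möbius transformations -/
lemma gen_lorentz {A : L5 →ₗ[ℝ] L5} (hA : ∀ x y, B (A x) (A y) = B x y)
    (he : 0 < (A (0, 1)).2) : Gen A := by
  by_cases h0 : A (0, 1) = (0, 1)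
  · exact gen_fix hA h0
  obtain ⟨f, hf⟩ : ∃ f, f = A (0, 1) := ⟨_, rfl⟩
  rw [← hf] at he h0
  have hff : B f f = -1 := by
    rw [hf, hA, B_apply]; simp
  have hfe : B f (0, 1) = - f.2 := by rw [B_apply]; simp
  have hee : B ((0, 1) : L5) (0, 1) = -1 := by rw [B_apply]; simp
  have hf2 : 1 < f.2 := by
    rw [B_apply, real_inner_self_eq_norm_sq] at hff
    by_contra h
    push Not at h
    have h1 : f.2 * f.2 ≤ 1 := by nlinarith
    have h2 : ‖f.1‖ ^ 2 = 0 := le_antisymm (by linarith) (sq_nonneg _)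
    have h3 : f.1 = 0 := norm_eq_zero.1 (pow_eq_zero_iff two_ne_zero |>.1 h2)
    apply h0
    apply Prod.ext
    · exact h3
    · show f.2 = 1
      rw [h2] at hff
      nlinarith
  obtain ⟨q, hq⟩ : ∃ q, q = f - (0, 1) := ⟨_, rfl⟩
  have hqf : B q f = f.2 - 1 := by
    rw [hq, map_sub, LinearMap.sub_apply, hff, B_comm (0, 1) f, hfe]; ring
  have hqq : B q q = 2 * (f.2 - 1) := by
    conv_lhs => rw [hq]
    rw [map_sub, map_sub, LinearMap.sub_apply, LinearMap.sub_apply, hff, B_comm (0, 1) f, hfe,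
      hee]
    ring
  have hq0 : 0 < B q q := by rw [hqq]; linarith
  have hA' : ∀ x y, B ((rflL q ∘ₗ A) x) ((rflL q ∘ₗ A) y) = B x y := by
    intro x y
    simp only [LinearMap.comp_apply, rflL_apply]
    rw [rfl5_B hq0.ne', hA]
  have hfix : (rflL q ∘ₗ A) (0, 1) = (0, 1) := by
    simp only [LinearMap.comp_apply, rflL_apply]
    rw [← hf]
    unfold rfl5
    rw [hqf, hqq]
    have : 2 * (f.2 - 1) / (2 * (f.2 - 1)) = 1 := by
      have : f.2 - 1 ≠ 0 := by linarith
      field_simp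
    rw [this, one_smul, hq, sub_sub_cancel]
  have h1 := gen_comp (gen_rfl5 hq0) (gen_fix hA' hfix) (iso_null hA')
  have h2 : (fun x => rfl5 q ((rflL q ∘ₗ A) x)) = A := by
    funext x
    simp only [LinearMap.comp_apply, rflL_apply]
    rw [rfl5_invol hq0.ne']
  rw [h2] at h1
  exact h1

end R179.Mob
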