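import Pool.Agent.R179.MobI
import Pool.Agent.R179.MobK

/-!
Möbius uniqueness for edge-scribed polytopes of type `{3,3,5}`.
-/

set_option linter.unusedSectionVars false

namespace R179.Mob

open Finset Module

lemma time_pos {f z : L5} (hf : ‖f.1‖ < f.2) (hz : B z z = 0) (hzf : B z f < 0) : 0 < z.2 := by
  by_contra h
  push Not at h
  rw [B_apply, real_inner_self_eq_norm_sq] at hz
  have h1 : ‖z.1‖ = - z.2 := by
    rw [← pow_left_inj₀ (norm_nonneg _) (by linarith) two_ne_zero]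
    linarith
  have h2 := neg_le_of_abs_le (abs_real_inner_le_norm z.1 f.1)
  rw [h1] at h2
  rw [B_apply] at hzf
  nlinarith

/-- Lorentz isometries act on balls -/
lemma ball_image {A : L5 ≃ₗ[ℝ] L5} (hA : ∀ x y, B (A x) (A y) = B x y)
    (he : 0 < (A (0, 1)).2) {μ : OnePoint E3 → OnePoint E3}
    (hμ : ∀ x, B x x = 0 → x ≠ 0 → proj (A x) = μ (proj x))
    {v w : E4} {r s : ℝ} (hr : 0 < r) (hs : 0 < s)
    (hvw : A (r • (v, 1)) = s • (w, 1)) : μ '' ball v = ball w := by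
  obtain ⟨f, hf⟩ : ∃ f, f = A (0, 1) := ⟨_, rfl⟩
  rw [← hf] at he
  have hff : B f f = -1 := by
    rw [hf, hA, B_apply]; simp
  have hfn : ‖f.1‖ < f.2 := by
    rw [B_apply, real_inner_self_eq_norm_sq] at hff
    rw [← pow_lt_pow_iff_left₀ (norm_nonneg _) he.le two_ne_zero]
    linarith
  have hpt : ∀ x : E4, ‖x‖ = 1 → B ((x, 1) : L5) (x, 1) = 0 := by
    intro x hx
    rw [B_apply]; simp [real_inner_self_eq_norm_sq, hx]
  have hne : ∀ x : E4, ((x, 1) : L5) ≠ 0 := by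
    intro x h
    have := congrArg Prod.snd h
    simp at this
  -- correspondence of points
  have hcorr : ∀ (x y : E4) (l : ℝ), 0 < l → A (x, 1) = l • (y, 1) →
      (1 ≤ inner ℝ x v ↔ 1 ≤ inner ℝ y w) := by
    intro x y l hl h
    have h1 : B (A (x, 1)) (A (r • (v, 1))) = r * (inner ℝ x v - 1) := by
      rw [hA, map_smul, B_apply]; simp
    have h2 : B (A (x, 1)) (A (r • (v, 1))) = l * s * (inner ℝ y w - 1) := by
      rw [h, hvw, map_smul, map_smul, LinearMap.smul_apply, B_apply]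
      simp only [smul_eq_mul]
      ring
    rw [h1] at h2
    constructor
    · intro h3
      have : 0 ≤ l * s * (inner ℝ y w - 1) := by
        rw [← h2]; exact mul_nonneg hr.le (by linarith)
      have := nonneg_of_mul_nonneg_right this (by positivity)
      linarith
    · intro h3
      have : 0 ≤ r * (inner ℝ x v - 1) := by
        rw [h2]; exact mul_nonneg (by positivity) (by linarith)
      have := nonneg_of_mul_nonneg_right this hr
      linarith
  have hst : ∀ (x y : E4) (l : ℝ), ‖x‖ = 1 → 0 < l → A (x, 1) = l • (y, 1) →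
      stereo y = μ (stereo x) := by
    intro x y l hx hl h
    rw [stereo_eq, stereo_eq, ← hμ _ (hpt x hx) (hne x), h, proj_smul hl.ne']
  ext p
  constructor
  · rintro ⟨_, ⟨x, ⟨hx, hxv⟩, rfl⟩, rfl⟩
    obtain ⟨z, hz⟩ : ∃ z, z = A (x, 1) := ⟨_, rfl⟩
    have hz0 : B z z = 0 := by rw [hz, hA, hpt x hx]
    have hzf : B z f < 0 := by
      rw [hz, hf, hA, B_apply]; simp
    have hzpos := time_pos hfn hz0 hzf
    have hzeq : A (x, 1) = z.2 • ((z.2)⁻¹ • z.1, 1) := by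
      rw [← hz]
      apply Prod.ext
      · show z.1 = z.2 • (z.2)⁻¹ • z.1
        rw [smul_smul, mul_inv_cancel₀ hzpos.ne', one_smul]
      · show z.2 = z.2 • (1:ℝ)
        simp
    refine ⟨(z.2)⁻¹ • z.1, ⟨?_, (hcorr _ _ _ hzpos hzeq).1 hxv⟩, ?_⟩
    · rw [norm_smul, norm_inv, Real.norm_eq_abs, abs_of_pos hzpos]
      rw [B_apply, real_inner_self_eq_norm_sq] at hz0
      have : ‖z.1‖ = z.2 := by
        rw [← pow_left_inj₀ (norm_nonneg _) hzpos.le two_ne_zero]; linarith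
      rw [this]; exact inv_mul_cancel₀ hzpos.ne'
    · exact hst _ _ _ hx hzpos hzeq
  · rintro ⟨y, ⟨hy, hyw⟩, rfl⟩
    obtain ⟨z, hz⟩ : ∃ z, z = A.symm (y, 1) := ⟨_, rfl⟩
    have hAz : A z = (y, 1) := by rw [hz]; simp
    have hz0 : B z z = 0 := by rw [← hA, hAz, hpt y hy]
    have hzpos : 0 < z.2 := by
      have h1 : B (A z) f = B z (0, 1) := by rw [hf, hA]
      rw [hAz, B_apply, B_apply] at h1
      simp only [one_mul, inner_zero_right, mul_one, zero_sub] at h1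
      have h2 := le_of_abs_le (abs_real_inner_le_norm y f.1)
      rw [hy, one_mul] at h2
      linarith
    have hzeq : A ((z.2)⁻¹ • z.1, 1) = (z.2)⁻¹ • (y, 1) := by
      have : (((z.2)⁻¹ • z.1, 1) : L5) = (z.2)⁻¹ • z := by
        apply Prod.ext
        · rfl
        · show (1:ℝ) = (z.2)⁻¹ • z.2
          simp [hzpos.ne']
      rw [this, map_smul, hAz]
    have hn : ‖(z.2)⁻¹ • z.1‖ = 1 := by
      rw [norm_smul, norm_inv, Real.norm_eq_abs, abs_of_pos hzpos]
      rw [B_apply, real_inner_self_eq_norm_sq] at hz0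
      have : ‖z.1‖ = z.2 := by
        rw [← pow_left_inj₀ (norm_nonneg _) hzpos.le two_ne_zero]; linarith
      rw [this]; exact inv_mul_cancel₀ hzpos.ne'
    have hl : 0 < (z.2)⁻¹ := inv_pos.2 hzpos
    exact ⟨stereo ((z.2)⁻¹ • z.1), ⟨_, ⟨hn, (hcorr _ _ _ hl hzeq).2 hyw⟩, rfl⟩,
      (hst _ _ _ hn hl hzeq).symm⟩

/-- an isometry matching two tangent vectors with positive time components preserves time -/
lemma time_preserved {A : L5 ≃ₗ[ℝ] L5} (hA : ∀ x y, B (A x) (A y) = B x y) {N : L5}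
    (hN : B N N = 0) (hN2 : 0 < N.2) (hAN : 0 < (A N).2) : 0 < (A (0, 1)).2 := by
  obtain ⟨f, hf⟩ : ∃ f, f = A (0, 1) := ⟨_, rfl⟩
  rw [← hf]
  by_contra h
  push Not at h
  have hff : B f f = -1 := by
    rw [hf, hA, B_apply]; simp
  obtain ⟨n, hn⟩ : ∃ n, n = A N := ⟨_, rfl⟩
  rw [← hn] at hAN
  have hnn : B n n = 0 := by rw [hn, hA, hN]
  have hfn : B f n = - N.2 := by rw [hf, hn, hA, B_apply]; simp
  rw [B_apply, real_inner_self_eq_norm_sq] at hff hnn
  have h1 : ‖n.1‖ = n.2 := by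
    rw [← pow_left_inj₀ (norm_nonneg _) hAN.le two_ne_zero]; linarith
  have h2 : ‖f.1‖ ≤ - f.2 := by
    rw [← pow_le_pow_iff_left₀ (norm_nonneg _) (by linarith) two_ne_zero]; linarith
  have h3 := neg_le_of_abs_le (abs_real_inner_le_norm f.1 n.1)
  rw [h1] at h3
  rw [B_apply] at hfn
  nlinarith

variable {ι : Type*} [Fintype ι] [DecidableEq ι]

lemma is335_congr {v w : ι → E4} (h : IsFace v = IsFace w) (ht : Is335 v) : Is335 w := by
  unfold Is335 IsEdge at *
  rw [← h]; exact ht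

/-- Möbius uniqueness, same index set -/
theorem moebius_unique {v w : ι → E4} (hv : IsPolytope v) (hw : IsPolytope w)
    (hvs : EdgeScribed v) (hws : EdgeScribed w) (ht : Is335 v)
    (hF : ∀ F, IsFace v F ↔ IsFace w F) :
    ∃ μ, IsMoebius μ ∧ ∀ i, μ '' ball (v i) = ball (w i) := by
  have hFe : IsFace v = IsFace w := funext fun F => propext (hF F)
  have htw := is335_congr hFe ht
  obtain ⟨hbv, hfacv, hu⟩ := sys_of hv hvs ht
  obtain ⟨hbw, hfacw, hu'⟩ := sys_of hw hws htw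
  have hρv : ∀ i, 0 < (Real.sqrt (‖v i‖ ^ 2 - 1))⁻¹ :=
    fun i => inv_pos.2 (Real.sqrt_pos.2 (by linarith [hbv i]))
  have hρw : ∀ i, 0 < (Real.sqrt (‖w i‖ ^ 2 - 1))⁻¹ :=
    fun i => inv_pos.2 (Real.sqrt_pos.2 (by linarith [hbw i]))
  have hFv := Fc_eq (v := v) hρv
  have hFw := Fc_eq (v := w) hρw
  have hne : Nonempty ι := by
    by_contra h
    rw [not_nonempty_iff] at h
    have h1 := hv.full
    rw [Set.range_eq_empty] at h1
    simp at h1
  obtain ⟨i0⟩ := hne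
  obtain ⟨S0, hS0, hi0⟩ := hfacv i0
  obtain ⟨A, hA, hAu⟩ := propagate hu hu' (by rw [hFv, hFw, hFe]) (by rw [hFv]; exact hS0)
  have hAi : ∀ i, A ((Real.sqrt (‖v i‖ ^ 2 - 1))⁻¹ • ((v i, 1) : L5))
      = (Real.sqrt (‖w i‖ ^ 2 - 1))⁻¹ • ((w i, 1) : L5) := by
    intro i
    obtain ⟨S, hS, hi⟩ := hfacv i
    exact hAu S (by rw [hFv]; exact hS) i hi
  -- time direction
  have hcard := ht.1 S0 hS0
  obtain ⟨j0, hj0, hji⟩ := Finset.exists_mem_ne (by omega : 1 < S0.card) i0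
  have hS0' : IsFacet (Fc (fun i => (Real.sqrt (‖v i‖ ^ 2 - 1))⁻¹ • ((v i, 1) : L5))) S0 := by
    rw [hFv]; exact hS0
  have he : 0 < (A (0, 1)).2 := by
    apply time_preserved hA (N := (Real.sqrt (‖v i0‖ ^ 2 - 1))⁻¹ • ((v i0, 1) : L5)
      + (Real.sqrt (‖v j0‖ ^ 2 - 1))⁻¹ • ((v j0, 1) : L5))
    · have h1 := hu.un S0 hS0' i0 hi0
      have h2 := hu.un S0 hS0' j0 hj0
      have h3 := hu.ed S0 hS0' i0 hi0 j0 hj0 hji.symm
      have h4 := hu.ed S0 hS0' j0 hj0 i0 hi0 hji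
      simp only [map_add, LinearMap.add_apply] at h1 h2 h3 h4 ⊢
      rw [h1, h2, h3, h4]; norm_num
    · have := hρv i0
      have := hρv j0
      simp only [Prod.snd_add, Prod.smul_snd, smul_eq_mul, mul_one]
      positivity
    · rw [map_add, hAi, hAi]
      have := hρw i0
      have := hρw j0
      simp only [Prod.snd_add, Prod.smul_snd, smul_eq_mul, mul_one]
      positivity
  obtain ⟨μ, hμ, hact⟩ := gen_lorentz (A := (A : L5 →ₗ[ℝ] L5)) hA he
  exact ⟨μ, hμ, fun i => ball_image hA he hact (hρv i) (hρw i) (hAi i)⟩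

end R179.Mob
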