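import Pool.Agent.R179.MobL

/-!
Final form: two polytopes with possibly different index sets.
-/

set_option linter.unusedSectionVars false

namespace R179.Mob

open Finset Module

variable {ι κ : Type*} [Fintype ι] [DecidableEq ι] [Fintype κ] [DecidableEq κ]

lemma isFace_comp (w : κ → E4) (e : ι ≃ κ) (F : Finset ι) :
    IsFace (fun i => w (e i)) F ↔ IsFace w (F.map e.toEmbedding) := by
  constructor
  · rintro ⟨f, c, h1, h2⟩
    refine ⟨f, c, fun k => by simpa using h1 (e.symm k), fun k => ?_⟩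
    have := h2 (e.symm k)
    simp only [Equiv.apply_symm_apply] at this
    rw [this, Finset.mem_map_equiv]
  · rintro ⟨f, c, h1, h2⟩
    refine ⟨f, c, fun i => h1 (e i), fun i => ?_⟩
    have := h2 (e i)
    rw [this, Finset.mem_map_equiv, Equiv.symm_apply_apply]

lemma isPolytope_comp {w : κ → E4} (hw : IsPolytope w) (e : ι ≃ κ) :
    IsPolytope (fun i => w (e i)) := by
  refine ⟨?_, fun i => ?_⟩
  · have : Set.range (fun i => w (e i)) = Set.range w := by
      ext x
      constructor
      · rintro ⟨i, rfl⟩; exact ⟨e i, rfl⟩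
      · rintro ⟨k, rfl⟩; exact ⟨e.symm k, by simp⟩
    rw [this]; exact hw.full
  · rw [isFace_comp]
    simpa using hw.vertex (e i)

lemma edgeScribed_comp {w : κ → E4} (hw : EdgeScribed w) (e : ι ≃ κ) :
    EdgeScribed (fun i => w (e i)) := by
  rintro i j ⟨hij, hf⟩
  rw [isFace_comp] at hf
  apply hw (e i) (e j)
  refine ⟨fun h => hij (e.injective h), ?_⟩
  simpa [Finset.map_insert] using hf

theorem moebius_unique' {v : ι → E4} {w : κ → E4} (hv : IsPolytope v) (hw : IsPolytope w)
    (hvs : EdgeScribed v) (hws : EdgeScribed w) (ht : Is335 v) (e : ι ≃ κ)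
    (he : ∀ F : Finset ι, IsFace v F ↔ IsFace w (F.map e.toEmbedding)) :
    ∃ μ, IsMoebius μ ∧ (∀ i, μ '' ball (v i) = ball (w (e i))) ∧
      (fun b => μ '' b) '' Set.range (fun i => ball (v i)) = Set.range (fun k => ball (w k)) := by
  obtain ⟨μ, hμ, h⟩ := moebius_unique hv (isPolytope_comp hw e) hvs (edgeScribed_comp hws e) ht
    (fun F => by rw [he, isFace_comp])
  refine ⟨μ, hμ, h, ?_⟩
  ext b
  constructor
  · rintro ⟨_, ⟨i, rfl⟩, rfl⟩
    exact ⟨e i, (h i).symm⟩
  · rintro ⟨k, rfl⟩
    refine ⟨_, ⟨e.symm k, rfl⟩, ?_⟩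
    have := h (e.symm k)
    simp only [Equiv.apply_symm_apply] at this
    exact this

end R179.Mob
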