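import Mathlib

/-!
# Petrie schemes: definitions and reduction to the standard order
-/

namespace Pool.R179.Petrie

/-- The nonempty faces of a polytope, ordered by inclusion: a partial order with a greatest element
(the polytope itself) and a dimension function. -/
class FacePoset (P : Type) extends PartialOrder P, OrderTop P where
  /-- dimension of a face -/
  dim : P → ℕ

open FacePoset

/-- the rank of the polytope: the dimension of its greatest face -/
def rk (P : Type) [FacePoset P] : ℕ := dim (⊤ : P)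

/-- A flag `F_0 < F_1 < ⋯ < F_{n-1}` of the `n`-polytope `P`, with `F_i` of dimension `i`
(extended by `F_i = P` for `i ≥ n`). -/
@[ext] structure Flg (P : Type) [FacePoset P] where
  /-- the face of rank `i` -/
  face : ℕ → P
  mono : Monotone face
  dim_face : ∀ i ≤ rk P, dim (face i) = i
  top : ∀ i, rk P ≤ i → face i = ⊤

variable {P : Type} [FacePoset P]

/-- `Φ'` is the `i`-adjacent flag of `Φ`: they differ exactly in the face of rank `i`. -/
def Adj (i : ℕ) (Φ Φ' : Flg P) : Prop := Φ'.face i ≠ Φ.face i ∧ ∀ j, j ≠ i → Φ'.face j = Φ.face j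

/-- `Φ' = Φ γ` where `γ = γ_{σ 0} γ_{σ 1} ⋯ γ_{σ (n-1)}`. -/
def Step (σ : Equiv.Perm (Fin (rk P))) (Φ Φ' : Flg P) : Prop :=
  ∃ c : ℕ → Flg P, c 0 = Φ ∧ c (rk P) = Φ' ∧ ∀ m : Fin (rk P), Adj (σ m) (c m) (c (m + 1))

/-- The two-sided sequence `Ψ_k = Ψ γ^k`. -/
def IsScheme (σ : Equiv.Perm (Fin (rk P))) (Ψ : ℤ → Flg P) : Prop := ∀ k, Step σ (Ψ k) (Ψ (k + 1))

/-- A Petrie scheme is acoptic if no proper face occurs in two different flags of it. -/
def Acoptic (Ψ : ℤ → Flg P) : Prop := ∀ k l : ℤ, ∀ i < rk P, (Ψ k).face i = (Ψ l).face i → Ψ k = Ψ l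

/-- All Petrie schemes of `P` are acoptic. -/
def OnlyAcoptic (P : Type) [FacePoset P] : Prop :=
  ∀ (σ : Equiv.Perm (Fin (rk P))) (Ψ : ℤ → Flg P), IsScheme σ Ψ → Acoptic Ψ

/-- One step of the standard order `γ_0 γ_1 ⋯ γ_{n-1}`. -/
def Stp (Φ Φ' : Flg P) : Prop := ∀ i < rk P, Φ'.face i ≤ Φ.face (i + 1) ∧ Φ'.face i ≠ Φ.face i

/-- `t` standard steps. -/
inductive StpN : ℕ → Flg P → Flg P → Prop
  | zero (Φ : Flg P) : StpN 0 Φ Φ
  | succ {t : ℕ} {Φ Ψ Χ : Flg P} : StpN t Φ Ψ → Stp Ψ Χ → StpN (t + 1) Φ Χ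

/-- the standard Petrie steps have period exactly `N`, even for single faces -/
def Per (P : Type) [FacePoset P] (N : ℕ) : Prop :=
  ∀ t (Φ Ψ : Flg P), StpN t Φ Ψ → (∀ i < rk P, Φ.face i = Ψ.face i → N ∣ t) ∧ (N ∣ t → Φ = Ψ)

theorem StpN.cons {t : ℕ} {Φ Ψ Χ : Flg P} (h : Stp Φ Ψ) (h' : StpN t Ψ Χ) : StpN (t + 1) Φ Χ := by
  induction h' with
  | zero Ψ => exact StpN.succ (StpN.zero _) h
  | succ _ hs ih => exact StpN.succ (ih h) hs

/-! ### Reduction of an arbitrary order to the standard one -/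

section reduction
variable (σ : Equiv.Perm (Fin (rk P)))

/-- the time at which rank `i` is changed -/
def pos (i : ℕ) : ℕ := if h : i < rk P then (σ.symm ⟨i, h⟩ : ℕ) else 0

theorem pos_lt {i : ℕ} (h : i < rk P) : pos σ i < rk P := by
  unfold pos; rw [dif_pos h]; exact (σ.symm ⟨i, h⟩).2

theorem pos_inj {i j : ℕ} (hi : i < rk P) (hj : j < rk P) (h : pos σ i = pos σ j) : i = j := by
  unfold pos at h; rw [dif_pos hi, dif_pos hj] at h
  have := σ.symm.injective (Fin.ext h)
  exact congrArg Fin.val this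

theorem σ_pos {i : ℕ} (h : i < rk P) : (σ ⟨pos σ i, pos_lt σ h⟩ : ℕ) = i := by
  have : (⟨pos σ i, pos_lt σ h⟩ : Fin (rk P)) = σ.symm ⟨i, h⟩ := by
    apply Fin.ext; exact dif_pos h
  rw [this, Equiv.apply_symm_apply]

variable {σ}

/-- the intermediate flags of a step -/
theorem chain_face {c : ℕ → Flg P} (hc : ∀ m : Fin (rk P), Adj (σ m) (c m) (c (m + 1))) {i : ℕ}
    (hi : i < rk P) : (∀ m ≤ pos σ i, (c m).face i = (c 0).face i) ∧
      (∀ m, pos σ i < m → m ≤ rk P → (c m).face i = (c (rk P)).face i) := by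
  have hstep : ∀ m, m < rk P → m ≠ pos σ i → (c (m + 1)).face i = (c m).face i := by
    intro m hm hne
    apply (hc ⟨m, hm⟩).2
    intro h
    apply hne
    have h1 : (⟨i, hi⟩ : Fin (rk P)) = σ ⟨m, hm⟩ := Fin.ext h
    unfold pos; rw [dif_pos hi, h1, Equiv.symm_apply_apply]
  constructor
  · intro m
    induction m with
    | zero => intro _; rfl
    | succ m ih =>
      intro hm
      rw [hstep m (lt_of_lt_of_le (Nat.lt_of_succ_le hm) (pos_lt σ hi).le) (by omega), ih (by omega)]
  · have key : ∀ k m, m + k = rk P → pos σ i < m → (c m).face i = (c (rk P)).face i := by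
      intro k
      induction k with
      | zero => intro m hm _; rw [Nat.add_zero] at hm; rw [hm]
      | succ k ih =>
        intro m hm hp
        rw [← hstep m (by omega) (by omega)]
        exact ih (m + 1) (by omega) (by omega)
    intro m hp hm
    exact key (rk P - m) m (by omega) hp

theorem Step.ne {Φ Φ' : Flg P} (h : Step σ Φ Φ') {i : ℕ} (hi : i < rk P) : Φ'.face i ≠ Φ.face i := by
  obtain ⟨c, h0, hn, hc⟩ := h
  have h1 := (hc ⟨pos σ i, pos_lt σ hi⟩).1
  rw [σ_pos σ hi] at h1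
  have h2 := (chain_face hc hi).1 _ le_rfl
  have h3 := (chain_face hc hi).2 (pos σ i + 1) (Nat.lt_succ_self _) (pos_lt σ hi)
  rw [h0] at h2
  rw [hn] at h3
  simp only [] at h1
  rw [h2, h3] at h1
  exact h1

theorem Step.lt {Φ Φ' : Flg P} (h : Step σ Φ Φ') {i : ℕ} (hi : i + 1 < rk P)
    (hp : pos σ i < pos σ (i + 1)) : Φ'.face i ≤ Φ.face (i + 1) := by
  obtain ⟨c, h0, hn, hc⟩ := h
  have h2 := (chain_face hc hi).1 (pos σ i + 1) hp
  have h3 := (chain_face hc (show i < rk P by omega)).2 (pos σ i + 1) (Nat.lt_succ_self _)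
    (pos_lt σ (by omega))
  rw [h0] at h2
  rw [hn] at h3
  rw [← h2, ← h3]
  exact (c (pos σ i + 1)).mono (Nat.le_succ i)

theorem Step.gt {Φ Φ' : Flg P} (h : Step σ Φ Φ') {i : ℕ} (hi : i + 1 < rk P)
    (hp : pos σ (i + 1) < pos σ i) : Φ.face i ≤ Φ'.face (i + 1) := by
  obtain ⟨c, h0, hn, hc⟩ := h
  have h2 := (chain_face hc (show i < rk P by omega)).1 (pos σ (i + 1) + 1) hp
  have h3 := (chain_face hc hi).2 (pos σ (i + 1) + 1) (Nat.lt_succ_self _) (pos_lt σ hi)
  rw [h0] at h2
  rw [hn] at h3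
  rw [← h2, ← h3]
  exact (c (pos σ (i + 1) + 1)).mono (Nat.le_succ i)

variable (σ) in
/-- time shifts -/
def sh : ℕ → ℤ
  | 0 => 0
  | i + 1 => sh i + if i + 1 < rk P ∧ pos σ (i + 1) < pos σ i then 1 else 0

/-- the re-synchronized flags -/
def resync {Ψ : ℤ → Flg P} (h : IsScheme σ Ψ) (k : ℤ) : Flg P where
  face i := (Ψ (k + sh σ i)).face i
  mono := by
    apply monotone_nat_of_le_succ
    intro i
    by_cases hi : i + 1 < rk P
    · by_cases hp : pos σ (i + 1) < pos σ i
      · have : k + sh σ (i + 1) = (k + sh σ i) + 1 := by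
          simp only [sh]; rw [if_pos ⟨hi, hp⟩]; ring
        rw [this]
        exact (h _).gt hi hp
      · have : k + sh σ (i + 1) = (k + sh σ i) := by
          simp only [sh]; rw [if_neg (fun h => hp h.2)]; ring
        rw [this]
        exact (Ψ _).mono (Nat.le_succ i)
    · rw [(Ψ _).top (i + 1) (by omega)]
      exact le_top
  dim_face i hi := (Ψ _).dim_face i hi
  top i hi := (Ψ _).top i hi

theorem resync_Stp {Ψ : ℤ → Flg P} (h : IsScheme σ Ψ) (k : ℤ) :
    Stp (resync h k) (resync h (k + 1)) := by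
  intro i hi
  constructor
  · show (Ψ (k + 1 + sh σ i)).face i ≤ (Ψ (k + sh σ (i + 1))).face (i + 1)
    by_cases hi' : i + 1 < rk P
    · by_cases hp : pos σ (i + 1) < pos σ i
      · have : k + sh σ (i + 1) = k + 1 + sh σ i := by
          simp only [sh]; rw [if_pos ⟨hi', hp⟩]; ring
        rw [this]
        exact (Ψ _).mono (Nat.le_succ i)
      · have e1 : k + sh σ (i + 1) = (k + sh σ i) := by
          simp only [sh]; rw [if_neg (fun h => hp h.2)]; ring
        have e2 : k + 1 + sh σ i = (k + sh σ i) + 1 := by ring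
        rw [e1, e2]
        apply (h _).lt hi'
        have hne : pos σ i ≠ pos σ (i + 1) := fun e => by
          have := pos_inj σ hi hi' e; omega
        omega
    · rw [(Ψ (k + sh σ (i + 1))).top (i + 1) (by omega)]
      exact le_top
  · show (Ψ (k + 1 + sh σ i)).face i ≠ (Ψ (k + sh σ i)).face i
    have e2 : k + 1 + sh σ i = (k + sh σ i) + 1 := by ring
    rw [e2]
    exact (h _).ne hi

theorem resync_StpN {Ψ : ℤ → Flg P} (h : IsScheme σ Ψ) (k : ℤ) (t : ℕ) :
    StpN t (resync h k) (resync h (k + t)) := by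
  induction t with
  | zero => rw [Nat.cast_zero, add_zero]; exact StpN.zero _
  | succ t ih =>
    have := resync_Stp h (k + t)
    rw [Nat.cast_succ, ← add_assoc]
    exact StpN.succ ih this

end reduction

theorem Per.onlyAcoptic {N : ℕ} (h : Per P N) : OnlyAcoptic P := by
  intro σ Ψ hΨ
  have key : ∀ (k : ℤ) (t : ℕ) (i : ℕ), i < rk P → (Ψ k).face i = (Ψ (k + t)).face i →
      Ψ k = Ψ (k + t) := by
    intro k t i hi he
    have h1 := (h t _ _ (resync_StpN hΨ (k - sh σ i) t)).1 i hi (by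
      show (Ψ (k - sh σ i + sh σ i)).face i = (Ψ (k - sh σ i + t + sh σ i)).face i
      have e1 : k - sh σ i + sh σ i = k := by ring
      have e2 : k - sh σ i + t + sh σ i = k + t := by ring
      rw [e1, e2, he])
    apply Flg.ext
    funext j
    by_cases hj : j < rk P
    · have h2 := (h t _ _ (resync_StpN hΨ (k - sh σ j) t)).2 h1
      have h3' := congrArg (fun F : Flg P => F.face j) h2
      have h3 : (Ψ (k - sh σ j + sh σ j)).face j = (Ψ (k - sh σ j + t + sh σ j)).face j := h3'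
      have e1 : k - sh σ j + sh σ j = k := by ring
      have e2 : k - sh σ j + t + sh σ j = k + t := by ring
      rw [e1, e2] at h3
      exact h3
    · rw [(Ψ k).top j (by omega), (Ψ (k + t)).top j (by omega)]
  intro k l i hi he
  rcases le_total k l with hkl | hkl
  · obtain ⟨t, ht⟩ := Int.eq_ofNat_of_zero_le (sub_nonneg.2 hkl)
    have : l = k + t := by omega
    rw [this] at he ⊢
    exact key k t i hi he
  · obtain ⟨t, ht⟩ := Int.eq_ofNat_of_zero_le (sub_nonneg.2 hkl)
    have : k = l + t := by omega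
    rw [this] at he ⊢
    exact (key l t i hi he.symm).symm

end Pool.R179.Petrie
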