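import Pool.Agent.R179.PetA

/-!
# Petrie schemes of Cartesian products
-/

namespace Pool.R179.Petrie
open FacePoset

/-- smaller faces have smaller dimension -/
class Good (P : Type) [FacePoset P] : Prop where
  dim_lt : ∀ x y : P, x < y → dim x < dim y

theorem dim_le {P : Type} [FacePoset P] [Good P] {x y : P} (h : x ≤ y) : dim x ≤ dim y := by
  rcases h.lt_or_eq with h | h
  · exact (Good.dim_lt _ _ h).le
  · rw [h]

theorem eq_of_dim {P : Type} [FacePoset P] [Good P] {x y : P} (h : x ≤ y) (hd : dim y ≤ dim x) :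
    x = y := by
  rcases h.lt_or_eq with h | h
  · exact absurd (Good.dim_lt _ _ h) (by omega)
  · exact h

theorem sum_step {ι : Type} [Fintype ι] [DecidableEq ι] {f g : ι → ℕ} (h : ∀ a, f a ≤ g a)
    (hs : ∑ a, g a = ∑ a, f a + 1) : ∃ b, g b = f b + 1 ∧ ∀ a, a ≠ b → g a = f a := by
  have h1 : ∑ a, (g a - f a) = 1 := by
    have : ∑ a, (g a - f a) + ∑ a, f a = ∑ a, g a := by
      rw [← Finset.sum_add_distrib]
      exact Finset.sum_congr rfl (fun a _ => Nat.sub_add_cancel (h a))
    omega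
  obtain ⟨b, hb⟩ : ∃ b, g b - f b ≠ 0 := by
    by_contra hcon
    push Not at hcon
    rw [Finset.sum_eq_zero (fun a _ => hcon a)] at h1
    exact absurd h1 (by norm_num)
  have h2 := Finset.add_sum_erase Finset.univ (fun a => g a - f a) (Finset.mem_univ b)
  simp only [h1] at h2
  have h3 : ∑ a ∈ Finset.univ.erase b, (g a - f a) = 0 := by omega
  rw [Finset.sum_eq_zero_iff] at h3
  refine ⟨b, by have := h b; omega, fun a ha => ?_⟩
  have := h3 a (Finset.mem_erase.2 ⟨ha, Finset.mem_univ a⟩)
  have := h a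
  omega

variable {ι : Type} [Fintype ι] [DecidableEq ι] {P : ι → Type} [∀ a, FacePoset (P a)]

/-- The face poset of a Cartesian product of polytopes: the nonempty faces are the products of
nonempty faces. -/
instance : FacePoset (∀ a, P a) where
  toPartialOrder := Pi.partialOrder
  top := fun _ => ⊤
  le_top := fun _ _ => le_top
  dim f := ∑ a, dim (f a)

theorem rk_pi : rk (∀ a, P a) = ∑ a, rk (P a) := rfl

section good
variable [∀ a, Good (P a)]

instance : Good (∀ a, P a) where
  dim_lt x y h := by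
    obtain ⟨h1, a, h2⟩ := Pi.lt_def.1 h
    exact Finset.sum_lt_sum (fun a _ => dim_le (h1 a)) ⟨a, Finset.mem_univ a, Good.dim_lt _ _ h2⟩

/-- dimension of the `a`-component of the `i`-face -/
def e (Φ : Flg (∀ a, P a)) (a : ι) (i : ℕ) : ℕ := dim (Φ.face i a)

variable (Φ : Flg (∀ a, P a))

theorem e_mono (a : ι) : Monotone (e Φ a) := fun _ _ h => dim_le (Φ.mono h a)

theorem e_le (a : ι) (i : ℕ) : e Φ a i ≤ rk (P a) := dim_le le_top

theorem e_top (a : ι) {i : ℕ} (h : rk (∀ a, P a) ≤ i) : e Φ a i = rk (P a) := by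
  unfold e; rw [Φ.top i h]; rfl

theorem e_sum {i : ℕ} (h : i ≤ rk (∀ a, P a)) : ∑ a, e Φ a i = i := Φ.dim_face i h

theorem e_zero (a : ι) : e Φ a 0 = 0 := by
  have := e_sum Φ (Nat.zero_le _)
  exact (Finset.sum_eq_zero_iff.1 this) a (Finset.mem_univ a)

theorem e_step {i : ℕ} (h : i < rk (∀ a, P a)) :
    ∃ b, e Φ b (i + 1) = e Φ b i + 1 ∧ ∀ a, a ≠ b → e Φ a (i + 1) = e Φ a i :=
  sum_step (fun a => e_mono Φ a (Nat.le_succ i)) (by rw [e_sum Φ h.le, e_sum Φ (i := i + 1) h])

theorem e_succ_le (a : ι) (i : ℕ) : e Φ a (i + 1) ≤ e Φ a i + 1 := by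
  by_cases h : i < rk (∀ a, P a)
  · obtain ⟨b, h1, h2⟩ := e_step Φ h
    by_cases hab : a = b
    · rw [hab, h1]
    · rw [h2 a hab]; omega
  · rw [e_top Φ a (i := i) (by omega), e_top Φ a (i := i + 1) (by omega)]; omega

theorem face_eq_of_e {a : ι} {i j : ℕ} (hij : i ≤ j) (h : e Φ a i = e Φ a j) :
    Φ.face i a = Φ.face j a := eq_of_dim (Φ.mono hij a) (by unfold e at h; omega)

theorem ex_idx (a : ι) (m : ℕ) : ∃ i, min m (rk (P a)) ≤ e Φ a i :=
  ⟨rk (∀ a, P a), by rw [e_top Φ a le_rfl]; exact min_le_right _ _⟩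

open Classical in
/-- first index at which the `a`-component has dimension `m` -/
noncomputable def idx (a : ι) (m : ℕ) : ℕ := Nat.find (ex_idx Φ a m)

theorem e_idx (a : ι) (m : ℕ) : e Φ a (idx Φ a m) = min m (rk (P a)) := by
  classical
  have h1 : min m (rk (P a)) ≤ e Φ a (idx Φ a m) := Nat.find_spec (ex_idx Φ a m)
  apply le_antisymm _ h1
  rcases Nat.eq_zero_or_pos (idx Φ a m) with h0 | h0
  · rw [h0, e_zero]; omega
  · have h2 : ¬ min m (rk (P a)) ≤ e Φ a (idx Φ a m - 1) := Nat.find_min (ex_idx Φ a m) (by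
      show idx Φ a m - 1 < idx Φ a m; omega)
    have h3 := e_succ_le Φ a (idx Φ a m - 1)
    rw [Nat.sub_add_cancel h0] at h3
    omega

theorem idx_le {a : ι} {m i : ℕ} (h : min m (rk (P a)) ≤ e Φ a i) : idx Φ a m ≤ i := by
  classical
  exact Nat.find_min' (ex_idx Φ a m) h

theorem idx_mono (a : ι) : Monotone (idx Φ a) := by
  intro m m' h
  apply idx_le
  rw [e_idx]
  omega

/-- the flag of the `a`-th factor -/
noncomputable def comp (a : ι) : Flg (P a) where
  face m := Φ.face (idx Φ a m) a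
  mono := fun m m' h => Φ.mono (idx_mono Φ a h) a
  dim_face m hm := by
    have := e_idx Φ a m
    unfold e at this
    rw [this]; omega
  top m hm := by
    apply eq_of_dim le_top
    have := e_idx Φ a m
    unfold e at this
    rw [this]
    show rk (P a) ≤ _
    omega

theorem comp_face (a : ι) (i : ℕ) : (comp Φ a).face (e Φ a i) = Φ.face i a := by
  show Φ.face (idx Φ a (e Φ a i)) a = _
  apply face_eq_of_e
  · exact idx_le Φ (min_le_left _ _)
  · rw [e_idx]; exact min_eq_left (e_le Φ a i)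

theorem comp_face' {a : ι} {i m : ℕ} (h : e Φ a i = m) : (comp Φ a).face m = Φ.face i a := by
  rw [← h]; exact comp_face Φ a i

/-- cumulative letter counts -/
def EE (a : ι) (s : ℕ) : ℕ := s / rk (∀ a, P a) * rk (P a) + e Φ a (s % rk (∀ a, P a))

section pos
variable (hd : 0 < rk (∀ a, P a))
include hd

theorem EE_add (a : ι) (s : ℕ) : EE Φ a (s + rk (∀ a, P a)) = EE Φ a s + rk (P a) := by
  unfold EE
  rw [Nat.add_div_right _ hd, Nat.add_mod_right]
  ring

theorem EE_small (a : ι) {s : ℕ} (h : s ≤ rk (∀ a, P a)) : EE Φ a s = e Φ a s := by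
  unfold EE
  rcases h.lt_or_eq with h | h
  · rw [Nat.div_eq_of_lt h, Nat.mod_eq_of_lt h]; ring
  · rw [h, Nat.div_self hd, Nat.mod_self, e_zero, e_top Φ a le_rfl]; ring

theorem EE_mul_add (a : ι) (q s : ℕ) : EE Φ a (q * rk (∀ a, P a) + s) = q * rk (P a) + EE Φ a s := by
  induction q with
  | zero => simp
  | succ q ih =>
    have : (q + 1) * rk (∀ a, P a) + s = (q * rk (∀ a, P a) + s) + rk (∀ a, P a) := by ring
    rw [this, EE_add Φ hd, ih]; ring

theorem EE_step (s : ℕ) : ∃ b, EE Φ b (s + 1) = EE Φ b s + 1 ∧ ∀ a, a ≠ b → EE Φ a (s + 1) = EE Φ a s := by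
  have hs : s = s / rk (∀ a, P a) * rk (∀ a, P a) + s % rk (∀ a, P a) := (Nat.div_add_mod' _ _).symm
  have hr := Nat.mod_lt s hd
  set q := s / rk (∀ a, P a)
  set r := s % rk (∀ a, P a)
  obtain ⟨b, h1, h2⟩ := e_step Φ hr
  refine ⟨b, ?_, fun a ha => ?_⟩
  · rw [hs, add_assoc, EE_mul_add Φ hd, EE_mul_add Φ hd, EE_small Φ hd b hr.le, EE_small Φ hd b hr, h1]
    ring
  · rw [hs, add_assoc, EE_mul_add Φ hd, EE_mul_add Φ hd, EE_small Φ hd a hr.le, EE_small Φ hd a hr,
      h2 a ha]

theorem EE_mono (a : ι) : Monotone (EE Φ a) := by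
  apply monotone_nat_of_le_succ
  intro s
  obtain ⟨b, h1, h2⟩ := EE_step Φ hd s
  by_cases h : a = b
  · rw [h, h1]; omega
  · rw [h2 a h]

end pos

/-! ### One step -/

variable {Φ}

theorem stp_key {Φ' : Flg (∀ a, P a)} (h : Stp Φ Φ') {b : ι} (hb : e Φ b 1 = 1) {i : ℕ}
    (hi : i < rk (∀ a, P a)) : ∀ a, a ≠ b → Φ'.face i a = Φ.face (i + 1) a := by
  have total : ∀ i, i < rk (∀ a, P a) → ∃ c, e Φ c (i + 1) = e Φ' c i + 1 ∧
      ∀ a, a ≠ c → e Φ a (i + 1) = e Φ' a i := by
    intro i hi
    exact sum_step (fun a => dim_le ((h i hi).1 a)) (by rw [e_sum Φ hi, e_sum Φ' hi.le])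
  induction i with
  | zero =>
    obtain ⟨c, h1, h2⟩ := total 0 hi
    have hcb : c = b := by
      by_contra hne
      have := h2 b (fun h => hne h.symm)
      rw [hb, e_zero] at this
      exact absurd this (by norm_num)
    intro a ha
    apply eq_of_dim ((h 0 hi).1 a)
    have := h2 a (by rw [hcb]; exact ha)
    unfold e at this
    exact this.le
  | succ i ih =>
    have ih := ih (by omega)
    obtain ⟨c, h1, h2⟩ := total (i + 1) hi
    have hcb : c = b := by
      by_contra hne
      have hcb : c ≠ b := hne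
      obtain ⟨c', g1, g2⟩ := e_step Φ hi
      have hce : Φ'.face i c = Φ.face (i + 1) c := ih c hcb
      have hd1 : e Φ' c i ≤ e Φ' c (i + 1) := e_mono Φ' c (Nat.le_succ i)
      have hd2 : e Φ' c i = e Φ c (i + 1) := by unfold e; rw [hce]
      have hcc : c' = c := by
        by_contra hne2
        have := g2 c (fun h => hne2 h.symm)
        omega
      rw [hcc] at g1 g2
      apply (h (i + 1) hi).2
      funext a
      by_cases hac : a = c
      · rw [hac]
        have h3 : Φ'.face i c = Φ'.face (i + 1) c := by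
          apply face_eq_of_e Φ' (show i ≤ i + 1 by omega)
          omega
        rw [← h3]; exact hce
      · have h3 : Φ'.face (i + 1) a = Φ.face (i + 1 + 1) a := by
          apply eq_of_dim ((h (i + 1) hi).1 a)
          have := h2 a hac
          unfold e at this
          exact this.le
        rw [h3]
        exact (face_eq_of_e Φ (Nat.le_succ (i + 1)) (g2 a hac).symm).symm
    intro a ha
    apply eq_of_dim ((h (i + 1) hi).1 a)
    have := h2 a (by rw [hcb]; exact ha)
    unfold e at this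
    exact this.le

theorem stp_e {Φ' : Flg (∀ a, P a)} (h : Stp Φ Φ') {b : ι} (hb : e Φ b 1 = 1) {i : ℕ}
    (hi : i < rk (∀ a, P a)) : (∀ a, a ≠ b → e Φ' a i = e Φ a (i + 1)) ∧ e Φ' b i + 1 = e Φ b (i + 1) := by
  have h1 : ∀ a, a ≠ b → e Φ' a i = e Φ a (i + 1) := by
    intro a ha
    unfold e
    rw [stp_key h hb hi a ha]
  refine ⟨h1, ?_⟩
  obtain ⟨c, g1, g2⟩ : ∃ c, e Φ c (i + 1) = e Φ' c i + 1 ∧ ∀ a, a ≠ c → e Φ a (i + 1) = e Φ' a i :=
    sum_step (fun a => dim_le ((h i hi).1 a)) (by rw [e_sum Φ hi, e_sum Φ' hi.le])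
  by_cases hc : c = b
  · rw [hc] at g1; exact g1.symm
  · have := h1 c hc; omega

theorem comp_other {Φ' : Flg (∀ a, P a)} (h : Stp Φ Φ') {b : ι} (hb : e Φ b 1 = 1) {a : ι}
    (ha : a ≠ b) : comp Φ' a = comp Φ a := by
  apply Flg.ext
  funext m
  by_cases hm : m < rk (P a)
  · have h1 := e_idx Φ' a m
    rw [min_eq_left hm.le] at h1
    have hi : idx Φ' a m < rk (∀ a, P a) := by
      by_contra hcon
      rw [e_top Φ' a (by omega)] at h1
      omega
    have h2 := (stp_e h hb hi).1 a ha
    rw [comp_face' Φ' h1, comp_face' Φ (h2.symm.trans h1)]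
    exact stp_key h hb hi a ha
  · rw [(comp Φ' a).top m (by omega), (comp Φ a).top m (by omega)]

theorem comp_stp {Φ' : Flg (∀ a, P a)} (h : Stp Φ Φ') {b : ι} (hb : e Φ b 1 = 1) :
    Stp (comp Φ b) (comp Φ' b) := by
  intro m hm
  constructor
  · have h1 := e_idx Φ' b m
    rw [min_eq_left hm.le] at h1
    have hi : idx Φ' b m < rk (∀ a, P a) := by
      by_contra hcon
      rw [e_top Φ' b (by omega)] at h1
      omega
    have h2 := (stp_e h hb hi).2
    rw [comp_face' Φ' h1, comp_face' Φ (show e Φ b (idx Φ' b m + 1) = m + 1 by omega)]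
    exact (h _ hi).1 b
  · -- the level at which the `b`-component grows from `m` to `m+1`
    have h1 := e_idx Φ b (m + 1)
    rw [min_eq_left (show m + 1 ≤ rk (P b) from hm)] at h1
    have h0 : 0 < idx Φ b (m + 1) := by
      by_contra hcon
      have : idx Φ b (m + 1) = 0 := by omega
      rw [this, e_zero] at h1
      omega
    obtain ⟨i, hi⟩ : ∃ i, idx Φ b (m + 1) = i + 1 := ⟨idx Φ b (m + 1) - 1, by omega⟩
    rw [hi] at h1
    have h2 : e Φ b i = m := by
      have h3 := e_succ_le Φ b i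
      have h4 := e_mono Φ b (Nat.le_succ i)
      by_contra hne
      have h5 : e Φ b i = m + 1 := by
        have h4' : e Φ b i ≤ e Φ b (i + 1) := h4
        omega
      have h6 : idx Φ b (m + 1) ≤ i := idx_le Φ (by omega)
      omega
    have hid : i < rk (∀ a, P a) := by
      by_contra hcon
      rw [e_top Φ b (i := i) (by omega)] at h2
      omega
    obtain ⟨c, g1, g2⟩ := e_step Φ hid
    have hcb : c = b := by
      by_contra hne
      have := g2 b (fun h => hne h.symm)
      omega
    have h3 := (stp_e h hb hid).2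
    rw [comp_face' Φ' (show e Φ' b i = m by omega), comp_face' Φ h2]
    intro heq
    apply (h i hid).2
    funext a
    by_cases hab : a = b
    · rw [hab]; exact heq
    · rw [stp_key h hb hid a hab]
      exact (face_eq_of_e Φ (Nat.le_succ i) (g2 a (by rw [hcb]; exact hab)).symm).symm

/-! ### Many steps -/

theorem stpN_rel (hd : 0 < rk (∀ a, P a)) {t : ℕ} {Ψ : Flg (∀ a, P a)} (h : StpN t Φ Ψ) :
    (∀ i ≤ rk (∀ a, P a), ∀ a, e Ψ a i + EE Φ a t = EE Φ a (t + i)) ∧
      ∀ a, StpN (EE Φ a t) (comp Φ a) (comp Ψ a) := by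
  induction h with
  | zero Φ =>
    constructor
    · intro i hi a
      rw [EE_small Φ hd a (Nat.zero_le _), e_zero, Nat.zero_add, EE_small Φ hd a hi, Nat.add_zero]
    · intro a
      rw [EE_small Φ hd a (Nat.zero_le _), e_zero]
      exact StpN.zero _
  | @succ t Φ Ψ Χ _ hs ih =>
    obtain ⟨ih1, ih2⟩ := ih
    obtain ⟨b, hb1, hb2⟩ := EE_step Φ hd t
    have hb : e Ψ b 1 = 1 := by
      have := ih1 1 hd b
      omega
    constructor
    · intro i hi a
      rcases hi.lt_or_eq with hi' | hi'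
      · have h3 := ih1 (i + 1) hi' a
        have e1 : t + (i + 1) = t + 1 + i := by ring
        rw [e1] at h3
        by_cases hab : a = b
        · rw [hab] at h3 ⊢
          have h4 := (stp_e hs hb hi').2
          omega
        · have h4 := (stp_e hs hb hi').1 a hab
          have h5 := hb2 a hab
          omega
      · rw [hi', e_top Χ a le_rfl, EE_add Φ hd]; omega
    · intro a
      by_cases hab : a = b
      · rw [hab, hb1]
        exact StpN.succ (ih2 b) (comp_stp hs hb)
      · rw [hb2 a hab, comp_other hs hb hab]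
        exact ih2 a

/-- **Petrie periods of products.** -/
theorem Per.pi (h : ∀ a, Per (P a) (2 * rk (P a))) : Per (∀ a, P a) (2 * rk (∀ a, P a)) := by
  intro t Φ Ψ hN
  rcases Nat.eq_zero_or_pos (rk (∀ a, P a)) with h0 | hd
  · constructor
    · intro i hi; omega
    · intro _
      apply Flg.ext; funext i
      rw [Φ.top i (by omega), Ψ.top i (by omega)]
  obtain ⟨hE, hC⟩ := stpN_rel hd hN
  constructor
  · intro i hi hface
    have hee : ∀ a, e Φ a i = e Ψ a i := by intro a; unfold e; rw [hface]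
    have hS : ∀ a, e Φ a i < rk (P a) → 2 * rk (P a) ∣ EE Φ a t := by
      intro a ha
      apply (h a _ _ _ (hC a)).1 (e Φ a i) ha
      rw [comp_face Φ a i, comp_face' Ψ (hee a).symm, hface]
    have ht : t = t / rk (∀ a, P a) * rk (∀ a, P a) + t % rk (∀ a, P a) := (Nat.div_add_mod' _ _).symm
    have hr := Nat.mod_lt t hd
    set q := t / rk (∀ a, P a) with hq
    set r := t % rk (∀ a, P a) with hrr
    have hEt : ∀ a, EE Φ a t = q * rk (P a) + EE Φ a r := by
      intro a; conv_lhs => rw [ht]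
      exact EE_mul_add Φ hd a q r
    have hEr : ∀ a, EE Φ a r = e Φ a r := fun a => EE_small Φ hd a hr.le
    rcases Nat.even_or_odd q with ⟨q', hq'⟩ | ⟨q', hq'⟩
    · -- q even
      have hr0 : r = 0 := by
        by_contra hne
        obtain ⟨a, h1, _⟩ := e_step Φ hi
        have hlt : e Φ a i < rk (P a) := by
          have := e_le Φ a (i + 1); omega
        have h2 := hS a hlt
        rw [hEt a, hEr a, hq'] at h2
        have h3 : 2 * rk (P a) ∣ e Φ a r := by
          have h4 : (q' + q') * rk (P a) = 2 * rk (P a) * q' := by ring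
          rw [h4] at h2
          exact (Nat.dvd_add_right (Dvd.intro _ rfl)).1 h2
        have h4 : e Φ a r = 0 := Nat.eq_zero_of_dvd_of_lt h3 (by have := e_le Φ a r; omega)
        have h5 := hE i hi.le a
        rw [← hee a, hEt a, hEr a, h4] at h5
        have h6 : EE Φ a (t + i) = q * rk (P a) + EE Φ a (r + i) := by
          conv_lhs => rw [ht, add_assoc]
          exact EE_mul_add Φ hd a q (r + i)
        rw [h6] at h5
        have h7 : EE Φ a (i + 1) ≤ EE Φ a (r + i) := EE_mono Φ hd a (by omega)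
        rw [EE_small Φ hd a (show i + 1 ≤ _ from hi), h1] at h7
        omega
      rw [ht, hr0, hq']
      exact ⟨q', by ring⟩
    · -- q odd
      exfalso
      have hd1 : rk (∀ a, P a) - 1 < rk (∀ a, P a) := by omega
      obtain ⟨a, h1, _⟩ := e_step Φ hd1
      rw [Nat.sub_add_cancel hd, e_top Φ a le_rfl] at h1
      have hlt : e Φ a i < rk (P a) := by
        have : e Φ a i ≤ e Φ a (rk (∀ a, P a) - 1) := e_mono Φ a (by omega)
        omega
      have h2 := hS a hlt
      rw [hEt a, hEr a, hq'] at h2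
      have h3 : 2 * rk (P a) ∣ rk (P a) + e Φ a r := by
        have h4 : (2 * q' + 1) * rk (P a) + e Φ a r = 2 * rk (P a) * q' + (rk (P a) + e Φ a r) := by ring
        rw [h4] at h2
        exact (Nat.dvd_add_right (Dvd.intro _ rfl)).1 h2
      have h4 : e Φ a r < rk (P a) := by
        have : e Φ a r ≤ e Φ a (rk (∀ a, P a) - 1) := e_mono Φ a (by omega)
        omega
      have h5 := Nat.le_of_dvd (by omega) h3
      omega
  · rintro ⟨s, hs⟩
    have hEt : ∀ a, EE Φ a t = 2 * s * rk (P a) := by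
      intro a
      have : t = (2 * s) * rk (∀ a, P a) + 0 := by rw [hs]; ring
      rw [this, EE_mul_add Φ hd, EE_small Φ hd a (Nat.zero_le _), e_zero, Nat.add_zero]
    have hcomp : ∀ a, comp Φ a = comp Ψ a := by
      intro a
      apply (h a _ _ _ (hC a)).2
      rw [hEt a]
      exact ⟨s, by ring⟩
    apply Flg.ext; funext i
    by_cases hi : i ≤ rk (∀ a, P a)
    · funext a
      have h1 := hE i hi a
      have h2 : EE Φ a (t + i) = 2 * s * rk (P a) + EE Φ a i := by
        have : t + i = (2 * s) * rk (∀ a, P a) + i := by rw [hs]; ring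
        rw [this, EE_mul_add Φ hd]
      rw [h2, hEt a, EE_small Φ hd a hi] at h1
      rw [← comp_face Φ a i, ← comp_face Ψ a i, hcomp a]
      congr 1
      omega
    · rw [Φ.top i (by omega), Ψ.top i (by omega)]

end good

end Pool.R179.Petrie
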