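import Pool.Agent.R179.PetB

/-!
# Cubes and crosspolytopes
-/

namespace Pool.R179.Petrie
open FacePoset

/-! ### The segment -/

/-- The nonempty faces of a segment: its two endpoints and the segment itself. -/
inductive Seg
  | pt (b : Bool)
  | whole
  deriving DecidableEq

instance : FacePoset Seg where
  le x y := x = y ∨ y = Seg.whole
  le_refl x := Or.inl rfl
  le_trans x y z h h' := by
    rcases h' with rfl | rfl
    · exact h
    · right; rfl
  le_antisymm x y h h' := by
    rcases h with rfl | rfl
    · rfl
    · rcases h' with h | rfl
      · exact h.symm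
      · rfl
  top := Seg.whole
  le_top x := Or.inr rfl
  dim x := match x with
    | Seg.pt _ => 0
    | Seg.whole => 1

theorem seg_le {x y : Seg} : x ≤ y ↔ x = y ∨ y = Seg.whole := Iff.rfl
theorem seg_top : (⊤ : Seg) = Seg.whole := rfl

instance : Good Seg where
  dim_lt x y h := by
    rcases (seg_le.1 h.le) with h1 | h1
    · exact absurd h1 h.ne
    · cases x with
      | pt b => rw [h1]; exact Nat.zero_lt_one
      | whole => exact absurd h1.symm h.ne

@[simp] theorem rk_seg : rk Seg = 1 := rfl

theorem seg_dim_zero {x : Seg} (h : dim x = 0) : ∃ b, x = Seg.pt b := by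
  cases x with
  | pt b => exact ⟨b, rfl⟩
  | whole => exact absurd h (by show (1 : ℕ) ≠ 0; norm_num)

theorem seg_flag (Φ : Flg Seg) : ∃ b, Φ.face 0 = Seg.pt b := seg_dim_zero (Φ.dim_face 0 (Nat.zero_le _))

theorem seg_stpN {t : ℕ} {Φ Ψ : Flg Seg} (h : StpN t Φ Ψ) {b c : Bool} (hb : Φ.face 0 = Seg.pt b)
    (hc : Ψ.face 0 = Seg.pt c) : (c = b ↔ Even t) := by
  induction h generalizing c with
  | zero Φ =>
    rw [hb] at hc
    simp [Seg.pt.inj hc]
  | @succ t Φ Ψ Χ _ hs ih =>
    obtain ⟨d, hd⟩ := seg_flag Ψ
    have h1 := ih hb hd
    have h2 : c ≠ d := by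
      intro e
      apply (hs 0 Nat.zero_lt_one).2
      rw [hc, hd, e]
    rw [Nat.even_add_one, ← h1]
    cases b <;> cases c <;> cases d <;> simp_all

theorem seg_per : Per Seg (2 * rk Seg) := by
  intro t Φ Ψ h
  obtain ⟨b, hb⟩ := seg_flag Φ
  obtain ⟨c, hc⟩ := seg_flag Ψ
  have key := seg_stpN h hb hc
  rw [rk_seg, mul_one]
  constructor
  · intro i hi he
    have : i = 0 := by omega
    rw [this, hb, hc] at he
    exact (key.1 (Seg.pt.inj he).symm).two_dvd
  · intro ht
    have := key.2 (even_iff_two_dvd.2 ht)
    apply Flg.ext; funext i
    cases i with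
    | zero => rw [hb, hc, this]
    | succ i => rw [Φ.top (i + 1) (by rw [rk_seg]; omega), Ψ.top (i + 1) (by rw [rk_seg]; omega)]

/-! ### The cube -/

/-- The nonempty faces of the `n`-cube, the product of `n` segments. -/
abbrev Cube (n : ℕ) := Fin n → Seg

@[simp] theorem rk_cube (n : ℕ) : rk (Cube n) = n := by
  show ∑ a : Fin n, rk Seg = n
  simp

theorem cube_per (n : ℕ) : Per (Cube n) (2 * rk (Cube n)) := Per.pi (fun _ => seg_per)

/-! ### The crosspolytope -/

/-- The nonempty faces of the `n`-dimensional crosspolytope: a proper face is given by a nonzero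
sign vector `v`; its vertices are the `e_i` with `v i = some true` and the `-e_i` with
`v i = some false`. -/
inductive Cross (n : ℕ)
  | face (v : Fin n → Option Bool) (h : ∃ i, v i ≠ none)
  | whole

open Classical in
noncomputable instance (n : ℕ) : FacePoset (Cross n) where
  le x y := match x, y with
    | _, Cross.whole => True
    | Cross.face v _, Cross.face w _ => ∀ i, v i = none ∨ v i = w i
    | Cross.whole, Cross.face _ _ => False
  le_refl x := by
    cases x with
    | face v h => intro i; right; rfl
    | whole => trivial
  le_trans x y z h h' := by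
    cases x <;> cases y <;> cases z <;> first | trivial | exact h.elim | exact h'.elim | skip
    intro i
    rcases h i with h1 | h1
    · left; exact h1
    · rw [h1]; exact h' i
  le_antisymm x y h h' := by
    cases x <;> cases y <;> first | trivial | exact h.elim | exact h'.elim | skip
    rename_i v hv w hw
    congr 1
    funext i
    rcases h i with h1 | h1
    · rcases h' i with h2 | h2
      · rw [h1, h2]
      · exact h2.symm
    · exact h1
  top := Cross.whole
  le_top x := by cases x <;> trivial
  dim x := match x with
    | Cross.face v _ => (Finset.univ.filter fun i => v i ≠ none).card - 1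
    | Cross.whole => n

theorem cross_le {n : ℕ} {v w : Fin n → Option Bool} {hv : ∃ i, v i ≠ none} {hw : ∃ i, w i ≠ none} :
    Cross.face v hv ≤ Cross.face w hw ↔ ∀ i, v i = none ∨ v i = w i := Iff.rfl

open Classical in
theorem cross_dim {n : ℕ} {v : Fin n → Option Bool} {hv : ∃ i, v i ≠ none} :
    dim (Cross.face v hv) + 1 = (Finset.univ.filter fun i => v i ≠ none).card := by
  have : 0 < (Finset.univ.filter fun i => v i ≠ none).card := by
    obtain ⟨i, hi⟩ := hv
    exact Finset.card_pos.2 ⟨i, by simp [hi]⟩
  show (Finset.univ.filter fun i => v i ≠ none).card - 1 + 1 = _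
  omega

@[simp] theorem rk_cross (n : ℕ) : rk (Cross n) = n := rfl

theorem cross_dim_lt {n : ℕ} {v : Fin n → Option Bool} {hv : ∃ i, v i ≠ none} :
    dim (Cross.face v hv) < n := by
  classical
  have h1 := cross_dim (v := v) (hv := hv)
  have h2 : (Finset.univ.filter fun i => v i ≠ none).card ≤ n :=
    (Finset.card_le_univ _).trans (by simp)
  omega

instance (n : ℕ) : Good (Cross n) where
  dim_lt x y h := by
    classical
    cases y with
    | whole =>
      cases x with
      | face v hv => exact cross_dim_lt
      | whole => exact absurd rfl h.ne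
    | face w hw =>
      cases x with
      | whole => exact h.le.elim
      | face v hv =>
        have h1 := cross_dim (v := v) (hv := hv)
        have h2 := cross_dim (v := w) (hv := hw)
        have h3 : (Finset.univ.filter fun i => v i ≠ none) ⊂ (Finset.univ.filter fun i => w i ≠ none) := by
          rw [Finset.ssubset_iff_of_subset]
          · by_contra hcon
            push Not at hcon
            apply h.ne
            congr 1
            funext i
            rcases h.le i with h4 | h4
            · by_contra hne
              have := hcon i (by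
                rw [Finset.mem_filter]
                exact ⟨Finset.mem_univ _, fun h5 => hne (h4.trans h5.symm)⟩)
              rw [Finset.mem_filter] at this
              exact this.2 h4
            · exact h4
          · intro i hi
            rw [Finset.mem_filter] at hi ⊢
            refine ⟨Finset.mem_univ _, ?_⟩
            rcases h.le i with h4 | h4
            · exact absurd h4 hi.2
            · rw [← h4]; exact hi.2
        have := Finset.card_lt_card h3
        omega

/-- conversion of a sign to a face of the segment -/
def cv : Option Bool → Seg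
  | none => Seg.whole
  | some b => Seg.pt b

theorem cv_inj {x y : Option Bool} (h : cv x = cv y) : x = y := by
  cases x <;> cases y <;> simp_all [cv]

/-- the face of the cube dual to a face of the crosspolytope -/
def dl {n : ℕ} : Cross n → Cube n
  | Cross.face v _ => fun i => cv (v i)
  | Cross.whole => fun _ => Seg.whole

theorem dl_anti {n : ℕ} {x y : Cross n} (h : x ≤ y) (hy : dim y < n) : dl y ≤ dl x := by
  cases y with
  | whole => exact absurd hy (lt_irrefl n)
  | face w hw =>
    cases x with
    | whole => exact h.elim
    | face v hv =>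
      intro i
      rcases h i with h1 | h1
      · show cv (w i) ≤ cv (v i)
        rw [h1]; exact le_top
      · show cv (w i) ≤ cv (v i)
        rw [h1]

theorem dl_inj {n : ℕ} {x y : Cross n} (hx : dim x < n) (hy : dim y < n) (h : dl x = dl y) : x = y := by
  cases y with
  | whole => exact absurd hy (lt_irrefl n)
  | face w hw =>
    cases x with
    | whole => exact absurd hx (lt_irrefl n)
    | face v hv =>
      congr 1
      funext i
      exact cv_inj (congrFun h i)

theorem dl_dim {n : ℕ} {x : Cross n} (hx : dim x < n) : dim (dl x) + dim x + 1 = n := by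
  classical
  cases x with
  | whole => exact absurd hx (lt_irrefl n)
  | face v hv =>
    have h1 := cross_dim (v := v) (hv := hv)
    have h2 : dim (dl (Cross.face v hv)) = (Finset.univ.filter fun i => ¬ v i ≠ none).card := by
      show ∑ i, dim (cv (v i)) = _
      rw [Finset.card_filter]
      apply Finset.sum_congr rfl
      intro i _
      cases v i with
      | none => rfl
      | some b => rfl
    have h3 := Finset.card_filter_add_card_filter_not (s := (Finset.univ : Finset (Fin n)))
      (fun i => v i ≠ none)
    rw [Finset.card_univ, Fintype.card_fin] at h3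
    omega

section dual
variable {n : ℕ}

theorem face_dim_lt (Φ : Flg (Cross n)) {i : ℕ} (h : i < n) : dim (Φ.face i) < n := by
  rw [Φ.dim_face i (by rw [rk_cross]; exact h.le)]; exact h

/-- the dual flag -/
noncomputable def dual (Φ : Flg (Cross n)) : Flg (Cube n) where
  face i := if i < n then dl (Φ.face (n - 1 - i)) else ⊤
  mono i j hij := by
    by_cases hj : j < n
    · simp only [hj, if_true, lt_of_le_of_lt hij hj]
      exact dl_anti (Φ.mono (by omega)) (face_dim_lt Φ (by omega))
    · simp only [hj, if_false]; exact le_top
  dim_face i hi := by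
    rw [rk_cube] at hi
    by_cases hj : i < n
    · simp only [hj, if_true]
      have h1 := dl_dim (face_dim_lt Φ (show n - 1 - i < n by omega))
      rw [Φ.dim_face (n - 1 - i) (by rw [rk_cross]; omega)] at h1
      omega
    · simp only [hj, if_false]
      have := rk_cube n
      unfold rk at this
      omega
  top i hi := by
    rw [rk_cube] at hi
    rw [if_neg (by omega)]

theorem dual_face (Φ : Flg (Cross n)) {i : ℕ} (h : i < n) : (dual Φ).face i = dl (Φ.face (n - 1 - i)) :=
  if_pos h

theorem dual_stp {Φ Φ' : Flg (Cross n)} (h : Stp Φ Φ') : Stp (dual Φ') (dual Φ) := by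
  intro i hi
  rw [rk_cube] at hi
  constructor
  · by_cases h1 : i + 1 < n
    · rw [dual_face Φ hi, dual_face Φ' h1]
      apply dl_anti _ (face_dim_lt Φ (by omega))
      have h2 := (h (n - 1 - (i + 1)) (by rw [rk_cross]; omega)).1
      have h3 : n - 1 - (i + 1) + 1 = n - 1 - i := by omega
      rw [h3] at h2
      exact h2
    · rw [(dual Φ').top (i + 1) (by rw [rk_cube]; omega)]; exact le_top
  · rw [dual_face Φ hi, dual_face Φ' hi]
    intro he
    apply (h (n - 1 - i) (by rw [rk_cross]; omega)).2
    exact (dl_inj (face_dim_lt Φ (by omega)) (face_dim_lt Φ' (by omega)) he).symm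

theorem dual_stpN {t : ℕ} {Φ Ψ : Flg (Cross n)} (h : StpN t Φ Ψ) : StpN t (dual Ψ) (dual Φ) := by
  induction h with
  | zero Φ => exact StpN.zero _
  | succ _ hs ih => exact StpN.cons (dual_stp hs) ih

theorem cross_per (n : ℕ) : Per (Cross n) (2 * rk (Cross n)) := by
  intro t Φ Ψ h
  have h1 := cube_per n t _ _ (dual_stpN h)
  rw [rk_cube] at h1
  rw [rk_cross]
  constructor
  · intro i hi he
    apply h1.1 (n - 1 - i) (by omega)
    rw [dual_face Ψ (by omega), dual_face Φ (by omega)]
    have h3 : n - 1 - (n - 1 - i) = i := by omega
    rw [h3, he]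
  · intro ht
    have h2 := h1.2 ht
    apply Flg.ext; funext i
    by_cases hi : i < n
    · have h3 : (dual Ψ).face (n - 1 - i) = (dual Φ).face (n - 1 - i) := by rw [h2]
      rw [dual_face Ψ (by omega), dual_face Φ (by omega)] at h3
      have h4 : n - 1 - (n - 1 - i) = i := by omega
      rw [h4] at h3
      exact (dl_inj (face_dim_lt Ψ hi) (face_dim_lt Φ hi) h3).symm
    · rw [Φ.top i (by rw [rk_cross]; omega), Ψ.top i (by rw [rk_cross]; omega)]

end dual

/-! ### Products of cubes and crosspolytopes -/

/-- the cubes and the crosspolytopes -/
inductive CC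
  | cube (n : ℕ)
  | cross (n : ℕ)

/-- the face poset of a cube or crosspolytope -/
def CC.Face : CC → Type
  | cube n => Cube n
  | cross n => Cross n

noncomputable instance (c : CC) : FacePoset c.Face :=
  match c with
  | CC.cube n => inferInstanceAs (FacePoset (Cube n))
  | CC.cross n => inferInstanceAs (FacePoset (Cross n))

instance (c : CC) : Good c.Face :=
  match c with
  | CC.cube n => inferInstanceAs (Good (Cube n))
  | CC.cross n => inferInstanceAs (Good (Cross n))

theorem CC.per (c : CC) : Per c.Face (2 * rk c.Face) :=
  match c with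
  | CC.cube n => cube_per n
  | CC.cross n => cross_per n

/-- **(a)** Cartesian products of cubes and crosspolytopes have only acoptic Petrie schemes. -/
theorem part_a (m : ℕ) (f : Fin m → CC) : OnlyAcoptic (∀ a, (f a).Face) :=
  (Per.pi (fun a => (f a).per)).onlyAcoptic

end Pool.R179.Petrie
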