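import Pool.Agent.R179.PetC

/-!
# Products of cubes with polygons
-/

namespace Pool.R179.Petrie
open FacePoset

/-! ### From standard steps to schemes -/

section sch
variable {P : Type} [FacePoset P]

/-- intermediate flags of a standard step -/
def mid {Φ Φ' : Flg P} (h : Stp Φ Φ') (m : ℕ) : Flg P where
  face i := if i < m then Φ'.face i else Φ.face i
  mono i j hij := by
    by_cases hi : i < m
    · by_cases hj : j < m
      · simp only [hi, hj, if_true]; exact Φ'.mono hij
      · simp only [hi, hj, if_true, if_false]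
        by_cases hr : i < rk P
        · exact (h i hr).1.trans (Φ.mono (by omega))
        · rw [Φ.top j (by omega)]; exact le_top
    · simp only [hi, show ¬ j < m by omega, if_false]; exact Φ.mono hij
  dim_face i hi := by
    by_cases hm : i < m
    · simp only [hm, if_true]; exact Φ'.dim_face i hi
    · simp only [hm, if_false]; exact Φ.dim_face i hi
  top i hi := by
    by_cases hm : i < m
    · simp only [hm, if_true]; exact Φ'.top i hi
    · simp only [hm, if_false]; exact Φ.top i hi

theorem Stp.step {Φ Φ' : Flg P} (h : Stp Φ Φ') : Step 1 Φ Φ' := by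
  refine ⟨mid h, ?_, ?_, fun m => ⟨?_, ?_⟩⟩
  · apply Flg.ext; funext i
    show (if i < 0 then Φ'.face i else Φ.face i) = _
    rw [if_neg (by omega)]
  · apply Flg.ext; funext i
    by_cases hi : i < rk P
    · exact if_pos hi
    · show (if i < rk P then Φ'.face i else Φ.face i) = _
      rw [if_neg hi, Φ.top i (by omega), Φ'.top i (by omega)]
  · show (if (m : ℕ) < m + 1 then Φ'.face m else Φ.face m) ≠ (if (m : ℕ) < m then Φ'.face m else Φ.face m)
    rw [if_pos (by omega), if_neg (by omega)]
    exact (h m m.2).2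
  · intro j hj
    have hj' : j ≠ (m : ℕ) := hj
    show (if j < m + 1 then Φ'.face j else Φ.face j) = (if j < m then Φ'.face j else Φ.face j)
    by_cases hjm : j < m
    · rw [if_pos (by omega), if_pos hjm]
    · rw [if_neg (by omega), if_neg hjm]

theorem stpN_of_array {X : ℤ → Flg P} (h : ∀ k, Stp (X k) (X (k + 1))) (k : ℤ) (t : ℕ) :
    StpN t (X k) (X (k + t)) := by
  induction t with
  | zero => rw [Nat.cast_zero, add_zero]; exact StpN.zero _
  | succ t ih =>
    rw [Nat.cast_succ, ← add_assoc]
    exact StpN.succ ih (h _)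

end sch

/-! ### Product of two polytopes -/

section prod
variable {P Q : Type} [FacePoset P] [FacePoset Q]

/-- The face poset of the Cartesian product of two polytopes. -/
instance : FacePoset (P × Q) where
  toPartialOrder := Prod.instPartialOrder P Q
  top := (⊤, ⊤)
  le_top _ := ⟨le_top, le_top⟩
  dim x := dim x.1 + dim x.2

theorem rk_prod : rk (P × Q) = rk P + rk Q := rfl

/-- number of steps of the first factor -/
def E1 (n1 d : ℕ) (k : ℤ) : ℤ := n1 * (k / d) + min (k % d) n1

section arith
variable {n1 n2 : ℕ}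

theorem E1_add (hd : 0 < n1 + n2) (k : ℤ) : E1 n1 (n1 + n2) (k + (n1 + n2 : ℕ)) = E1 n1 (n1 + n2) k + n1 := by
  unfold E1
  rw [Int.add_ediv_of_dvd_right (dvd_refl _), Int.ediv_self (by exact_mod_cast hd.ne'), Int.add_emod_right]
  ring

theorem E1_step (hd : 0 < n1 + n2) (k : ℤ) : E1 n1 (n1 + n2) (k + 1) = E1 n1 (n1 + n2) k ∨
    E1 n1 (n1 + n2) (k + 1) = E1 n1 (n1 + n2) k + 1 := by
  unfold E1
  have hd' : (0 : ℤ) < ((n1 + n2 : ℕ) : ℤ) := by exact_mod_cast hd
  set d : ℤ := ((n1 + n2 : ℕ) : ℤ) with hdd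
  have h1 := Int.emod_nonneg k hd'.ne'
  have h2 := Int.emod_lt_of_pos k hd'
  have h3 := Int.mul_ediv_add_emod k d
  have hn : (n1 : ℤ) ≤ d := by rw [hdd]; push_cast; omega
  by_cases hc : k % d + 1 < d
  · have e1 : (k + 1) / d = k / d := by
      rw [Int.ediv_eq_iff_of_pos hd']; constructor <;> nlinarith
    have e2 : (k + 1) % d = k % d + 1 := by
      have := Int.mul_ediv_add_emod (k + 1) d
      rw [e1] at this; linarith
    rw [e1, e2]
    rcases le_or_gt (n1 : ℤ) (k % d) with h4 | h4
    · left; rw [min_eq_right h4, min_eq_right (by omega)]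
    · right; rw [min_eq_left h4.le, min_eq_left (by omega)]; ring
  · have hc' : k % d = d - 1 := by omega
    have e1 : (k + 1) / d = k / d + 1 := by
      rw [Int.ediv_eq_iff_of_pos hd']; constructor <;> nlinarith
    have e2 : (k + 1) % d = 0 := by
      have := Int.mul_ediv_add_emod (k + 1) d
      rw [e1] at this; linarith
    rw [e1, e2, hc']
    have h0 : min (0 : ℤ) (n1 : ℤ) = 0 := min_eq_left (by positivity)
    rw [h0]
    rcases hn.lt_or_eq with h4 | h4
    · left; rw [min_eq_right (by omega)]; ring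
    · right; rw [min_eq_left (by omega), h4]; ring

theorem E1_mono (hd : 0 < n1 + n2) : Monotone (E1 n1 (n1 + n2)) := by
  apply monotone_int_of_le_succ
  intro k
  rcases E1_step hd k with h | h <;> omega

theorem E2_mono (hd : 0 < n1 + n2) : Monotone (fun k => k - E1 n1 (n1 + n2) k) := by
  apply monotone_int_of_le_succ
  intro k
  rcases E1_step hd k with h | h <;> omega

end arith

variable {X : ℤ → Flg P} {Y : ℤ → Flg Q}

/-- the product flags -/
def prodFlg (hd : 0 < rk P + rk Q) (X : ℤ → Flg P) (Y : ℤ → Flg Q) (k : ℤ) : Flg (P × Q) where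
  face i := ((X (E1 (rk P) (rk P + rk Q) k)).face
      (E1 (rk P) (rk P + rk Q) (k + i) - E1 (rk P) (rk P + rk Q) k).toNat,
    (Y (k - E1 (rk P) (rk P + rk Q) k)).face
      ((k + i - E1 (rk P) (rk P + rk Q) (k + i)) - (k - E1 (rk P) (rk P + rk Q) k)).toNat)
  mono i j hij := by
    constructor
    · apply (X _).mono
      have := E1_mono hd (show k + (i : ℤ) ≤ k + j by omega)
      omega
    · apply (Y _).mono
      have := E2_mono hd (show k + (i : ℤ) ≤ k + j by omega)
      simp only [] at this
      omega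
  dim_face i hi := by
    rw [rk_prod] at hi
    have h1 := E1_mono hd (show k ≤ k + (i : ℤ) by omega)
    have h2 := E2_mono hd (show k ≤ k + (i : ℤ) by omega)
    have h3 := E1_mono hd (show k + (i : ℤ) ≤ k + (rk P + rk Q : ℕ) by omega)
    have h4 := E2_mono hd (show k + (i : ℤ) ≤ k + (rk P + rk Q : ℕ) by omega)
    simp only [] at h2 h4
    rw [E1_add hd] at h3 h4
    show dim ((X _).face _) + dim ((Y _).face _) = i
    rw [(X _).dim_face _ (by omega), (Y _).dim_face _ (by push_cast at h4; omega)]
    omega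
  top i hi := by
    rw [rk_prod] at hi
    have h3 := E1_mono hd (show k + (rk P + rk Q : ℕ) ≤ k + (i : ℤ) by omega)
    have h4 := E2_mono hd (show k + (rk P + rk Q : ℕ) ≤ k + (i : ℤ) by omega)
    simp only [] at h4
    rw [E1_add hd] at h3 h4
    show ((X _).face _, (Y _).face _) = (⊤, ⊤)
    rw [(X _).top _ (by omega), (Y _).top _ (by push_cast at h4; omega)]

theorem prod_stp (hd : 0 < rk P + rk Q) (hX : ∀ k, Stp (X k) (X (k + 1)))
    (hY : ∀ k, Stp (Y k) (Y (k + 1))) (k : ℤ) : Stp (prodFlg hd X Y k) (prodFlg hd X Y (k + 1)) := by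
  intro i hi
  rw [rk_prod] at hi
  set F := E1 (rk P) (rk P + rk Q) with hF
  have ci : ((i + 1 : ℕ) : ℤ) = (i : ℤ) + 1 := by push_cast; ring
  have m1 := E1_mono hd (show k ≤ k + (i : ℤ) by omega)
  have m2 := E2_mono hd (show k ≤ k + (i : ℤ) by omega)
  have m1' := E1_mono hd (show k + 1 ≤ k + 1 + (i : ℤ) by omega)
  have m2' := E2_mono hd (show k + 1 ≤ k + 1 + (i : ℤ) by omega)
  have m3 := E1_mono hd (show k + 1 + (i : ℤ) ≤ k + (rk P + rk Q : ℕ) by omega)
  have m4 := E2_mono hd (show k + 1 + (i : ℤ) ≤ k + (rk P + rk Q : ℕ) by omega)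
  simp only [] at m2 m4 m2'
  rw [E1_add hd] at m3 m4
  rw [← hF] at m1 m2 m3 m4 m1' m2'
  push_cast at m4
  have e1 : k + ((i + 1 : ℕ) : ℤ) = k + 1 + i := by rw [ci]; ring
  have e2 : k + (i : ℤ) + 1 = k + 1 + i := by ring
  have s1 := E1_step hd k
  have s2 := E1_step hd (k + i)
  rw [e2] at s2
  rw [← hF] at s1 s2
  constructor
  · show ((X (F (k + 1))).face (F (k + 1 + i) - F (k + 1)).toNat,
      (Y (k + 1 - F (k + 1))).face ((k + 1 + i - F (k + 1 + i)) - (k + 1 - F (k + 1))).toNat) ≤
      ((X (F k)).face (F (k + (i + 1 : ℕ)) - F k).toNat,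
      (Y (k - F k)).face ((k + (i + 1 : ℕ) - F (k + (i + 1 : ℕ))) - (k - F k)).toNat)
    rw [e1]
    rcases s1 with s1 | s1
    · constructor
      · rw [s1]
      · show (Y (k + 1 - F (k + 1))).face _ ≤ (Y (k - F k)).face _
        have e3 : k + 1 - F (k + 1) = (k - F k) + 1 := by rw [s1]; ring
        rw [e3]
        have h1 := (hY (k - F k) ((k + 1 + i - F (k + 1 + i)) - (k - F k + 1)).toNat (by omega)).1
        have e4 : ((k + 1 + i - F (k + 1 + i)) - (k - F k + 1)).toNat + 1 =
            ((k + 1 + i - F (k + 1 + i)) - (k - F k)).toNat := by omega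
        rw [e4] at h1
        exact h1
    · constructor
      · show (X (F (k + 1))).face _ ≤ (X (F k)).face _
        rw [s1]
        have h1 := (hX (F k) (F (k + 1 + i) - (F k + 1)).toNat (by omega)).1
        have e4 : (F (k + 1 + i) - (F k + 1)).toNat + 1 = (F (k + 1 + i) - F k).toNat := by omega
        rw [e4] at h1
        exact h1
      · have e3 : k + 1 - F (k + 1) = (k - F k) := by rw [s1]; ring
        show (Y (k + 1 - F (k + 1))).face _ ≤ (Y (k - F k)).face _
        rw [e3]
  · intro heq
    have q1 : (X (F (k + 1))).face (F (k + 1 + i) - F (k + 1)).toNat =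
        (X (F k)).face (F (k + i) - F k).toNat := congrArg Prod.fst heq
    have q2 : (Y (k + 1 - F (k + 1))).face ((k + 1 + i - F (k + 1 + i)) - (k + 1 - F (k + 1))).toNat =
        (Y (k - F k)).face ((k + i - F (k + i)) - (k - F k)).toNat := congrArg Prod.snd heq
    have d1 := congrArg dim q1
    rw [(X _).dim_face _ (by omega), (X _).dim_face _ (by omega)] at d1
    rcases s1 with s1 | s1
    · -- the second factor moves
      have e3 : k + 1 - F (k + 1) = (k - F k) + 1 := by rw [s1]; ring
      have s3 : F (k + 1 + i) = F (k + i) := by omega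
      have e4 : ((k + 1 + i - F (k + 1 + i)) - (k + 1 - F (k + 1))).toNat =
          ((k + i - F (k + i)) - (k - F k)).toNat := by omega
      rw [e4, e3] at q2
      exact (hY (k - F k) ((k + i - F (k + i)) - (k - F k)).toNat (by omega)).2 q2
    · have s3 : F (k + 1 + i) = F (k + i) + 1 := by omega
      have e4 : (F (k + 1 + i) - F (k + 1)).toNat = (F (k + i) - F k).toNat := by omega
      rw [e4, s1] at q1
      exact (hX (F k) (F (k + i) - F k).toNat (by omega)).2 q1

end prod

end Pool.R179.Petrie
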