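import Pool.Agent.R179.PetD

/-!
# Products of cubes with polygons have non-acoptic Petrie schemes
-/

namespace Pool.R179.Petrie
open FacePoset

/-! ### Polygons -/

/-- The nonempty faces of the `p`-gon: vertices `i`, edges `i` joining the vertices `i` and `i + 1`
(indices mod `p`), and the polygon itself. -/
inductive Gon (p : ℕ)
  | vert (i : ZMod p)
  | edge (i : ZMod p)
  | whole

instance (p : ℕ) : FacePoset (Gon p) where
  le x y := x = y ∨ y = Gon.whole ∨ ∃ i, (x = Gon.vert i ∨ x = Gon.vert (i + 1)) ∧ y = Gon.edge i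
  le_refl x := Or.inl rfl
  le_trans x y z h h' := by
    rcases h' with rfl | rfl | ⟨j, h', rfl⟩
    · exact h
    · right; left; rfl
    · rcases h with rfl | rfl | ⟨i, h, rfl⟩
      · right; right; exact ⟨j, h', rfl⟩
      · rcases h' with h' | h' <;> exact absurd h' (by simp)
      · rcases h' with h' | h' <;> exact absurd h' (by simp)
  le_antisymm x y h h' := by
    rcases h with rfl | rfl | ⟨i, h, rfl⟩
    · rfl
    · rcases h' with h' | h' | ⟨j, h', _⟩
      · exact h'.symm
      · exact h'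
      · rcases h' with h' | h' <;> exact absurd h' (by simp)
    · rcases h' with h' | h' | ⟨j, h', _⟩
      · exact h'.symm
      · rcases h with h | h <;> rw [h'] at h <;> exact absurd h (by simp)
      · rcases h' with h' | h' <;> exact absurd h' (by simp)
  top := Gon.whole
  le_top x := Or.inr (Or.inl rfl)
  dim x := match x with
    | Gon.vert _ => 0
    | Gon.edge _ => 1
    | Gon.whole => 2

@[simp] theorem rk_gon (p : ℕ) : rk (Gon p) = 2 := rfl

/-- the flags going around the polygon -/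
def gonFlg (p : ℕ) (k : ℤ) : Flg (Gon p) where
  face
    | 0 => Gon.vert k
    | 1 => Gon.edge k
    | _ + 2 => Gon.whole
  mono := by
    apply monotone_nat_of_le_succ
    intro i
    rcases i with _ | _ | i
    · exact Or.inr (Or.inr ⟨k, Or.inl rfl, rfl⟩)
    · exact Or.inr (Or.inl rfl)
    · exact Or.inl rfl
  dim_face i hi := by
    rw [rk_gon] at hi
    rcases i with _ | _ | _ | i
    · rfl
    · rfl
    · rfl
    · omega
  top i hi := by
    rw [rk_gon] at hi
    rcases i with _ | _ | i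
    · omega
    · omega
    · rfl

theorem gon_stp {p : ℕ} (hp : 1 < p) (k : ℤ) : Stp (gonFlg p k) (gonFlg p (k + 1)) := by
  have : Fact (1 < p) := ⟨hp⟩
  intro i hi
  rw [rk_gon] at hi
  have hne : ((k + 1 : ℤ) : ZMod p) ≠ (k : ZMod p) := by
    push_cast
    intro h
    exact one_ne_zero (add_eq_left.1 h)
  rcases i with _ | _ | i
  · refine ⟨Or.inr (Or.inr ⟨k, Or.inr ?_, rfl⟩), ?_⟩
    · show Gon.vert ((k + 1 : ℤ) : ZMod p) = _
      push_cast; rfl
    · show Gon.vert ((k + 1 : ℤ) : ZMod p) ≠ Gon.vert (k : ZMod p)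
      intro h; exact hne (Gon.vert.inj h)
  · refine ⟨Or.inr (Or.inl rfl), ?_⟩
    show Gon.edge ((k + 1 : ℤ) : ZMod p) ≠ Gon.edge (k : ZMod p)
    intro h; exact hne (Gon.edge.inj h)
  · omega

/-! ### Flags of the cube -/

section cube
variable {n : ℕ}

/-- number of moves of the coordinate `j` before time `τ` -/
def cnt (n : ℕ) (j : Fin n) (τ : ℤ) : ℤ := (τ + (n - 1 - (j : ℤ))) / n

theorem cnt_mono (j : Fin n) : Monotone (cnt n j) := by
  intro a b h
  have hn : (0 : ℤ) < n := by exact_mod_cast j.pos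
  exact Int.ediv_le_ediv hn (by omega)

theorem cnt_add (j : Fin n) (τ : ℤ) : cnt n j (τ + n) = cnt n j τ + 1 := by
  have hn : (0 : ℤ) < n := by exact_mod_cast j.pos
  unfold cnt
  have : τ + (n : ℤ) + (n - 1 - (j : ℤ)) = (τ + (n - 1 - (j : ℤ))) + n := by ring
  rw [this, Int.add_ediv_of_dvd_right (dvd_refl _), Int.ediv_self hn.ne']

theorem cnt_zero (j : Fin n) : cnt n j 0 = 0 := by
  unfold cnt
  have := j.2
  exact Int.ediv_eq_zero_of_lt (by omega) (by omega)

theorem cnt_at (j : Fin n) (q : ℤ) : cnt n j (n * q + j) = q ∧ cnt n j (n * q + j + 1) = q + 1 := by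
  have hn : (0 : ℤ) < n := by exact_mod_cast j.pos
  unfold cnt
  constructor
  · rw [Int.ediv_eq_iff_of_pos hn]; constructor <;> nlinarith
  · rw [Int.ediv_eq_iff_of_pos hn]; constructor <;> nlinarith

theorem cnt_other {i j : Fin n} (hij : i ≠ j) (q : ℤ) :
    cnt n i (n * q + j + 1) = cnt n i (n * q + j) := by
  have hn : (0 : ℤ) < n := by exact_mod_cast j.pos
  have h1 := i.2
  have h2 := j.2
  have hne : (i : ℤ) ≠ j := fun h => hij (Fin.ext (by exact_mod_cast h))
  unfold cnt
  rcases lt_or_gt_of_ne hne with h | h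
  · have e1 : (n * q + j + 1 + (n - 1 - (i : ℤ))) / n = q + 1 := by
      rw [Int.ediv_eq_iff_of_pos hn]; constructor <;> nlinarith
    have e2 : (n * q + j + (n - 1 - (i : ℤ))) / n = q + 1 := by
      rw [Int.ediv_eq_iff_of_pos hn]; constructor <;> nlinarith
    rw [e1, e2]
  · have e1 : (n * q + j + 1 + (n - 1 - (i : ℤ))) / n = q := by
      rw [Int.ediv_eq_iff_of_pos hn]; constructor <;> nlinarith
    have e2 : (n * q + j + (n - 1 - (i : ℤ))) / n = q := by
      rw [Int.ediv_eq_iff_of_pos hn]; constructor <;> nlinarith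
    rw [e1, e2]

theorem exists_mover (hn : 0 < n) (τ : ℤ) : ∃ j : Fin n, cnt n j (τ + 1) = cnt n j τ + 1 ∧
    ∀ i, i ≠ j → cnt n i (τ + 1) = cnt n i τ := by
  have hn' : (0 : ℤ) < n := by exact_mod_cast hn
  have h1 := Int.emod_nonneg τ hn'.ne'
  have h2 := Int.emod_lt_of_pos τ hn'
  refine ⟨⟨(τ % n).toNat, by omega⟩, ?_⟩
  set j : Fin n := ⟨(τ % n).toNat, by omega⟩ with hj
  have hjv : (j : ℤ) = τ % n := by rw [hj]; simp only []; omega
  have e : τ = n * (τ / n) + j := by rw [hjv]; exact (Int.mul_ediv_add_emod τ n).symm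
  constructor
  · have := cnt_at j (τ / n)
    rw [← e] at this
    rw [this.1, this.2]
  · intro i hi
    have := cnt_other hi (τ / n)
    rw [← e] at this
    exact this

theorem cnt_sum (hn : 0 < n) (τ : ℤ) (m : ℕ) : ∑ j : Fin n, (cnt n j (τ + m) - cnt n j τ) = m := by
  induction m with
  | zero => simp
  | succ m ih =>
    obtain ⟨j, h1, h2⟩ := exists_mover hn (τ + m)
    have : ∑ i : Fin n, (cnt n i (τ + (m + 1 : ℕ)) - cnt n i τ) =
        ∑ i : Fin n, ((cnt n i (τ + m) - cnt n i τ) + if i = j then 1 else 0) := by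
      apply Finset.sum_congr rfl
      intro i _
      have e : τ + ((m + 1 : ℕ) : ℤ) = τ + m + 1 := by push_cast; ring
      rw [e]
      by_cases hij : i = j
      · rw [hij, h1, if_pos rfl]; ring
      · rw [h2 i hij, if_neg hij]; ring
    rw [this, Finset.sum_add_distrib, ih, Finset.sum_ite_eq' Finset.univ j]
    simp

/-- the flags of a Petrie scheme of the cube -/
def cubeFlg (hn : 0 < n) (τ : ℤ) : Flg (Cube n) where
  face m := fun j => if cnt n j (τ + m) = cnt n j τ then Seg.pt (decide (Even (cnt n j τ))) else Seg.whole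
  mono m m' h := by
    intro j
    show (if _ then _ else _) ≤ (if _ then _ else _)
    have h1 := cnt_mono j (show τ ≤ τ + (m : ℤ) by omega)
    have h2 := cnt_mono j (show τ + (m : ℤ) ≤ τ + m' by omega)
    by_cases hc : cnt n j (τ + m') = cnt n j τ
    · rw [if_pos hc, if_pos (by omega)]
    · rw [if_neg hc]; exact le_top
  dim_face m hm := by
    rw [rk_cube] at hm
    have h1 := cnt_sum hn τ m
    have h2 : ∀ j : Fin n, ((dim (if cnt n j (τ + m) = cnt n j τ then Seg.pt (decide (Even (cnt n j τ)))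
        else Seg.whole) : ℕ) : ℤ) = cnt n j (τ + m) - cnt n j τ := by
      intro j
      have h3 := cnt_mono j (show τ ≤ τ + (m : ℤ) by omega)
      have h4 := cnt_mono j (show τ + (m : ℤ) ≤ τ + n by omega)
      rw [cnt_add] at h4
      by_cases hc : cnt n j (τ + m) = cnt n j τ
      · rw [if_pos hc, hc]
        show ((0 : ℕ) : ℤ) = _
        simp
      · rw [if_neg hc]
        show ((1 : ℕ) : ℤ) = _
        push_cast; omega
    have h5 : ((∑ j : Fin n, dim (if cnt n j (τ + m) = cnt n j τ then Seg.pt (decide (Even (cnt n j τ)))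
        else Seg.whole) : ℕ) : ℤ) = m := by
      rw [Nat.cast_sum]
      exact (Finset.sum_congr rfl (fun j _ => h2 j)).trans h1
    exact_mod_cast h5
  top m hm := by
    rw [rk_cube] at hm
    funext j
    have h4 := cnt_mono j (show τ + (n : ℤ) ≤ τ + m by omega)
    rw [cnt_add] at h4
    rw [if_neg (by omega)]; rfl

theorem cube_stp (hn : 0 < n) (τ : ℤ) : Stp (cubeFlg hn τ) (cubeFlg hn (τ + 1)) := by
  intro i hi
  rw [rk_cube] at hi
  constructor
  · intro j
    show (if cnt n j (τ + 1 + i) = cnt n j (τ + 1) then Seg.pt (decide (Even (cnt n j (τ + 1)))) else Seg.whole) ≤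
      (if cnt n j (τ + (i + 1 : ℕ)) = cnt n j τ then Seg.pt (decide (Even (cnt n j τ))) else Seg.whole)
    have e : τ + ((i + 1 : ℕ) : ℤ) = τ + 1 + i := by push_cast; ring
    rw [e]
    have h1 := cnt_mono j (show τ ≤ τ + 1 by omega)
    have h2 := cnt_mono j (show τ + 1 ≤ τ + 1 + (i : ℤ) by omega)
    by_cases hc : cnt n j (τ + 1 + i) = cnt n j τ
    · have h3 : cnt n j (τ + 1) = cnt n j τ := by omega
      rw [if_pos hc, if_pos (by omega), h3]
    · rw [if_neg hc]; exact le_top
  · obtain ⟨j, h1, _⟩ := exists_mover hn τ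
    intro heq
    have h := congrFun heq j
    have h' : (if cnt n j (τ + 1 + i) = cnt n j (τ + 1) then Seg.pt (decide (Even (cnt n j (τ + 1)))) else Seg.whole) =
      (if cnt n j (τ + i) = cnt n j τ then Seg.pt (decide (Even (cnt n j τ))) else Seg.whole) := h
    have h2 := cnt_mono j (show τ + 1 ≤ τ + 1 + (i : ℤ) by omega)
    have h3 := cnt_mono j (show τ + 1 + (i : ℤ) ≤ τ + n by omega)
    rw [cnt_add] at h3
    rw [if_pos (by omega)] at h'
    by_cases hc : cnt n j (τ + i) = cnt n j τ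
    · rw [if_pos hc] at h'
      have h4 := Seg.pt.inj h'
      rw [decide_eq_decide, h1, Int.even_add_one] at h4
      tauto
    · rw [if_neg hc] at h'
      exact absurd h' (by simp)

end cube

/-- **(b)** The product of an `n`-cube, `n ≥ 1`, with a `p`-gon, `p ≥ 3`, `p ≠ 4`, has a non-acoptic
Petrie scheme. -/
theorem part_b (n p : ℕ) (hn : 1 ≤ n) (hp : 3 ≤ p) (hp4 : p ≠ 4) :
    ¬ OnlyAcoptic (Cube n × Gon p) := by
  intro hA
  have hd : 0 < rk (Cube n) + rk (Gon p) := by rw [rk_gon]; omega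
  have hX := cube_stp (n := n) hn
  have hY := gon_stp (p := p) (by omega)
  have hZ := prod_stp hd hX hY
  have hn' : (1 : ℤ) ≤ n := by exact_mod_cast hn
  have rc : rk (Cube n) = n := rk_cube n
  have rg : rk (Gon p) = 2 := rk_gon p
  -- the two times
  set k : ℤ := 1 with hk
  set l : ℤ := 1 + 2 * (rk (Cube n) + rk (Gon p) : ℕ) with hl
  set F := E1 (rk (Cube n)) (rk (Cube n) + rk (Gon p)) with hF
  have F1 : F 1 = 1 := by
    rw [hF]; unfold E1
    rw [Int.ediv_eq_zero_of_lt (by norm_num) (by push_cast; omega), Int.emod_eq_of_lt (by norm_num) (by push_cast; omega),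
      min_eq_left (by omega)]
    ring
  have Fd : F (1 + ((rk (Cube n) + rk (Gon p) - 1 : ℕ) : ℤ)) = n := by
    have e : (1 : ℤ) + ((rk (Cube n) + rk (Gon p) - 1 : ℕ) : ℤ) = 0 + (rk (Cube n) + rk (Gon p) : ℕ) := by omega
    rw [e, hF, E1_add hd]
    unfold E1
    simp [rc]
  have Fl : F l = 1 + 2 * n := by
    have e : l = 1 + (rk (Cube n) + rk (Gon p) : ℕ) + (rk (Cube n) + rk (Gon p) : ℕ) := by rw [hl]; ring
    rw [e, hF, E1_add hd, E1_add hd, ← hF, F1, rc]; ring
  have Fl' : F (l + ((rk (Cube n) + rk (Gon p) - 1 : ℕ) : ℤ)) = 3 * n := by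
    have e : l + ((rk (Cube n) + rk (Gon p) - 1 : ℕ) : ℤ) =
      (1 + ((rk (Cube n) + rk (Gon p) - 1 : ℕ) : ℤ)) + (rk (Cube n) + rk (Gon p) : ℕ) +
        (rk (Cube n) + rk (Gon p) : ℕ) := by rw [hl]; ring
    rw [e, hF, E1_add hd, E1_add hd, ← hF, Fd, rc]; ring
  have hper : cubeFlg hn (1 + 2 * n) = cubeFlg hn 1 := by
    have h1 := stpN_of_array hX 1 (2 * n)
    have h2 := (cube_per n _ _ _ h1).2 (by rw [rc])
    have e : (1 : ℤ) + ((2 * n : ℕ) : ℤ) = 1 + 2 * n := by push_cast; ring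
    rw [e] at h2
    exact h2.symm
  have hface : (prodFlg hd (cubeFlg hn) (gonFlg p) k).face (rk (Cube n) + rk (Gon p) - 1) =
      (prodFlg hd (cubeFlg hn) (gonFlg p) l).face (rk (Cube n) + rk (Gon p) - 1) := by
    show ((cubeFlg hn (F k)).face (F (k + (rk (Cube n) + rk (Gon p) - 1 : ℕ)) - F k).toNat,
      (gonFlg p (k - F k)).face ((k + (rk (Cube n) + rk (Gon p) - 1 : ℕ) -
        F (k + (rk (Cube n) + rk (Gon p) - 1 : ℕ))) - (k - F k)).toNat) =
      ((cubeFlg hn (F l)).face (F (l + (rk (Cube n) + rk (Gon p) - 1 : ℕ)) - F l).toNat,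
      (gonFlg p (l - F l)).face ((l + (rk (Cube n) + rk (Gon p) - 1 : ℕ) -
        F (l + (rk (Cube n) + rk (Gon p) - 1 : ℕ))) - (l - F l)).toNat)
    rw [Fl', Fl, hk, F1, Fd, hper]
    rw [(gonFlg p _).top _ (by omega), (gonFlg p _).top _ (by omega)]
    congr 2
    omega
  have h := hA 1 (prodFlg hd (cubeFlg hn) (gonFlg p)) (fun k => (hZ k).step) k l _ (by
    rw [rk_prod]; omega) hface
  have h0 := congrArg (fun Φ : Flg (Cube n × Gon p) => (Φ.face 0).2) h
  have h0' : (gonFlg p (k - F k)).face ((k + (0 : ℕ) - F (k + (0 : ℕ))) - (k - F k)).toNat =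
      (gonFlg p (l - F l)).face ((l + (0 : ℕ) - F (l + (0 : ℕ))) - (l - F l)).toNat := h0
  have z : ∀ x : ℤ, (x + ((0 : ℕ) : ℤ) - F (x + ((0 : ℕ) : ℤ)) - (x - F x)).toNat = 0 := by
    intro x; simp
  rw [z, z, Fl, hk, F1] at h0'
  have h1 := Gon.vert.inj (show Gon.vert (((1 - 1 : ℤ)) : ZMod p) = Gon.vert ((l - (1 + 2 * n) : ℤ) : ZMod p) from h0')
  have e : l - (1 + 2 * n) = 4 := by rw [hl, rc, rg]; push_cast; ring
  rw [e] at h1
  have h2 : ((4 : ℕ) : ZMod p) = 0 := by
    have : ((1 - 1 : ℤ) : ZMod p) = 0 := by simp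
    rw [this] at h1
    push_cast at h1 ⊢
    exact h1.symm
  rw [ZMod.natCast_eq_zero_iff] at h2
  have := Nat.le_of_dvd (by norm_num) h2
  have h5 : p = 3 := by omega
  rw [h5] at h2
  exact absurd h2 (by norm_num)

end Pool.R179.Petrie
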