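import Pool.Agent.R179.PetE

/-!
# Regular star-polytopes
-/

namespace Pool.R179.Petrie

/-! ### Regular polytopes from groups -/

section grp
variable {G : Type} [Group G] {n : ℕ}

/-- Group model of a regular `n`-polytope with distinguished generators `ρ 0, …, ρ (n-1)` of its
group: flags are group elements, the `i`-adjacent flag of `g` is `g * ρ i`, and the face of rank `i`
of the flag `g` is the left coset `g Γ_i`, where `Γ_i = ⟨ρ j : j ≠ i⟩`. -/
def Gam (ρ : Fin n → G) (i : Fin n) : Subgroup G := Subgroup.closure {x | ∃ j, j ≠ i ∧ x = ρ j}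

/-- the face of rank `i` of the flag `g` -/
def gFace (ρ : Fin n → G) (i : Fin n) (g : G) : Set G := {x | ∃ y ∈ Gam ρ i, x = g * y}

/-- `g' = g γ` with `γ = γ_{σ 0} ⋯ γ_{σ (n-1)}` -/
def gStep (ρ : Fin n → G) (σ : Equiv.Perm (Fin n)) (g g' : G) : Prop :=
  ∃ c : ℕ → G, c 0 = g ∧ c n = g' ∧ ∀ m : Fin n, c (m + 1) = c m * ρ (σ m)

/-- All Petrie schemes of the regular polytope with generators `ρ` are acoptic: in every two-sided
sequence `Ψ_k = Ψ γ^k` no face occurs in two different flags. -/
def gOnlyAcoptic (ρ : Fin n → G) : Prop :=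
  ∀ (σ : Equiv.Perm (Fin n)) (Ψ : ℤ → G), (∀ k, gStep ρ σ (Ψ k) (Ψ (k + 1))) →
    ∀ k l : ℤ, ∀ i : Fin n, gFace ρ i (Ψ k) = gFace ρ i (Ψ l) → Ψ k = Ψ l

theorem chain_prod {ρ : Fin n → G} {σ : Equiv.Perm (Fin n)} {c : ℕ → G}
    (hc : ∀ m : Fin n, c (m + 1) = c m * ρ (σ m)) :
    c n = c 0 * (List.ofFn fun m => ρ (σ m)).prod := by
  have key : ∀ m (hm : m ≤ n), c m = c 0 * (List.ofFn fun k : Fin m => ρ (σ (Fin.castLE hm k))).prod := by
    intro m
    induction m with
    | zero => intro _; simp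
    | succ m ih =>
      intro hm
      rw [List.ofFn_succ', List.concat_eq_append, List.prod_append, List.prod_singleton, ← mul_assoc]
      have h1 := ih (by omega)
      have h2 := hc ⟨m, hm⟩
      simp only [] at h2
      rw [h2, h1]
      rfl
  exact key n le_rfl

/-- reduction to powers of the Petrie element -/
theorem gOnlyAcoptic_of {ρ : Fin n → G} (h : ∀ σ : Equiv.Perm (Fin n), ∀ k : ℤ, ∀ i : Fin n,
    (List.ofFn fun m => ρ (σ m)).prod ^ k ∈ Gam ρ i → (List.ofFn fun m => ρ (σ m)).prod ^ k = 1) :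
    gOnlyAcoptic ρ := by
  intro σ Ψ hΨ k l i he
  set γ := (List.ofFn fun m => ρ (σ m)).prod with hγ
  have hstep : ∀ k, Ψ (k + 1) = Ψ k * γ := by
    intro k
    obtain ⟨c, h0, hn, hc⟩ := hΨ k
    rw [← h0, ← hn]
    exact chain_prod hc
  have hpow : ∀ k : ℤ, Ψ k = Ψ 0 * γ ^ k := by
    intro k
    induction k using Int.induction_on with
    | zero => simp
    | succ k ih => rw [hstep, ih, mul_assoc, zpow_add_one]
    | pred k ih =>
      have h1 := hstep (-(k : ℤ) - 1)
      have h2 : -(k : ℤ) - 1 + 1 = -k := by ring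
      rw [h2, ih] at h1
      have h3 : Ψ (-(k : ℤ) - 1) = Ψ 0 * γ ^ (-(k : ℤ)) * γ⁻¹ := by rw [h1]; group
      rw [h3, mul_assoc, zpow_sub_one]
  have hmem : Ψ l ∈ gFace ρ i (Ψ k) := by
    rw [he]; exact ⟨1, one_mem _, (mul_one _).symm⟩
  obtain ⟨y, hy, e⟩ := hmem
  have hy2 : y = γ ^ (l - k) := by
    have : y = (Ψ k)⁻¹ * Ψ l := by rw [e]; group
    rw [this, hpow k, hpow l]; group
  rw [hy2] at hy
  have h1 := h σ (l - k) i hy
  rw [hpow k, hpow l]
  congr 1
  have : γ ^ l = γ ^ k * γ ^ (l - k) := by rw [← zpow_add]; congr 1; ring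
  rw [this, h1, mul_one]

end grp

/-! ### The reflection groups -/

section refl
variable {n : ℕ}

/-- coordinate with arbitrary index -/
def cx (x : Fin n → ℝ) (k : ℕ) : ℝ := if h : k < n then x ⟨k, h⟩ else 0

/-- `2 cos (π / p_k)` for the Schläfli symbol `s = {p_0, p_1, …}` -/
noncomputable def mark (s : List ℚ) (k : ℕ) : ℝ :=
  match s[k]? with
  | some p => 2 * Real.cos (Real.pi / p)
  | none => 0

/-- the new `i`-th coordinate -/
noncomputable def nw (m : ℕ → ℝ) (x : Fin n → ℝ) (i : Fin n) : ℝ :=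
  -x i + (if (i : ℕ) = 0 then 0 else m (i - 1) * cx x (i - 1)) + m i * cx x (i + 1)

theorem cx_update {x : Fin n → ℝ} {i : Fin n} {a : ℝ} {k : ℕ} (h : k ≠ i) :
    cx (Function.update x i a) k = cx x k := by
  unfold cx
  by_cases hk : k < n
  · rw [dif_pos hk, dif_pos hk, Function.update_of_ne]
    intro e; exact h (congrArg Fin.val e)
  · rw [dif_neg hk, dif_neg hk]

theorem cx_add (x y : Fin n → ℝ) (k : ℕ) : cx (x + y) k = cx x k + cx y k := by
  unfold cx; split_ifs <;> simp

theorem cx_smul (a : ℝ) (x : Fin n → ℝ) (k : ℕ) : cx (a • x) k = a * cx x k := by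
  unfold cx; split_ifs <;> simp

/-- The reflection `x ↦ x - 2 B(x, e_i) e_i` for the form with `B(e_i,e_i) = 1`,
`B(e_i,e_{i+1}) = -cos (π / p_i)`, `B(e_i,e_j) = 0` for `|i-j| ≥ 2`, in the coordinates of the basis
`e_0, …, e_{n-1}`; here `m i = 2 cos (π / p_i)`. -/
noncomputable def refl (m : ℕ → ℝ) (i : Fin n) : (Fin n → ℝ) ≃ₗ[ℝ] (Fin n → ℝ) :=
  LinearEquiv.ofInvolutive
    { toFun := fun x => Function.update x i (nw m x i)
      map_add' := by
        intro x y
        funext j
        by_cases hj : j = i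
        · rw [hj, Pi.add_apply, Function.update_self, Function.update_self, Function.update_self]
          unfold nw
          rw [cx_add, cx_add, Pi.add_apply]
          split_ifs <;> ring
        · rw [Pi.add_apply, Function.update_of_ne hj, Function.update_of_ne hj,
            Function.update_of_ne hj, Pi.add_apply]
      map_smul' := by
        intro a x
        funext j
        by_cases hj : j = i
        · rw [hj, Pi.smul_apply, Function.update_self, Function.update_self]
          unfold nw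
          rw [cx_smul, cx_smul, Pi.smul_apply, RingHom.id_apply, smul_eq_mul, smul_eq_mul]
          split_ifs <;> ring
        · rw [Pi.smul_apply, Function.update_of_ne hj, Function.update_of_ne hj, Pi.smul_apply]
          rfl }
    (by
      intro x
      show Function.update (Function.update x i (nw m x i)) i (nw m (Function.update x i (nw m x i)) i) = x
      rw [Function.update_idem]
      have : nw m (Function.update x i (nw m x i)) i = x i := by
        conv_lhs => unfold nw
        rw [Function.update_self, cx_update (show (i : ℕ) + 1 ≠ i by omega)]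
        by_cases h0 : (i : ℕ) = 0
        · simp only [if_pos h0]; ring
        · simp only [if_neg h0]; rw [cx_update (show (i : ℕ) - 1 ≠ i by omega)]; ring
      rw [this, Function.update_eq_self])

theorem refl_apply (m : ℕ → ℝ) (i : Fin n) (x : Fin n → ℝ) :
    refl m i x = Function.update x i (nw m x i) := rfl

theorem Gam_fix (m : ℕ → ℝ) (i : Fin n) {g : (Fin n → ℝ) ≃ₗ[ℝ] (Fin n → ℝ)}
    (hg : g ∈ Gam (refl m) i) (x : Fin n → ℝ) : g x i = x i := by
  unfold Gam at hg
  induction hg using Subgroup.closure_induction generalizing x with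
  | mem g hg =>
    obtain ⟨j, hj, rfl⟩ := hg
    rw [refl_apply, Function.update_of_ne hj.symm]
  | one => rfl
  | mul g h _ _ ihg ihh =>
    rw [LinearEquiv.mul_apply, ihg, ihh]
  | inv g _ ih =>
    have := ih (g⁻¹ x)
    have h2 : g (g⁻¹ x) = x := g.apply_symm_apply x
    rw [h2] at this
    exact this.symm

/-- the generators of the group of the regular polytope with Schläfli symbol `s` -/
noncomputable def gens (s : List ℚ) (i : Fin (s.length + 1)) :
    (Fin (s.length + 1) → ℝ) ≃ₗ[ℝ] (Fin (s.length + 1) → ℝ) := refl (mark s) i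

end refl

/-- The Schläfli symbols of the four Kepler–Poinsot polyhedra and of the ten Schläfli–Hess
4-polytopes. -/
def stars : List (List ℚ) :=
  [[5/2, 5], [5, 5/2], [5/2, 3], [3, 5/2],
   [5/2, 5, 3], [3, 5, 5/2], [5, 5/2, 5], [5/2, 3, 5], [5, 3, 5/2], [5/2, 5, 5/2],
   [5, 5/2, 3], [3, 5/2, 5], [3, 3, 5/2], [5/2, 3, 3]]

/-! ### Computation in `ℤ[φ]` -/

/-- the entries 3, 5, 5/2 -/
inductive Mk | three | five | fiveHalf
  deriving DecidableEq

/-- the rational number -/
def Mk.toQ : Mk → ℚ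
  | three => 3
  | five => 5
  | fiveHalf => 5/2

/-- multiplication by `2 cos (π/p)` in `ℤ[φ]` -/
def Mk.mul : Mk → ℤ × ℤ → ℤ × ℤ
  | three, z => z
  | five, z => (z.2, z.1 + z.2)
  | fiveHalf, z => (z.2 - z.1, z.1)

/-- optional multiplication -/
def mulO : Option Mk → ℤ × ℤ → ℤ × ℤ
  | some a, z => a.mul z
  | none, _ => (0, 0)

/-- reflection of an integral vector -/
def stepL (M : List Mk) (i : ℕ) (v : List (ℤ × ℤ)) : List (ℤ × ℤ) :=
  let a := v.getD i (0, 0)
  let b := if i = 0 then (0, 0) else mulO M[i - 1]? (v.getD (i - 1) (0, 0))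
  let c := mulO M[i]? (v.getD (i + 1) (0, 0))
  v.set i (-a.1 + b.1 + c.1, -a.2 + b.2 + c.2)

/-- standard basis -/
def basis (n : ℕ) : List (List (ℤ × ℤ)) :=
  (List.range n).map fun j => (List.range n).map fun i => if i = j then (1, 0) else (0, 0)

/-- apply a word to all vectors -/
def appW (M : List Mk) (w : List ℕ) (S : List (List (ℤ × ℤ))) : List (List (ℤ × ℤ)) :=
  S.map fun v => w.foldr (stepL M) v

/-- every coordinate of some vector has changed -/
def moved (n : ℕ) (S : List (List (ℤ × ℤ))) : Bool :=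
  (List.range n).all fun i => (List.range n).any fun j =>
    decide ((S.getD j []).getD i (0, 0) ≠ if i = j then (1, 0) else (0, 0))

/-- the check -/
def run (n : ℕ) (M : List Mk) (w : List ℕ) : ℕ → List (List (ℤ × ℤ)) → Bool
  | 0, _ => false
  | f + 1, S =>
    let S' := appW M w S
    if S' = basis n then true else moved n S' && run n M w f S'

/-! ### Soundness of the check -/

/-- evaluation `a + b φ` -/
noncomputable def ev (z : ℤ × ℤ) : ℝ := z.1 + z.2 * Real.goldenRatio

theorem ev_inj {z w : ℤ × ℤ} (h : ev z = ev w) : z = w := by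
  unfold ev at h
  have h2 : z.2 = w.2 := by
    by_contra hne
    have hne' : ((z.2 - w.2 : ℤ) : ℝ) ≠ 0 := by
      exact_mod_cast sub_ne_zero.2 hne
    have h3 : Real.goldenRatio = (((w.1 - z.1 : ℤ) : ℚ) / ((z.2 - w.2 : ℤ) : ℚ) : ℚ) := by
      push_cast
      rw [eq_div_iff (by exact_mod_cast hne')]
      linarith
    exact Real.goldenRatio_irrational ⟨_, h3.symm⟩
  have h1 : z.1 = w.1 := by
    rw [h2] at h
    have : (z.1 : ℝ) = w.1 := by linarith
    exact_mod_cast this
  exact Prod.ext h1 h2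

theorem mark_three : 2 * Real.cos (Real.pi / ((3 : ℚ) : ℝ)) = 1 := by
  rw [show ((3 : ℚ) : ℝ) = 3 by norm_num, Real.cos_pi_div_three]; norm_num

theorem mark_five : 2 * Real.cos (Real.pi / ((5 : ℚ) : ℝ)) = Real.goldenRatio := by
  rw [show ((5 : ℚ) : ℝ) = 5 by norm_num, Real.cos_pi_div_five, Real.goldenRatio]; ring

theorem mark_fiveHalf : 2 * Real.cos (Real.pi / ((5/2 : ℚ) : ℝ)) = Real.goldenRatio - 1 := by
  have h1 : Real.pi / ((5/2 : ℚ) : ℝ) = 2 * (Real.pi / 5) := by push_cast; ring
  have h2 := mark_five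
  rw [show ((5 : ℚ) : ℝ) = 5 by norm_num] at h2
  have h3 : Real.cos (Real.pi / 5) = Real.goldenRatio / 2 := by linarith
  rw [h1, Real.cos_two_mul, h3]
  have := Real.goldenRatio_sq
  linear_combination this

theorem ev_mul (a : Mk) (z : ℤ × ℤ) : ev (a.mul z) = 2 * Real.cos (Real.pi / ((a.toQ : ℚ) : ℝ)) * ev z := by
  have := Real.goldenRatio_sq
  cases a with
  | three => rw [Mk.toQ, mark_three, one_mul]; rfl
  | five =>
    rw [Mk.toQ, mark_five]; simp only [Mk.mul, ev]; push_cast
    linear_combination (-(z.2 : ℝ)) * this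
  | fiveHalf =>
    rw [Mk.toQ, mark_fiveHalf]; simp only [Mk.mul, ev]; push_cast
    linear_combination (-(z.2 : ℝ)) * this

theorem ev_mulO (M : List Mk) (k : ℕ) (z : ℤ × ℤ) :
    ev (mulO M[k]? z) = mark (M.map Mk.toQ) k * ev z := by
  unfold mark
  rw [List.getElem?_map]
  cases M[k]? with
  | none => simp [mulO, ev]
  | some a => exact ev_mul a z

/-- the real vector of an integral vector -/
noncomputable def evl (n : ℕ) (v : List (ℤ × ℤ)) : Fin n → ℝ := fun i => ev (v.getD i (0, 0))

theorem cx_evl {n : ℕ} {v : List (ℤ × ℤ)} (hv : v.length = n) (k : ℕ) :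
    cx (evl n v) k = ev (v.getD k (0, 0)) := by
  unfold cx
  by_cases hk : k < n
  · rw [dif_pos hk]; rfl
  · rw [dif_neg hk, List.getD_eq_default _ _ (by omega)]; simp [ev]

theorem stepL_length (M : List Mk) (i : ℕ) (v : List (ℤ × ℤ)) : (stepL M i v).length = v.length := by
  unfold stepL; simp only [List.length_set]

theorem step_ev {n : ℕ} (M : List Mk) (i : Fin n) {v : List (ℤ × ℤ)} (hv : v.length = n) :
    evl n (stepL M i v) = refl (mark (M.map Mk.toQ)) i (evl n v) := by
  rw [refl_apply]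
  funext j
  by_cases hj : j = i
  · rw [hj, Function.update_self]
    unfold nw
    rw [cx_evl hv, cx_evl hv, ← ev_mulO M i]
    have h1 : evl n (stepL M i v) i = ev (-(v.getD i (0, 0)).1 + (if (i : ℕ) = 0 then (0, 0) else mulO M[(i : ℕ) - 1]? (v.getD (i - 1) (0, 0))).1 +
        (mulO M[(i : ℕ)]? (v.getD (i + 1) (0, 0))).1, -(v.getD i (0, 0)).2 + (if (i : ℕ) = 0 then (0, 0) else mulO M[(i : ℕ) - 1]? (v.getD (i - 1) (0, 0))).2 +
        (mulO M[(i : ℕ)]? (v.getD (i + 1) (0, 0))).2) := by
      unfold evl stepL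
      simp only []
      congr 1
      rw [List.getD_eq_getElem?_getD, List.getElem?_set_self (by omega)]
      rfl
    rw [h1]
    have h2 : evl n v i = ev (v.getD i (0, 0)) := rfl
    rw [h2]
    by_cases h0 : (i : ℕ) = 0
    · rw [if_pos h0, if_pos h0]
      unfold ev; push_cast; ring
    · rw [if_neg h0, if_neg h0, ← ev_mulO M (i - 1)]
      unfold ev; push_cast; ring
  · rw [Function.update_of_ne hj]
    have hj' : (i : ℕ) ≠ j := fun h => hj (Fin.ext h.symm)
    unfold evl stepL
    simp only []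
    congr 1
    rw [List.getD_eq_getElem?_getD, List.getElem?_set_ne hj', List.getD_eq_getElem?_getD]

theorem word_ev {n : ℕ} (M : List Mk) (L : List (Fin n)) {v : List (ℤ × ℤ)} (hv : v.length = n) :
    ((L.map Fin.val).foldr (stepL M) v).length = n ∧
      evl n ((L.map Fin.val).foldr (stepL M) v) =
        (L.map (refl (mark (M.map Mk.toQ)))).prod (evl n v) := by
  induction L with
  | nil => exact ⟨hv, rfl⟩
  | cons i L ih =>
    rw [List.map_cons, List.foldr_cons, List.map_cons, List.prod_cons]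
    refine ⟨by rw [stepL_length]; exact ih.1, ?_⟩
    rw [step_ev M i ih.1, ih.2]
    rfl

theorem basis_getD {n j : ℕ} (hj : j < n) : (basis n).getD j [] =
    (List.range n).map fun i => if i = j then ((1 : ℤ), (0 : ℤ)) else (0, 0) := by
  unfold basis
  rw [List.getD_eq_getElem?_getD, List.getElem?_map, List.getElem?_range hj]
  rfl

theorem evl_basis {n : ℕ} (j : Fin n) : evl n ((basis n).getD j []) = Pi.single j 1 := by
  rw [basis_getD j.2]
  funext i
  unfold evl
  rw [List.getD_eq_getElem?_getD, List.getElem?_map, List.getElem?_range i.2]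
  show ev (if (i : ℕ) = j then (1, 0) else (0, 0)) = _
  by_cases h : i = j
  · rw [if_pos (congrArg Fin.val h), h, Pi.single_eq_same]; simp [ev]
  · rw [if_neg (fun e => h (Fin.ext e)), Pi.single_eq_of_ne h]; simp [ev]

section run
variable {n : ℕ} (M : List Mk) (L : List (Fin n))

/-- invariant -/
def Inv (k : ℕ) (S : List (List (ℤ × ℤ))) : Prop :=
  S.length = n ∧ ∀ j : Fin n, (S.getD j []).length = n ∧ evl n (S.getD j []) =
    ((L.map (refl (mark (M.map Mk.toQ)))).prod ^ k) (Pi.single j 1)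

theorem Inv_zero : Inv M L 0 (basis n) := by
  refine ⟨by simp [basis], fun j => ⟨?_, ?_⟩⟩
  · rw [basis_getD j.2]; simp
  · rw [evl_basis, pow_zero]; rfl

theorem Inv_succ {k : ℕ} {S : List (List (ℤ × ℤ))} (h : Inv M L k S) :
    Inv M L (k + 1) (appW M (L.map Fin.val) S) := by
  obtain ⟨h1, h2⟩ := h
  refine ⟨by simp [appW, h1], fun j => ?_⟩
  have e : (appW M (L.map Fin.val) S).getD j [] = (L.map Fin.val).foldr (stepL M) (S.getD j []) := by
    unfold appW
    have hj : (j : ℕ) < S.length := by rw [h1]; exact j.2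
    rw [List.getD_eq_getElem?_getD, List.getD_eq_getElem?_getD, List.getElem?_map,
      List.getElem?_eq_getElem hj]
    rfl
  rw [e]
  have h3 := word_ev M L (h2 j).1
  refine ⟨h3.1, ?_⟩
  rw [h3.2, (h2 j).2, pow_succ']
  rfl

theorem run_sound {f k : ℕ} {S : List (List (ℤ × ℤ))} (hS : Inv M L k S)
    (hr : run n M (L.map Fin.val) f S = true) :
    ∃ h, 0 < h ∧ (∀ j : Fin n, ((L.map (refl (mark (M.map Mk.toQ)))).prod ^ (k + h)) (Pi.single j 1) = Pi.single j 1) ∧
      ∀ t, 0 < t → t < h → ∀ i : Fin n, ∃ j : Fin n,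
        ((L.map (refl (mark (M.map Mk.toQ)))).prod ^ (k + t)) (Pi.single j 1) i ≠ (Pi.single j 1 : Fin n → ℝ) i := by
  induction f generalizing k S with
  | zero => exact absurd hr (by simp [run])
  | succ f ih =>
    have hS' := Inv_succ M L hS
    rw [run] at hr
    by_cases hb : appW M (L.map Fin.val) S = basis n
    · refine ⟨1, Nat.one_pos, fun j => ?_, fun t h1 h2 => by omega⟩
      rw [hb] at hS'
      rw [← (hS'.2 j).2, evl_basis]
    · rw [if_neg hb, Bool.and_eq_true] at hr
      obtain ⟨h, hpos, hfix, hmv⟩ := ih hS' hr.2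
      refine ⟨h + 1, by omega, fun j => ?_, fun t h1 h2 i => ?_⟩
      · have := hfix j
        have e : k + 1 + h = k + (h + 1) := by ring
        rwa [e] at this
      · by_cases ht : t = 1
        · have hm := hr.1
          unfold moved at hm
          rw [List.all_eq_true] at hm
          have hm1 := hm i (List.mem_range.2 i.2)
          rw [List.any_eq_true] at hm1
          obtain ⟨j, hj, hm2⟩ := hm1
          rw [List.mem_range] at hj
          rw [decide_eq_true_eq] at hm2
          refine ⟨⟨j, hj⟩, ?_⟩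
          rw [ht, ← (hS'.2 ⟨j, hj⟩).2, ← evl_basis ⟨j, hj⟩]
          intro heq
          apply hm2
          have h3 := ev_inj heq
          rw [h3, basis_getD hj, List.getD_eq_getElem?_getD, List.getElem?_map, List.getElem?_range i.2]
          rfl
        · obtain ⟨j, hj⟩ := hmv (t - 1) (by omega) (by omega) i
          have e : k + 1 + (t - 1) = k + t := by omega
          rw [e] at hj
          exact ⟨j, hj⟩

theorem run_main (hr : run n M (L.map Fin.val) 61 (basis n) = true) (k : ℤ) (i : Fin n)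
    (hk : (L.map (refl (mark (M.map Mk.toQ)))).prod ^ k ∈ Gam (refl (mark (M.map Mk.toQ))) i) :
    (L.map (refl (mark (M.map Mk.toQ)))).prod ^ k = 1 := by
  obtain ⟨h, hpos, hfix, hmv⟩ := run_sound M L (Inv_zero M L) hr
  set γ := (L.map (refl (mark (M.map Mk.toQ)))).prod with hγ
  have hγh : γ ^ h = 1 := by
    apply LinearEquiv.toLinearMap_injective
    apply LinearMap.pi_ext'
    intro j
    apply LinearMap.ext_ring
    have := hfix j
    rw [Nat.zero_add] at this
    exact this
  have hmod : γ ^ k = γ ^ (k % h).toNat := by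
    have hpos' : (0 : ℤ) < h := by exact_mod_cast hpos
    have e1 : ((k % h).toNat : ℤ) = k % h := Int.toNat_of_nonneg (Int.emod_nonneg k hpos'.ne')
    rw [← zpow_natCast γ (k % h).toNat, e1]
    conv_lhs => rw [← Int.mul_ediv_add_emod k h]
    rw [zpow_add, zpow_mul, zpow_natCast, hγh, one_zpow, one_mul]
  rw [hmod] at hk ⊢
  have hlt : (k % h).toNat < h := by
    have hpos' : (0 : ℤ) < h := by exact_mod_cast hpos
    have := Int.emod_lt_of_pos k hpos'
    have := Int.emod_nonneg k hpos'.ne'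
    omega
  rcases Nat.eq_zero_or_pos (k % h).toNat with h0 | h0
  · rw [h0, pow_zero]
  · exfalso
    obtain ⟨j, hj⟩ := hmv _ h0 hlt i
    rw [Nat.zero_add] at hj
    exact hj (Gam_fix _ i hk _)

end run

theorem star_of {n : ℕ} (M : List Mk)
    (h : ∀ σ : Equiv.Perm (Fin n), run n M ((List.ofFn σ).map Fin.val) 61 (basis n) = true) :
    gOnlyAcoptic (refl (n := n) (mark (M.map Mk.toQ))) := by
  apply gOnlyAcoptic_of
  intro σ k i hk
  have e : (List.ofFn fun m => refl (n := n) (mark (M.map Mk.toQ)) (σ m)) =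
      (List.ofFn σ).map (refl (mark (M.map Mk.toQ))) := by
    rw [List.map_ofFn]; rfl
  rw [e] at hk ⊢
  exact run_main M (List.ofFn σ) (h σ) k i hk

theorem check3 (M : List Mk) (h : ∀ a b c : Fin 3, a ≠ b → a ≠ c → b ≠ c →
    run 3 M [(a : ℕ), b, c] 61 (basis 3) = true) (σ : Equiv.Perm (Fin 3)) :
    run 3 M ((List.ofFn σ).map Fin.val) 61 (basis 3) = true := by
  have e : (List.ofFn σ).map Fin.val = [((σ 0 : Fin 3) : ℕ), (σ 1 : Fin 3), (σ 2 : Fin 3)] := rfl
  rw [e]
  apply h <;> exact fun e => absurd (σ.injective e) (by decide)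

theorem check4 (M : List Mk) (h : ∀ a b c d : Fin 4, (a ≠ b ∧ a ≠ c ∧ a ≠ d ∧ b ≠ c ∧ b ≠ d ∧ c ≠ d) →
    run 4 M [(a : ℕ), b, c, d] 61 (basis 4) = true) (σ : Equiv.Perm (Fin 4)) :
    run 4 M ((List.ofFn σ).map Fin.val) 61 (basis 4) = true := by
  have e : (List.ofFn σ).map Fin.val = [((σ 0 : Fin 4) : ℕ), (σ 1 : Fin 4), (σ 2 : Fin 4), (σ 3 : Fin 4)] := rfl
  rw [e]
  apply h
  refine ⟨?_, ?_, ?_, ?_, ?_, ?_⟩ <;> exact fun e => absurd (σ.injective e) (by decide)

end Pool.R179.Petrie
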