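import Pool.Agent.R179.PetF

/-!
# Regular star-polytopes of rank 4: reduction to four orders
-/

namespace Pool.R179.Petrie

section grp
variable {G : Type} [Group G]

/-- the property to be proved for the order `w` -/
def QQ {n : ℕ} (ρ : Fin n → G) (w : List (Fin n)) : Prop :=
  ∀ k : ℤ, ∀ i : Fin n, (w.map ρ).prod ^ k ∈ Gam ρ i → (w.map ρ).prod ^ k = 1

theorem QQ.congr {n : ℕ} {ρ : Fin n → G} {w w' : List (Fin n)} (h : QQ ρ w)
    (e : (w.map ρ).prod = (w'.map ρ).prod) : QQ ρ w' := by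
  unfold QQ; rw [← e]; exact h

theorem QQ.rev {n : ℕ} {ρ : Fin n → G} {w : List (Fin n)} (h : QQ ρ w) (hinv : ∀ i, (ρ i)⁻¹ = ρ i) :
    QQ ρ w.reverse := by
  have e : (w.reverse.map ρ).prod = ((w.map ρ).prod)⁻¹ := by
    rw [List.prod_inv_reverse, List.map_map, List.map_reverse]
    congr 2
    apply List.map_congr_left
    intro i _
    exact (hinv i).symm
  unfold QQ
  rw [e]
  intro k i hk
  rw [inv_zpow] at hk ⊢
  rw [h k i (inv_mem_iff.1 hk), inv_one]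

variable {ρ : Fin 4 → G}

theorem QQ.sw0 {a b c d : Fin 4} (h : QQ ρ [a, b, c, d]) (hc : ρ a * ρ b = ρ b * ρ a) :
    QQ ρ [b, a, c, d] := h.congr (by simp [← mul_assoc, hc])

theorem QQ.sw1 {a b c d : Fin 4} (h : QQ ρ [a, b, c, d]) (hc : ρ b * ρ c = ρ c * ρ b) :
    QQ ρ [a, c, b, d] := h.congr (by
  simp only [List.map_cons, List.prod_cons, List.map_nil, List.prod_nil, mul_one]
  rw [← mul_assoc (ρ b), hc, mul_assoc])

theorem QQ.sw2 {a b c d : Fin 4} (h : QQ ρ [a, b, c, d]) (hc : ρ c * ρ d = ρ d * ρ c) :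
    QQ ρ [a, b, d, c] := h.congr (by
  simp only [List.map_cons, List.prod_cons, List.map_nil, List.prod_nil, mul_one, hc])

/-- the 24 orders -/
def all24 : List (List (Fin 4)) :=
  [[0, 1, 2, 3],
   [0, 1, 3, 2],
   [0, 2, 1, 3],
   [0, 2, 3, 1],
   [0, 3, 1, 2],
   [0, 3, 2, 1],
   [1, 0, 2, 3],
   [1, 0, 3, 2],
   [1, 2, 0, 3],
   [1, 2, 3, 0],
   [1, 3, 0, 2],
   [1, 3, 2, 0],
   [2, 0, 1, 3],
   [2, 0, 3, 1],
   [2, 1, 0, 3],
   [2, 1, 3, 0],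
   [2, 3, 0, 1],
   [2, 3, 1, 0],
   [3, 0, 1, 2],
   [3, 0, 2, 1],
   [3, 1, 0, 2],
   [3, 1, 2, 0],
   [3, 2, 0, 1],
   [3, 2, 1, 0]]

theorem mem_all24 : ∀ a b c d : Fin 4, (a ≠ b ∧ a ≠ c ∧ a ≠ d ∧ b ≠ c ∧ b ≠ d ∧ c ≠ d) →
    [a, b, c, d] ∈ all24 := by decide +kernel

theorem QQ_all (hinv : ∀ i, (ρ i)⁻¹ = ρ i)
    (hc : ∀ i j : Fin 4, (i : ℕ) + 2 ≤ j → ρ i * ρ j = ρ j * ρ i)
    (h0123 : QQ ρ [0, 1, 2, 3]) (h0132 : QQ ρ [0, 1, 3, 2]) (h0213 : QQ ρ [0, 2, 1, 3])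
    (h0321 : QQ ρ [0, 3, 2, 1]) : ∀ w ∈ all24, QQ ρ w := by
  have h3210 : QQ ρ [3, 2, 1, 0] := h0123.rev hinv
  have h0312 : QQ ρ [0, 3, 1, 2] := h0132.sw1 (hc 1 3 (by decide))
  have h2310 : QQ ρ [2, 3, 1, 0] := h0132.rev hinv
  have h2013 : QQ ρ [2, 0, 1, 3] := h0213.sw0 (hc 0 2 (by decide))
  have h0231 : QQ ρ [0, 2, 3, 1] := h0213.sw2 (hc 1 3 (by decide))
  have h3120 : QQ ρ [3, 1, 2, 0] := h0213.rev hinv
  have h3021 : QQ ρ [3, 0, 2, 1] := h0321.sw0 (hc 0 3 (by decide))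
  have h1230 : QQ ρ [1, 2, 3, 0] := h0321.rev hinv
  have h3012 : QQ ρ [3, 0, 1, 2] := h0312.sw0 (hc 0 3 (by decide))
  have h2130 : QQ ρ [2, 1, 3, 0] := h0312.rev hinv
  have h2031 : QQ ρ [2, 0, 3, 1] := h2013.sw2 (hc 1 3 (by decide))
  have h3102 : QQ ρ [3, 1, 0, 2] := h2013.rev hinv
  have h1320 : QQ ρ [1, 3, 2, 0] := h0231.rev hinv
  have h3201 : QQ ρ [3, 2, 0, 1] := h3021.sw1 (hc 0 2 (by decide))
  have h1203 : QQ ρ [1, 2, 0, 3] := h3021.rev hinv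
  have h2103 : QQ ρ [2, 1, 0, 3] := h3012.rev hinv
  have h2301 : QQ ρ [2, 3, 0, 1] := h2031.sw1 (hc 0 3 (by decide))
  have h1302 : QQ ρ [1, 3, 0, 2] := h2031.rev hinv
  have h1023 : QQ ρ [1, 0, 2, 3] := h3201.rev hinv
  have h1032 : QQ ρ [1, 0, 3, 2] := h2301.rev hinv
  intro w hw
  simp only [all24, List.mem_cons, List.not_mem_nil, or_false] at hw
  rcases hw with rfl | rfl | rfl | rfl | rfl | rfl | rfl | rfl | rfl | rfl | rfl | rfl | rfl | rfl | rfl | rfl | rfl | rfl | rfl | rfl | rfl | rfl | rfl | rfl <;> assumption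

theorem gOnlyAcoptic4 (hinv : ∀ i, (ρ i)⁻¹ = ρ i)
    (hc : ∀ i j : Fin 4, (i : ℕ) + 2 ≤ j → ρ i * ρ j = ρ j * ρ i)
    (h0123 : QQ ρ [0, 1, 2, 3]) (h0132 : QQ ρ [0, 1, 3, 2]) (h0213 : QQ ρ [0, 2, 1, 3])
    (h0321 : QQ ρ [0, 3, 2, 1]) : gOnlyAcoptic ρ := by
  apply gOnlyAcoptic_of
  intro σ k i hk
  have e : (List.ofFn fun m => ρ (σ m)) = [σ 0, σ 1, σ 2, σ 3].map ρ := rfl
  have hw : [σ 0, σ 1, σ 2, σ 3] ∈ all24 := by
    apply mem_all24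
    refine ⟨?_, ?_, ?_, ?_, ?_, ?_⟩ <;> exact fun e => absurd (σ.injective e) (by decide)
  rw [e] at hk ⊢
  exact QQ_all hinv hc h0123 h0132 h0213 h0321 _ hw k i hk

end grp

theorem refl_inv {n : ℕ} (m : ℕ → ℝ) (i : Fin n) : (refl m i)⁻¹ = refl m i := rfl

theorem refl_comm {n : ℕ} (m : ℕ → ℝ) (i j : Fin n) (h : (i : ℕ) + 2 ≤ j) :
    refl m i * refl m j = refl m j * refl m i := by
  apply LinearEquiv.ext
  intro x
  rw [LinearEquiv.mul_apply, LinearEquiv.mul_apply, refl_apply, refl_apply, refl_apply, refl_apply]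
  have hij : i ≠ j := fun e => by rw [e] at h; omega
  have e1 : nw m (Function.update x j (nw m x j)) i = nw m x i := by
    unfold nw
    rw [Function.update_of_ne hij, cx_update (show (i : ℕ) + 1 ≠ j by omega),
      cx_update (show (i : ℕ) - 1 ≠ j by omega)]
  have e2 : nw m (Function.update x i (nw m x i)) j = nw m x j := by
    unfold nw
    rw [Function.update_of_ne hij.symm, cx_update (show (j : ℕ) + 1 ≠ i by omega),
      cx_update (show (j : ℕ) - 1 ≠ i by omega)]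
  rw [e1, e2, Function.update_comm hij]

/-- the four runs -/
def runs (M : List Mk) : Bool :=
  run 4 M [0, 1, 2, 3] 61 (basis 4) && (run 4 M [0, 1, 3, 2] 61 (basis 4) &&
    (run 4 M [0, 2, 1, 3] 61 (basis 4) && run 4 M [0, 3, 2, 1] 61 (basis 4)))

theorem star4 (M : List Mk) (h : runs M = true) : gOnlyAcoptic (refl (n := 4) (mark (M.map Mk.toQ))) := by
  unfold runs at h
  rw [Bool.and_eq_true, Bool.and_eq_true, Bool.and_eq_true] at h
  obtain ⟨h1, h2, h3, h4⟩ := h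
  apply gOnlyAcoptic4 (refl_inv _) (refl_comm _)
  · exact fun k i hk => run_main M [0, 1, 2, 3] h1 k i hk
  · exact fun k i hk => run_main M [0, 1, 3, 2] h2 k i hk
  · exact fun k i hk => run_main M [0, 2, 1, 3] h3 k i hk
  · exact fun k i hk => run_main M [0, 3, 2, 1] h4 k i hk

end Pool.R179.Petrie
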