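import Pool.Agent.R179.PetG

/-!
# Regular star-polytopes: verification, part 2
-/

namespace Pool.R179.Petrie

theorem star4_5 : gOnlyAcoptic (gens [5/2, 5, 5/2]) := star4 [.fiveHalf, .five, .fiveHalf] (by decide +kernel)

theorem star4_6 : gOnlyAcoptic (gens [5, 5/2, 3]) := star4 [.five, .fiveHalf, .three] (by decide +kernel)

theorem star4_7 : gOnlyAcoptic (gens [3, 5/2, 5]) := star4 [.three, .fiveHalf, .five] (by decide +kernel)

theorem star4_8 : gOnlyAcoptic (gens [3, 3, 5/2]) := star4 [.three, .three, .fiveHalf] (by decide +kernel)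

theorem star4_9 : gOnlyAcoptic (gens [5/2, 3, 3]) := star4 [.fiveHalf, .three, .three] (by decide +kernel)

end Pool.R179.Petrie
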