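import Pool.Agent.R179.PetH1
import Pool.Agent.R179.PetH2

/-!
# Regular star-polytopes have only acoptic Petrie schemes
-/

namespace Pool.R179.Petrie

/-- **(d)** The regular star-polytopes have only acoptic Petrie schemes. -/
theorem part_d : ∀ s ∈ stars, gOnlyAcoptic (gens s) := by
  intro s hs
  simp only [stars, List.mem_cons, List.not_mem_nil, or_false] at hs
  rcases hs with rfl | rfl | rfl | rfl | rfl | rfl | rfl | rfl | rfl | rfl | rfl | rfl | rfl | rfl
  · exact star_of (n := 3) [.fiveHalf, .five] (check3 _ (by decide +kernel))
  · exact star_of (n := 3) [.five, .fiveHalf] (check3 _ (by decide +kernel))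
  · exact star_of (n := 3) [.fiveHalf, .three] (check3 _ (by decide +kernel))
  · exact star_of (n := 3) [.three, .fiveHalf] (check3 _ (by decide +kernel))
  · exact star4_0
  · exact star4_1
  · exact star4_2
  · exact star4_3
  · exact star4_4
  · exact star4_5
  · exact star4_6
  · exact star4_7
  · exact star4_8
  · exact star4_9

end Pool.R179.Petrie
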